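import Pool.Agent.P.MP_7a6434d8_pr.QL.Disc
import Pool.Agent.P.MP_7a6434d8_pr.XGraphB

/-! Graph distances in a disc. -/

namespace Pool.Agent.QL.M2

open Pool.Agent.P.MP_7a6434d8_pr Pool.Agent.P.MP_7a6434d8_pr.Mp

variable {t : Mp}

theorem dW_within (ht : ok t) (x y : V t) : Within t (dW t x y) x y :=
  Nat.sInf_mem (s := {k | Within t k x y}) (within_exists t ht x y)

theorem dW_le {k : ℕ} {x y : V t} (h : Within t k x y) : dW t x y ≤ k := Nat.sInf_le h

theorem dW_le_iff (ht : ok t) {k : ℕ} {x y : V t} : dW t x y ≤ k ↔ Within t k x y :=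
  ⟨fun h => (dW_within ht x y).mono h, dW_le⟩

theorem dW_self (x : V t) : dW t x x = 0 := Nat.le_zero.1 (dW_le (Within.refl t 0 x))

theorem dW_eq_zero (ht : ok t) {x y : V t} (h : dW t x y = 0) : x = y :=
  (dW_le_iff ht (k := 0)).1 h.le

theorem dW_comm (ht : ok t) (x y : V t) : dW t x y = dW t y x :=
  le_antisymm (dW_le (dW_within ht y x).symm) (dW_le (dW_within ht x y).symm)

theorem dW_tri (ht : ok t) (x y z : V t) : dW t x z ≤ dW t x y + dW t y z :=
  dW_le ((dW_within ht x y).trans (dW_within ht y z))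

theorem dW_adj {x y : V t} (h : adj t x y) : dW t x y ≤ 1 := dW_le (xgraphb_one h)

theorem dW_step (ht : ok t) (x : V t) {y z : V t} (h : adj t y z) : dW t x z ≤ dW t x y + 1 :=
  (dW_tri ht x y z).trans (Nat.add_le_add_left (dW_adj h) _)

theorem dW_dart (ht : ok t) (x : V t) (d : Dt t) :
    dW t x (org t (al t d)) ≤ dW t x (org t d) + 1 :=
  dW_step ht x ((adj_iff_dart t _ _).2 ⟨d, rfl, rfl⟩)

theorem dW_map {s : Mp} (hs : ok s) (e : V s → V t) (he : ∀ x y, adj s x y → adj t (e x) (e y))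
    (x y : V s) : dW t (e x) (e y) ≤ dW s x y :=
  dW_le (Within.map e he (dW_within hs x y))

theorem dB_le (x : V t) {p : ℕ} (hp : p ≤ 2 * per t) : dB t x ≤ dW t x (bv t p) :=
  Nat.sInf_le ⟨p, hp, rfl⟩

theorem dB_ex (x : V t) : ∃ p, p ≤ 2 * per t ∧ dW t x (bv t p) = dB t x :=
  Nat.sInf_mem (s := {k | ∃ p, p ≤ 2 * per t ∧ dW t x (bv t p) = k})
    ⟨_, 0, Nat.zero_le _, rfl⟩

theorem dB_tri (ht : ok t) (x y : V t) : dB t x ≤ dW t x y + dB t y := by
  obtain ⟨p, hp, h⟩ := dB_ex y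
  rw [← h]
  exact (dB_le x hp).trans (dW_tri ht x y _)

/-- a vertex closer to `x` than the boundary is not on the boundary -/
theorem ne_bv_of_lt {x y : V t} (h : dW t x y < dB t x) {p : ℕ} (hp : p ≤ 2 * per t) :
    y ≠ bv t p := by
  rintro rfl
  exact absurd (dB_le x hp) (not_le.2 h)

end Pool.Agent.QL.M2
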