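import Pool.Agent.P.MP_7a6434d8_pr.QL.M2.BEn
import Pool.Agent.P.MP_7a6434d8_pr.QL.W.AGreen

/-! Distances and energies of ball data in a hole and in the ambient map. -/

open Set
open scoped ENNReal

namespace Pool.Agent.QL

open Pool.Agent.P.MP_7a6434d8_pr Pool.Agent.P.MP_7a6434d8_pr.Mp

theorem m2b_adj_dart {n : ℕ} (q : Quad n) {u v : q.Vertex} (h : q.graph.Adj u v) :
    ∃ e, q.tail e = u ∧ q.head e = v := by
  rcases ((SimpleGraph.fromRel_adj _ _ _).1 h).2 with ⟨e, h1, h2⟩ | ⟨e, h1, h2⟩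
  · exact ⟨e, h1, h2⟩
  · exact ⟨q.α e, h2, (head_α q e).trans h1⟩

namespace SubQ

variable {n : ℕ} {q : Quad n} {A : Set q.Vertex} {t : Mp} {θ : Dt t → Fin (4 * n)}
  {ι : V t → q.Vertex} (H : SubQ q A t θ ι)

include H

theorem head (d : Dt t) : q.head (θ d) = ι (org t (al t d)) := by
  rw [← H.tail, H.θ_al]; rfl

theorem mem (x : V t) : ι x ∈ A := H.ι_range ▸ mem_range_self x

theorem ex {z : q.Vertex} (hz : z ∈ A) : ∃ y, ι y = z := by
  rw [← H.ι_range] at hz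
  exact hz

theorem adj_iff (x y : V t) : adj t x y ↔ q.graph.Adj (ι x) (ι y) := by
  constructor
  · intro h
    have hne : ι x ≠ ι y := fun he => adj_irrefl t H.ok x (by rwa [← H.ι_inj he] at h)
    obtain ⟨d, rfl, rfl⟩ := (adj_iff_dart t x y).1 h
    rw [← H.tail, ← H.head] at hne ⊢
    exact agreen_adj q hne
  · intro h
    obtain ⟨e, h1, h2⟩ := m2b_adj_dart q h
    obtain ⟨d, rfl⟩ := (H.θ_range e).2 ⟨h1 ▸ H.mem x, h2 ▸ H.mem y⟩
    exact (adj_iff_dart t x y).2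
      ⟨d, H.ι_inj ((H.tail d).symm.trans h1), H.ι_inj ((H.head d).symm.trans h2)⟩

theorem dist_le_of_within {k : ℕ} {x y : V t} (h : Within t k x y) :
    q.graph.dist (ι x) (ι y) ≤ k := by
  induction k generalizing y with
  | zero => rw [show x = y from h, SimpleGraph.dist_self]
  | succ k ih =>
    rcases h with h | ⟨z, h, h'⟩
    · exact (ih h).trans (Nat.le_succ k)
    · exact (graph_connected q).dist_triangle.trans (add_le_add (ih h)
        (SimpleGraph.dist_eq_one_iff_adj.2 ((H.adj_iff _ _).1 h')).le)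

theorem dist_le (x y : V t) : q.graph.dist (ι x) (ι y) ≤ dW t x y :=
  H.dist_le_of_within (m2_within_dW t H.ok x y)

theorem lift_walk (x : V t) {u z : q.Vertex} (w : q.graph.Walk u z) :
    ∀ (k : ℕ) (y : V t), ι y = u → Within t k x y → k + w.length ≤ dB t x →
      ∃ y', ι y' = z ∧ Within t (k + w.length) x y' := by
  induction w with
  | nil => exact fun k y h1 h2 _ => ⟨y, h1, h2⟩
  | @cons u v z h w ih =>
    intro k y h1 h2 h3
    rw [SimpleGraph.Walk.length_cons] at h3 ⊢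
    have hv : v ∈ A := by
      by_contra hv
      obtain ⟨e, e1, e2⟩ := m2b_adj_dart q h
      obtain ⟨p, hp, he⟩ := H.out_bd e (by rw [e1, ← h1]; exact H.mem y) (by rwa [e2])
      have : y = bv t p := H.ι_inj (h1.trans (e1.symm.trans he))
      have h4 := (m2_dB_le t x p hp.le).trans (m2_dW_le (this ▸ h2))
      omega
    obtain ⟨y1, rfl⟩ := H.ex hv
    have h5 : Within t (k + 1) x y1 := Or.inr ⟨y, h2, (H.adj_iff _ _).2 (h1 ▸ h)⟩
    obtain ⟨y', g1, g2⟩ := ih (k + 1) y1 rfl h5 (by omega)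
    exact ⟨y', g1, g2.mono (by omega)⟩

theorem lift_dist (x : V t) (z : q.Vertex) (h : q.graph.dist (ι x) z ≤ dB t x) :
    ∃ y, ι y = z ∧ dW t x y = q.graph.dist (ι x) z := by
  obtain ⟨w, hw⟩ := (graph_connected q).exists_walk_length_eq_dist (ι x) z
  obtain ⟨y, h1, h2⟩ := H.lift_walk x w 0 x rfl rfl (by omega)
  refine ⟨y, h1, le_antisymm ?_ (h1 ▸ H.dist_le x y)⟩
  have := m2_dW_le h2
  omega

theorem bset_eq (s : ℕ → V t) (S : ℕ → q.Vertex) (idx : ℕ → ℕ) (l : List (ℕ × ℕ))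
    (hl : ∀ c ∈ l, S (idx c.1) = ι (s c.1) ∧ c.2 + 3 < dB t (s c.1)) :
    (gmQ q).bset S (l.map fun c => (idx c.1, c.2)) = θ '' (gmT t).bset s l := by
  ext e
  constructor
  · rintro ⟨c, hc, h⟩
    obtain ⟨c, hc', rfl⟩ := List.mem_map.1 hc
    have h1 : q.graph.dist (S (idx c.1)) (q.tail e) ≤ c.2 := h
    obtain ⟨k1, k2⟩ := hl c hc'
    rw [k1] at h1
    obtain ⟨y, hy, hy'⟩ := H.lift_dist (s c.1) (q.tail e) (by omega)
    have h2 : q.graph.dist (ι (s c.1)) (q.head e) ≤ c.2 + 1 :=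
      (graph_connected q).dist_triangle.trans (add_le_add h1 (dist_tail_head q e))
    obtain ⟨y', hy2, -⟩ := H.lift_dist (s c.1) (q.head e) (by omega)
    obtain ⟨d, rfl⟩ := (H.θ_range e).2 ⟨hy ▸ H.mem y, hy2 ▸ H.mem y'⟩
    refine ⟨d, ⟨c, hc', ?_⟩, rfl⟩
    show dW t (s c.1) (org t d) ≤ c.2
    rw [← H.ι_inj (hy.trans (H.tail d)), hy']
    exact h1
  · rintro ⟨d, ⟨c, hc, h⟩, rfl⟩
    refine ⟨_, List.mem_map.2 ⟨c, hc, rfl⟩, ?_⟩
    show q.graph.dist (S (idx c.1)) (q.tail (θ d)) ≤ c.2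
    rw [(hl c hc).1, H.tail]
    exact (H.dist_le _ _).trans h

theorem inner_ph (d : Dt t) : (∀ p, bd t p ≠ some (ph t d)) ↔ ∀ p, bd t p ≠ some d := by
  have := (m2c_ph_bd t H.ok d).not
  simpa only [not_exists] using this

theorem res_pr (f' : Fin (4 * n) → ℝ) (hf : ∀ e, f' (q.φ (q.α e)) = f' e) :
    ∃ f : Dt t → ℝ, (∀ d, f (ph t (al t d)) = f d) ∧
      ∀ d ∈ {d | ∀ p, bd t p ≠ some d}, f d = f' (θ d) := by
  obtain ⟨g, hg⟩ := m2_factorQ q f' hf
  refine ⟨fun d => f' (θ d), fun d => ?_, fun _ _ => rfl⟩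
  show f' (θ (ph t (al t d))) = f' (θ d)
  rw [hg, hg, H.tail, H.tail, org_ph t H.ok, al_al]

theorem res_du (f' : Fin (4 * n) → ℝ) (hf : ∀ e, f' (q.φ e) = f' e) :
    ∃ f : Dt t → ℝ, (∀ d, f (ph t d) = f d) ∧
      ∀ d ∈ {d | ∀ p, bd t p ≠ some d}, f d = f' (θ d) := by
  classical
  refine ⟨fun d => if ∀ p, bd t p ≠ some d then f' (θ d) else 0, fun d => ?_,
    fun d hd => if_pos hd⟩
  show (if ∀ p, bd t p ≠ some (ph t d) then f' (θ (ph t d)) else 0) =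
    if ∀ p, bd t p ≠ some d then f' (θ d) else 0
  by_cases hd : ∀ p, bd t p ≠ some d
  · rw [if_pos hd, if_pos ((H.inner_ph d).2 hd), H.θ_ph d hd]
    exact hf _
  · rw [if_neg hd, if_neg (mt (H.inner_ph d).1 hd)]

theorem ext_pr (f : Dt t → ℝ) (hf : ∀ d, f (ph t (al t d)) = f d) :
    ∃ f' : Fin (4 * n) → ℝ, (∀ e, f' (q.φ (q.α e)) = f' e) ∧
      ∀ d ∈ {d | ∀ p, bd t p ≠ some d}, f d = f' (θ d) := by
  obtain ⟨g, hg⟩ := m2_factor t H.ok f hf
  refine ⟨fun e => Function.extend ι g 0 (q.tail e), fun e => ?_, fun d _ => ?_⟩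
  · show Function.extend ι g 0 (q.tail (q.φ (q.α e))) = Function.extend ι g 0 (q.tail e)
    rw [m2_tail_sig]
  · show f d = Function.extend ι g 0 (q.tail (θ d))
    rw [H.tail, H.ι_inj.extend_apply, hg]

theorem ext_du (f : Dt t → ℝ) (hf : ∀ d, f (ph t d) = f d) :
    ∃ f' : Fin (4 * n) → ℝ, (∀ e, f' (q.φ e) = f' e) ∧
      ∀ d ∈ {d | ∀ p, bd t p ≠ some d}, f d = f' (θ d) := by
  classical
  obtain ⟨g, hg⟩ : ∃ g : Dt t → ℝ, ∀ d, g d = if ∀ p, bd t p ≠ some d then f d else 0 :=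
    ⟨_, fun _ => rfl⟩
  refine ⟨Function.extend θ g 0, fun e => ?_, fun d hd => ?_⟩
  · have z : ∀ e, (¬ ∃ d, (∀ p, bd t p ≠ some d) ∧ θ d = e) →
        Function.extend θ g 0 e = 0 := by
      intro e he
      by_cases h : ∃ d, θ d = e
      · obtain ⟨d, rfl⟩ := h
        rw [H.θ_inj.extend_apply, hg]
        exact if_neg fun hd => he ⟨d, hd, rfl⟩
      · rw [Function.extend_apply' _ _ _ h]; rfl
    by_cases he : ∃ d, (∀ p, bd t p ≠ some d) ∧ θ d = e
    · obtain ⟨d, hd, rfl⟩ := he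
      rw [← H.θ_ph d hd, H.θ_inj.extend_apply, H.θ_inj.extend_apply, hg, hg, if_pos hd,
        if_pos ((H.inner_ph d).2 hd), hf]
    · rw [z e he, z]
      rintro ⟨d', hd', h'⟩
      obtain ⟨d, rfl⟩ := (Finite.injective_iff_surjective.1 (ph_inj t H.ok)) d'
      have hd := (H.inner_ph d).1 hd'
      rw [H.θ_ph d hd] at h'
      exact he ⟨d, hd, q.φ.injective h'⟩
  · rw [H.θ_inj.extend_apply, hg]
    exact (if_pos hd).symm

theorem ballE_eq (s : ℕ → V t) (S : ℕ → q.Vertex) (idx : ℕ → ℕ) (pr : Bool) (j : BDat ℕ)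
    (hj : ∀ c ∈ j.balls, S (idx c.1) = ι (s c.1) ∧ c.2 + 3 < dB t (s c.1)) :
    (gmT t).ballE s pr j = (gmQ q).ballE S pr (j.map fun c => (idx c.1, c.2)) := by
  have hU : ∀ l : List (ℕ × ℕ), (∀ c ∈ l, c ∈ j.balls) →
      (gmT t).bset s l ⊆ {d | ∀ p, bd t p ≠ some d} := by
    rintro l hl d ⟨c, hc, h⟩ p hp
    have h1 : dW t (s c.1) (org t d) ≤ c.2 := h
    have h2 := m2_dB_le t (s c.1) p (darta_lt H.ok hp).le
    rw [org_bd t H.ok p d hp] at h1
    have h3 := (hj c (hl c hc)).2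
    omega
  have m1 : ∀ c ∈ j.1, c ∈ j.balls := fun c hc => List.mem_append_left _ hc
  have m2 : ∀ b ∈ j.2, ∀ c ∈ b.1, c ∈ j.balls := fun b hb c hc =>
    List.mem_append_right _ (List.mem_flatMap.2 ⟨b, hb, hc⟩)
  have key := fun (π : Dt t → Dt t) (π' : Fin (4 * n) → Fin (4 * n)) =>
    m2_dEg_emb (al t) π q.α π' θ H.θ_inj H.θ_al {d | ∀ p, bd t p ≠ some d} _ _
      (H.bset_eq s S idx j.1 fun c hc => hj c (m1 c hc)) (hU _ m1)
      j.2 (fun c => (gmT t).bset s c.1)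
      (fun c => (gmQ q).bset S (c.1.map fun c => (idx c.1, c.2))) (fun c => (c.2.1 : ℝ))
      (fun c => (c.2.2 : ℝ)) (fun b hb => H.bset_eq s S idx b.1 fun c hc => hj c (m2 b hb c hc))
      (fun b hb => hU _ (m2 b hb))
  have e : ∀ π' : Fin (4 * n) → Fin (4 * n),
      dEg q.α π' ((gmQ q).bset S (j.map fun c => (idx c.1, c.2)).1)
        ((j.map fun c => (idx c.1, c.2)).2.map
          fun c => ((gmQ q).bset S c.1, (c.2.1 : ℝ), (c.2.2 : ℝ))) =
      dEg q.α π' ((gmQ q).bset S (j.1.map fun c => (idx c.1, c.2)))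
        (j.2.map fun c => ((gmQ q).bset S (c.1.map fun c => (idx c.1, c.2)), (c.2.1 : ℝ),
          (c.2.2 : ℝ))) := fun π' => by
    unfold BDat.map
    rw [List.map_map]
    rfl
  cases pr with
  | true => exact (key _ _ H.res_pr H.ext_pr).trans (e _).symm
  | false => exact (key _ _ H.res_du H.ext_du).trans (e _).symm

end SubQ

theorem ballStmt : BallStmt := fun _ _ _ _ _ H =>
  ⟨H.adj_iff, H.dist_le, H.lift_dist, H.ballE_eq⟩

end Pool.Agent.QL
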