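import Pool.Agent.P.MP_7a6434d8_pr.QL.M2.HoleCount
import Pool.Agent.P.MP_7a6434d8_pr.QL.M1.CntB
import Pool.Agent.P.MP_7a6434d8_pr.LinkC
import Pool.Agent.P.MP_7a6434d8_pr.ZCtxB

/-! Counting estimates for long boundaries. -/

namespace Pool.Agent.QL.Ho

open Pool.Agent.P.MP_7a6434d8_pr Pool.Agent.P.MP_7a6434d8_pr.Mp

theorem clm_cmp (a ε : ℝ) (ha : 0 < a) (hε : 0 < ε) : ∃ M : ℝ, ∀ n L m : ℕ, 4 ≤ n → a * n ≤ m →
    M * √(n : ℝ) ≤ L → m + L + 1 ≤ n + 2 → cLm L m ≤ ε * cLm L (m + 8 * n) := by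
  obtain ⟨C, hC⟩ : ∃ C : ℝ, C = 800 * 10 ^ 5 / (a ^ 5 * ε ^ 2) := ⟨_, rfl⟩
  have hC0 : 0 < C := by rw [hC]; positivity
  refine ⟨24 * C + 3, fun n L m hn h1 h2 h3 => ?_⟩
  have hn' : (4 : ℝ) ≤ n := by exact_mod_cast hn
  have h3' : (m : ℝ) + L + 1 ≤ n + 2 := by exact_mod_cast h3
  have hm : (0 : ℝ) ≤ m := Nat.cast_nonneg m
  have s1 : (1 : ℝ) ≤ √(n : ℝ) := Real.one_le_sqrt.2 (by linarith)
  have hL : (3 : ℝ) ≤ L := by nlinarith
  have hL1 : 1 ≤ L := by exact_mod_cast (show (1 : ℝ) ≤ L by linarith)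
  have s2 : (24 * C) * n ≤ (L : ℝ) ^ 2 := by
    have h4 := pow_le_pow_left₀ (by positivity) h2 2
    rw [mul_pow, Real.sq_sqrt (by positivity)] at h4
    refine le_trans (mul_le_mul_of_nonneg_right ?_ (by positivity)) h4
    nlinarith
  have u := cLm_upper L m hL1
  have v := cLm_lower L (m + 8 * n) hL1
  push_cast at v
  have e1 : -((L : ℝ) ^ 2 / (4 * (m + L + 1))) ≤
      -(((L : ℝ) + 1) ^ 2 / (2 * (m + 8 * n + 1))) + -C := by
    have a1 : (L : ℝ) ^ 2 / (6 * n) ≤ (L : ℝ) ^ 2 / (4 * (m + L + 1)) :=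
      div_le_div_of_nonneg_left (by positivity) (by positivity) (by linarith)
    have a2 : ((L : ℝ) + 1) ^ 2 / (2 * (m + 8 * n + 1)) ≤ 2 * (L : ℝ) ^ 2 / (16 * n) :=
      div_le_div₀ (by positivity) (by nlinarith) (by positivity) (by linarith)
    have a3 : C ≤ (L : ℝ) ^ 2 / (24 * n) := by
      rw [le_div_iff₀ (by positivity)]
      linarith
    have a4 : (L : ℝ) ^ 2 / (6 * n) = 2 * (L : ℝ) ^ 2 / (16 * n) + (L : ℝ) ^ 2 / (24 * n) := by
      field_simp
      ring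
    linarith
  have e2 := Real.exp_le_exp.2 e1
  rw [Real.exp_add] at e2
  have e3 : Real.exp (-C) * C ≤ 1 := by
    rw [Real.exp_neg, inv_mul_le_iff₀ (Real.exp_pos C), mul_one]
    linarith [Real.add_one_le_exp C]
  have e4 : Real.exp (-C) * (800 * 10 ^ 5) ≤ a ^ 5 * ε ^ 2 := by
    rwa [hC, ← mul_div_assoc, div_le_one (by positivity), ← hC] at e3
  have p1 : (a * n) ^ 5 ≤ ((m : ℝ) + L + 1) ^ 5 := pow_le_pow_left₀ (by positivity) (by linarith) 5
  have p2 : ((m : ℝ) + 8 * n + L + 1) ^ 5 ≤ (10 * n) ^ 5 :=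
    pow_le_pow_left₀ (by positivity) (by linarith) 5
  have u0 := cLm_nonneg L m
  have v0 := cLm_nonneg L (m + 8 * n)
  generalize cLm L m = x at *
  generalize cLm L (m + 8 * n) = y at *
  generalize Real.exp (-(((L : ℝ) + 1) ^ 2 / (2 * (m + 8 * n + 1)))) = E at *
  have hE := Real.exp_pos (-C)
  refine (pow_le_pow_iff_left₀ u0 (by positivity) two_ne_zero).1
    (le_of_mul_le_mul_right ?_ (show 0 < (a * n) ^ 5 by positivity))
  calc x ^ 2 * (a * n) ^ 5 ≤ 8 * L * (E * Real.exp (-C)) :=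
        (mul_le_mul_of_nonneg_left p1 (by positivity)).trans
          (u.trans (mul_le_mul_of_nonneg_left e2 (by positivity)))
    _ = 800 * Real.exp (-C) * (L / 100 * E) := by ring
    _ ≤ 800 * Real.exp (-C) * (y ^ 2 * (10 * n) ^ 5) :=
        mul_le_mul_of_nonneg_left (v.trans (mul_le_mul_of_nonneg_left p2 (by positivity)))
          (by positivity)
    _ = Real.exp (-C) * (800 * 10 ^ 5) * (y ^ 2 * n ^ 5) := by ring
    _ ≤ a ^ 5 * ε ^ 2 * (y ^ 2 * n ^ 5) := mul_le_mul_of_nonneg_right e4 (by positivity)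
    _ = (ε * y) ^ 2 * (a * n) ^ 5 := by ring

theorem card_quad (n : ℕ) (hn : 1 ≤ n) :
    Nat.card (Quad n) = cnt 2 (n - 1) (fun _ => True) * (4 * n).factorial := by
  have h := card_labelled (n := n) fun _ => True
  rwa [Nat.card_congr (Equiv.subtypeUnivEquiv fun _ => trivial),
    Nat.card_congr (Equiv.subtypeUnivEquiv fun _ => trivial), card_rooted n hn] at h

theorem card_quad_ne (n : ℕ) (hn : 1 ≤ n) : Nat.card (Quad n) ≠ 0 := by
  rw [card_quad n hn]
  refine mul_ne_zero (fun h => ?_) (Nat.factorial_ne_zero _)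
  have h1 := cLm_lower 2 (n - 1) (by norm_num)
  rw [cLm, h] at h1
  simp only [Nat.cast_zero, zero_div, ne_eq, OfNat.ofNat_ne_zero, not_false_eq_true, zero_pow,
    zero_mul] at h1
  exact absurd h1 (not_le.2 (by positivity))

theorem cnt_cmp {ε : ℝ} (hε : 0 ≤ ε) {n L m : ℕ} (hn : 1 ≤ n) (hk : 2 * (2 * m + L) ≤ 4 * n)
    (h : cLm L m ≤ ε * cLm L (m + 8 * n)) :
    (NN n L m * (countaT L m).card * Nat.card (Quad (9 * n)) : ℝ) ≤
      ε * Nat.card (Quad n) * (NN (9 * n) L (m + 8 * n) * (countaT L (m + 8 * n)).card) := by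
  have f1 := Nat.factorial_mul_descFactorial hk
  have f2 := Nat.factorial_mul_descFactorial
    (show 2 * (2 * (m + 8 * n) + L) ≤ 4 * (9 * n) by omega)
  rw [show 4 * (9 * n) - 2 * (2 * (m + 8 * n) + L) = 4 * n - 2 * (2 * m + L) by omega] at f2
  have r := cnt_ratio_up (show n - 1 ≤ 9 * n - 1 by omega)
  have r1 : ((n - 1 : ℕ) : ℝ) ≤ ((9 * n - 1 : ℕ) : ℝ) := by exact_mod_cast (by omega)
  have r2 := le_of_mul_le_mul_left (r.trans (mul_le_mul_of_nonneg_right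
    (add_le_add_left r1 1) (by positivity))) (by positivity)
  rw [show (12 : ℝ) ^ (9 * n - 1) = 12 ^ (n - 1) * 12 ^ (8 * n) by
    rw [← pow_add]; congr 1; omega, div_le_div_iff₀ (by positivity) (by positivity),
    ← mul_assoc, mul_right_comm] at r2
  have r3 := le_of_mul_le_mul_right r2 (by positivity)
  unfold cLm at h
  rw [pow_add, ← mul_div_assoc, div_le_div_iff₀ (by positivity) (by positivity),
    mul_right_comm (12 ^ m : ℝ), mul_comm (12 ^ m * 8 ^ L : ℝ), ← mul_assoc] at h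
  have r4 := le_of_mul_le_mul_right h (by positivity)
  rw [card_quad n hn, card_quad (9 * n) (by omega), ← counta_cnt_true, ← counta_cnt_true, ← f1,
    ← f2]
  unfold NN
  push_cast
  generalize (cnt L m (fun _ => True) : ℝ) = x at *
  generalize hy : (cnt L (m + 8 * n) (fun _ => True) : ℝ) = y at *
  generalize hz : (cnt 2 (n - 1) (fun _ => True) : ℝ) = z at *
  generalize hw : (cnt 2 (9 * n - 1) (fun _ => True) : ℝ) = w at *
  have y0 : 0 ≤ y := hy ▸ Nat.cast_nonneg _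
  have z0 : 0 ≤ z := hz ▸ Nat.cast_nonneg _
  have w0 : 0 ≤ w := hw ▸ Nat.cast_nonneg _
  have k : x * w ≤ 9 * (ε * y * z) := by
    refine le_of_mul_le_mul_right ?_ (show (0 : ℝ) < 12 ^ (8 * n) by positivity)
    calc x * w * 12 ^ (8 * n) = x * 12 ^ (8 * n) * w := by ring
      _ ≤ ε * y * (z * 12 ^ (8 * n)) := mul_le_mul r4 r3 w0 (by positivity)
      _ = 1 * (ε * y * z) * 12 ^ (8 * n) := by ring
      _ ≤ _ := by gcongr; norm_num
  have k2 := mul_le_mul_of_nonneg_left k (show (0 : ℝ) ≤ 4 * n *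
    ((4 * n).descFactorial (2 * (2 * m + L)) : ℝ) * ((4 * n - 2 * (2 * m + L)).factorial : ℝ) *
    ((4 * (9 * n)).descFactorial (2 * (2 * (m + 8 * n) + L)) : ℝ) by positivity)
  refine le_trans (le_of_eq ?_) (k2.trans (le_of_eq ?_)) <;> ring

end Pool.Agent.QL.Ho
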