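import Pool.Agent.P.MP_7a6434d8_pr.QL.M2.Hole
import Pool.Agent.P.MP_7a6434d8_pr.QL.M2.CrossNum

/-! Macroscopic holes do not have a very long boundary. -/

open MeasureTheory ProbabilityTheory Set Function Filter
open scoped ENNReal

namespace Pool.Agent.QL.Ho

open Pool.Agent.P.MP_7a6434d8_pr Pool.Agent.P.MP_7a6434d8_pr.Mp

variable {n n' : ℕ}

theorem subq_det {q : Quad n} {A : Set q.Vertex} {t t' : Mp} {θ : Dt t → Fin (4 * n)}
    {θ' : Dt t' → Fin (4 * n)} {ι : V t → q.Vertex} {ι' : V t' → q.Vertex} (h : SubQ q A t θ ι)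
    (h' : SubQ q A t' θ' ι') : per t = per t' ∧ size t = size t' := by
  have h1 := card_compl h.ok h.θ_inj
  have h2 := card_compl h'.ok h'.θ_inj
  rw [show range θ' = range θ from Set.ext fun d => (h'.θ_range d).trans (h.θ_range d).symm] at h2
  have h3 := Nat.card_range_of_injective h.ι_inj
  have h4 := Nat.card_range_of_injective h'.ι_inj
  rw [h.ι_range, Nat.card_eq_fintype_card (α := V t), card_V t h.ok] at h3
  rw [h'.ι_range, Nat.card_eq_fintype_card (α := V t'), card_V t' h'.ok] at h4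
  omega

variable (J : List (ℕ × ℕ)) (t₀ : ℕ)

open Classical in
/-- probability of the event with the given hole -/
noncomputable def pE (x : Tri n) : ℝ≥0∞ :=
  ∫⁻ s, (if EE J t₀ x s then 1 else 0) ∂smpl x.1.Vertex

theorem pE_sum (n : ℕ) : ∑' x : Tri n, pE J t₀ x ≤ Nat.card (Quad n) := by
  classical
  have h := eqs_eq (n := n) J t₀ (fun _ _ _ => 1) fun _ => measurable_const
  have := Fintype.ofFinite (Quad n)
  rw [← one_mul (Nat.card (Quad n) : ℝ≥0∞),
    ← ENNReal.div_le_iff_le_mul (.inr ENNReal.one_ne_top) (.inl (by simp))]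
  refine h.symm.le.trans (ENNReal.div_le_of_le_mul ((ENNReal.tsum_le_tsum (g := fun _ => 1)
    fun q => ?_).trans (by simp)))
  have : IsProbabilityMeasure (smpl q.Vertex) := by unfold smpl; infer_instance
  refine (lintegral_mono (g := fun _ => 1) fun s => ?_).trans (by simp)
  beta_reduce
  split_ifs <;> simp

theorem pE_le {x : Tri n} {x' : Tri (9 * n)} (h : Rel x x') :
    pE J t₀ x ≤ 9 ^ (J.length + 1) * pE J t₀ x' := by
  classical
  have h1 := h.size
  obtain ⟨c, c', S, -⟩ := h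
  obtain ⟨ρ, r1, r2⟩ := S.inj x.2.2.1 x'.2.2.1 (by simp only [Tri.t] at h1; omega)
  have h2 := smpl_le r1 (K := 9) (by rw [card_vertex, card_vertex]; omega)
    (t₀ :: J.map fun b => b.1) (f := fun s => if EE J t₀ x' s then 1 else 0)
    fun s s' h => by rw [ee_congr J t₀ x' s s' h]
  rw [List.length_cons, List.length_map] at h2
  refine le_trans (le_of_eq (lintegral_congr fun s => ?_)) h2
  exact (if_congr (ee_iff J t₀ S fun a => r2 (s a)) rfl rfl).symm

open Classical in
theorem cross_sum (hn : 1 ≤ n) (B : Mp → Prop) {ε : ℝ} (hε : 0 ≤ ε)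
    (hB : ∀ x : Tri n, B x.t → cLm (per x.t) (size x.t) ≤ ε * cLm (per x.t) (size x.t + 8 * n)) :
    ∑' x : Tri n, (if B x.t then pE J t₀ x else 0) ≤
      9 ^ (J.length + 1) * ENNReal.ofReal ε * Nat.card (Quad n) := by
  obtain ⟨N, hN⟩ : ∃ N : Mp → ℝ≥0∞, ∀ t, N t =
      NN n (per t) (size t) * (countaT (per t) (size t)).card := ⟨_, fun _ => rfl⟩
  have N0 : ∀ x : Tri n, N x.t ≠ 0 := fun x => hN x.t ▸ mul_ne_zero
    (Nat.cast_ne_zero.2 (NN_pos x)) (Nat.cast_ne_zero.2
    (Finset.card_ne_zero.2 ⟨x.t, (counta_mem _ _ _).2 ⟨x.2.2.1.ok, rfl, rfl⟩⟩))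
  have N1 : ∀ t, N t ≠ ⊤ := fun t => hN t ▸ ENNReal.mul_ne_top (by simp) (by simp)
  obtain ⟨K, hK⟩ : ∃ K : ℝ≥0∞, K = 9 ^ (J.length + 1) * ENNReal.ofReal ε * Nat.card (Quad n) :=
    ⟨_, rfl⟩
  have e1 : ∀ x : Tri n, (if B x.t then pE J t₀ x else 0) * Nat.card (Quad (9 * n)) ≤
      ∑' x' : Tri (9 * n), K * pE J t₀ x' * if Rel x' x then (N x.t)⁻¹ else 0 := fun x => by
    split_ifs with hx
    · have h0 := card_compl x.2.2.1.ok x.2.2.1.inj
      have h1 := ENNReal.ofReal_le_ofReal (cnt_cmp hε hn (by simp only [Tri.t]; omega) (hB x hx))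
      rw [← Nat.cast_mul, ← Nat.cast_mul, ← Nat.cast_mul, ENNReal.ofReal_natCast,
        ENNReal.ofReal_mul (by positivity), ENNReal.ofReal_mul hε, ENNReal.ofReal_natCast,
        ENNReal.ofReal_natCast, Nat.cast_mul, Nat.cast_mul, Nat.cast_mul, ← hN] at h1
      have h2 := count x (n' := 9 * n) (m' := size x.t + 8 * n) (by omega) fun _ =>
        ENNReal.ofReal ε * Nat.card (Quad n) * (pE J t₀ x * (N x.t)⁻¹)
      rw [Finset.sum_const, nsmul_eq_mul] at h2
      calc pE J t₀ x * Nat.card (Quad (9 * n))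
          = N x.t * Nat.card (Quad (9 * n)) * (pE J t₀ x * (N x.t)⁻¹) := by
            rw [mul_comm (N x.t), mul_assoc, mul_left_comm (N x.t),
              ENNReal.mul_inv_cancel (N0 x) (N1 _), mul_one, mul_comm]
        _ ≤ _ := mul_le_mul_left h1 _
        _ = ∑' x' : Tri (9 * n), if Rel x x' then
            ENNReal.ofReal ε * Nat.card (Quad n) * (pE J t₀ x * (N x.t)⁻¹) else 0 := by
            rw [h2]
            ring
        _ ≤ _ := ENNReal.tsum_le_tsum fun x' => by
            by_cases h : Rel x x'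
            · rw [if_pos h, if_pos h.symm, hK]
              refine (mul_le_mul_right (mul_le_mul_left (pE_le J t₀ h) _) _).trans (le_of_eq ?_)
              ring
            · rw [if_neg h]
              exact zero_le
    · simp
  have e2 : ∀ x' : Tri (9 * n), (∑' x : Tri n, if Rel x' x then (N x.t)⁻¹ else 0) ≤ 1 := by
    intro x'
    by_cases h : ∃ x₀ : Tri n, Rel x' x₀
    · obtain ⟨x₀, h⟩ := h
      rw [count x' h.size fun t => (N t)⁻¹, Finset.sum_congr rfl (g := fun _ => (N x₀.t)⁻¹)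
        fun t ht => by
          obtain ⟨-, h1, h2⟩ := (counta_mem _ _ _).1 ht
          rw [hN, hN, h1, h2, h.per], Finset.sum_const, nsmul_eq_mul, ← mul_assoc, h.per, ← hN,
        ENNReal.mul_inv_cancel (N0 x₀) (N1 _)]
    · exact (ENNReal.tsum_eq_zero.2 fun x => if_neg fun h1 => h ⟨x, h1⟩).le.trans zero_le
  rw [← hK, ← ENNReal.mul_le_mul_iff_left (c := Nat.card (Quad (9 * n)))
    (Nat.cast_ne_zero.2 (card_quad_ne _ (by omega))) (by simp), ← ENNReal.tsum_mul_right]
  refine (ENNReal.tsum_le_tsum e1).trans ?_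
  rw [ENNReal.tsum_comm]
  refine le_trans (ENNReal.tsum_le_tsum fun x' => ?_)
    (ENNReal.tsum_mul_left.le.trans (mul_le_mul_right (pE_sum J t₀ (9 * n)) K))
  rw [ENNReal.tsum_mul_left]
  exact (mul_le_mul_right (e2 x') _).trans (mul_one _).le

theorem cross : CrossStmt := by
  classical
  intro a₀ η J₀ ha hη
  obtain ⟨M, hM⟩ := clm_cmp a₀ (η / 9 ^ (J₀ + 1)) ha (by positivity)
  refine ⟨M, (eventually_ge_atTop 4).mono fun n hn H hH J t₀ hJ => ?_⟩
  have h1 := eqs_eq (n := n) J t₀ (fun q A _ => if a₀ * n ≤ size (hw q A).1 ∧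
    M * √(n : ℝ) ≤ per (hw q A).1 then 1 else 0) fun _ => measurable_const
  have h2 := cross_sum J t₀ (n := n) (by omega) (fun t => a₀ * n ≤ size t ∧ M * √(n : ℝ) ≤ per t)
    (by positivity) fun x hx => hM n _ _ hn hx.1 hx.2 (by
      have h3 := x.2.2.1.card_vx
      have h4 : Nat.card (Vx x.1.α x.1.φ) = n + 2 := card_vertex x.1
      simp only [Tri.t]
      omega)
  refine le_trans (le_of_eq (.trans ?_ h1)) (ENNReal.div_le_of_le_mul
    (le_trans (le_of_eq (tsum_congr fun x => ?_)) (h2.trans (mul_le_mul_left ?_ _))))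
  · congr 1
    funext q s
    by_cases hE : Ev q s J t₀
    · have h3 := subq_det (hH.sub q s J t₀ hE) ((sys_spec n).sub q s J t₀ hE)
      rw [if_pos hE, h3.1, h3.2]
      exact if_congr (and_iff_right hE) rfl rfl
    · rw [if_neg hE, if_neg fun h => hE h.1]
  · rw [show hw x.1 x.A = x.2.1 from x.2.2.hw_eq]
    split_ifs <;> simp [pE]
  · rw [ENNReal.ofReal_div_of_pos (by positivity), ENNReal.ofReal_pow (by norm_num),
      ENNReal.ofReal_ofNat]
    exact (mul_le_mul_left (pow_le_pow_right₀ (by norm_num) (by omega)) _).trans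
      ENNReal.mul_div_le

end Pool.Agent.QL.Ho
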