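import Pool.Agent.P.MP_7a6434d8_pr.QL.Disc
import Pool.Agent.P.MP_7a6434d8_pr.XGraphA
import Pool.Agent.P.MP_7a6434d8_pr.XGraphB
import Pool.Agent.P.MP_7a6434d8_pr.DartB

/-! The discrete Stokes identity. -/

open Finset

namespace Pool.Agent.QL

open Pool.Agent.P.MP_7a6434d8_pr Pool.Agent.P.MP_7a6434d8_pr.Mp

theorem m2c_bv_mod (t : Mp) (ht : ok t) (p : ℕ) (hp : p ≤ 2 * per t) :
    bv t (p % (2 * per t)) = bv t p := by
  rcases Nat.lt_or_ge p (2 * per t) with h | h
  · rw [Nat.mod_eq_of_lt h]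
  · have : p = 2 * per t := by omega
    rw [this, Nat.mod_self, bv_end t ht]

theorem m2c_head_bd (t : Mp) (ht : ok t) (p : ℕ) (d : Dt t) (h : bd t p = some d) :
    org t (al t d) = bv t (p + 1) := by
  rw [← org_ph t ht, org_bd t ht _ _ (bd_ph t ht p d h)]
  exact m2c_bv_mod t ht _ (darta_lt ht h)

theorem m2c_ph_bd (t : Mp) (ht : ok t) (d : Dt t) :
    (∃ p, bd t p = some (ph t d)) ↔ ∃ p, bd t p = some d := by
  constructor
  · rintro ⟨p, hp⟩
    by_contra hn
    exact dartb_inner_ph ht d (fun k hk => hn ⟨k, hk⟩) p hp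
  · rintro ⟨p, hp⟩
    exact ⟨_, bd_ph t ht p d hp⟩

open Classical in
theorem m2c_sum_bd (t : Mp) (ht : ok t) (ω : Dt t → ℝ) (g : ℕ → ℝ)
    (h : ∀ p d, bd t p = some d → ω d = g p) :
    ∑ d, (if ∃ p, bd t p = some d then ω d else 0) = ∑ p ∈ range (2 * per t), g p := by
  rw [← sum_filter]
  symm
  refine sum_bij (fun p hp => (darta_ex ht (mem_range.1 hp)).choose) ?_ ?_ ?_ ?_
  · intro p hp
    exact mem_filter.2 ⟨mem_univ _, p, (darta_ex ht (mem_range.1 hp)).choose_spec⟩
  · intro p hp p' hp' he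
    have h1 := (darta_ex ht (mem_range.1 hp)).choose_spec
    have h2 := (darta_ex ht (mem_range.1 hp')).choose_spec
    rw [he] at h1
    exact bd_inj t ht _ _ _ h1 h2
  · intro d hd
    obtain ⟨p, hp⟩ := (mem_filter.1 hd).2
    refine ⟨p, mem_range.2 (darta_lt ht hp), ?_⟩
    have h1 := (darta_ex ht (darta_lt ht hp)).choose_spec
    exact Option.some.inj (h1.symm.trans hp)
  · intro p hp
    exact (h p _ (darta_ex ht (mem_range.1 hp)).choose_spec).symm

theorem classStmt : ClassStmt := by
  classical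
  intro t ht a b hab
  set ω : Dt t → ℝ := fun d =>
    (a (org t d) + a (org t (al t d))) * (b (org t (al t d)) - b (org t d)) with hω
  let A : Dt t ≃ Dt t := ⟨al t, al t, al_al t, al_al t⟩
  let P : Dt t ≃ Dt t := Equiv.ofBijective (ph t) (Finite.injective_iff_bijective.1 (ph_inj t ht))
  have h0 : ∑ d, ω d = 0 := by
    have e1 : ∑ d, ω (al t d) = ∑ d, ω d := Equiv.sum_comp A ω
    have e2 : ∀ d, ω (al t d) = -ω d := fun d => by
      simp only [hω, al_al]; ring
    simp only [e2, sum_neg_distrib] at e1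
    linarith
  set ν : Dt t → ℝ := fun d => if ∃ p, bd t p = some d then 0 else ω d with hν
  have h1 : ∑ d, ν d = 0 := by
    have s1 : ∑ d, ν (ph t d) = ∑ d, ν d := Equiv.sum_comp P ν
    have s2 : ∑ d, ν (ph t (ph t d)) = ∑ d, ν d :=
      (Equiv.sum_comp P fun d => ν (ph t d)).trans s1
    have s3 : ∑ d, ν (ph t (ph t (ph t d))) = ∑ d, ν d :=
      (Equiv.sum_comp P fun d => ν (ph t (ph t d))).trans s2
    have s4 : ∀ d, ν d + ν (ph t d) + ν (ph t (ph t d)) + ν (ph t (ph t (ph t d))) = 0 := by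
      intro d
      by_cases hd : ∃ p, bd t p = some d
      · have k1 := (m2c_ph_bd t ht d).2 hd
        have k2 := (m2c_ph_bd t ht _).2 k1
        have k3 := (m2c_ph_bd t ht _).2 k2
        simp only [hν, if_pos hd, if_pos k1, if_pos k2, if_pos k3, add_zero]
      · have k1 := mt (m2c_ph_bd t ht d).1 hd
        have k2 := mt (m2c_ph_bd t ht _).1 k1
        have k3 := mt (m2c_ph_bd t ht _).1 k2
        have k4 : ph t (ph t (ph t (ph t d))) = d := ((quad_inner t ht d).resolve_left hd).1
        have ad : ∀ x, adj t (org t x) (org t (ph t x)) := fun x =>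
          (adj_iff_dart t _ _).2 ⟨x, rfl, (org_ph t ht x).symm⟩
        have w1 : Within t 2 (org t d) (org t (ph t d)) := (xgraphb_one (ad d)).mono (by norm_num)
        have w2 : Within t 2 (org t d) (org t (ph t (ph t d))) :=
          (xgraphb_one (ad d)).trans (xgraphb_one (ad (ph t d)))
        have w3 : Within t 2 (org t d) (org t (ph t (ph t (ph t d)))) := by
          have := ad (ph t (ph t (ph t d)))
          rw [k4] at this
          exact (xgraphb_one this).symm.mono (by norm_num)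
        simp only [hν, if_neg hd, if_neg k1, if_neg k2, if_neg k3, hω, ← org_ph t ht, k4]
        rcases hab (org t d) with h | h
        · rw [h _ w1, h _ w2, h _ w3]; ring
        · rw [h _ w1, h _ w2, h _ w3]; ring
    have s5 := sum_congr (rfl : (univ : Finset (Dt t)) = univ) fun d _ => s4 d
    simp only [sum_add_distrib, s1, s2, s3, sum_const_zero] at s5
    linarith
  rw [← m2c_sum_bd t ht ω _ fun p d h => by
    simp only [hω, m2c_head_bd t ht p d h, org_bd t ht p d h]]
  have h2 : ∀ d, (if ∃ p, bd t p = some d then ω d else 0) = ω d - ν d := fun d => by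
    simp only [hν]
    split_ifs <;> simp
  simp only [h2, sum_sub_distrib, h0, h1, sub_zero]

end Pool.Agent.QL
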