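import Pool.Agent.P.MP_7a6434d8_pr.QL.M2.Emb

/-! Rotations and the mirror image of discs. -/

open Set
open scoped ENNReal

namespace Pool.Agent.QL

open Pool.Agent.P.MP_7a6434d8_pr Pool.Agent.P.MP_7a6434d8_pr.Mp

theorem m2s_ph_surj (t : Mp) (ht : ok t) : Function.Surjective (ph t) :=
  Finite.injective_iff_surjective.1 (ph_inj t ht)

theorem m2s_al_inj (t : Mp) : Function.Injective (al t) :=
  Function.LeftInverse.injective (al_al t)

open Classical in
/-- The face successor of the mirror image. -/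
noncomputable def mirPh (t : Mp) (d : Dt t) : Dt t :=
  if h : ∃ x, ph t x = al t d then al t h.choose else d

theorem mirPh_spec (t : Mp) (ht : ok t) (d : Dt t) : ph t (al t (mirPh t d)) = al t d := by
  have h := m2s_ph_surj t ht (al t d)
  unfold mirPh
  rw [dif_pos h, al_al]
  exact h.choose_spec

theorem mirPh_eq (t : Mp) (ht : ok t) {d x : Dt t} (h : ph t (al t x) = al t d) :
    mirPh t d = x :=
  m2s_al_inj t (ph_inj t ht ((mirPh_spec t ht d).trans h.symm))

theorem mirPh_al_ph (t : Mp) (ht : ok t) (d : Dt t) : mirPh t (al t (ph t d)) = al t d :=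
  mirPh_eq t ht (by rw [al_al, al_al])

theorem mirPh_iter (t : Mp) (ht : ok t) (k : ℕ) (d : Dt t) :
    (mirPh t)^[k] (al t ((ph t)^[k] d)) = al t d := by
  induction k with
  | zero => rfl
  | succ k ih => rw [Function.iterate_succ_apply, Function.iterate_succ_apply', mirPh_al_ph t ht, ih]

theorem mirPh_inj (t : Mp) (ht : ok t) : Function.Injective (mirPh t) := fun d d' h =>
  m2s_al_inj t (by rw [← mirPh_spec t ht d, h, mirPh_spec t ht d'])

theorem mirPh_fix (t : Mp) (ht : ok t) (k : ℕ) (d : Dt t) :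
    (mirPh t)^[k] (al t d) = al t d ↔ (ph t)^[k] d = d := by
  constructor
  · intro h
    exact m2s_al_inj t ((mirPh_inj t ht).iterate k ((mirPh_iter t ht k d).trans h.symm))
  · intro h
    have := mirPh_iter t ht k d
    rwa [h] at this

theorem mir_good (t : Mp) (ht : ok t) (hp : 1 ≤ per t) (b : Dt t)
    (hb : bd t (2 * per t - 1) = some b) :
    Good (al t) (mirPh t) Finset.univ (some (al t b)) where
  al_mem _ _ := Finset.mem_univ _
  al_al d _ := al_al t d
  al_ne d _ := al_ne t d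
  ph_mem _ _ := Finset.mem_univ _
  ph_inj _ _ _ _ h := mirPh_inj t ht h
  root_none h := by cases h
  root_mem _ _ := Finset.mem_univ _
  quad d _ := by
    obtain ⟨d, rfl⟩ : ∃ x, al t x = d := ⟨al t d, al_al t d⟩
    rcases quad_inner t ht d with ⟨p, h⟩ | ⟨h1, h2⟩
    · have hlt := darta_lt ht h
      have h1 := bd_iter t ht p (2 * per t - 1 - p) d h
      rw [show p + (2 * per t - 1 - p) = 2 * per t - 1 by omega, Nat.mod_eq_of_lt (by omega),
        hb] at h1
      exact Or.inl ⟨_, 2 * per t - 1 - p, rfl, by rw [Option.some.inj h1, mirPh_iter t ht]⟩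
    · exact Or.inr ⟨(mirPh_fix t ht 4 d).2 h1, fun h => h2 ((mirPh_fix t ht 2 d).1 h)⟩
  conn F h1 h2 d _ d' _ := by
    refine conn_darts t ht F (fun x => h1 x (Finset.mem_univ _)) (fun x => ?_) d d'
    rw [← h1 (ph t x) (Finset.mem_univ _), ← h2 _ (Finset.mem_univ _), mirPh_al_ph t ht,
      h1 x (Finset.mem_univ _)]
  planar ψ h := by
    have k : ∀ d, ψ (mirPh t (al t (ph t d))) - ψ (mirPh t (al t d)) = ψ (mirPh t d) - ψ d := by
      intro d
      have := h d (Finset.mem_univ _)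
      rw [mirPh_al_ph t ht]
      linarith
    obtain ⟨f, hf⟩ := planar_darts t ht (fun d => ψ (mirPh t (al t d))) fun d => by
      rw [k, k]
      exact h d (Finset.mem_univ _)
    refine ⟨fun d => f (org t d), fun d _ => ?_, fun d _ => (k d).symm.trans (hf d)⟩
    show f (org t (mirPh t (al t d))) = f (org t d)
    rw [← al_al t (mirPh t (al t d)), ← org_ph t ht, mirPh_spec t ht, al_al]

/-- `s` is the mirror image of `t`. -/
def Mir (t s : Mp) : Prop :=
  ∃ θ : Dt s ≃ Dt t, Emb (al t) (mirPh t) s θ ∧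
    (bd s 0).map θ = (bd t (2 * per t - 1)).map (al t)

theorem mir_exists (t : Mp) (ht : ok t) (hp : 1 ≤ per t) : ∃ s, ok s ∧ Mir t s := by
  obtain ⟨b, hb⟩ := darta_ex ht (show 2 * per t - 1 < 2 * per t by omega)
  obtain ⟨s, hs, θ, E, hS, hr⟩ := exists_real _ _ _ _ (mir_good t ht hp b hb)
  exact ⟨s, hs, Equiv.ofBijective θ ⟨E.inj, fun d => (hS d).1 (Finset.mem_univ d)⟩, E,
    by rw [hb]; exact hr⟩

theorem mir_data {t s : Mp} (ht : ok t) (hs : ok s) (hp : 1 ≤ per t) {θ : Dt s ≃ Dt t}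
    (E : Emb (al t) (mirPh t) s θ) (hr : (bd s 0).map θ = (bd t (2 * per t - 1)).map (al t)) :
    per s = per t ∧ ∀ p, p < 2 * per t →
      (bd s p).map θ = (bd t (2 * per t - 1 - p)).map (al t) := by
  obtain ⟨b, hb⟩ := darta_ex ht (show 2 * per t - 1 < 2 * per t by omega)
  rw [hb, Option.map_some] at hr
  obtain ⟨x, hx, hxb⟩ := Option.map_eq_some_iff.1 hr
  have hper : per s = per t := by
    have key : ∀ m, 2 * per s ∣ m ↔ 2 * per t ∣ m := by
      intro m
      rw [← rota_iter_iff s hs 0 m x hx, ← rota_iter_iff t ht _ m b hb, ← mirPh_fix t ht, ← hxb,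
        ← rota_map_iter E]
      exact E.inj.eq_iff.symm
    have := Nat.dvd_antisymm ((key _).2 dvd_rfl) ((key _).1 dvd_rfl)
    omega
  refine ⟨hper, fun p hlt => ?_⟩
  obtain ⟨y, hy⟩ := darta_ex ht (show 2 * per t - 1 - p < 2 * per t by omega)
  have c1 := bd_iter s hs 0 p x hx
  have c2 := bd_iter t ht _ p y hy
  rw [zero_add, Nat.mod_eq_of_lt (by omega)] at c1
  rw [show 2 * per t - 1 - p + p = 2 * per t - 1 by omega, Nat.mod_eq_of_lt (by omega), hb] at c2
  rw [c1, hy, Option.map_some, Option.map_some, rota_map_iter E, hxb, Option.some.inj c2,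
    mirPh_iter t ht]

theorem Mir.symm {t s : Mp} (ht : ok t) (hs : ok s) (hp : 1 ≤ per t) (H : Mir t s) : Mir s t := by
  obtain ⟨θ, E, hr⟩ := H
  obtain ⟨hper, hb⟩ := mir_data ht hs hp E hr
  refine ⟨θ.symm, ⟨θ.symm.injective, fun y => ?_, fun y => ?_⟩, ?_⟩
  · rw [Equiv.symm_apply_eq, E.map_al, Equiv.apply_symm_apply]
  · refine (mirPh_eq s hs (θ.injective ?_)).symm
    rw [E.map_ph, E.map_al, E.map_al, Equiv.apply_symm_apply, Equiv.apply_symm_apply,
      mirPh_al_ph t ht]
  · have h1 := hb (2 * per t - 1) (by omega)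
    obtain ⟨y, hy⟩ := darta_ex ht (show 0 < 2 * per t by omega)
    obtain ⟨z, hz⟩ := darta_ex hs (show 2 * per t - 1 < 2 * per s by omega)
    rw [Nat.sub_self, hy, hz, Option.map_some, Option.map_some] at h1
    rw [hper, hy, hz, Option.map_some, Option.map_some]
    congr 1
    rw [Equiv.symm_apply_eq, E.map_al, Option.some.inj h1, al_al]

theorem Mir.unique {s t1 t2 : Mp} (h1 : ok t1) (h2 : ok t2) (H1 : Mir s t1) (H2 : Mir s t2) :
    t1 = t2 := by
  obtain ⟨θ1, E1, r1⟩ := H1
  obtain ⟨θ2, E2, r2⟩ := H2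
  exact unique_real _ _ t1 t2 h1 h2 θ1 θ2 E1 E2 (r1.trans r2.symm)

theorem isoB_of {π : ℕ → ℕ} {t s : Mp} (θ : Dt s ≃ Dt t) (e : V s ≃ V t)
    (ha : ∀ d, θ (al s d) = al t (θ d)) (ho : ∀ d, e (org s d) = org t (θ d))
    (hb : ∀ p, p ≤ 2 * per t → e (bv s p) = bv t (π p))
    (hE : ∀ x pr j, (gmT t).ballE (fun i => e (x i)) pr j = (gmT s).ballE x pr j) :
    IsoB π t s := by
  refine ⟨e.symm, fun x y => ?_, fun p hp => ?_, fun x pr j => ?_⟩
  · rw [← m2_iso_dW θ e ha ho, e.apply_symm_apply, e.apply_symm_apply]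
  · rw [← hb p hp, e.symm_apply_apply]
  · have := hE (fun i => e.symm (x i)) pr j
    simp only [Equiv.apply_symm_apply] at this
    exact this.symm

theorem Mir.isoB {t s : Mp} (ht : ok t) (hs : ok s) (hp : 1 ≤ per t) (H : Mir t s) :
    per s = per t ∧ size s = size t ∧ IsoB (fun p => 2 * per t - p) t s := by
  obtain ⟨θ', E', -⟩ := H.symm ht hs hp
  obtain ⟨θ, E, hr⟩ := H
  obtain ⟨hper, hb⟩ := mir_data ht hs hp E hr
  have hsize : size s = size t := by
    have h := Fintype.card_congr θ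
    rw [card_Dt, card_Dt] at h
    have h3 := edges_eq t ht
    have h4 := edges_eq s hs
    omega
  have o1 : ∀ d, org t (mirPh t (al t d)) = org t d := fun d => by
    rw [← al_al t (mirPh t (al t d)), ← org_ph t ht, mirPh_spec t ht, al_al]
  obtain ⟨e, he⟩ := m2_vert_equiv ht hs hp (by omega) θ fun d d' => by
    constructor
    · refine factor_org s hs (fun d => org t (θ d)) (fun x => ?_) d d'
      show org t (θ (ph s (al s x))) = org t (θ x)
      rw [E.map_ph, E.map_al, o1]
    · intro h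
      have := factor_org t ht (fun y => org s (θ.symm y)) (fun y => by
        obtain ⟨x, hx⟩ := θ.surjective (ph t (al t y))
        have e1 : θ (ph s (al s x)) = y := by
          rw [E.map_ph, E.map_al, hx, mirPh_al_ph t ht, al_al]
        show org s (θ.symm (ph t (al t y))) = org s (θ.symm y)
        rw [← hx, ← e1, θ.symm_apply_apply, θ.symm_apply_apply, org_ph s hs, al_al]) _ _ h
      simpa only [Equiv.symm_apply_apply] using this
  have hv : ∀ p, p < 2 * per t → e (bv s p) = bv t (2 * per t - p) := by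
    intro p hlt
    obtain ⟨y, hy⟩ := darta_ex hs (show p < 2 * per s by omega)
    obtain ⟨z, hz⟩ := darta_ex ht (show 2 * per t - 1 - p < 2 * per t by omega)
    have := hb p hlt
    rw [hy, hz, Option.map_some, Option.map_some] at this
    rw [← org_bd s hs p y hy, he, Option.some.inj this, m2c_head_bd t ht _ z hz]
    congr 1
    omega
  refine ⟨hper, hsize, isoB_of θ e E.map_al he (fun p hle => ?_) fun x pr j => ?_⟩
  · rcases hle.lt_or_eq with hlt | rfl
    · exact hv p hlt
    · have := hv 0 (by omega)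
      rw [Nat.sub_zero, bv_end t ht] at this
      rw [Nat.sub_self, ← this, ← hper, bv_end s hs]
  · cases pr with
    | true => exact m2_iso_ballE_pr ht hs θ e E.map_al he x j
    | false =>
      refine Eq.symm ((m2_iso_dEg θ e E.map_al he (ph s) (mirPh t)
        (fun f => ⟨fun hf d => ?_, fun hf d => ?_⟩) x j).trans ?_)
      · rw [E.map_ph, hf]
      · obtain ⟨d, rfl⟩ := θ.surjective d
        rw [← E.map_ph, hf]
      · refine m2_dEg_rev (al t) (ph t) (mirPh t) (al_al t) (m2s_ph_surj t ht)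
          (Finite.injective_iff_surjective.1 (mirPh_inj t ht)) (mirPh_spec t ht) _ _ ?_
        intro c hc d
        obtain ⟨c, -, rfl⟩ := List.mem_map.1 hc
        show (∃ a ∈ c.1, dW t (e (x a.1)) (org t (ph t (al t d))) ≤ a.2) ↔
          ∃ a ∈ c.1, dW t (e (x a.1)) (org t d) ≤ a.2
        rw [org_ph t ht, al_al]

theorem symStmt : SymStmt := by
  classical
  intro L m hL
  have fin := (countaT L m).finite_toSet
  have mem : ∀ t, t ∈ (countaT L m : Set Mp) ↔ ok t ∧ per t = L ∧ size t = m := fun t =>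
    Finset.mem_coe.trans (counta_mem L m t)
  refine ⟨fun k => ⟨rotN k, (fin.injOn_iff_bijOn_of_mapsTo fun t ht => ?_).1
    fun t1 h1 t2 h2 h => rotN_inj k t1 t2 ((mem _).1 h1).1 ((mem _).1 h2).1 h, fun t ht => ?_⟩, ?_⟩
  · obtain ⟨h1, h2, h3⟩ := (mem t).1 ht
    exact (mem _).2 ⟨rotN_ok k t h1, (rotN_per k t h1).trans h2, (rotN_size k t h1).trans h3⟩
  · obtain ⟨h1, rfl, -⟩ := (counta_mem L m t).1 ht
    obtain ⟨θ, e, ha, hp, ho, -, hb⟩ := rot_data k t h1
    exact isoB_of θ e ha ho hb (m2_iso_ballE h1 (rotN_ok k t h1) θ e ha hp ho)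
  · have ex : ∀ t, ∃ s, t ∈ (countaT L m : Set Mp) → ok s ∧ Mir t s := fun t => by
      by_cases ht : t ∈ (countaT L m : Set Mp)
      · obtain ⟨h1, h2, -⟩ := (mem t).1 ht
        obtain ⟨s, hs⟩ := mir_exists t h1 (by omega)
        exact ⟨s, fun _ => hs⟩
      · exact ⟨t, fun h => absurd h ht⟩
    choose R hR using ex
    refine ⟨R, (fin.injOn_iff_bijOn_of_mapsTo fun t ht => ?_).1 fun t1 h1 t2 h2 h => ?_,
      fun t ht => ?_⟩
    · obtain ⟨h1, h2, h3⟩ := (mem t).1 ht
      obtain ⟨k1, k2, -⟩ := (hR t ht).2.isoB h1 (hR t ht).1 (by omega)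
      exact (mem _).2 ⟨(hR t ht).1, k1.trans h2, k2.trans h3⟩
    · obtain ⟨a1, a2, -⟩ := (mem t1).1 h1
      obtain ⟨b1, b2, -⟩ := (mem t2).1 h2
      have s1 := (hR t1 h1).2.symm a1 (hR t1 h1).1 (by omega)
      have s2 := (hR t2 h2).2.symm b1 (hR t2 h2).1 (by omega)
      rw [← h] at s2
      exact s1.unique a1 b1 s2
    · have ht' : t ∈ (countaT L m : Set Mp) := ht
      obtain ⟨h1, rfl, -⟩ := (mem t).1 ht'
      exact ((hR t ht').2.isoB h1 (hR t ht').1 hL).2.2

end Pool.Agent.QL
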