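import Pool.Agent.P.MP_7a6434d8_pr.QL.M2.Defs
import Pool.Agent.P.MP_7a6434d8_pr.QL.M2.SymS
import Pool.Agent.P.MP_7a6434d8_pr.QL.M2.Class
import Pool.Agent.P.MP_7a6434d8_pr.QL.M1.E12

/-! Modulus of continuity and injectivity of the boundary at fixed size, from the transfer
theorem. -/

namespace Pool.Agent.QL.M2

open Pool.Agent.P.MP_7a6434d8_pr Pool.Agent.P.MP_7a6434d8_pr.Mp Finset
open scoped ENNReal

section
variable {x : ℕ} {t s : Mp} {θ : Dt s → Dt t} {ι : V s → V t}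

theorem e12_adj (h : Rem x t s θ ι) (a b : V s) (hab : adj s a b) : adj t (ι a) (ι b) := by
  obtain ⟨d, rfl, rfl⟩ := (adj_iff_dart s a b).1 hab
  exact (adj_iff_dart t _ _).2 ⟨θ d, h.org_eq d, by rw [← h.θ_al, h.org_eq]⟩

theorem e12_dW_le (h : Rem x t s θ ι) (a b : V s) : dW t (ι a) (ι b) ≤ dW s a b :=
  dW_map h.ok_s ι (e12_adj h) a b

theorem e12_lift (h : Rem x t s θ ι) (z : V s) (k : ℕ) (y : V t) (hy : Within t k (ι z) y) :
    (∃ y', ι y' = y ∧ Within s k z y') ∨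
      ∃ r, x ≤ r ∧ r + x ≤ 2 * per s ∧ Within s k z (bv s r) := by
  induction k generalizing y with
  | zero => exact Or.inl ⟨z, hy, rfl⟩
  | succ k ih =>
    rcases hy with hy | ⟨u, hu, huy⟩
    · rcases ih y hy with ⟨y', h1, h2⟩ | ⟨r, h1, h2, h3⟩
      · exact Or.inl ⟨y', h1, Or.inl h2⟩
      · exact Or.inr ⟨r, h1, h2, Or.inl h3⟩
    · rcases ih u hu with ⟨u', rfl, h2⟩ | ⟨r, h1, h2, h3⟩
      · obtain ⟨e, he1, rfl⟩ := (adj_iff_dart t _ _).1 huy
        by_cases he : ∃ d, θ d = e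
        · obtain ⟨d, rfl⟩ := he
          rw [h.org_eq] at he1
          have h3 := h.ι_inj he1
          refine Or.inl ⟨org s (al s d), by rw [← h.θ_al, h.org_eq], Or.inr ⟨u', h2, ?_⟩⟩
          exact (adj_iff_dart s _ _).2 ⟨d, h3, rfl⟩
        · obtain ⟨r, h3, h4, h5⟩ := h.out e u' (fun d hd => he ⟨d, hd⟩) he1
          exact Or.inr ⟨r, h3, h4, Or.inl (h5 ▸ h2)⟩
      · exact Or.inr ⟨r, h1, h2, Or.inl h3⟩

theorem e12_dW_lift (h : Rem x t s θ ι) (a b : V s) :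
    dW s a b ≤ dW t (ι a) (ι b) ∨
      ∃ r, x ≤ r ∧ r + x ≤ 2 * per s ∧ dW s a (bv s r) ≤ dW t (ι a) (ι b) := by
  rcases e12_lift h a _ _ (dW_within h.ok_t (ι a) (ι b)) with ⟨y', h1, h2⟩ | ⟨r, h1, h2, h3⟩
  · rw [h.ι_inj h1] at h2
    exact Or.inl (dW_le h2)
  · exact Or.inr ⟨r, h1, h2, dW_le h3⟩

end

theorem e12_big {B : ℝ} (hB : 0 < B) (L₁ : ℕ) : ∃ δ₀ : ℝ, 0 < δ₀ ∧ ∀ δ : ℝ, 0 < δ → δ ≤ δ₀ →
    ∀ L m : ℕ, MBox B δ L m → L₁ ≤ L := by
  refine ⟨min 1 (1 / (B * (L₁ + 1))), by positivity, fun δ hδ hδ0 L m h => ?_⟩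
  have h1 : δ ≤ 1 := hδ0.trans (min_le_left _ _)
  have h2 : δ ≤ 1 / (B * (L₁ + 1)) := hδ0.trans (min_le_right _ _)
  have h3 := h.1
  rw [le_div_iff₀ (by positivity)] at h2
  rw [div_le_iff₀ hB] at h3
  have hL : (0 : ℝ) ≤ L := Nat.cast_nonneg L
  have h4 : δ ^ 2 * L * B ≤ δ * L * B := by
    have : δ ^ 2 ≤ δ := by nlinarith
    gcongr
  have h5 : δ * B * (L₁ + 1) ≤ δ * B * L := by nlinarith
  have h6 := le_of_mul_le_mul_left h5 (by positivity)
  have : (L₁ : ℝ) ≤ L := by linarith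
  exact_mod_cast this

theorem e12_box {B δ : ℝ} (hB : 0 < B) (hδ : 0 < δ) {L m : ℕ} (h : MBox B δ L m) :
    (L : ℝ) ^ 2 ≤ max 1 (B ^ 3) * m ∧ (m : ℝ) ≤ max 1 (B ^ 3) * (L : ℝ) ^ 2 := by
  obtain ⟨h1, h2, h3, h4⟩ := h
  rw [div_le_iff₀ hB] at h1 h3
  have hL : (0 : ℝ) ≤ L := Nat.cast_nonneg L
  have hm : (0 : ℝ) ≤ m := Nat.cast_nonneg m
  have hd : 0 < δ ^ 4 := by positivity
  constructor
  · refine le_trans ?_ (mul_le_mul_of_nonneg_right (le_max_right _ _) hm)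
    refine le_of_mul_le_mul_left ?_ hd
    have a1 : (δ ^ 2 * L) ^ 2 ≤ B ^ 2 := pow_le_pow_left₀ (by positivity) h2 2
    have a2 := mul_le_mul_of_nonneg_left h3 (show 0 ≤ B ^ 2 by positivity)
    nlinarith
  · refine le_trans ?_ (mul_le_mul_of_nonneg_right (le_max_right _ _) (by positivity))
    refine le_of_mul_le_mul_left ?_ hd
    have a1 : 1 ≤ (δ ^ 2 * L * B) ^ 2 := one_le_pow₀ h1
    have a2 := mul_le_mul_of_nonneg_left a1 hB.le
    nlinarith

open Classical in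
theorem e12_tr (hT : TRStmt) {B : ℝ} (hB : 0 < B) {η : ℝ} (hη : 0 < η) :
    ∃ β δ₀ : ℝ, 0 < β ∧ 0 < δ₀ ∧ ∀ δ : ℝ, 0 < δ → δ ≤ δ₀ → ∀ L m : ℕ, MBox B δ L m →
      ∃ x : ℕ, 9 * L ≤ 10 * x ∧ x ≤ L ∧ ∀ φ ψ : Mp → Prop,
        (∀ t s, per t = L → RemE x t s → 9 * L ≤ 10 * per s → 10 * per s ≤ 11 * L → φ t → ψ s) →
        (∀ i, L ≤ 2 * i → i ≤ 2 * L → mass i ψ ≤ β * Z i) →
        AV L m (fun t => if φ t then 1 else 0) ≤ ENNReal.ofReal η := by
  obtain ⟨C₁, -, hT⟩ := hT (max 1 (B ^ 3)) (le_max_left _ _)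
  obtain ⟨C₂, L₀, hC₂, hT⟩ := hT (1 / 10) (η / 2) (by norm_num) (by positivity)
  obtain ⟨δ₀, hδ₀, hbig⟩ := e12_big hB L₀
  refine ⟨η / (2 * (C₂ + 1)), δ₀, by positivity, hδ₀, fun δ hδ hδ0 L m h => ?_⟩
  obtain ⟨x, hx1, hx2, hT⟩ := hT L m (hbig δ hδ hδ0 L m h) (e12_box hB hδ h).1 (e12_box hB hδ h).2
  refine ⟨x, ?_, hx2, fun φ ψ h1 h2 => ?_⟩
  · have : (9 : ℝ) * L ≤ 10 * x := by linarith
    exact_mod_cast this
  refine (hT (fun t => if φ t then 1 else 0) (fun _ => 0) (fun s => if ψ s then 1 else 0) 0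
    (η / (2 * (C₂ + 1))) le_rfl (by positivity) (fun t => by split_ifs <;> simp)
    (fun t s a1 _ a3 a4 => ?_) (fun i n _ => by simp [AV]) (fun i a1 a2 => ?_)).trans
      (ENNReal.ofReal_le_ofReal ?_)
  · split_ifs with b1 b2
    · simp
    · refine absurd (h1 t s a1 a3 ?_ ?_ b1) b2
      · have : (9 : ℝ) * L ≤ 10 * per s := by linarith [a4.1]
        exact_mod_cast this
      · have : (10 : ℝ) * per s ≤ 11 * L := by linarith [a4.2.1]
        exact_mod_cast this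
    · simp
    · simp
  · rw [IE_ind]
    exact ENNReal.ofReal_le_ofReal (h2 i a1 a2)
  · have : C₂ * (η / (2 * (C₂ + 1))) ≤ η / 2 := by
      rw [mul_div_assoc', div_le_div_iff₀ (by positivity) (by norm_num)]
      nlinarith
    linarith

open Classical in
/-- union bound with respect to rotations -/
theorem e12_rot {L m : ℕ} (hL : 1 ≤ L) (S : Finset ℕ) (φ : Mp → Prop)
    (Φ : (ℕ → ℕ → ℕ) → Prop)
    (h : ∀ t, ok t → per t = L → φ t → ∃ k ∈ S, ∀ D : ℕ → ℕ → ℕ,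
      (∀ p p', p ≤ 2 * L → p' ≤ 2 * L →
        D p p' = dW t (bv t ((p + k) % (2 * L))) (bv t ((p' + k) % (2 * L)))) → Φ D) :
    AV L m (fun t => if φ t then 1 else 0) ≤
      S.card * AV L m (fun t => if Φ (fun p p' => dW t (bv t p) (bv t p')) then 1 else 0) := by
  choose R hR hI using (symStmt L m hL).1
  unfold AV
  rw [← mul_div_assoc]
  refine ENNReal.div_le_div_right ?_ _
  set G : Mp → ℝ≥0∞ := fun t => if Φ (fun p p' => dW t (bv t p) (bv t p')) then 1 else 0 with hG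
  have e : ∀ k, ∑ t ∈ countaT L m, G (R k t) = ∑ t ∈ countaT L m, G t := fun k =>
    sum_nbij (R k) (fun a ha => (hR k).mapsTo ha) (hR k).injOn (hR k).surjOn fun _ _ => rfl
  calc _ ≤ ∑ t ∈ countaT L m, ∑ k ∈ S, G (R k t) := by
        refine sum_le_sum fun t ht => ?_
        split_ifs with h1
        · obtain ⟨a1, a2, -⟩ := (counta_mem L m t).1 ht
          obtain ⟨k, hk, h2⟩ := h t a1 a2 h1
          obtain ⟨e, e1, e2, -⟩ := hI k t ht
          refine le_trans ?_ (single_le_sum (f := fun k => G (R k t)) (fun _ _ => zero_le) hk)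
          simp only [hG]
          rw [if_pos]
          refine h2 _ fun p p' hp hp' => ?_
          rw [e2 p (by omega), e2 p' (by omega), e1]
        · exact zero_le
    _ = _ := by
        rw [sum_comm]
        simp only [e]
        rw [sum_const, nsmul_eq_mul]

theorem e12_eta {η : ℝ≥0∞} (hη : 0 < η) (N : ℕ) :
    ∃ η' : ℝ, 0 < η' ∧ (N : ℝ≥0∞) * ENNReal.ofReal η' ≤ η := by
  obtain ⟨r, -, h1, h2⟩ := ENNReal.lt_iff_exists_real_btwn.1 hη
  have hr : 0 < r := ENNReal.ofReal_pos.1 h1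
  refine ⟨r / (N + 1), by positivity, le_trans ?_ h2.le⟩
  rw [← ENNReal.ofReal_natCast, ← ENNReal.ofReal_mul (Nat.cast_nonneg N)]
  refine ENNReal.ofReal_le_ofReal ?_
  rw [mul_div_assoc', div_le_iff₀ (by positivity)]
  nlinarith

theorem e1_of_tr (hT : TRStmt) : E1Stmt := by
  classical
  intro B ε η hε hη
  rcases le_or_gt B 0 with hB | hB
  · refine ⟨1, 1, one_pos, one_pos, fun δ hδ _ L m h => ?_⟩
    have hL : L = 0 := by
      by_contra hL
      have h1 : (0 : ℝ) < L := by exact_mod_cast Nat.pos_of_ne_zero hL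
      have := h.2.1
      have : 0 < δ ^ 2 * L := by positivity
      linarith
    subst hL
    refine le_trans (le_of_eq ?_) zero_le
    unfold AV
    rw [sum_eq_zero, ENNReal.zero_div]
    intro t _
    rw [if_neg]
    rintro ⟨p, p', h1, h2, -, h4⟩
    obtain rfl : p' = 0 := by omega
    obtain rfl : p = 0 := by omega
    rw [dW_self] at h4
    simp only [Nat.cast_zero, mul_zero] at h4
    linarith
  obtain ⟨η', hη', hη5⟩ := e12_eta hη 5
  obtain ⟨β, δ₀, hβ, hδ₀, hT⟩ := e12_tr hT hB hη'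
  obtain ⟨δ₁, hδ₁, hbig⟩ := e12_big hB 10
  have hsB : 0 < √(2 * B) := Real.sqrt_pos.2 (by positivity)
  obtain ⟨τ, hτ, hE⟩ := M1.e1u (ε / √(2 * B)) β (by positivity) hβ
  refine ⟨min (τ / 2) (1 / 10), min δ₀ δ₁, by positivity, by positivity, fun δ hδ hδ0 L m h => ?_⟩
  set θ := min (τ / 2) (1 / 10) with hθ
  have hθ1 : θ ≤ τ / 2 := min_le_left _ _
  have hθ2 : θ ≤ 1 / 10 := min_le_right _ _
  have hL := hbig δ hδ (hδ0.trans (min_le_right _ _)) L m h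
  have hL0 : (0 : ℝ) ≤ L := Nat.cast_nonneg L
  obtain ⟨x, hx1, hx2, hT⟩ := hT δ hδ (hδ0.trans (min_le_left _ _)) L m h
  refine le_trans (e12_rot (m := m) (by omega) ((range 5).image fun i => i * (L / 2)) _
    (fun D => ∃ q q', q ≤ q' ∧ 10 * q' ≤ 9 * L ∧ (q' : ℝ) - q ≤ θ * L ∧ ε < δ * D q q')
    fun t ht hp hφ => ?_) (le_trans (mul_le_mul' ?_ (hT _ (fun s => ∃ p p', p ≤ p' ∧
      p' ≤ 2 * per s ∧ (p' : ℝ) - p ≤ τ * per s ∧
      ε / √(2 * B) * √(per s : ℝ) < dW s (bv s p) (bv s p')) ?_ ?_)) hη5)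
  · obtain ⟨p, p', h1, h2, h3, h4⟩ := hφ
    have h5 : 10 * p' ≤ 10 * p + L := by
      have : (10 : ℝ) * p' ≤ 10 * p + L := by nlinarith
      exact_mod_cast this
    have hc : 0 < L / 2 := by omega
    have h6 := Nat.div_add_mod p (L / 2)
    have h7 := Nat.mod_lt p hc
    have h8 : p / (L / 2) < 5 := by
      rw [Nat.div_lt_iff_lt_mul hc]; omega
    set k := p / (L / 2) * (L / 2) with hk
    have h9 : k + p % (L / 2) = p := by rw [hk, mul_comm]; exact h6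
    refine ⟨k, mem_image.2 ⟨_, mem_range.2 h8, rfl⟩, fun D hD => ⟨p - k, p' - k, by omega,
      by omega, ?_, ?_⟩⟩
    · rw [Nat.cast_sub (by omega), Nat.cast_sub (by omega)]; linarith
    · rw [hD _ _ (by omega) (by omega), Nat.sub_add_cancel (by omega),
        Nat.sub_add_cancel (by omega), ← hp, m2c_bv_mod t ht p (by omega),
        m2c_bv_mod t ht p' (by omega)]
      exact h4
  · exact_mod_cast card_image_le.trans (card_range 5).le
  · rintro t s a1 ⟨θ', ι, hR⟩ a2 a3 ⟨q, q', h1, h2, h3, h4⟩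
    have b1 := hR.le_s
    have b2 : (L : ℝ) ≤ 2 * per s := by exact_mod_cast (show L ≤ 2 * per s by omega)
    refine ⟨q, q', h1, by omega, by nlinarith, ?_⟩
    have b3 := e12_dW_le hR (bv s q) (bv s q')
    rw [hR.lo q (by omega), hR.lo q' (by omega)] at b3
    have b4 : (dW t (bv t q) (bv t q') : ℝ) ≤ dW s (bv s q) (bv s q') := by exact_mod_cast b3
    refine lt_of_lt_of_le ?_ b4
    have b5 : (per s : ℝ) ≤ 2 * L := by exact_mod_cast (show per s ≤ 2 * L by omega)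
    have b6 : δ * √(per s : ℝ) ≤ √(2 * B) := by
      rw [← Real.sqrt_sq hδ.le, ← Real.sqrt_mul (sq_nonneg δ)]
      refine Real.sqrt_le_sqrt ?_
      nlinarith [h.2.1, sq_nonneg δ]
    refine lt_of_mul_lt_mul_left (lt_of_le_of_lt ?_ h4) hδ.le
    have e : δ * (ε / √(2 * B) * √(per s : ℝ)) = ε * (δ * √(per s : ℝ)) / √(2 * B) := by ring
    rw [e, div_le_iff₀ hsB]
    exact mul_le_mul_of_nonneg_left b6 hε.le
  · intro i _ _
    refine (mass_mono fun s _ hs h => ?_).trans (hE i)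
    subst hs
    exact h

theorem e2_of_tr (hT : TRStmt) : E2Stmt := by
  classical
  intro B θ η hB hθ hη
  obtain ⟨η', hη', hη3⟩ := e12_eta hη 3
  obtain ⟨β, δ₀, hβ, hδ₀, hT⟩ := e12_tr hT hB hη'
  set τ := min (θ / 2) (1 / 20) with hτ
  have hτ0 : 0 < τ := by positivity
  have hτ1 : τ ≤ θ / 2 := min_le_left _ _
  have hτ2 : τ ≤ 1 / 20 := min_le_right _ _
  obtain ⟨ε, hε, L0, hE⟩ := M1.e2g τ β hτ0 hβ
  obtain ⟨δ₁, hδ₁, hbig⟩ := e12_big hB (2 * L0 + 20)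
  have hsB : 0 < √(2 * B) := Real.sqrt_pos.2 (by positivity)
  refine ⟨ε / √(2 * B), min δ₀ δ₁, by positivity, by positivity, fun δ hδ hδ0 L m h => ?_⟩
  have hL := hbig δ hδ (hδ0.trans (min_le_right _ _)) L m h
  have hL0 : (0 : ℝ) ≤ L := Nat.cast_nonneg L
  obtain ⟨x, hx1, hx2, hT⟩ := hT δ hδ (hδ0.trans (min_le_left _ _)) L m h
  set a := ⌈θ * L⌉₊ with ha
  refine le_trans (e12_rot (m := m) (by omega) {0, L / 2, L} _
    (fun D => ∃ q q', q ≤ 2 * L ∧ q' ≤ 2 * L ∧ (10 * q ≤ 8 * L ∨ 12 * L ≤ 10 * q) ∧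
      (10 * q' ≤ 8 * L ∨ 12 * L ≤ 10 * q') ∧ (q + a ≤ q' ∨ q' + a ≤ q) ∧ q' + a ≤ q + 2 * L ∧
      q + a ≤ q' + 2 * L ∧ δ * D q q' ≤ ε / √(2 * B))
    fun t ht hp hφ => ?_) (le_trans (mul_le_mul' ?_ (hT _ (fun s => ∃ p p', p ≤ p' ∧
      p' ≤ 2 * per s ∧ τ * per s ≤ (p' : ℝ) - p ∧ (p' : ℝ) - p ≤ (2 - τ) * per s ∧
      (dW s (bv s p) (bv s p') : ℝ) ≤ ε * √(per s : ℝ)) ?_ ?_)) hη3)
  · obtain ⟨p, p', h1, h2, h3, h4, h5⟩ := hφ
    have h6 : p + a ≤ p' := by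
      have : a ≤ p' - p := Nat.ceil_le.2 (by rw [Nat.cast_sub h1]; exact h3)
      omega
    have h7 : p' + a ≤ p + 2 * L := by
      have : a ≤ p + 2 * L - p' := Nat.ceil_le.2 (by
        rw [Nat.cast_sub (by omega)]; push_cast; linarith)
      omega
    obtain ⟨k, hk, q, q', b1, b2, b3⟩ : ∃ k ∈ ({0, L / 2, L} : Finset ℕ), ∃ q q',
        (q + k = p ∨ q + k = p + 2 * L) ∧ (q' + k = p' ∨ q' + k = p' + 2 * L) ∧
        q ≤ 2 * L ∧ q' ≤ 2 * L ∧ (10 * q ≤ 8 * L ∨ 12 * L ≤ 10 * q) ∧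
        (10 * q' ≤ 8 * L ∨ 12 * L ≤ 10 * q') ∧ (q + a ≤ q' ∨ q' + a ≤ q) ∧ q' + a ≤ q + 2 * L ∧
        q + a ≤ q' + 2 * L := by
      have key : ∀ k, k ≤ L → ∃ q q', (q + k = p ∨ (p < k ∧ q + k = p + 2 * L)) ∧
          (q' + k = p' ∨ (p' < k ∧ q' + k = p' + 2 * L)) := fun k hk =>
        ⟨if k ≤ p then p - k else p + 2 * L - k, if k ≤ p' then p' - k else p' + 2 * L - k,
          by split_ifs <;> omega, by split_ifs <;> omega⟩
      by_cases c0 : (10 * p ≤ 8 * L ∨ 12 * L ≤ 10 * p) ∧ (10 * p' ≤ 8 * L ∨ 12 * L ≤ 10 * p')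
      · exact ⟨0, by simp, p, p', by omega, by omega, by omega, by omega, c0.1, c0.2, by omega,
          by omega, by omega⟩
      obtain ⟨q, q', c1, c2⟩ := key (L / 2) (by omega)
      by_cases c3 : (10 * q ≤ 8 * L ∨ 12 * L ≤ 10 * q) ∧ (10 * q' ≤ 8 * L ∨ 12 * L ≤ 10 * q')
      · exact ⟨L / 2, by simp, q, q', by omega, by omega, by omega, by omega, c3.1, c3.2,
          by omega, by omega, by omega⟩
      obtain ⟨u, u', c4, c5⟩ := key L le_rfl
      exact ⟨L, by simp, u, u', by omega, by omega, by omega, by omega, by omega, by omega,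
        by omega, by omega, by omega⟩
    obtain ⟨c1, c2, c3, c4, c5, c6, c7⟩ := b3
    refine ⟨k, hk, fun D hD => ⟨q, q', c1, c2, c3, c4, c5, c6, c7, ?_⟩⟩
    have e1 : (q + k) % (2 * L) = p % (2 * L) := by
      rcases b1 with b1 | b1 <;> rw [b1]
      exact Nat.add_mod_right _ _
    have e2 : (q' + k) % (2 * L) = p' % (2 * L) := by
      rcases b2 with b2 | b2 <;> rw [b2]
      exact Nat.add_mod_right _ _
    rw [hD _ _ c1 c2, e1, e2, ← hp, m2c_bv_mod t ht p (by omega), m2c_bv_mod t ht p' (by omega)]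
    exact h5
  · exact_mod_cast card_le_three
  · rintro t s a1 ⟨θ', ι, hR⟩ a2 a3 ⟨q, q', h1, h2, h3, h4, h5, h6, h7, h8⟩
    have b1 := hR.le_s
    have hs := hR.ok_s
    have pos : ∀ q, q ≤ 2 * L → (10 * q ≤ 8 * L ∨ 12 * L ≤ 10 * q) → ∃ r, ι (bv s r) = bv t q ∧
        ((10 * q ≤ 8 * L ∧ r = q) ∨ (12 * L ≤ 10 * q ∧ r + 2 * L = q + 2 * per s)) := by
      intro q c1 c2
      rcases c2 with c2 | c2
      · exact ⟨q, hR.lo q (by omega), Or.inl ⟨c2, rfl⟩⟩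
      · refine ⟨2 * per s - (2 * L - q), ?_, Or.inr ⟨c2, by omega⟩⟩
        rw [hR.hi _ (by omega), a1]
        congr 1; omega
    obtain ⟨r, c1, c2⟩ := pos q h1 h3
    obtain ⟨r', c3, c4⟩ := pos q' h2 h4
    have b5 : (per s : ℝ) ≤ 2 * L := by exact_mod_cast (show per s ≤ 2 * L by omega)
    have b2 : (L : ℝ) ≤ 2 * per s := by exact_mod_cast (show L ≤ 2 * per s by omega)
    have hd : (dW t (bv t q) (bv t q') : ℝ) ≤ ε * √(per s : ℝ) := by
      have b6 : 1 ≤ δ * √(2 * B) * √(per s : ℝ) := by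
        rw [← Real.sqrt_sq hδ.le, ← Real.sqrt_mul (sq_nonneg δ), ← Real.sqrt_mul (by positivity)]
        refine Real.one_le_sqrt.2 ?_
        have b7 := h.1
        rw [div_le_iff₀ hB] at b7
        have := mul_le_mul_of_nonneg_left b2 (show 0 ≤ δ ^ 2 * B by positivity)
        nlinarith
      rw [le_div_iff₀ hsB] at h8
      have b8 : (0 : ℝ) ≤ dW t (bv t q) (bv t q') := Nat.cast_nonneg _
      have b9 := mul_le_mul_of_nonneg_left b6 b8
      have b10 := mul_le_mul_of_nonneg_right h8 (Real.sqrt_nonneg (per s : ℝ))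
      nlinarith
    have sep : ∀ n : ℕ, (a ≤ n ∨ L ≤ 10 * n) → τ * per s ≤ n := by
      intro n hn
      have c5 : τ * per s ≤ τ * (2 * L) := mul_le_mul_of_nonneg_left b5 hτ0.le
      rcases hn with hn | hn
      · have c6 : θ * L ≤ n := Nat.ceil_le.1 hn
        nlinarith
      · have c6 : (L : ℝ) ≤ 10 * n := by exact_mod_cast hn
        nlinarith
    have fin : ∀ u u', u ≤ u' → u' ≤ 2 * per s → (u + a ≤ u' ∨ L + 10 * u ≤ 10 * u') →
        (u' + a ≤ u + 2 * per s ∨ L + 10 * u' ≤ 10 * u + 20 * per s) →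
        dW s (bv s u) (bv s u') ≤ dW t (bv t q) (bv t q') → ∃ p p', p ≤ p' ∧
        p' ≤ 2 * per s ∧ τ * per s ≤ (p' : ℝ) - p ∧ (p' : ℝ) - p ≤ (2 - τ) * per s ∧
        (dW s (bv s p) (bv s p') : ℝ) ≤ ε * √(per s : ℝ) := by
      intro u u' d1 d2 d3 d4 d5
      have d6 := sep (u' - u) (by omega)
      have d7 := sep (u + 2 * per s - u') (by omega)
      rw [Nat.cast_sub d1] at d6
      rw [Nat.cast_sub (by omega)] at d7
      push_cast at d7
      exact ⟨u, u', d1, d2, d6, by linarith, le_trans (by exact_mod_cast d5) hd⟩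
    have hl := e12_dW_lift hR (bv s r) (bv s r')
    rw [c1, c3] at hl
    rcases hl with hl | ⟨z, d1, d2, hl⟩
    · rcases le_total r r' with d | d
      · exact fin r r' d (by omega) (by omega) (by omega) hl
      · exact fin r' r d (by omega) (by omega) (by omega) (by rwa [dW_comm hs])
    · rcases le_total r z with d | d
      · exact fin r z d (by omega) (by omega) (by omega) hl
      · exact fin z r d (by omega) (by omega) (by omega) (by rwa [dW_comm hs])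
  · intro i _ _
    refine (mass_mono fun s _ hs h => ?_).trans (hE i (by omega))
    subst hs
    exact h

end Pool.Agent.QL.M2
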