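import Pool.Agent.P.MP_7a6434d8_pr.QL.M2.BEn
import Pool.Agent.P.MP_7a6434d8_pr.RotB

/-! Embeddings of darts: least energies, isomorphisms of discs, rotations. -/

open Set
open scoped ENNReal

namespace Pool.Agent.QL

open Pool.Agent.P.MP_7a6434d8_pr Pool.Agent.P.MP_7a6434d8_pr.Mp

theorem dEg_emb {D1 D2 : Type} [Fintype D1] [Fintype D2] (a1 p1 : D1 → D1) (a2 p2 : D2 → D2)
    (θ : D1 → D2) (hθ : Function.Injective θ) (hα : ∀ d, θ (a1 d) = a2 (θ d)) (U K1 : Set D1)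
    (C1 : List (Set D1 × ℝ × ℝ)) (hK : K1 ⊆ U) (hC : ∀ c ∈ C1, c.1 ⊆ U)
    (push : ∀ f1 : D1 → ℝ, (∀ d, f1 (p1 d) = f1 d) →
      ∃ f2 : D2 → ℝ, (∀ d, f2 (p2 d) = f2 d) ∧ ∀ d ∈ U, f2 (θ d) = f1 d)
    (pull : ∀ f2 : D2 → ℝ, (∀ d, f2 (p2 d) = f2 d) →
      ∃ f1 : D1 → ℝ, (∀ d, f1 (p1 d) = f1 d) ∧ ∀ d ∈ U, f2 (θ d) = f1 d) :
    dEg a1 p1 K1 C1 = dEg a2 p2 (θ '' K1) (C1.map fun c => (θ '' c.1, c.2)) := by
  have h := m2_dEg_emb a1 p1 a2 p2 θ hθ hα U K1 _ rfl hK C1 (fun c => c.1) (fun c => θ '' c.1)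
    (fun c => c.2.1) (fun c => c.2.2) (fun _ _ => rfl) hC
    (fun f hf => (pull f hf).imp fun _ h => ⟨h.1, fun d hd => (h.2 d hd).symm⟩)
    (fun f hf => (push f hf).imp fun _ h => ⟨h.1, fun d hd => (h.2 d hd).symm⟩)
  rwa [show (C1.map fun c => (c.1, c.2.1, c.2.2)) = C1 from List.map_id' C1] at h

/-- A bijection of darts that respects the vertices induces a bijection of vertices. -/
theorem m2_vert_equiv {t s : Mp} (ht : ok t) (hs : ok s) (hp : 1 ≤ per t) (hp' : 1 ≤ per s)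
    (θ : Dt s ≃ Dt t) (h : ∀ d d', org s d = org s d' ↔ org t (θ d) = org t (θ d')) :
    ∃ e : V s ≃ V t, ∀ d, e (org s d) = org t (θ d) := by
  have s1 := org_surj t ht hp
  have s2 := org_surj s hs hp'
  have a1 : ∀ d, org t (θ (Function.surjInv s2 (org s d))) = org t (θ d) := fun d =>
    (h _ _).1 (Function.surjInv_eq s2 _)
  refine ⟨Equiv.ofBijective (fun x => org t (θ (Function.surjInv s2 x))) ⟨?_, ?_⟩, a1⟩
  · intro x y hxy
    have := (h _ _).2 hxy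
    rwa [Function.surjInv_eq s2, Function.surjInv_eq s2] at this
  · intro y
    obtain ⟨d, rfl⟩ := s1 y
    obtain ⟨d, rfl⟩ := θ.surjective d
    exact ⟨org s d, a1 d⟩

theorem m2_iso_adj {t s : Mp} (θ : Dt s ≃ Dt t) (e : V s ≃ V t)
    (ha : ∀ d, θ (al s d) = al t (θ d)) (ho : ∀ d, e (org s d) = org t (θ d)) (x y : V s) :
    adj t (e x) (e y) ↔ adj s x y := by
  rw [adj_iff_dart, adj_iff_dart]
  constructor
  · rintro ⟨d, h1, h2⟩
    obtain ⟨d, rfl⟩ := θ.surjective d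
    rw [← ha, ← ho] at h2
    rw [← ho] at h1
    exact ⟨d, e.injective h1, e.injective h2⟩
  · rintro ⟨d, rfl, rfl⟩
    exact ⟨θ d, (ho d).symm, by rw [← ha, ← ho]⟩

theorem m2_iso_dW {t s : Mp} (θ : Dt s ≃ Dt t) (e : V s ≃ V t)
    (ha : ∀ d, θ (al s d) = al t (θ d)) (ho : ∀ d, e (org s d) = org t (θ d)) (x y : V s) :
    dW t (e x) (e y) = dW s x y := by
  unfold dW
  congr 1
  ext k
  refine ⟨fun h => ?_, fun h => Within.map e (fun a b => (m2_iso_adj θ e ha ho a b).2) h⟩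
  have := Within.map (t := s) (s := t) e.symm (fun a b hab => (m2_iso_adj θ e ha ho _ _).1
    (by rwa [e.apply_symm_apply, e.apply_symm_apply])) h
  rwa [e.symm_apply_apply, e.symm_apply_apply] at this

theorem m2_iso_bset {t s : Mp} (θ : Dt s ≃ Dt t) (e : V s ≃ V t)
    (ha : ∀ d, θ (al s d) = al t (θ d)) (ho : ∀ d, e (org s d) = org t (θ d)) (x : ℕ → V s)
    (l : List (ℕ × ℕ)) : (gmT t).bset (fun i => e (x i)) l = θ '' (gmT s).bset x l := by
  ext d
  obtain ⟨d, rfl⟩ := θ.surjective d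
  refine Iff.trans ?_ θ.injective.mem_set_image.symm
  show (∃ c ∈ l, dW t (e (x c.1)) (org t (θ d)) ≤ c.2) ↔ ∃ c ∈ l, dW s (x c.1) (org s d) ≤ c.2
  simp only [← ho, m2_iso_dW θ e ha ho]

/-- Least energies of ball data along an isomorphism that conjugates `π` to `π'`. -/
theorem m2_iso_dEg {t s : Mp} (θ : Dt s ≃ Dt t) (e : V s ≃ V t)
    (ha : ∀ d, θ (al s d) = al t (θ d)) (ho : ∀ d, e (org s d) = org t (θ d))
    (π : Dt s → Dt s) (π' : Dt t → Dt t) (hπ : ∀ f : Dt t → ℝ, (∀ d, f (π' d) = f d) ↔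
      ∀ d, f (θ (π d)) = f (θ d)) (x : ℕ → V s) (j : BDat ℕ) :
    dEg (al s) π ((gmT s).bset x j.1)
        (j.2.map fun c => ((gmT s).bset x c.1, (c.2.1 : ℝ), (c.2.2 : ℝ))) =
      dEg (al t) π' ((gmT t).bset (fun i => e (x i)) j.1)
        (j.2.map fun c => ((gmT t).bset (fun i => e (x i)) c.1, (c.2.1 : ℝ), (c.2.2 : ℝ))) :=
  m2_dEg_emb (al s) π (al t) π' θ θ.injective ha univ _ _ (m2_iso_bset θ e ha ho x j.1)
    (subset_univ _) j.2 (fun c => (gmT s).bset x c.1)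
    (fun c => (gmT t).bset (fun i => e (x i)) c.1) (fun c => (c.2.1 : ℝ)) (fun c => (c.2.2 : ℝ))
    (fun c _ => m2_iso_bset θ e ha ho x c.1) (fun _ _ => subset_univ _)
    (fun f' hf => ⟨fun d => f' (θ d), (hπ f').1 hf, fun _ _ => rfl⟩)
    (fun f hf => ⟨fun d => f (θ.symm d), (hπ fun d => f (θ.symm d)).2 fun d => by
      simp only [Equiv.symm_apply_apply, hf], fun d _ => by simp only [Equiv.symm_apply_apply]⟩)

theorem m2_iso_ballE_pr {t s : Mp} (ht : ok t) (hs : ok s) (θ : Dt s ≃ Dt t) (e : V s ≃ V t)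
    (ha : ∀ d, θ (al s d) = al t (θ d)) (ho : ∀ d, e (org s d) = org t (θ d))
    (x : ℕ → V s) (j : BDat ℕ) :
    (gmT t).ballE (fun i => e (x i)) true j = (gmT s).ballE x true j := by
  refine (m2_iso_dEg θ e ha ho (fun d => ph s (al s d)) (fun d => ph t (al t d))
    (fun f => ⟨fun hf d => ?_, fun hf d => ?_⟩) x j).symm
  · refine factor_org t ht f hf _ _ ?_
    rw [← ho, ← ho, org_ph s hs, al_al]
  · obtain ⟨d, rfl⟩ := θ.surjective d
    obtain ⟨d', hd'⟩ := θ.surjective (ph t (al t (θ d)))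
    rw [← hd']
    refine factor_org s hs (fun d => f (θ d)) hf _ _ (e.injective ?_)
    rw [ho, ho, hd', org_ph t ht, al_al]

theorem m2_iso_ballE {t s : Mp} (ht : ok t) (hs : ok s) (θ : Dt s ≃ Dt t) (e : V s ≃ V t)
    (ha : ∀ d, θ (al s d) = al t (θ d)) (hp : ∀ d, θ (ph s d) = ph t (θ d))
    (ho : ∀ d, e (org s d) = org t (θ d)) (x : ℕ → V s) (pr : Bool) (j : BDat ℕ) :
    (gmT t).ballE (fun i => e (x i)) pr j = (gmT s).ballE x pr j := by
  cases pr with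
  | true => exact m2_iso_ballE_pr ht hs θ e ha ho x j
  | false =>
    refine (m2_iso_dEg θ e ha ho (ph s) (ph t) (fun f => ⟨fun hf d => ?_, fun hf d => ?_⟩) x j).symm
    · rw [hp, hf]
    · obtain ⟨d, rfl⟩ := θ.surjective d
      rw [← hp, hf]

theorem rot_data (k : ℕ) (t : Mp) (ht : ok t) :
    ∃ (θ : Dt (rotN k t) ≃ Dt t) (e : V (rotN k t) ≃ V t),
      (∀ d, θ (al _ d) = al t (θ d)) ∧ (∀ d, θ (ph _ d) = ph t (θ d)) ∧
      (∀ d, e (org _ d) = org t (θ d)) ∧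
      (∀ p, p < 2 * per t → (bd (rotN k t) p).map θ = bd t ((p + k) % (2 * per t))) ∧
      ∀ p, p ≤ 2 * per t → e (bv (rotN k t) p) = bv t ((p + k) % (2 * per t)) := by
  have hs := rotN_ok k t ht
  have hper := rotN_per k t ht
  have H := rotN_iso k t ht
  generalize rotN k t = s at hs hper H
  rcases Nat.eq_zero_or_pos (per t) with h0 | hpos
  · have e1 := eq_pt_of_per_zero t ht h0
    have e2 := eq_pt_of_per_zero s hs (hper.trans h0)
    subst e1
    subst e2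
    exact ⟨Equiv.refl _, Equiv.refl _, fun _ => rfl, fun _ => rfl, fun _ => rfl,
      fun _ _ => rfl, fun _ _ => rfl⟩
  obtain ⟨θ0, hE, hS, hr⟩ := H
  let θ : Dt s ≃ Dt t := Equiv.ofBijective θ0 ⟨hE.inj, hS⟩
  have h1 : ∀ x, θ (al s x) = al t (θ x) := hE.map_al
  have h2 : ∀ x, θ (ph s x) = ph t (θ x) := hE.map_ph
  have h1' : ∀ y, θ.symm (al t y) = al s (θ.symm y) := fun y => by
    rw [Equiv.symm_apply_eq, h1, Equiv.apply_symm_apply]
  have h2' : ∀ y, θ.symm (ph t y) = ph s (θ.symm y) := fun y => by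
    rw [Equiv.symm_apply_eq, h2, Equiv.apply_symm_apply]
  obtain ⟨e, he⟩ := m2_vert_equiv ht hs hpos (by omega) θ fun d d' =>
    ⟨rotb_org ht hs θ h1 h2 d d', fun h => by
      have := rotb_org hs ht θ.symm h1' h2' _ _ h
      rwa [Equiv.symm_apply_apply, Equiv.symm_apply_apply] at this⟩
  obtain ⟨x, hx⟩ := darta_ex hs (show 0 < 2 * per s by omega)
  rw [hx, Option.map_some] at hr
  have hb : ∀ p, p < 2 * per t → (bd s p).map θ = bd t ((p + k) % (2 * per t)) := by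
    intro p hp
    have c1 := bd_iter s hs 0 p x hx
    have c2 := bd_iter t ht _ p _ hr.symm
    rw [zero_add, Nat.mod_eq_of_lt (by omega)] at c1
    rw [Nat.mod_add_mod, add_comm k p] at c2
    rw [c1, c2, Option.map_some, rotb_iter θ h2]
    rfl
  have hv : ∀ p, p < 2 * per t → e (bv s p) = bv t ((p + k) % (2 * per t)) := by
    intro p hp
    obtain ⟨y, hy⟩ := darta_ex hs (show p < 2 * per s by omega)
    have := hb p hp
    rw [hy, Option.map_some] at this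
    rw [← org_bd s hs p y hy, he, org_bd t ht _ _ this.symm]
  refine ⟨θ, e, h1, h2, he, hb, fun p hp => ?_⟩
  rcases hp.lt_or_eq with hp | rfl
  · exact hv p hp
  · have := hv 0 (by omega)
    rw [zero_add] at this
    rw [Nat.add_mod_left, ← this, ← hper, bv_end s hs]

end Pool.Agent.QL
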