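import Pool.Agent.P.MP_7a6434d8_pr.QL.M2.Defs
import Pool.Agent.P.MP_7a6434d8_pr.QL.M2.Emb

/-! Distances and energies after a removal. -/

namespace Pool.Agent.QL.M2

open Pool.Agent.P.MP_7a6434d8_pr Pool.Agent.P.MP_7a6434d8_pr.Mp Finset
open scoped ENNReal

namespace Rem

variable {x : ℕ} {t s : Mp} {θ : Dt s → Dt t} {ι : V s → V t} (H : Rem x t s θ ι)

include H

theorem adj_map {a b : V s} (h : adj s a b) : adj t (ι a) (ι b) := by
  obtain ⟨d, rfl, rfl⟩ := (adj_iff_dart s a b).1 h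
  exact (adj_iff_dart t _ _).2 ⟨θ d, H.org_eq d, by rw [← H.θ_al, H.org_eq]⟩

theorem dW_map_le (a b : V s) : dW t (ι a) (ι b) ≤ dW s a b :=
  dW_map H.ok_s ι (fun _ _ => H.adj_map) a b

/-- a path from `ι a` stays in `s` or leaves it through the frontier -/
theorem exit (a : V s) (k : ℕ) (z : V t) (h : Within t k (ι a) z) :
    (∃ b, ι b = z ∧ dW s a b ≤ k) ∨ ∃ p, x ≤ p ∧ p + x ≤ 2 * per s ∧
      dW s a (bv s p) + dW t (ι (bv s p)) z ≤ k ∧ dW s a (bv s p) < k := by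
  induction k generalizing z with
  | zero => exact Or.inl ⟨a, h, (dW_self a).le⟩
  | succ k ih =>
    rcases h with h | ⟨y, h, hy⟩
    · rcases ih z h with ⟨b, h1, h2⟩ | ⟨p, h1, h2, h3, h4⟩
      · exact Or.inl ⟨b, h1, by omega⟩
      · exact Or.inr ⟨p, h1, h2, by omega, by omega⟩
    · rcases ih y h with ⟨b, rfl, h2⟩ | ⟨p, h1, h2, h3, h4⟩
      · obtain ⟨e, e1, e2⟩ := (adj_iff_dart t _ _).1 hy
        by_cases he : ∃ d, θ d = e
        · obtain ⟨d, rfl⟩ := he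
          have hb : org s d = b := H.ι_inj ((H.org_eq d).symm.trans e1)
          refine Or.inl ⟨org s (al s d), ?_, ?_⟩
          · rw [← H.org_eq, H.θ_al, e2]
          · have := dW_dart H.ok_s a d
            rw [hb] at this
            omega
        · obtain ⟨p, g1, g2, rfl⟩ := H.out e b (fun d hd => he ⟨d, hd⟩) e1
          have := dW_adj hy
          exact Or.inr ⟨p, g1, g2, by omega, by omega⟩
      · have := dW_step H.ok_t (ι (bv s p)) hy
        exact Or.inr ⟨p, h1, h2, by omega, by omega⟩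

theorem le_dW_or (a b : V s) : dW s a b ≤ dW t (ι a) (ι b) ∨
    ∃ p p', x ≤ p ∧ p + x ≤ 2 * per s ∧ x ≤ p' ∧ p' + x ≤ 2 * per s ∧
      dW s a (bv s p) + dW s b (bv s p') ≤ dW t (ι a) (ι b) := by
  rcases H.exit a _ _ (dW_within H.ok_t (ι a) (ι b)) with ⟨b', h1, h2⟩ | ⟨p, h1, h2, h3, -⟩
  · rw [H.ι_inj h1] at h2
    exact Or.inl h2
  · rw [dW_comm H.ok_t (ι (bv s p))] at h3
    rcases H.exit b _ _ (dW_within H.ok_t (ι b) (ι (bv s p))) with
      ⟨b', g1, g2⟩ | ⟨p', g1, g2, g3, -⟩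
    · rw [H.ι_inj g1] at g2
      exact Or.inr ⟨p, p, h1, h2, h1, h2, by omega⟩
    · exact Or.inr ⟨p, p', h1, h2, g1, g2, by omega⟩

theorem le_dW_add {Δ : ℕ} (hΔ : Front x s Δ) (a b : V s) : dW s a b ≤ dW t (ι a) (ι b) + Δ := by
  rcases H.le_dW_or a b with h | ⟨p, p', h1, h2, h3, h4, h5⟩
  · omega
  · have k1 := hΔ p p' h1 h2 h3 h4
    have k2 := dW_tri H.ok_s a (bv s p) b
    have k3 := dW_tri H.ok_s (bv s p) (bv s p') b
    rw [dW_comm H.ok_s (bv s p') b] at k3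
    omega

theorem dB_le_map (a : V s) : dB s a ≤ dB t (ι a) := by
  obtain ⟨p, hp, h⟩ := dB_ex (ι a)
  have hs := H.le_s
  have ht := H.le_t
  rw [← h]
  rcases H.exit a _ _ (dW_within H.ok_t (ι a) (bv t p)) with ⟨b, h1, h2⟩ | ⟨p', h1, h2, h3, -⟩
  · have : ∃ p', p' ≤ 2 * per s ∧ b = bv s p' := by
      by_cases c1 : p ≤ x
      · exact ⟨p, by omega, H.ι_inj (h1.trans (H.lo p c1).symm)⟩
      by_cases c2 : p + x ≤ 2 * per t
      · obtain ⟨p', g1, g2, g3⟩ := H.win p b (by omega) c2 h1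
        exact ⟨p', by omega, g3⟩
      · have := H.hi (2 * per t - p) (by omega)
        rw [show 2 * per t - (2 * per t - p) = p by omega] at this
        exact ⟨_, Nat.sub_le _ _, H.ι_inj (h1.trans this.symm)⟩
    obtain ⟨p', g1, rfl⟩ := this
    exact (dB_le a g1).trans h2
  · have := dB_le a (show p' ≤ 2 * per s by omega)
    omega

theorem dB_map_le {Δ : ℕ} (hΔ : Front x s Δ) (a : V s) : dB t (ι a) ≤ dB s a + Δ := by
  obtain ⟨p, hp, h⟩ := dB_ex a
  have hs := H.le_s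
  have ht := H.le_t
  rw [← h]
  by_cases c1 : p ≤ x
  · have k1 := dB_le (ι a) (show p ≤ 2 * per t by omega)
    have k2 := H.dW_map_le a (bv s p)
    rw [H.lo p c1] at k2
    omega
  by_cases c2 : p + x ≤ 2 * per s
  · have k1 := dB_le (ι a) (show x ≤ 2 * per t by omega)
    have k2 := H.dW_map_le a (bv s x)
    rw [H.lo x le_rfl] at k2
    have k3 := hΔ p x (by omega) c2 le_rfl (by omega)
    have k4 := dW_tri H.ok_s a (bv s p) (bv s x)
    omega
  · have k0 := H.hi (2 * per s - p) (by omega)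
    rw [show 2 * per s - (2 * per s - p) = p by omega] at k0
    have k1 := dB_le (ι a) (Nat.sub_le (2 * per t) (2 * per s - p))
    have k2 := H.dW_map_le a (bv s p)
    rw [k0] at k2
    omega

/-- balls that do not reach the boundary of `s` are the same -/
theorem lift (a : V s) (z : V t) (h : dW t (ι a) z ≤ dB s a) :
    ∃ b, ι b = z ∧ dW s a b = dW t (ι a) z := by
  rcases H.exit a _ _ (dW_within H.ok_t (ι a) z) with ⟨b, h1, h2⟩ | ⟨p, h1, h2, -, h4⟩
  · exact ⟨b, h1, le_antisymm h2 (h1 ▸ H.dW_map_le a b)⟩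
  · have := dB_le a (show p ≤ 2 * per s by omega)
    omega

theorem remc_bset_eq (u : ℕ → V s) (S : ℕ → V t) (l : List (ℕ × ℕ))
    (hl : ∀ c ∈ l, S c.1 = ι (u c.1) ∧ c.2 + 3 < dB s (u c.1)) :
    (gmT t).bset S l = θ '' (gmT s).bset u l := by
  ext e
  constructor
  · rintro ⟨c, hc, h⟩
    have h1 : dW t (S c.1) (org t e) ≤ c.2 := h
    obtain ⟨k1, k2⟩ := hl c hc
    rw [k1] at h1
    obtain ⟨y, hy, hy'⟩ := H.lift (u c.1) (org t e) (by omega)
    by_cases he : ∃ d, θ d = e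
    · obtain ⟨d, rfl⟩ := he
      refine ⟨d, ⟨c, hc, ?_⟩, rfl⟩
      show dW s (u c.1) (org s d) ≤ c.2
      rw [← H.ι_inj (hy.trans (H.org_eq d)), hy']
      exact h1
    · obtain ⟨p, g1, g2, rfl⟩ := H.out e y (fun d hd => he ⟨d, hd⟩) hy.symm
      have := dB_le (u c.1) (show p ≤ 2 * per s by omega)
      omega
  · rintro ⟨d, ⟨c, hc, h⟩, rfl⟩
    refine ⟨c, hc, ?_⟩
    show dW t (S c.1) (org t (θ d)) ≤ c.2
    rw [(hl c hc).1, H.org_eq]
    exact (H.dW_map_le _ _).trans h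

theorem remc_inner_ph (d : Dt s) : Inn s (ph s d) ↔ Inn s d := by
  have := (m2c_ph_bd s H.ok_s d).not
  simpa only [Inn, not_exists] using this

theorem remc_res_pr (f' : Dt t → ℝ) (hf : ∀ e, f' (ph t (al t e)) = f' e) :
    ∃ f : Dt s → ℝ, (∀ d, f (ph s (al s d)) = f d) ∧ ∀ d ∈ {d | Inn s d}, f d = f' (θ d) := by
  obtain ⟨g, hg⟩ := m2_factor t H.ok_t f' hf
  refine ⟨fun d => f' (θ d), fun d => ?_, fun _ _ => rfl⟩
  show f' (θ (ph s (al s d))) = f' (θ d)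
  rw [hg, hg, H.org_eq, H.org_eq, org_ph s H.ok_s, al_al]

theorem remc_res_du (f' : Dt t → ℝ) (hf : ∀ e, f' (ph t e) = f' e) :
    ∃ f : Dt s → ℝ, (∀ d, f (ph s d) = f d) ∧ ∀ d ∈ {d | Inn s d}, f d = f' (θ d) := by
  classical
  refine ⟨fun d => if Inn s d then f' (θ d) else 0, fun d => ?_, fun d hd => if_pos hd⟩
  show (if Inn s (ph s d) then f' (θ (ph s d)) else 0) = if Inn s d then f' (θ d) else 0
  by_cases hd : Inn s d
  · rw [if_pos hd, if_pos ((H.remc_inner_ph d).2 hd), H.θ_ph d hd]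
    exact hf _
  · rw [if_neg hd, if_neg (mt (H.remc_inner_ph d).1 hd)]

theorem remc_ext_pr (f : Dt s → ℝ) (hf : ∀ d, f (ph s (al s d)) = f d) :
    ∃ f' : Dt t → ℝ, (∀ e, f' (ph t (al t e)) = f' e) ∧
      ∀ d ∈ {d | Inn s d}, f d = f' (θ d) := by
  obtain ⟨g, hg⟩ := m2_factor s H.ok_s f hf
  refine ⟨fun e => Function.extend ι g 0 (org t e), fun e => ?_, fun d _ => ?_⟩
  · show Function.extend ι g 0 (org t (ph t (al t e))) = Function.extend ι g 0 (org t e)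
    rw [org_ph t H.ok_t, al_al]
  · show f d = Function.extend ι g 0 (org t (θ d))
    rw [H.org_eq, H.ι_inj.extend_apply, hg]

theorem remc_ext_du (f : Dt s → ℝ) (hf : ∀ d, f (ph s d) = f d) :
    ∃ f' : Dt t → ℝ, (∀ e, f' (ph t e) = f' e) ∧ ∀ d ∈ {d | Inn s d}, f d = f' (θ d) := by
  classical
  obtain ⟨g, hg⟩ : ∃ g : Dt s → ℝ, ∀ d, g d = if Inn s d then f d else 0 := ⟨_, fun _ => rfl⟩
  refine ⟨Function.extend θ g 0, fun e => ?_, fun d hd => ?_⟩
  · have z : ∀ e, (¬ ∃ d, Inn s d ∧ θ d = e) → Function.extend θ g 0 e = 0 := by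
      intro e he
      by_cases h : ∃ d, θ d = e
      · obtain ⟨d, rfl⟩ := h
        rw [H.θ_inj.extend_apply, hg]
        exact if_neg fun hd => he ⟨d, hd, rfl⟩
      · rw [Function.extend_apply' _ _ _ h]; rfl
    by_cases he : ∃ d, Inn s d ∧ θ d = e
    · obtain ⟨d, hd, rfl⟩ := he
      rw [← H.θ_ph d hd, H.θ_inj.extend_apply, H.θ_inj.extend_apply, hg, hg, if_pos hd,
        if_pos ((H.remc_inner_ph d).2 hd), hf]
    · rw [z e he, z]
      rintro ⟨d', hd', h'⟩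
      obtain ⟨d, rfl⟩ := (Finite.injective_iff_surjective.1 (ph_inj s H.ok_s)) d'
      have hd := (H.remc_inner_ph d).1 hd'
      rw [H.θ_ph d hd] at h'
      exact he ⟨d, hd, ph_inj t H.ok_t h'⟩
  · rw [H.θ_inj.extend_apply, hg]
    exact (if_pos hd).symm

/-- copy `SubQ.ballE_eq` of `QL/M2/Ball.lean` -/
theorem ballE_eq (u : ℕ → V s) (S : ℕ → V t) (pr : Bool) (j : BDat ℕ)
    (hj : ∀ c ∈ j.balls, S c.1 = ι (u c.1) ∧ c.2 + 3 < dB s (u c.1)) :
    (gmT t).ballE S pr j = (gmT s).ballE u pr j := by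
  have hU : ∀ l : List (ℕ × ℕ), (∀ c ∈ l, c ∈ j.balls) →
      (gmT s).bset u l ⊆ {d | Inn s d} := by
    rintro l hl d ⟨c, hc, h⟩ p hp
    have h1 : dW s (u c.1) (org s d) ≤ c.2 := h
    have h2 := dB_le (u c.1) (darta_lt H.ok_s hp).le
    rw [org_bd s H.ok_s p d hp] at h1
    have h3 := (hj c (hl c hc)).2
    omega
  have m1 : ∀ c ∈ j.1, c ∈ j.balls := fun c hc => List.mem_append_left _ hc
  have m2 : ∀ b ∈ j.2, ∀ c ∈ b.1, c ∈ j.balls := fun b hb c hc =>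
    List.mem_append_right _ (List.mem_flatMap.2 ⟨b, hb, hc⟩)
  have key := fun (π : Dt s → Dt s) (π' : Dt t → Dt t) =>
    m2_dEg_emb (al s) π (al t) π' θ H.θ_inj H.θ_al {d | Inn s d} _ _
      (H.remc_bset_eq u S j.1 fun c hc => hj c (m1 c hc)) (hU _ m1)
      j.2 (fun c => (gmT s).bset u c.1) (fun c => (gmT t).bset S c.1) (fun c => (c.2.1 : ℝ))
      (fun c => (c.2.2 : ℝ)) (fun b hb => H.remc_bset_eq u S b.1 fun c hc => hj c (m2 b hb c hc))
      (fun b hb => hU _ (m2 b hb))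
  cases pr with
  | true => exact (key _ _ H.remc_res_pr H.remc_ext_pr).symm
  | false => exact (key _ _ H.remc_res_du H.remc_ext_du).symm

end Rem

end Pool.Agent.QL.M2
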