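import Pool.Agent.P.MP_7a6434d8_pr.QL.M2.CT
import Pool.Agent.P.MP_7a6434d8_pr.QL.M2.RemC
import Pool.Agent.P.MP_7a6434d8_pr.QL.M1.E12
import Pool.Agent.P.MP_7a6434d8_pr.QL.M2.E12T

/-! Modulus of continuity of the boundary at fixed size. -/

namespace Pool.Agent.QL.M2

open Pool.Agent.P.MP_7a6434d8_pr Pool.Agent.P.MP_7a6434d8_pr.Mp Finset
open scoped ENNReal

theorem box_ratio {B δ : ℝ} {L m : ℕ} (hB : 0 < B) (hδ : 0 < δ) (h : MBox B δ L m) :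
    1 ≤ B ∧ (L : ℝ) ^ 2 ≤ B ^ 3 * m ∧ (m : ℝ) ≤ B ^ 3 * L ^ 2 := by
  have h1 : 1 ≤ B := by
    have h2 := h.1.trans h.2.1
    rw [div_le_iff₀ hB] at h2
    nlinarith
  have h2 := e12_box hB hδ h
  rw [max_eq_right (one_le_pow₀ h1)] at h2
  exact ⟨h1, h2⟩

theorem rot_dW (k : ℕ) (t : Mp) (ht : ok t) (p p' : ℕ) (hp : p ≤ 2 * per t) (hp' : p' ≤ 2 * per t) :
    dW (rotN k t) (bv _ p) (bv _ p')
      = dW t (bv t ((p + k) % (2 * per t))) (bv t ((p' + k) % (2 * per t))) := by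
  obtain ⟨θ, e, h1, -, h2, -, h3⟩ := rot_data k t ht
  rw [← h3 p hp, ← h3 p' hp', m2_iso_dW θ e h1 h2]

theorem e1Stmt : E1Stmt := e1_of_tr trStmt

end Pool.Agent.QL.M2
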