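import Pool.Agent.P.MP_7a6434d8_pr.QL.M2.E1
import Pool.Agent.P.MP_7a6434d8_pr.QL.M2.E12T

/-! Injectivity of the boundary at fixed size. -/

namespace Pool.Agent.QL.M2

open Pool.Agent.P.MP_7a6434d8_pr Pool.Agent.P.MP_7a6434d8_pr.Mp Finset
open scoped ENNReal

theorem e2Stmt : E2Stmt := e2_of_tr trStmt

end Pool.Agent.QL.M2
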