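import Pool.Agent.P.MP_7a6434d8_pr.QL.M2.E1

/-! Equicontinuity for functions that change little under small removals. -/

namespace Pool.Agent.QL.M2

open Pool.Agent.P.MP_7a6434d8_pr Pool.Agent.P.MP_7a6434d8_pr.Mp Finset
open scoped ENNReal

theorem shb_big {B : ℝ} (hB : 0 < B) (L₁ : ℝ) (hL₁ : 0 ≤ L₁) : ∃ δ₀ : ℝ, 0 < δ₀ ∧ ∀ δ : ℝ, 0 < δ →
    δ ≤ δ₀ → ∀ L m : ℕ, MBox B δ L m → L₁ ≤ L := by
  refine ⟨min 1 (1 / (B * (L₁ + 1))), by positivity, fun δ hδ hδ0 L m h => ?_⟩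
  have h1 : δ ≤ 1 := hδ0.trans (min_le_left _ _)
  have h2 : δ ≤ 1 / (B * (L₁ + 1)) := hδ0.trans (min_le_right _ _)
  have h3 := h.1
  rw [le_div_iff₀ (by positivity)] at h2
  rw [div_le_iff₀ hB] at h3
  have hL : (0 : ℝ) ≤ L := Nat.cast_nonneg L
  have h4 : δ ^ 2 * L * B ≤ δ * L * B := by
    have : δ ^ 2 ≤ δ := by nlinarith
    gcongr
  have h5 : δ * B * (L₁ + 1) ≤ δ * B * L := by nlinarith
  have h6 := le_of_mul_le_mul_left h5 (by positivity)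
  linarith

theorem shb_box {B δ : ℝ} (hB : 0 < B) {L m : ℕ} (h : MBox B δ L m) : MBox (2 * B) δ L m := by
  have h1 : 1 / (2 * B) ≤ 1 / B := one_div_le_one_div_of_le hB (by linarith)
  exact ⟨h1.trans h.1, by linarith [h.2.1], h1.trans h.2.2.1, by linarith [h.2.2.2]⟩

theorem shb_near {B δ θ : ℝ} (hB : 1 ≤ B) (hθ : 0 < θ) (h1 : θ ≤ 1 / (2 * B ^ 3)) {L m i n : ℕ}
    (h : MBox B δ L m) (hn : Near θ L m i n) : MBox (2 * B) δ i n := by
  obtain ⟨a1, a2, a3, a4⟩ := h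
  obtain ⟨b1, b2, b3, b4⟩ := hn
  have hB0 : 0 < B := by linarith
  have hB3 : 1 ≤ B ^ 3 := one_le_pow₀ hB
  rw [le_div_iff₀ (by positivity)] at h1
  have hθ2 : θ ≤ 1 / 2 := by nlinarith
  have hL : (0 : ℝ) ≤ L := Nat.cast_nonneg L
  have hd2 : 0 ≤ δ ^ 2 := sq_nonneg δ
  have hd4 : 0 ≤ δ ^ 4 := by positivity
  have e : 1 / (2 * B) = 1 / B / 2 := by field_simp
  have c1 : (L : ℝ) ≤ 2 * i := by nlinarith
  have c2 : (i : ℝ) ≤ 2 * L := by nlinarith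
  have c3 : (n : ℝ) ≤ m := Nat.cast_le.2 b4
  have c4 : (δ ^ 2 * L) ^ 2 ≤ B ^ 2 := pow_le_pow_left₀ (by positivity) a2 2
  have c5 : θ * B ^ 2 ≤ 1 / B / 2 := by
    rw [← e, le_div_iff₀ (by positivity)]
    nlinarith
  have c6 := mul_le_mul_of_nonneg_left c4 hθ.le
  have c7 := mul_le_mul_of_nonneg_left b3 hd4
  refine ⟨?_, ?_, ?_, ?_⟩
  · rw [e]
    nlinarith [mul_le_mul_of_nonneg_left c1 hd2]
  · nlinarith [mul_le_mul_of_nonneg_left c2 hd2]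
  · rw [e]
    nlinarith
  · nlinarith [mul_le_mul_of_nonneg_left c3 hd4]

theorem shb_small {B δ θ τ ε ϑ ζ : ℝ} (hB : 1 ≤ B) (hθ : 0 < θ) (h1 : θ ≤ 1 / 2)
    (h2 : θ ≤ τ / 64) (h3 : θ * B ^ 2 ≤ ϑ / 4) (h4 : ζ ≤ ϑ / 2) {L m A D x : ℕ}
    (h : MBox B δ L m) (hL : 4 / τ ≤ L) (hA : (A : ℝ) ≤ θ * L) (hD : δ ^ 4 * D ≤ ζ)
    (hx : (1 - θ) * L ≤ x) {t s : Mp} (pt : per t = L + A) (st : size t = m + D)
    (hn : Near θ L m (per s) (size s)) (mt : ModB τ δ ε t) (ms : ModB τ δ ε s) :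
    Small τ δ ε ϑ x t s := by
  obtain ⟨a1, a2, a3, a4⟩ := h
  obtain ⟨b1, b2, b3, b4⟩ := hn
  have hτ : 0 < τ := by linarith
  have hL0 : (0 : ℝ) ≤ L := Nat.cast_nonneg L
  have hd2 : 0 ≤ δ ^ 2 := sq_nonneg δ
  have hd4 : 0 ≤ δ ^ 4 := by positivity
  rw [div_le_iff₀ hτ] at hL
  have c1 : ((per t : ℝ) - x) + ((per s : ℝ) - x) ≤ 4 * θ * L := by
    rw [pt]
    push_cast
    nlinarith
  have c2 : (L : ℝ) ≤ 2 * x := by nlinarith
  have c4 : (δ ^ 2 * L) ^ 2 ≤ B ^ 2 := pow_le_pow_left₀ (by positivity) a2 2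
  refine ⟨mt, ms, ?_, ?_, by omega, ?_⟩
  · nlinarith [mul_le_mul_of_nonneg_left c2 hτ.le, mul_le_mul_of_nonneg_right h2 hL0]
  · have c5 := mul_le_mul_of_nonneg_left c1 hd2
    have c6 := mul_le_mul_of_nonneg_left a2 hθ.le
    have c7 : θ * B ≤ θ * B ^ 2 := mul_le_mul_of_nonneg_left (by nlinarith) hθ.le
    nlinarith
  · rw [st]
    push_cast
    have c6 := mul_le_mul_of_nonneg_left c4 hθ.le
    have c7 := mul_le_mul_of_nonneg_left b3 hd4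
    have c8 : 0 ≤ θ * B ^ 2 := by positivity
    nlinarith

open Classical in
theorem shb_bad {B ε : ℝ} (hε : 0 < ε) {β : ℝ≥0∞} (hβ : 0 < β) : ∃ τ δ₀ : ℝ, 0 < τ ∧ 0 < δ₀ ∧
    ∀ δ : ℝ, 0 < δ → δ ≤ δ₀ → ∀ L m, MBox B δ L m →
      AV L m (fun t => if ModB τ δ ε t then 0 else 1) ≤ β := by
  obtain ⟨τ, δ₀, h1, h2, H⟩ := e1Stmt B ε β hε hβ
  refine ⟨τ, δ₀, h1, h2, fun δ a1 a2 L m h => le_trans (AV_mono fun t _ hp _ => ?_) (H δ a1 a2 L m h)⟩
  by_cases hm : ModB τ δ ε t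
  · rw [if_pos hm]
    exact zero_le
  · rw [if_neg hm, if_pos]
    subst hp
    by_contra hn
    exact hm fun p p' b1 b2 b3 => not_lt.1 fun b4 => hn ⟨p, p', b1, b2, b3, b4⟩

/-- One step with larger perimeter and size: `ctStmt` with `ψ₂ = 0`,
`F = 1_{ModB} (g - η')`, `χ = g + 1_{not ModB}`, `χ' = 1_{ModB} g`, `ψ₁ = 2 · 1_{not ModB}`,
`F' = min 1 (g + η')` on `ModB` and `1` elsewhere; `e1Stmt` in the boxes `B` and `2 B`. -/
theorem sh_up (B ε ϑ : ℝ) (η : ℝ≥0∞) (hB : 0 < B) (hε : 0 < ε) (hϑ : 0 < ϑ) (hη : 0 < η) :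
    ∃ τ ζ δ₀ : ℝ, 0 < ζ ∧ 0 < δ₀ ∧ ∀ δ : ℝ, 0 < δ → δ ≤ δ₀ → ∀ (g : Mp → ℝ≥0∞) (η' : ℝ≥0∞),
      (∀ t, g t ≤ 1) → (∀ x t s, RemE x t s → Small τ δ ε ϑ x t s → 1 / B ≤ δ ^ 4 * size t →
        Cl η' (g t) (g s)) →
      ∀ L m A D : ℕ, MBox B δ L m → MBox B δ (L + A) (m + D) → δ ^ 2 * A ≤ ζ → δ ^ 4 * D ≤ ζ →
        AV L m g ≤ AV (L + A) (m + D) g + 2 * η' + η := by
  classical
  rcases lt_or_ge B 1 with hB1 | hB1
  · exact ⟨0, 1, 1, one_pos, one_pos, fun δ hδ _ g η' _ _ L m A D h _ _ _ =>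
      absurd (box_ratio hB hδ h).1 (not_le.2 hB1)⟩
  obtain ⟨r, -, hr1, hr2⟩ := ENNReal.lt_iff_exists_real_btwn.1 hη
  have hr : 0 < r := ENNReal.ofReal_pos.1 hr1
  obtain ⟨C₁, hC₁, hT⟩ := ctStmt (B ^ 3) (one_le_pow₀ hB1)
  obtain ⟨β, hβ⟩ : ∃ β : ℝ, β = r / (4 * (C₁ + 1)) := ⟨_, rfl⟩
  have hβ0 : 0 < β := by rw [hβ]; positivity
  have hβ1 : 4 * (C₁ + 1) * β = r := by rw [hβ]; field_simp
  obtain ⟨τ, δ₁, hτ, hδ₁, hE⟩ := shb_bad (B := 2 * B) hε (ENNReal.ofReal_pos.2 hβ0)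
  obtain ⟨θ, hθ0, hθ1, hθ2, hθ3⟩ : ∃ θ : ℝ, 0 < θ ∧ θ ≤ τ / 64 ∧ θ ≤ 1 / (2 * B ^ 3) ∧
      θ ≤ ϑ / 4 / B ^ 2 :=
    ⟨min (τ / 64) (min (1 / (2 * B ^ 3)) (ϑ / 4 / B ^ 2)), by positivity, min_le_left _ _,
      (min_le_right _ _).trans (min_le_left _ _), (min_le_right _ _).trans (min_le_right _ _)⟩
  have hθ4 : θ ≤ 1 / 2 := hθ2.trans (one_div_le_one_div_of_le two_pos
    (by linarith [one_le_pow₀ (n := 3) hB1]))
  rw [le_div_iff₀ (by positivity)] at hθ3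
  obtain ⟨C₂, ζ₁, L₀, hC₂, hζ₁, hT⟩ := hT θ (r / 2) hθ0 (by positivity)
  obtain ⟨δ₂, hδ₂, hbig⟩ := shb_big hB (max (L₀ : ℝ) (4 / τ)) (by positivity)
  obtain ⟨ζ, hζ0, hζ1, hζ2, hζ3⟩ : ∃ ζ : ℝ, 0 < ζ ∧ ζ ≤ ζ₁ / B ^ 2 ∧ ζ ≤ θ / B ^ 2 ∧ ζ ≤ ϑ / 2 :=
    ⟨min (ζ₁ / B ^ 2) (min (θ / B ^ 2) (ϑ / 2)), by positivity, min_le_left _ _,
      (min_le_right _ _).trans (min_le_left _ _), (min_le_right _ _).trans (min_le_right _ _)⟩
  rw [le_div_iff₀ (by positivity)] at hζ1 hζ2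
  refine ⟨τ, ζ, min δ₁ δ₂, hζ0, by positivity,
    fun δ hδ hδ0 g η' hg hcl L m A D h h' hA hD => ?_⟩
  replace hE := hE δ hδ (hδ0.trans (min_le_left _ _))
  have hL := hbig δ hδ (hδ0.trans (min_le_right _ _)) L m h
  have hL0 : (0 : ℝ) ≤ L := Nat.cast_nonneg L
  have a1 : 1 ≤ δ ^ 2 * L * B := (div_le_iff₀ hB).1 h.1
  have a2 : (A : ℝ) ≤ ζ * B ^ 2 * L := by
    refine le_of_mul_le_mul_left (hA.trans ?_) (show 0 < δ ^ 2 by positivity)
    have b1 : 1 ≤ δ ^ 2 * L * B * B := one_le_mul_of_one_le_of_one_le a1 hB1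
    nlinarith
  have a3 : (D : ℝ) ≤ ζ * B ^ 2 * L ^ 2 := by
    refine le_of_mul_le_mul_left (hD.trans ?_) (show 0 < δ ^ 4 by positivity)
    have b1 : 1 ≤ (δ ^ 2 * L * B) ^ 2 := one_le_pow₀ a1
    nlinarith
  have a4 : (A : ℝ) ≤ θ * L := a2.trans (mul_le_mul_of_nonneg_right hζ2 hL0)
  obtain ⟨x, hx1, hx2, hT⟩ := hT L m A D (Nat.cast_le.1 ((le_max_left _ _).trans hL))
    (box_ratio hB hδ h).2.1 (box_ratio hB hδ h).2.2
    (a2.trans (mul_le_mul_of_nonneg_right hζ1 hL0))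
    (a3.trans (mul_le_mul_of_nonneg_right hζ1 (by positivity)))
  have hL1 : 4 / τ ≤ L := (le_max_right _ _).trans hL
  have key := hT (fun t => if ModB τ δ ε t then g t - η' else 0)
    (fun t => if ModB τ δ ε t then min 1 (g t + η') else 1)
    (fun s => g s + if ModB τ δ ε s then 0 else 1) (fun s => if ModB τ δ ε s then g s else 0)
    (fun s => 2 * if ModB τ δ ε s then 0 else 1) (fun _ => 0) (2 * β) 0 (by positivity) le_rfl
    (fun t => by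
      split_ifs
      · exact tsub_le_self.trans (hg t)
      · exact zero_le)
    (fun t => by
      split_ifs
      · exact min_le_left _ _
      · exact le_rfl)
    (fun s => by
      split_ifs
      · exact hg s
      · exact zero_le)
    (fun s => by
      split_ifs
      · simp
      · rw [zero_add, add_zero, mul_one, ← one_add_one_eq_two]
        exact add_le_add_left (hg s) 1)
    (fun t s b1 b2 b3 b4 => by
      split_ifs with c1 c2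
      · rw [add_zero, tsub_le_iff_right]
        exact (hcl x t s b3 (shb_small (A := 0) (D := 0) hB1 hθ0 hθ4 hθ1 hθ3 hζ3 h hL1
          (by rw [Nat.cast_zero]; positivity) (by rw [Nat.cast_zero, mul_zero]; exact hζ0.le) hx1
          b1 b2 b4 c1 c2) (b2 ▸ h.2.2.1)).1
      · exact (tsub_le_self.trans (hg t)).trans le_add_self
      · exact zero_le
      · exact zero_le)
    (fun t s b1 b2 b3 b4 => by
      split_ifs with c1 c2
      · exact le_min (hg s) (hcl x t s b3 (shb_small hB1 hθ0 hθ4 hθ1 hθ3 hζ3 h hL1 a4 hD hx1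
          b1 b2 b4 c2 c1) (b2 ▸ h'.2.2.1)).2
      · exact hg s
      · exact zero_le
      · exact zero_le)
    (fun i n b1 => by
      rw [AV_const_mul, ENNReal.ofReal_mul zero_le_two, ENNReal.ofReal_ofNat]
      exact mul_le_mul_right (hE i n (shb_near hB1 hθ0 hθ2 h b1)) 2)
    (fun i _ _ => by
      rw [IE_const, zero_mul]
      exact zero_le)
  have k1 : AV L m g ≤ AV L m (fun t => if ModB τ δ ε t then g t - η' else 0) + η' +
      ENNReal.ofReal β := by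
    refine le_trans (AV_mono (G := fun t => (if ModB τ δ ε t then g t - η' else 0) + η' +
      if ModB τ δ ε t then 0 else 1) fun t _ _ _ => ?_) ?_
    · split_ifs
      · rw [add_zero]
        exact le_tsub_add
      · exact (hg t).trans le_add_self
    · rw [AV_add, AV_add]
      exact add_le_add (add_le_add le_rfl (AV_const_le _ _ _)) (hE L m (shb_box hB h))
  have k2 : AV (L + A) (m + D) (fun t => if ModB τ δ ε t then min 1 (g t + η') else 1) ≤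
      AV (L + A) (m + D) g + η' + ENNReal.ofReal β := by
    refine le_trans (AV_mono (G := fun t => g t + η' + if ModB τ δ ε t then 0 else 1)
      fun t _ _ _ => ?_) ?_
    · split_ifs
      · rw [add_zero]
        exact min_le_right _ _
      · exact le_add_self
    · rw [AV_add, AV_add]
      exact add_le_add (add_le_add le_rfl (AV_const_le _ _ _)) (hE _ _ (shb_box hB h'))
  have k3 : ENNReal.ofReal β + ENNReal.ofReal (r / 2 + C₁ * (2 * β) + C₂ * 0) +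
      ENNReal.ofReal β ≤ η := by
    rw [← ENNReal.ofReal_add hβ0.le (by positivity), ← ENNReal.ofReal_add (by positivity) hβ0.le]
    exact (ENNReal.ofReal_le_ofReal (by nlinarith)).trans hr2.le
  calc AV L m g ≤ AV (L + A) (m + D) g + η' + ENNReal.ofReal β +
        ENNReal.ofReal (r / 2 + C₁ * (2 * β) + C₂ * 0) + η' + ENNReal.ofReal β :=
        k1.trans (add_le_add_left (add_le_add_left (key.trans (add_le_add_left k2 _)) _) _)
    _ = AV (L + A) (m + D) g + 2 * η' + (ENNReal.ofReal β +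
        ENNReal.ofReal (r / 2 + C₁ * (2 * β) + C₂ * 0) + ENNReal.ofReal β) := by ring
    _ ≤ _ := add_le_add_right k3 _

end Pool.Agent.QL.M2
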