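import Pool.Agent.P.MP_7a6434d8_pr.QL.M2.SHa
import Pool.Agent.P.MP_7a6434d8_pr.QL.M2.SHb

/-! Equicontinuity of the law of the inner code. -/

namespace Pool.Agent.QL.M2

open Pool.Agent.P.MP_7a6434d8_pr Pool.Agent.P.MP_7a6434d8_pr.Mp Finset
open scoped ENNReal

theorem sh_cl_sub {ρ a b : ℝ≥0∞} (h : Cl ρ a b) : Cl ρ (1 - a) (1 - b) := by
  have key : ∀ a b : ℝ≥0∞, b ≤ a + ρ → 1 - a ≤ 1 - b + ρ := fun a b h => by
    rw [tsub_le_iff_right]
    calc (1 : ℝ≥0∞) ≤ 1 - b + b := le_tsub_add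
      _ ≤ 1 - b + (a + ρ) := add_le_add le_rfl h
      _ = 1 - b + ρ + a := by ring
  exact ⟨key a b h.2, key b a h.1⟩

theorem sh_compl {L m : ℕ} (hL : 1 ≤ L) {g : Mp → ℝ≥0∞} (hg : ∀ t, g t ≤ 1) :
    AV L m g + AV L m (fun t => 1 - g t) = 1 := by
  rw [← AV_add, ← AV_const L m hL 1]
  congr 1
  funext t
  rw [AV_const L m hL 1]
  exact add_tsub_cancel_of_le (hg t)

theorem sh_box_pos {B δ : ℝ} {L m : ℕ} (hB : 0 < B) (h : MBox B δ L m) : 1 ≤ L := by
  rcases Nat.eq_zero_or_pos L with rfl | h0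
  · have h1 := h.1
    have : 0 < 1 / B := by positivity
    simp only [Nat.cast_zero, mul_zero] at h1
    linarith
  · exact h0

theorem sh_max {c ζ : ℝ} (hc : 0 ≤ c) (hζ : 0 ≤ ζ) {a b : ℕ} (h : c * |(a : ℝ) - b| ≤ ζ) :
    c * ((max a b - a : ℕ) : ℝ) ≤ ζ := by
  rcases le_total a b with h1 | h1
  · rw [max_eq_right h1, Nat.cast_sub h1]
    refine le_trans (mul_le_mul_of_nonneg_left ?_ hc) h
    rw [abs_sub_comm]
    exact le_abs_self _
  · rw [max_eq_left h1, Nat.sub_self, Nat.cast_zero, mul_zero]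
    exact hζ

/-- `sh_up` for `g` from `(L, m)` to the maxima, and for `1 - g` from `(L', m')` to the maxima -/
theorem shStmt : SHStmt := by
  intro B G η hG hη
  rcases le_or_gt B 0 with hB | hB
  · refine ⟨1, 1, one_pos, one_pos, fun δ κ hδ _ _ L m L' m' h h' _ _ => ?_⟩
    have key : ∀ (c : ℝ) (a : ℕ), 0 < c → c * a ≤ B → a = 0 := fun c a hc ha => by
      by_contra h0
      have : (0 : ℝ) < a := by exact_mod_cast Nat.pos_of_ne_zero h0
      have := mul_pos hc this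
      linarith
    rw [key _ L (by positivity) h.2.1, key _ m (by positivity) h.2.2.2,
      key _ L' (by positivity) h'.2.1, key _ m' (by positivity) h'.2.2.2]
    exact le_self_add
  have hη6 : 0 < η / 6 := ENNReal.div_pos hη.ne' (by norm_num)
  obtain ⟨ε, ϑ, δ₁, hε, hϑ, hδ₁, h1⟩ := gT_close B hB G hG (η / 6) hη6
  obtain ⟨τ, ζ, δ₂, hζ, hδ₂, h2⟩ := sh_up B ε ϑ (η / 6) hB hε hϑ hη6
  refine ⟨ζ, min δ₁ δ₂, hζ, lt_min hδ₁ hδ₂, fun δ κ hδ hδ' _ L m L' m' h h' a1 a2 => ?_⟩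
  have d1 := hδ'.trans (min_le_left _ _)
  have d2 := hδ'.trans (min_le_right _ _)
  have hb : MBox B δ (max L L') (max m m') := by
    refine ⟨?_, ?_, ?_, ?_⟩
    · rcases max_choice L L' with e | e <;> rw [e]
      exacts [h.1, h'.1]
    · rcases max_choice L L' with e | e <;> rw [e]
      exacts [h.2.1, h'.2.1]
    · rcases max_choice m m' with e | e <;> rw [e]
      exacts [h.2.2.1, h'.2.2.1]
    · rcases max_choice m m' with e | e <;> rw [e]
      exacts [h.2.2.2, h'.2.2.2]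
  have hg := gT_le_one G hG δ κ
  have e1 : L + (max L L' - L) = max L L' := by omega
  have e2 : m + (max m m' - m) = max m m' := by omega
  have e3 : L' + (max L' L - L') = max L L' := by omega
  have e4 : m' + (max m' m - m') = max m m' := by omega
  have u1 := h2 δ hδ d2 (gT G δ κ) (η / 6) hg (h1 τ δ κ hδ d1) L m (max L L' - L) (max m m' - m) h
    (by rw [e1, e2]; exact hb) (sh_max (by positivity) hζ.le a1) (sh_max (by positivity) hζ.le a2)
  have u2 := h2 δ hδ d2 (fun t => 1 - gT G δ κ t) (η / 6) (fun _ => tsub_le_self)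
    (fun x t s b1 b2 b3 => sh_cl_sub (h1 τ δ κ hδ d1 x t s b1 b2 b3)) L' m' (max L' L - L')
    (max m' m - m') h' (by rw [e3, e4]; exact hb)
    (sh_max (by positivity) hζ.le (by rwa [abs_sub_comm]))
    (sh_max (by positivity) hζ.le (by rwa [abs_sub_comm]))
  rw [e1, e2] at u1
  rw [e3, e4] at u2
  have c1 := sh_compl (m := m') (sh_box_pos hB h') hg
  have c2 := sh_compl (m := max m m') (sh_box_pos hB hb) hg
  have fin : AV (max L L') (max m m') (fun t => 1 - gT G δ κ t) ≠ ⊤ :=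
    ne_top_of_le_ne_top ENNReal.one_ne_top (le_add_self.trans c2.le)
  have u3 : AV (max L L') (max m m') (gT G δ κ) ≤ AV L' m' (gT G δ κ) + (2 * (η / 6) + η / 6) := by
    refine ENNReal.le_of_add_le_add_right fin ?_
    exact (c2.trans c1.symm).le.trans ((add_le_add le_rfl u2).trans (le_of_eq (by ring)))
  have e6 : 6 * (η / 6) = η := ENNReal.mul_div_cancel (by norm_num) (by norm_num)
  calc AVS L m (fun t s => G (ocode δ κ t s)) = AV L m (gT G δ κ) := rfl
    _ ≤ AV L' m' (gT G δ κ) + (2 * (η / 6) + η / 6) + 2 * (η / 6) + η / 6 :=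
        u1.trans (add_le_add (add_le_add u3 le_rfl) le_rfl)
    _ = AV L' m' (gT G δ κ) + 6 * (η / 6) := by ring
    _ = _ := by rw [e6]; rfl

end Pool.Agent.QL.M2
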