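import Pool.Agent.P.MP_7a6434d8_pr.QL.M2.Class
import Pool.Agent.P.MP_7a6434d8_pr.DartC

/-! Transfer of least energies of ball data along embeddings of darts; distances in discs. -/

open Set
open scoped ENNReal

namespace Pool.Agent.QL

open Pool.Agent.P.MP_7a6434d8_pr Pool.Agent.P.MP_7a6434d8_pr.Mp

open Classical in
/-- The energy of `f` on `K`. -/
noncomputable def m2En {D : Type} [Fintype D] (α : D → D) (K : Set D) (f : D → ℝ) : ℝ :=
  ∑ d, if d ∈ K ∧ α d ∈ K then (f (α d) - f d) ^ 2 else 0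

theorem m2_dEg_le {D D' : Type} [Fintype D] [Fintype D'] (α π : D → D) (α' π' : D' → D')
    (K : Set D) (K' : Set D') (C : List (Set D × ℝ × ℝ)) (C' : List (Set D' × ℝ × ℝ))
    (h : ∀ f' : D' → ℝ, (∀ d, f' (π' d) = f' d) →
      (∀ c ∈ C', ∀ d ∈ c.1, f' d ∈ Icc c.2.1 c.2.2) →
      ∃ f : D → ℝ, (∀ d, f (π d) = f d) ∧ (∀ c ∈ C, ∀ d ∈ c.1, f d ∈ Icc c.2.1 c.2.2) ∧
        m2En α K f = m2En α' K' f') :
    dEg α π K C ≤ dEg α' π' K' C' := by
  unfold dEg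
  refine le_iInf fun f' => le_iInf fun h1 => le_iInf fun h2 => ?_
  obtain ⟨f, g1, g2, g3⟩ := h f' h1 h2
  refine iInf_le_of_le f (iInf_le_of_le g1 (iInf_le_of_le g2 (le_of_eq ?_)))
  exact congrArg (fun x => ENNReal.ofReal (1 / 2 * x)) g3

theorem m2En_map {D D' : Type} [Fintype D] [Fintype D'] (α : D → D) (α' : D' → D')
    (θ : D → D') (hθ : Function.Injective θ) (hα : ∀ d, θ (α d) = α' (θ d))
    (K : Set D) (K' : Set D') (hK : K' = θ '' K) (f : D → ℝ) (f' : D' → ℝ)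
    (hf : ∀ d ∈ K, f d = f' (θ d)) : m2En α K f = m2En α' K' f' := by
  classical
  unfold m2En
  refine Finset.sum_of_injOn θ hθ.injOn (fun _ _ => Finset.mem_coe.2 (Finset.mem_univ _)) ?_ ?_
  · intro e _ he
    rw [if_neg]
    rintro ⟨h1, -⟩
    rw [hK] at h1
    obtain ⟨d, -, rfl⟩ := h1
    exact he ⟨d, Finset.mem_coe.2 (Finset.mem_univ _), rfl⟩
  · intro d _
    have e1 : ∀ x, θ x ∈ K' ↔ x ∈ K := fun x => by rw [hK]; exact hθ.mem_set_image
    rw [← hα]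
    by_cases hd : d ∈ K ∧ α d ∈ K
    · rw [if_pos hd, if_pos ⟨(e1 _).2 hd.1, (e1 _).2 hd.2⟩, hf _ hd.1, hf _ hd.2]
    · rw [if_neg hd, if_neg fun h => hd ⟨(e1 _).1 h.1, (e1 _).1 h.2⟩]

theorem m2En_comp {D : Type} [Fintype D] (α : D → D) (hα : ∀ d, α (α d) = d) (K : Set D)
    (f : D → ℝ) : m2En α K (fun d => f (α d)) = m2En α K f := by
  unfold m2En
  refine Finset.sum_congr rfl fun d _ => ?_
  split_ifs
  · simp only [hα]; ring
  · rfl

/-- Transfer of the least energy along an embedding. -/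
theorem m2_dEg_emb {D D' ι : Type} [Fintype D] [Fintype D'] (α π : D → D) (α' π' : D' → D')
    (θ : D → D') (hθ : Function.Injective θ) (hα : ∀ d, θ (α d) = α' (θ d)) (U K : Set D)
    (K' : Set D') (hK : K' = θ '' K) (hKU : K ⊆ U) (l : List ι) (A : ι → Set D)
    (A' : ι → Set D') (lo hi : ι → ℝ) (hA : ∀ c ∈ l, A' c = θ '' A c) (hAU : ∀ c ∈ l, A c ⊆ U)
    (h1 : ∀ f' : D' → ℝ, (∀ d, f' (π' d) = f' d) →
      ∃ f : D → ℝ, (∀ d, f (π d) = f d) ∧ ∀ d ∈ U, f d = f' (θ d))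
    (h2 : ∀ f : D → ℝ, (∀ d, f (π d) = f d) →
      ∃ f' : D' → ℝ, (∀ d, f' (π' d) = f' d) ∧ ∀ d ∈ U, f d = f' (θ d)) :
    dEg α π K (l.map fun c => (A c, lo c, hi c)) =
      dEg α' π' K' (l.map fun c => (A' c, lo c, hi c)) := by
  refine le_antisymm (m2_dEg_le _ _ _ _ _ _ _ _ fun f' g1 g2 => ?_)
    (m2_dEg_le _ _ _ _ _ _ _ _ fun f g1 g2 => ?_)
  · obtain ⟨f, k1, k2⟩ := h1 f' g1
    refine ⟨f, k1, fun c hc d hd => ?_, m2En_map α α' θ hθ hα K K' hK f f' fun d hd =>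
      k2 d (hKU hd)⟩
    obtain ⟨c, hc', rfl⟩ := List.mem_map.1 hc
    rw [k2 d (hAU c hc' hd)]
    exact g2 _ (List.mem_map.2 ⟨c, hc', rfl⟩) (θ d)
      (show θ d ∈ A' c by rw [hA c hc']; exact ⟨d, hd, rfl⟩)
  · obtain ⟨f', k1, k2⟩ := h2 f g1
    refine ⟨f', k1, fun c hc e he => ?_, (m2En_map α α' θ hθ hα K K' hK f f' fun d hd =>
      k2 d (hKU hd)).symm⟩
    obtain ⟨c, hc', rfl⟩ := List.mem_map.1 hc
    have he' : e ∈ A' c := he
    rw [hA c hc'] at he'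
    obtain ⟨d, hd, rfl⟩ := he'
    rw [← k2 d (hAU c hc' hd)]
    exact g2 _ (List.mem_map.2 ⟨c, hc', rfl⟩) d hd

/-- Reversal of the faces does not change the least dual energy. -/
theorem m2_dEg_rev {D : Type} [Fintype D] (α φ φ' : D → D) (hα : ∀ d, α (α d) = d)
    (hφ : Function.Surjective φ) (hφ' : Function.Surjective φ')
    (h : ∀ d, φ (α (φ' d)) = α d) (K : Set D) (C : List (Set D × ℝ × ℝ))
    (hC : ∀ c ∈ C, ∀ d, φ (α d) ∈ c.1 ↔ d ∈ c.1) : dEg α φ' K C = dEg α φ K C := by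
  refine le_antisymm (m2_dEg_le _ _ _ _ _ _ _ _ fun g g1 g2 => ?_)
    (m2_dEg_le _ _ _ _ _ _ _ _ fun f g1 g2 => ?_)
  · refine ⟨fun d => g (α d), fun d => ?_, fun c hc d hd => ?_, m2En_comp α hα K g⟩
    · show g (α (φ' d)) = g (α d)
      rw [← h d, g1]
    · show g (α d) ∈ _
      rw [← g1]
      exact g2 c hc _ ((hC c hc d).2 hd)
  · have k : ∀ d, f (α (φ d)) = f (α d) := fun d => by
      obtain ⟨y, hy⟩ := hφ' (α d)
      have := h y
      rw [hy, hα] at this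
      rw [this, hα, ← hy, g1]
    refine ⟨fun d => f (α d), k, fun c hc d hd => ?_, m2En_comp α hα K f⟩
    obtain ⟨x, rfl⟩ := hφ d
    show f (α (φ x)) ∈ _
    rw [k]
    exact g2 c hc _ ((hC c hc _).1 (by rw [hα]; exact hd))

theorem m2_within_dW (t : Mp) (ht : ok t) (x y : V t) : Within t (dW t x y) x y :=
  Nat.sInf_mem (within_exists t ht x y)

theorem m2_dW_le {t : Mp} {k : ℕ} {x y : V t} (h : Within t k x y) : dW t x y ≤ k :=
  Nat.sInf_le h

theorem m2_dW_le_iff (t : Mp) (ht : ok t) (k : ℕ) (x y : V t) :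
    dW t x y ≤ k ↔ Within t k x y :=
  ⟨fun h => (m2_within_dW t ht x y).mono h, m2_dW_le⟩

theorem m2_dB_le (t : Mp) (x : V t) (p : ℕ) (hp : p ≤ 2 * per t) : dB t x ≤ dW t x (bv t p) :=
  Nat.sInf_le ⟨p, hp, rfl⟩

theorem m2_dB_ex (t : Mp) (x : V t) : ∃ p, p ≤ 2 * per t ∧ dW t x (bv t p) = dB t x :=
  Nat.sInf_mem (s := {k | ∃ p, p ≤ 2 * per t ∧ dW t x (bv t p) = k}) ⟨_, 0, Nat.zero_le _, rfl⟩

theorem m2_dW_self (t : Mp) (x : V t) : dW t x x = 0 :=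
  Nat.le_zero.1 (m2_dW_le (Within.refl t 0 x))

theorem m2_dW_comm (t : Mp) (ht : ok t) (x y : V t) : dW t x y = dW t y x :=
  le_antisymm (m2_dW_le (m2_within_dW t ht y x).symm) (m2_dW_le (m2_within_dW t ht x y).symm)

theorem m2_dW_tri (t : Mp) (ht : ok t) (x y z : V t) : dW t x z ≤ dW t x y + dW t y z :=
  m2_dW_le ((m2_within_dW t ht x y).trans (m2_within_dW t ht y z))

/-- A function of darts that is constant around vertices is a function of the origin. -/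
theorem m2_factor (t : Mp) (ht : ok t) (f : Dt t → ℝ) (hf : ∀ d, f (ph t (al t d)) = f d) :
    ∃ g : V t → ℝ, ∀ d, f d = g (org t d) := by
  classical
  refine ⟨fun x => if h : ∃ d, org t d = x then f h.choose else 0, fun d => ?_⟩
  have h : ∃ d', org t d' = org t d := ⟨d, rfl⟩
  show f d = if h : ∃ d', org t d' = org t d then f h.choose else 0
  rw [dif_pos h]
  exact factor_org t ht f hf _ _ h.choose_spec.symm

theorem m2_tail_sig {n : ℕ} (q : Quad n) (d : Fin (4 * n)) : q.tail (q.φ (q.α d)) = q.tail d :=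
  Quotient.sound (Equiv.Perm.SameCycle.symm ⟨1, by simp⟩)

theorem m2_factorQ {n : ℕ} (q : Quad n) (f : Fin (4 * n) → ℝ)
    (hf : ∀ d, f (q.φ (q.α d)) = f d) : ∃ g : q.Vertex → ℝ, ∀ d, f d = g (q.tail d) := by
  have k : ∀ (m : ℕ) d, f (((q.φ * q.α) ^ m) d) = f d := by
    intro m
    induction m with
    | zero => intro d; rfl
    | succ m ih => intro d; rw [pow_succ', Equiv.Perm.mul_apply, Equiv.Perm.mul_apply, hf, ih]
  refine ⟨Quotient.lift f fun a b hab => ?_, fun d => rfl⟩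
  obtain ⟨m, hm⟩ := Equiv.Perm.SameCycle.exists_nat_pow_eq hab
  rw [← hm, k]

end Pool.Agent.QL
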