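import Pool.Agent.P.MP_7a6434d8_pr.QL.M2.Core
import Pool.Agent.P.MP_7a6434d8_pr.QL.M1.Lip

/-! The coupling and transfer theorems. -/

namespace Pool.Agent.QL.M2

open Pool.Agent.P.MP_7a6434d8_pr Pool.Agent.P.MP_7a6434d8_pr.Mp Finset
open scoped ENNReal

theorem ct_sq (a : ℝ) {x : ℝ} (hx : 0 ≤ x) : (a * (x ^ 4 * √x)) ^ 2 = a ^ 2 * x ^ 9 := by
  rw [mul_pow, mul_pow, Real.sq_sqrt hx]; ring

theorem ct_root {a x C : ℝ} (hx : 0 ≤ x) (hC : 0 ≤ C) (h : a ^ 2 * x ^ 9 ≤ C ^ 2) :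
    a * (x ^ 4 * √x) ≤ C :=
  (le_abs_self _).trans (abs_le_of_sq_le_sq (by rwa [ct_sq a hx]) hC)

theorem ct_U (L i y : ℕ) (hL : 1 ≤ L) (h : L ≤ 4 * i) :
    cLm i y ≤ 30000 * 4 ^ 5 / ((L : ℝ) ^ 4 * √(L : ℝ)) := by
  have hL' : (0 : ℝ) < L := by exact_mod_cast hL
  rw [le_div_iff₀ (by positivity)]
  refine ct_root hL'.le (by positivity) ?_
  have h1 := cLm_le i y (by omega)
  have h2 : (L : ℝ) ≤ 4 * ((i : ℝ) + 1) := by
    have : (L : ℝ) ≤ 4 * i := by exact_mod_cast h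
    linarith
  have h3 : (L : ℝ) ^ 9 ≤ (4 * ((i : ℝ) + 1)) ^ 9 := pow_le_pow_left₀ hL'.le h2 9
  calc cLm i y ^ 2 * (L : ℝ) ^ 9 ≤ cLm i y ^ 2 * (4 * ((i : ℝ) + 1)) ^ 9 :=
        mul_le_mul_of_nonneg_left h3 (sq_nonneg _)
    _ = 4 ^ 9 * (cLm i y ^ 2 * ((i : ℝ) + 1) ^ 9) := by ring
    _ ≤ 4 ^ 9 * 30000 ^ 2 := mul_le_mul_of_nonneg_left h1 (by positivity)
    _ ≤ (30000 * 4 ^ 5) ^ 2 := by norm_num

theorem ct_low (B : ℝ) (hB : 1 ≤ B) : ∃ c : ℝ, 0 < c ∧ ∀ L m : ℕ, 1 ≤ L → (L : ℝ) ^ 2 ≤ B * m →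
    (m : ℝ) ≤ B * L ^ 2 → c ≤ cLm L m * ((L : ℝ) ^ 4 * √(L : ℝ)) := by
  have h0 : 0 < Real.exp (-(2 * B)) / (100 * (B + 2) ^ 5) := by positivity
  refine ⟨√(Real.exp (-(2 * B)) / (100 * (B + 2) ^ 5)), Real.sqrt_pos.2 h0,
    fun L m hL h1 h2 => ?_⟩
  have h3 := cLm_nonneg L m
  rw [Real.sqrt_le_left (by positivity), ct_sq _ (by positivity)]
  exact cLm_ge B hB L m hL h1 h2

theorem ct_w1 : ∃ C : ℝ, 0 < C ∧ ∀ j y : ℕ, 1 ≤ j → cLm j y * (j : ℝ) ^ 2 ≤ C * w j := by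
  obtain ⟨c, C, hc, -, h⟩ := w_bounds
  refine ⟨30000 / c, by positivity, fun j y hj => ?_⟩
  have h1 : cLm j y * (((j : ℝ) + 1) ^ 4 * √((j : ℝ) + 1)) ≤ 30000 :=
    ct_root (by positivity) (by norm_num) (cLm_le j y hj)
  have h2 := (h j).1
  have h3 := cLm_nonneg j y
  have h4 := (w_pos j).le
  rw [div_mul_eq_mul_div, le_div_iff₀ hc]
  calc cLm j y * (j : ℝ) ^ 2 * c
      ≤ cLm j y * ((j : ℝ) + 1) ^ 2 * (w j * (((j : ℝ) + 1) ^ 2 * √((j : ℝ) + 1))) := by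
        gcongr
        linarith
    _ = cLm j y * (((j : ℝ) + 1) ^ 4 * √((j : ℝ) + 1)) * w j := by ring
    _ ≤ 30000 * w j := mul_le_mul_of_nonneg_right h1 h4

theorem ct_dbl {x z : ℝ} (hx : 0 ≤ x) (h : x ≤ 2 * z) : x ^ 2 * √x ≤ 8 * (z ^ 2 * √z) := by
  have hz : 0 ≤ z := by linarith
  have h1 : √x ≤ 2 * √z := by
    rw [Real.sqrt_le_left (by positivity), mul_pow, Real.sq_sqrt hz]
    linarith
  calc x ^ 2 * √x ≤ (2 * z) ^ 2 * (2 * √z) := by gcongr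
    _ = 8 * (z ^ 2 * √z) := by ring

theorem ct_w2 : ∃ C : ℝ, 0 < C ∧ ∀ j : ℕ, 1 ≤ j → 1 ≤ C * w j * ((j : ℝ) ^ 2 * √(j : ℝ)) := by
  obtain ⟨c, C, hc, -, h⟩ := w_bounds
  refine ⟨8 / c, by positivity, fun j hj => ?_⟩
  have hj' : (1 : ℝ) ≤ j := by exact_mod_cast hj
  have h1 := ct_dbl (x := (j : ℝ) + 1) (z := j) (by positivity) (by linarith)
  have h2 := (h j).1.trans (mul_le_mul_of_nonneg_left h1 (w_pos j).le)
  rw [div_mul_eq_mul_div, div_mul_eq_mul_div, le_div_iff₀ hc]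
  linarith

theorem ct_w3 : ∃ C : ℝ, 0 < C ∧ ∀ L i : ℕ, L ≤ 2 * i → w i * ((L : ℝ) ^ 2 * √(L : ℝ)) ≤ C := by
  obtain ⟨c, C, -, hC, h⟩ := w_bounds
  refine ⟨8 * C, by positivity, fun L i hi => ?_⟩
  have hi' : (L : ℝ) ≤ 2 * i := by exact_mod_cast hi
  have h1 := ct_dbl (x := (L : ℝ)) (z := (i : ℝ) + 1) (by positivity) (by linarith)
  have h2 := mul_le_mul_of_nonneg_left h1 (w_pos i).le
  linarith [(h i).2]

theorem ct_e1 : ∃ C : ℝ, 0 < C ∧ ∀ κ ζ : ℝ, 0 < κ → κ ≤ 1 → 0 ≤ ζ → ∀ L v j A D : ℕ, 1 ≤ j →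
    κ * L ≤ j → v + 1 ≤ L ^ 2 → (A : ℝ) ≤ ζ * L → (D : ℝ) ≤ ζ * L ^ 2 →
    ∑ y ∈ range (v + 1), max (cLm j y - cLm (j + A) (y + D)) 0 ≤ C * ζ / κ ^ 4 * w j := by
  obtain ⟨C₀, hC₀, h0⟩ := Pool.Agent.QL.M1.cLm_lip
  obtain ⟨C₂, hC₂, h2⟩ := ct_w2
  refine ⟨2 * C₀ * C₂, by positivity, fun κ ζ hκ hκ1 hζ L v j A D hj hκj hv hA hD => ?_⟩
  have hj' : (0 : ℝ) < j := by exact_mod_cast hj
  have hL : (L : ℝ) ≤ j / κ := by rw [le_div_iff₀ hκ]; linarith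
  have hL2 : (L : ℝ) ^ 2 ≤ (j / κ) ^ 2 := pow_le_pow_left₀ (by positivity) hL 2
  have a1 : (A : ℝ) / j ≤ ζ / κ ^ 2 := by
    rw [div_le_iff₀ hj']
    refine hA.trans ((mul_le_mul_of_nonneg_left hL hζ).trans ?_)
    rw [div_mul_eq_mul_div, ← mul_div_assoc]
    exact div_le_div_of_nonneg_left (by positivity) (by positivity) (by nlinarith)
  have a2 : (D : ℝ) / (j : ℝ) ^ 2 ≤ ζ / κ ^ 2 := by
    rw [div_le_iff₀ (by positivity)]
    refine hD.trans ((mul_le_mul_of_nonneg_left hL2 hζ).trans_eq ?_)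
    field_simp
  have a3 : ∀ y ∈ range (v + 1), max (cLm j y - cLm (j + A) (y + D)) 0 ≤
      C₀ * (2 * (ζ / κ ^ 2)) / ((j : ℝ) ^ 4 * √(j : ℝ)) := by
    intro y _
    refine max_le ((le_abs_self _).trans ?_) (by positivity)
    rw [le_div_iff₀ (by positivity)]
    exact (h0 j y A D hj).trans (mul_le_mul_of_nonneg_left (by linarith) hC₀.le)
  have a4 : ((v + 1 : ℕ) : ℝ) ≤ (j / κ) ^ 2 := le_trans (by exact_mod_cast hv) hL2
  refine (sum_le_card_nsmul _ _ _ a3).trans ?_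
  rw [card_range, nsmul_eq_mul]
  have hs : 0 < √(j : ℝ) := Real.sqrt_pos.2 hj'
  calc ((v + 1 : ℕ) : ℝ) * (C₀ * (2 * (ζ / κ ^ 2)) / ((j : ℝ) ^ 4 * √(j : ℝ)))
      ≤ (j / κ) ^ 2 * (C₀ * (2 * (ζ / κ ^ 2)) / ((j : ℝ) ^ 4 * √(j : ℝ))) := by gcongr
    _ = 2 * C₀ * ζ / κ ^ 4 / ((j : ℝ) ^ 2 * √(j : ℝ)) * 1 := by field_simp
    _ ≤ 2 * C₀ * ζ / κ ^ 4 / ((j : ℝ) ^ 2 * √(j : ℝ)) *
          (C₂ * w j * ((j : ℝ) ^ 2 * √(j : ℝ))) :=
        mul_le_mul_of_nonneg_left (h2 j hj) (by positivity)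
    _ = 2 * C₀ * C₂ * ζ / κ ^ 4 * w j := by field_simp

theorem ct_e2 : ∃ C : ℝ, 0 < C ∧ ∀ κ β : ℝ, 0 < κ → 0 ≤ β → ∀ (L j i n M : ℕ) (ψ : Mp → ℝ≥0∞),
    1 ≤ L → 1 ≤ j → κ * L ≤ j → L ≤ 2 * i → M ≤ n + 1 → IE i ψ ≤ ENNReal.ofReal (β * Z i) →
    ∑ y ∈ range M, cLm j y * nS i (n - y) (fun s => (min (ψ s) 1).toReal) ≤
      C / κ ^ 2 * β * w j * (30000 * 4 ^ 5 / ((L : ℝ) ^ 4 * √(L : ℝ))) := by
  obtain ⟨C₁, hC₁, h1⟩ := ct_w1
  obtain ⟨C₃, hC₃, h3⟩ := ct_w3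
  refine ⟨C₁ * C₃, by positivity, fun κ β hκ hβ L j i n M ψ hL hj hκj hi hM hψ => ?_⟩
  have hL' : (0 : ℝ) < L := by exact_mod_cast hL
  have hs : 0 < √(L : ℝ) := Real.sqrt_pos.2 hL'
  have hw := w_pos j
  have a1 : ∀ y, cLm j y ≤ C₁ * w j / (κ * L) ^ 2 := by
    intro y
    rw [le_div_iff₀ (by positivity)]
    exact (mul_le_mul_of_nonneg_left (pow_le_pow_left₀ (by positivity) hκj 2)
      (cLm_nonneg j y)).trans (h1 j y hj)
  have a2 : w i ≤ C₃ / ((L : ℝ) ^ 2 * √(L : ℝ)) := by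
    rw [le_div_iff₀ (by positivity)]
    exact h3 L i hi
  calc ∑ y ∈ range M, cLm j y * nS i (n - y) (fun s => (min (ψ s) 1).toReal)
      ≤ ∑ y ∈ range M, C₁ * w j / (κ * L) ^ 2 * nS i (n - y) (fun s => (min (ψ s) 1).toReal) :=
        sum_le_sum fun y _ => mul_le_mul_of_nonneg_right (a1 y)
          (nS_nonneg fun _ => ENNReal.toReal_nonneg)
    _ ≤ C₁ * w j / (κ * L) ^ 2 * (β * (C₃ / ((L : ℝ) ^ 2 * √(L : ℝ)))) := by
        rw [← mul_sum]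
        exact mul_le_mul_of_nonneg_left ((nS_sum_le i n M hM ψ β hβ hψ).trans
          (mul_le_mul_of_nonneg_left a2 hβ)) (by positivity)
    _ = C₁ * C₃ / κ ^ 2 * β * w j * (1 / ((L : ℝ) ^ 4 * √(L : ℝ))) := by field_simp
    _ ≤ _ := by gcongr; norm_num

theorem ct_min_ne (a : ℝ≥0∞) : min a 1 ≠ ⊤ :=
  ((min_le_right _ _).trans_lt ENNReal.one_lt_top).ne

theorem ct_chi {a b c d : ℝ≥0∞} (hb : b ≤ 1) (h : a ≤ b + c + d) :
    (min a 1).toReal ≤ b.toReal + ((min c 1).toReal + (min d 1).toReal) := by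
  have hb' : b ≠ ⊤ := (hb.trans_lt ENNReal.one_lt_top).ne
  rw [← ENNReal.toReal_add (ct_min_ne c) (ct_min_ne d), ← ENNReal.toReal_add hb'
    (ENNReal.add_ne_top.2 ⟨ct_min_ne c, ct_min_ne d⟩)]
  refine ENNReal.toReal_mono
    (ENNReal.add_ne_top.2 ⟨hb', ENNReal.add_ne_top.2 ⟨ct_min_ne c, ct_min_ne d⟩⟩) ?_
  rcases le_total c 1 with hc | hc
  · rcases le_total d 1 with hd | hd
    · rw [min_eq_left hc, min_eq_left hd, ← add_assoc]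
      exact (min_le_left _ _).trans h
    · rw [min_eq_right hd]
      exact (min_le_right _ _).trans (le_add_self.trans le_add_self)
  · rw [min_eq_right hc]
    exact (min_le_right _ _).trans (le_self_add.trans le_add_self)

theorem ct_toReal_le {a : ℝ≥0∞} (h : a ≤ 1) : a.toReal ≤ 1 := by
  simpa using ENNReal.toReal_mono ENNReal.one_ne_top h

theorem ct_near {θ : ℝ} {L m h v i n : ℕ} (h1 : 1 ≤ h) (hh : (4 * h : ℝ) ≤ θ * L)
    (hv : (2 * v : ℝ) ≤ θ * L ^ 2) (a1 : L ≤ i + 2 * h + 1) (a2 : i ≤ L + h)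
    (a3 : m ≤ n + 2 * v) (a4 : n ≤ m) : Near θ L m i n := by
  have b0 : (1 : ℝ) ≤ h := by exact_mod_cast h1
  have b1 : (L : ℝ) ≤ i + 2 * h + 1 := by exact_mod_cast a1
  have b2 : (i : ℝ) ≤ L + h := by exact_mod_cast a2
  have b3 : (m : ℝ) ≤ n + 2 * v := by exact_mod_cast a3
  exact ⟨by linarith, by linarith, by linarith, a4⟩

theorem ct_final {s s' c c' U f d q : ℝ} (hc : 0 < c) (hc' : 0 < c') (h0 : 0 ≤ s') (h1 : s' ≤ c')
    (h : s ≤ s' + U * f) (hf : 0 ≤ f) (hd : |c - c'| ≤ d * c) (hq : U ≤ q * c) :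
    s / c ≤ s' / c' + (d + q * f) := by
  have a1 : s' / c' ≤ 1 := (div_le_one hc').2 h1
  have a2 : 0 ≤ s' / c' := by positivity
  have a3 : s' / c' * (c' - c) ≤ d * c := by
    have b1 : c' - c ≤ |c - c'| := by rw [abs_sub_comm]; exact le_abs_self _
    have b2 := abs_nonneg (c - c')
    nlinarith
  have a4 : s' / c' * c' = s' := div_mul_cancel₀ _ hc'.ne'
  have a5 := mul_le_mul_of_nonneg_right hq hf
  rw [div_le_iff₀ hc]
  nlinarith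

theorem ctStmt : CTStmt := by
  obtain ⟨K, hK, hcore⟩ := ct_core
  obtain ⟨C₀, hC₀, hlip⟩ := Pool.Agent.QL.M1.cLm_lip
  obtain ⟨E₁, hE₁, he1⟩ := ct_e1
  obtain ⟨E₂, hE₂, he2⟩ := ct_e2
  intro B hB
  obtain ⟨c, hc, hlow⟩ := ct_low B hB
  obtain ⟨q, hq, hq'⟩ : ∃ q : ℝ, 0 < q ∧ q * c = 30000 * 4 ^ 5 :=
    ⟨30000 * 4 ^ 5 / c, by positivity, div_mul_cancel₀ _ hc.ne'⟩
  refine ⟨q, hq.le, fun θ η hθ hη => ?_⟩
  obtain ⟨κ, hκ, hκ1, L₀, hpar⟩ := ct_par θ (η / (3 * q * K)) hθ (by positivity)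
  obtain ⟨ζ, hζ, z1, z2, z3⟩ : ∃ ζ : ℝ, 0 < ζ ∧ ζ ≤ κ / 2 ∧ ζ ≤ η * c / (6 * C₀) ∧
      ζ ≤ η * κ ^ 4 / (3 * q * E₁) :=
    ⟨min (κ / 2) (min (η * c / (6 * C₀)) (η * κ ^ 4 / (3 * q * E₁))), by positivity,
      min_le_left _ _, (min_le_right _ _).trans (min_le_left _ _),
      (min_le_right _ _).trans (min_le_right _ _)⟩
  refine ⟨q * (E₂ / κ ^ 2), ζ, L₀, by positivity, hζ, fun L m A D hL hm1 hm2 hA hD => ?_⟩
  obtain ⟨h, j₀, v, p1, p2, p3, p4, p5, p6, p7, p8, p9, p10⟩ := hpar L hL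
  have hL1 : 1 ≤ L := by omega
  have hL' : (0 : ℝ) < L := by exact_mod_cast hL1
  have hs : 0 < (L : ℝ) ^ 4 * √(L : ℝ) := by positivity
  refine ⟨L - 4 * h, ?_, Nat.sub_le _ _, ?_⟩
  · rw [Nat.cast_sub (by omega)]
    push_cast
    linarith
  intro F F' χ χ' ψ₁ ψ₂ β₁ β₂ b1 b2 hF hF' hχ' hχ hup hlo hψ₁ hψ₂
  set U : ℝ := 30000 * 4 ^ 5 / ((L : ℝ) ^ 4 * √(L : ℝ)) with hU
  have hU0 : 0 ≤ U := by positivity
  let P : Par := ⟨L, m, A, D, h, j₀, v, U, E₁ * ζ / κ ^ 4, β₁ + E₂ / κ ^ 2 * β₂⟩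
  have hκj : ∀ j : ℕ, j₀ ≤ j → κ * L ≤ j := fun j hj => p6.trans (by exact_mod_cast hj)
  have H : P.Hyp (fun s => (min (χ s) 1).toReal) (fun s => (χ' s).toReal)
      (fun s => (min (ψ₁ s) 1).toReal + (min (ψ₂ s) 1).toReal) := by
    refine ⟨p1, p2, p4, ?_, p5, fun i y hi => ct_U L i y hL1 hi, by positivity, by positivity,
      fun j hj _ => he1 κ ζ hκ hκ1 hζ.le L v j A D (p1.trans hj) (hκj j hj) p9 hA hD,
      fun j i n hj _ a1 a2 a3 a4 => ?_, fun s => ct_chi (hχ' s) (hχ s),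
      fun _ => ENNReal.toReal_nonneg, fun s => ct_toReal_le (hχ' s), fun _ => by positivity⟩
    · have a1 : (j₀ : ℝ) ≤ h := by exact_mod_cast p2
      have a2 : ζ * L ≤ κ / 2 * L := mul_le_mul_of_nonneg_right z1 hL'.le
      have a3 : (2 * A : ℝ) ≤ h := by linarith
      have a4 : 2 * A ≤ h := by exact_mod_cast a3
      change A + 2 ≤ h
      omega
    · change L ≤ i + 2 * h + 1 at a1
      change i ≤ L + h at a2
      change m ≤ n + v at a3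
      change n ≤ m at a4
      change j₀ ≤ j at hj
      change ∑ y ∈ range (min v n + 1), _ ≤ (β₁ + E₂ / κ ^ 2 * β₂) * w j * U
      simp only [nS_add, mul_add, sum_add_distrib, add_mul]
      refine add_le_add ?_ (he2 κ β₂ hκ b2 L j i n _ ψ₂ hL1 (p1.trans hj) (hκj j hj) (by omega)
        (by omega) (hψ₂ i (by omega) (by omega)))
      calc ∑ y ∈ range (min v n + 1), cLm j y * nS i (n - y) (fun s => (min (ψ₁ s) 1).toReal)
          ≤ ∑ y ∈ range (min v n + 1), cLm j y * (β₁ * U) := by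
            refine sum_le_sum fun y hy => mul_le_mul_of_nonneg_left ?_ (cLm_nonneg j y)
            have hy' := mem_range.1 hy
            refine (nS_le_of_AV i (n - y) ψ₁ β₁ b1 (hψ₁ i (n - y)
              (ct_near (by omega) p7 p8 a1 a2 (by omega) (by omega)))).trans ?_
            exact mul_le_mul_of_nonneg_left (ct_U L i _ hL1 (by omega)) b1
        _ ≤ w j * (β₁ * U) := by
            rw [← sum_mul]
            exact mul_le_mul_of_nonneg_right (cLm_sum_le j _) (by positivity)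
        _ = β₁ * w j * U := by ring
  have hnear : ∀ i n, P.Adm i n → Near θ L m i n := fun i n a =>
    ct_near (by omega) p7 p8 a.1 a.2.1 a.2.2.1 a.2.2.2
  have key := hcore P _ _ _ H (fun t => (F t).toReal) (fun t => (F' t).toReal)
    ⟨fun t => ct_toReal_le (hF t), fun t s a1 a2 a3 a4 => ENNReal.toReal_mono (ct_min_ne _)
      (le_min (hup t s a1 a2 a3 (hnear _ _ a4)) (hF t))⟩
    ⟨fun _ => ENNReal.toReal_nonneg, fun t s a1 a2 a3 a4 => ENNReal.toReal_mono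
      ((hF' t).trans_lt ENNReal.one_lt_top).ne (hlo t s a1 a2 a3 (hnear _ _ a4))⟩
  simp only [Par.pot, P, sub_self, zero_div, add_zero, ne_eq, OfNat.ofNat_ne_zero,
    not_false_eq_true, zero_pow] at key
  have hcl := hlow L m hL1 hm1 hm2
  have hc1 := cLm_pos L m hL1
  have hc2 := cLm_pos (L + A) (m + D) (by omega)
  have hd : |cLm L m - cLm (L + A) (m + D)| ≤ η / 3 * cLm L m := by
    have a1 : (A : ℝ) / L ≤ ζ := by rwa [div_le_iff₀ hL']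
    have a2 : (D : ℝ) / (L : ℝ) ^ 2 ≤ ζ := by rwa [div_le_iff₀ (by positivity)]
    have a3 := (hlip L m A D hL1).trans (mul_le_mul_of_nonneg_left (add_le_add a1 a2) hC₀.le)
    rw [le_div_iff₀ (by positivity)] at z2
    refine le_of_mul_le_mul_right (a3.trans ?_) hs
    have a4 := mul_le_mul_of_nonneg_left hcl hη.le
    linarith
  have hq2 : U ≤ q * cLm L m := by
    rw [hU, div_le_iff₀ hs, ← hq', mul_assoc]
    exact mul_le_mul_of_nonneg_left hcl hq.le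
  have hfin := ct_final hc1 hc2 (nS_nonneg fun _ => ENNReal.toReal_nonneg)
    (nS_le fun t => ct_toReal_le (hF' t)) key (by positivity) hd hq2
  rw [AV_eq L m hL1 F hF, AV_eq (L + A) (m + D) (by omega) F' hF', ← ENNReal.ofReal_add
    (div_nonneg (nS_nonneg fun _ => ENNReal.toReal_nonneg) hc2.le) (by positivity)]
  refine ENNReal.ofReal_le_ofReal (hfin.trans (add_le_add le_rfl ?_))
  have a1 : q * (K * ((j₀ : ℝ) / h + ((h : ℝ) + 1) ^ 2 / v)) ≤ η / 3 := by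
    rw [le_div_iff₀ (by positivity)] at p10
    linarith
  have a2 : q * (E₁ * ζ / κ ^ 4) ≤ η / 3 := by
    rw [le_div_iff₀ (by positivity)] at z3
    rw [← mul_div_assoc, div_le_iff₀ (by positivity)]
    linarith
  linarith

theorem trStmt : TRStmt := tr_of_ct ctStmt

end Pool.Agent.QL.M2
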