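import Pool.Agent.P.MP_7a6434d8_pr.QL.M2.RemC

/-! Closeness of the codes after a small removal. -/

namespace Pool.Agent.QL.M2

open Pool.Agent.P.MP_7a6434d8_pr Pool.Agent.P.MP_7a6434d8_pr.Mp Finset
open scoped ENNReal

variable {x : ℕ} {t s : Mp} {θ : Dt s → Dt t} {ι : V s → V t} {τ δ ε ϑ : ℝ}

theorem close_mod (ht : ok t) (h : ModB τ δ ε t) {p p' : ℕ} (hp : p ≤ 2 * per t)
    (hp' : p' ≤ 2 * per t) (h1 : (p' : ℝ) - p ≤ τ * per t) (h2 : (p : ℝ) - p' ≤ τ * per t) :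
    δ * dW t (bv t p) (bv t p') ≤ ε := by
  rcases le_total p p' with h3 | h3
  · exact h p p' h3 hp' h1
  · rw [dW_comm ht]
    exact h p' p h3 hp h2

theorem close_win (H : Rem x t s θ ι) (M : Small τ δ ε ϑ x t s) :
    (x : ℝ) ≤ per t ∧ (x : ℝ) ≤ per s ∧
      4 * (((per t : ℝ) - x) + ((per s : ℝ) - x)) + 1 ≤ τ * per t ∧
      4 * (((per t : ℝ) - x) + ((per s : ℝ) - x)) + 1 ≤ τ * per s := by
  have h1 : (x : ℝ) ≤ per t := by exact_mod_cast H.le_t
  have h2 : (x : ℝ) ≤ per s := by exact_mod_cast H.le_s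
  have h3 := M.win
  have h4 : (0 : ℝ) ≤ x := Nat.cast_nonneg x
  have h5 : 0 ≤ τ := by
    by_contra h
    push Not at h
    nlinarith
  exact ⟨h1, h2, h3.trans (mul_le_mul_of_nonneg_left h1 h5),
    h3.trans (mul_le_mul_of_nonneg_left h2 h5)⟩

theorem close_bpos (L : ℕ) (y : ℚ) : bpos L y ≤ 2 * L ∧
    (bpos L y : ℝ) ≤ 2 * L * ((Int.fract y : ℚ) : ℝ) ∧
      2 * L * ((Int.fract y : ℚ) : ℝ) < bpos L y + 1 := by
  have h0 : (0 : ℚ) ≤ Int.fract y := Int.fract_nonneg y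
  have h1 : Int.fract y < 1 := Int.fract_lt_one y
  have hL : (0 : ℚ) ≤ L := Nat.cast_nonneg L
  have h2 : (0 : ℚ) ≤ 2 * (L : ℚ) * Int.fract y := by positivity
  have h3 : ((bpos L y : ℕ) : ℚ) ≤ 2 * (L : ℚ) * Int.fract y := Nat.floor_le h2
  have h4 : 2 * (L : ℚ) * Int.fract y < (bpos L y : ℕ) + 1 := Nat.lt_floor_add_one _
  refine ⟨?_, by exact_mod_cast h3, by exact_mod_cast h4⟩
  have h5 : ((bpos L y : ℕ) : ℚ) ≤ 2 * (L : ℚ) := by nlinarith
  exact_mod_cast h5

theorem Small.front (H : Rem x t s θ ι) (hδ : 0 < δ) (M : Small τ δ ε ϑ x t s) :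
    Front x s ⌊ε / δ⌋₊ ∧ 0 ≤ ε := by
  obtain ⟨h1, h2, -, h4⟩ := close_win H M
  constructor
  · intro p p' a1 a2 a3 a4
    have b1 : (x : ℝ) ≤ p := by exact_mod_cast a1
    have b2 : (p : ℝ) + x ≤ 2 * per s := by exact_mod_cast a2
    have b3 : (x : ℝ) ≤ p' := by exact_mod_cast a3
    have b4 : (p' : ℝ) + x ≤ 2 * per s := by exact_mod_cast a4
    have h := close_mod H.ok_s M.mod_s (p := p) (p' := p') (by omega) (by omega) (by linarith)
      (by linarith)
    refine Nat.le_floor ?_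
    rw [le_div_iff₀ hδ]
    linarith
  · have h := M.mod_s 0 0 le_rfl (Nat.zero_le _) (by simp only [sub_self]; linarith)
    exact le_trans (by positivity) h

/-- `p₀ = p`, `2 per s - (2 per t - p)` or `x`, where `p = bpos (per t) y` -/
theorem Small.pos (H : Rem x t s θ ι) (hδ : 0 < δ) (M : Small τ δ ε ϑ x t s) (y : ℚ) :
    ∃ p₀, δ * dW t (bv t (bpos (per t) y)) (ι (bv s p₀)) ≤ ε ∧
      δ * dW s (bv s p₀) (bv s (bpos (per s) y)) ≤ ε := by
  obtain ⟨h1, h2, h3, h4⟩ := close_win H M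
  have hε := (Small.front H hδ M).2
  obtain ⟨a1, a2, a3⟩ := close_bpos (per t) y
  obtain ⟨b1, b2, b3⟩ := close_bpos (per s) y
  have f0 : (0 : ℝ) ≤ ((Int.fract y : ℚ) : ℝ) := by exact_mod_cast Int.fract_nonneg y
  have f1 : ((Int.fract y : ℚ) : ℝ) ≤ 1 := by exact_mod_cast (Int.fract_lt_one y).le
  generalize ((Int.fract y : ℚ) : ℝ) = f at a2 a3 b2 b3 f0 f1
  generalize bpos (per t) y = p at a1 a2 a3 ⊢
  generalize bpos (per s) y = q at b1 b2 b3 ⊢
  have lt := H.le_t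
  have ls := H.le_s
  have g1 : 0 ≤ ((per t : ℝ) - x) * f := mul_nonneg (by linarith) f0
  have g2 : 0 ≤ ((per s : ℝ) - x) * f := mul_nonneg (by linarith) f0
  have g3 : 0 ≤ ((per t : ℝ) - x) * (1 - f) := mul_nonneg (by linarith) (by linarith)
  have g4 : 0 ≤ ((per s : ℝ) - x) * (1 - f) := mul_nonneg (by linarith) (by linarith)
  by_cases c1 : p ≤ x
  · refine ⟨p, ?_, close_mod H.ok_s M.mod_s (by omega) b1 (by nlinarith) (by nlinarith)⟩
    rw [H.lo p c1, dW_self]
    simpa using hε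
  by_cases c2 : 2 * per t - p ≤ x
  · have e1 : ((2 * per s - (2 * per t - p) : ℕ) : ℝ) = 2 * per s - (2 * per t - p) := by
      rw [Nat.cast_sub (by omega), Nat.cast_sub a1]
      push_cast
      ring
    refine ⟨2 * per s - (2 * per t - p), ?_, close_mod H.ok_s M.mod_s (by omega) b1
      (by rw [e1]; nlinarith) (by rw [e1]; nlinarith)⟩
    rw [H.hi _ c2, Nat.sub_sub_self a1, dW_self]
    simpa using hε
  · have d1 : (x : ℝ) ≤ p := by exact_mod_cast (by omega : x ≤ p)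
    have d2 : (p : ℝ) + x ≤ 2 * per t := by exact_mod_cast (by omega : p + x ≤ 2 * per t)
    refine ⟨x, ?_, close_mod H.ok_s M.mod_s (by omega) b1 (by nlinarith) (by nlinarith)⟩
    rw [H.lo x le_rfl]
    exact close_mod H.ok_t M.mod_t a1 (by omega) (by linarith) (by linarith)

theorem close_ofReal {ρ a b : ℝ} (h1 : a ≤ b + ρ) (h2 : b ≤ a + ρ) :
    Cl (ENNReal.ofReal ρ) (ENNReal.ofReal a) (ENNReal.ofReal b) :=
  ⟨(ENNReal.ofReal_le_ofReal h1).trans ENNReal.ofReal_add_le,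
    (ENNReal.ofReal_le_ofReal h2).trans ENNReal.ofReal_add_le⟩

theorem close_floor (hδ : 0 < δ) (hε : 0 ≤ ε) : δ * (⌊ε / δ⌋₊ : ℝ) ≤ ε := by
  have h : (⌊ε / δ⌋₊ : ℝ) ≤ ε / δ := Nat.floor_le (by positivity)
  rw [le_div_iff₀ hδ] at h
  linarith

theorem close_th (H : Rem x t s θ ι) (M : Small τ δ ε ϑ x t s) : 0 ≤ ϑ := by
  obtain ⟨h1, h2, -, -⟩ := close_win H M
  exact le_trans (mul_nonneg (sq_nonneg δ) (by linarith)) M.len

theorem close_pair (H : Rem x t s θ ι) (hδ : 0 < δ) (M : Small τ δ ε ϑ x t s) {a a' : V t}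
    {b b' : V s} (h : ∃ c, δ * dW t a (ι c) ≤ ε ∧ δ * dW s c b ≤ ε)
    (h' : ∃ c, δ * dW t a' (ι c) ≤ ε ∧ δ * dW s c b' ≤ ε) :
    Cl (ENNReal.ofReal (5 * ε + ϑ)) (ENNReal.ofReal (δ * dW t a a'))
      (ENNReal.ofReal (δ * dW s b b')) := by
  obtain ⟨c, h1, h2⟩ := h
  obtain ⟨c', h1', h2'⟩ := h'
  obtain ⟨hF, hε⟩ := Small.front H hδ M
  have hϑ := close_th H M
  have hΔ := close_floor hδ hε
  have ht := H.ok_t
  have hs := H.ok_s
  have n1 : dW t a a' ≤ dW s b b' + (dW t a (ι c) + dW s c b + dW t a' (ι c') + dW s c' b') := by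
    have k1 := dW_tri ht a (ι c) a'
    have k2 := dW_tri ht (ι c) (ι c') a'
    have k3 := H.dW_map_le c c'
    have k4 := dW_tri hs c b c'
    have k5 := dW_tri hs b b' c'
    have k6 := dW_comm ht (ι c') a'
    have k7 := dW_comm hs b' c'
    omega
  have n2 : dW s b b' ≤ dW t a a' + (dW t a (ι c) + dW s c b + dW t a' (ι c') + dW s c' b')
      + ⌊ε / δ⌋₊ := by
    have k1 := dW_tri hs b c b'
    have k2 := dW_tri hs c c' b'
    have k3 := H.le_dW_add hF c c'
    have k4 := dW_tri ht (ι c) a (ι c')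
    have k5 := dW_tri ht a a' (ι c')
    have k6 := dW_comm ht (ι c) a
    have k7 := dW_comm hs b c
    omega
  have m1 : (dW t a a' : ℝ) ≤
      dW s b b' + (dW t a (ι c) + dW s c b + dW t a' (ι c') + dW s c' b') := by
    exact_mod_cast n1
  have m2 : (dW s b b' : ℝ) ≤
      dW t a a' + (dW t a (ι c) + dW s c b + dW t a' (ι c') + dW s c' b') + ⌊ε / δ⌋₊ := by
    exact_mod_cast n2
  have l1 := mul_le_mul_of_nonneg_left m1 hδ.le
  have l2 := mul_le_mul_of_nonneg_left m2 hδ.le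
  exact close_ofReal (by linarith) (by linarith)

theorem close_dB (H : Rem x t s θ ι) (hδ : 0 < δ) (M : Small τ δ ε ϑ x t s) (a : V s) :
    δ * dB s a ≤ δ * dB t (ι a) ∧ δ * dB t (ι a) ≤ δ * dB s a + ε := by
  obtain ⟨hF, hε⟩ := Small.front H hδ M
  have hΔ := close_floor hδ hε
  have m1 : (dB s a : ℝ) ≤ dB t (ι a) := by exact_mod_cast H.dB_le_map a
  have m2 : (dB t (ι a) : ℝ) ≤ dB s a + ⌊ε / δ⌋₊ := by exact_mod_cast H.dB_map_le hF a
  have l2 := mul_le_mul_of_nonneg_left m2 hδ.le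
  exact ⟨mul_le_mul_of_nonneg_left m1 hδ.le, by linarith⟩

theorem gcode_close (H : Rem x t s θ ι) (hδ : 0 < δ) (M : Small τ δ ε ϑ x t s) (N : ℕ)
    (S : ℕ → V t) (u : ℕ → V s) (hS : ∀ i, i < N → S i = ι (u i)) (a : GIdx) (ha : GLt N a) :
    Cl (ENNReal.ofReal (5 * ε + ϑ)) (gcode δ t S a) (gcode δ s u a) := by
  have hε := (Small.front H hδ M).2
  have hϑ := close_th H M
  have hsm : ∀ i, i < N → ∃ c, δ * dW t (S i) (ι c) ≤ ε ∧ δ * dW s c (u i) ≤ ε := by
    intro i hi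
    refine ⟨u i, ?_, ?_⟩
    · rw [hS i hi, dW_self]
      simpa using hε
    · rw [dW_self]
      simpa using hε
  have hpos : ∀ y : ℚ, ∃ c, δ * dW t (bv t (bpos (per t) y)) (ι c) ≤ ε ∧
      δ * dW s c (bv s (bpos (per s) y)) ≤ ε := fun y =>
    (Small.pos H hδ M y).elim fun p hp => ⟨_, hp⟩
  cases a with
  | len =>
    obtain ⟨h1, h2, -, -⟩ := close_win H M
    have h3 := M.len
    have g1 : 0 ≤ δ ^ 2 * ((per t : ℝ) - x) := mul_nonneg (sq_nonneg δ) (by linarith)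
    have g2 : 0 ≤ δ ^ 2 * ((per s : ℝ) - x) := mul_nonneg (sq_nonneg δ) (by linarith)
    exact close_ofReal (by nlinarith) (by nlinarith)
  | area =>
    have h1 : (size s : ℝ) ≤ size t := by exact_mod_cast M.size_le
    have h2 := M.area
    have g1 : 0 ≤ δ ^ 4 * ((size t : ℝ) - size s) := mul_nonneg (by positivity) (by linarith)
    exact close_ofReal (by nlinarith) (by nlinarith)
  | d i j => exact close_pair H hδ M (hsm i ha.1) (hsm j ha.2)
  | f i =>
    obtain ⟨h1, h2⟩ := close_dB H hδ M (u i)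
    rw [← hS i ha] at h1 h2
    exact close_ofReal (by linarith) (by linarith)
  | b i y => exact close_pair H hδ M (hsm i ha) (hpos y)
  | e y y' => exact close_pair H hδ M (hpos y) (hpos y')

theorem close_cut_le (r : ℚ) (f : ℝ) : cut r f ≤ 1 := by
  unfold cut
  split_ifs
  · exact ENNReal.ofReal_le_one.2 (min_le_left _ _)
  · exact zero_le_one

theorem close_cut_lip {r' : ℚ} {r f g : ℝ} (hr : 0 < r) (hε : 0 ≤ ε)
    (h : 0 < r' → r ≤ (r' : ℝ)) (hfg : f ≤ g + ε) :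
    cut r' f ≤ cut r' g + ENNReal.ofReal (ε / r) := by
  unfold cut
  split_ifs with h0
  · have h1 := h h0
    have h2 : (0 : ℝ) < r' := by exact_mod_cast h0
    refine (ENNReal.ofReal_le_ofReal ?_).trans ENNReal.ofReal_add_le
    have h3 : ε / r' ≤ ε / r := div_le_div_of_nonneg_left hε hr h1
    have h4 : (f - 2 * r') / r' ≤ (g - 2 * r') / r' + ε / r' := by
      rw [← add_div]
      exact div_le_div_of_nonneg_right (by linarith) h2.le
    have h5 : 0 ≤ ε / r := by positivity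
    rcases le_total 1 ((g - 2 * r') / r') with h6 | h6
    · rw [min_eq_left h6]
      linarith [min_le_left 1 ((f - 2 * r') / r')]
    · rw [min_eq_right h6]
      linarith [min_le_right 1 ((f - 2 * r') / r')]
  · exact zero_le

theorem close_cut_zero {r' : ℚ} {f : ℝ} (h : 0 < r' → f ≤ 2 * r') : cut r' f = 0 := by
  unfold cut
  split_ifs with h0
  · have h2 : (0 : ℝ) < r' := by exact_mod_cast h0
    refine ENNReal.ofReal_eq_zero.2 ((min_le_right _ _).trans ?_)
    exact div_nonpos_of_nonpos_of_nonneg (by linarith [h h0]) h2.le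
  · rfl

theorem close_prod_le_one {α : Type} (l : List α) (f : α → ℝ≥0∞) (hf : ∀ c, f c ≤ 1) :
    (l.map f).prod ≤ 1 := by
  induction l with
  | nil => simp
  | cons c l ih =>
    rw [List.map_cons, List.prod_cons]
    exact mul_le_one' (hf c) ih

theorem close_prod {α : Type} (l : List α) (f g : α → ℝ≥0∞) (ρ : ℝ≥0∞) (hf : ∀ c, f c ≤ 1)
    (hg : ∀ c, g c ≤ 1) (h : ∀ c ∈ l, f c ≤ g c + ρ) :
    (l.map f).prod ≤ (l.map g).prod + l.length * ρ := by
  induction l with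
  | nil => simp
  | cons c l ih =>
    have h1 := h c List.mem_cons_self
    have h2 := ih fun d hd => h d (List.mem_cons_of_mem c hd)
    have h3 := close_prod_le_one l f hf
    rw [List.map_cons, List.prod_cons, List.map_cons, List.prod_cons, List.length_cons]
    calc f c * (l.map f).prod ≤ (g c + ρ) * (l.map f).prod := by gcongr
      _ = g c * (l.map f).prod + ρ * (l.map f).prod := add_mul _ _ _
      _ ≤ g c * ((l.map g).prod + l.length * ρ) + ρ * 1 := by gcongr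
      _ = g c * (l.map g).prod + g c * (l.length * ρ) + ρ := by rw [mul_add, mul_one]
      _ ≤ g c * (l.map g).prod + 1 * (l.length * ρ) + ρ := by
        gcongr
        exact hg c
      _ = g c * (l.map g).prod + ((l.length + 1 : ℕ) : ℝ≥0∞) * ρ := by
        push_cast
        ring

theorem close_mul {a b ρ e : ℝ≥0∞} (he : e ≤ 1) (h : a ≤ b + ρ) : a * e ≤ b * e + ρ :=
  calc a * e ≤ (b + ρ) * e := by gcongr
    _ = b * e + ρ * e := add_mul _ _ _
    _ ≤ b * e + ρ * 1 := by gcongr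
    _ = b * e + ρ := by rw [mul_one]

theorem close_balls (δ : ℝ) (j : BDat ℚ) :
    (j.toN δ).balls = j.balls.map fun c : ℕ × ℚ => (c.1, ⌊(c.2 : ℝ) / δ⌋₊) := by
  simp only [BDat.toN, BDat.balls, BDat.map, List.map_append, List.flatMap_map,
    List.map_flatMap]

/-- either all balls are far from the boundary of `s` (`Rem.ballE_eq`, the cut-offs are
Lipschitz), or one cut-off vanishes on both sides -/
theorem ecode_close (H : Rem x t s θ ι) (hδ : 0 < δ) (M : Small τ δ ε ϑ x t s) (κ r : ℝ)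
    (hr : 0 < r) (hεr : 3 * δ + ε ≤ r) (S : ℕ → V t) (u : ℕ → V s) (b : Bool × BDat ℚ)
    (hb : ∀ c ∈ b.2.balls, S c.1 = ι (u c.1) ∧ (0 < c.2 → r ≤ (c.2 : ℝ))) :
    Cl (ENNReal.ofReal (b.2.balls.length * (ε / r))) (ecode δ κ t S b) (ecode δ κ s u b) := by
  have hε := (Small.front H hδ M).2
  by_cases hc : ∀ c ∈ b.2.balls, ⌊(c.2 : ℝ) / δ⌋₊ + 3 < dB s (u c.1)
  · have hE : (gmT t).ballE S b.1 (b.2.toN δ) = (gmT s).ballE u b.1 (b.2.toN δ) := by
      refine H.ballE_eq u S b.1 _ fun c hc' => ?_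
      rw [close_balls, List.mem_map] at hc'
      obtain ⟨d, hd, rfl⟩ := hc'
      exact ⟨(hb d hd).1, hc d hd⟩
    unfold ecode
    rw [hE, ENNReal.ofReal_mul (Nat.cast_nonneg _), ENNReal.ofReal_natCast]
    have hsq : squash (nrm κ b.1 * (gmT s).ballE u b.1 (b.2.toN δ)) ≤ 1 := tsub_le_self
    constructor
    · refine close_mul hsq (close_prod _ _ _ _ (fun c => close_cut_le _ _)
        (fun c => close_cut_le _ _) fun c hc' => ?_)
      obtain ⟨h1, h2⟩ := close_dB H hδ M (u c.1)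
      rw [← (hb c hc').1] at h1 h2
      exact close_cut_lip hr hε (hb c hc').2 h2
    · refine close_mul hsq (close_prod _ _ _ _ (fun c => close_cut_le _ _)
        (fun c => close_cut_le _ _) fun c hc' => ?_)
      obtain ⟨h1, h2⟩ := close_dB H hδ M (u c.1)
      rw [← (hb c hc').1] at h1 h2
      exact close_cut_lip hr hε (hb c hc').2 (by linarith)
  · push Not at hc
    obtain ⟨c, hc, hd⟩ := hc
    obtain ⟨h1, h2⟩ := close_dB H hδ M (u c.1)
    rw [← (hb c hc).1] at h1 h2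
    have key : 0 < c.2 → δ * dB t (S c.1) ≤ 2 * c.2 := by
      intro h0
      have h3 := (hb c hc).2 h0
      have h4 : (dB s (u c.1) : ℝ) ≤ ⌊(c.2 : ℝ) / δ⌋₊ + 3 := by exact_mod_cast hd
      have h5 := close_floor (ε := (c.2 : ℝ)) hδ (by linarith)
      have h6 := mul_le_mul_of_nonneg_left h4 hδ.le
      linarith
    have z1 : ecode δ κ t S b = 0 := by
      unfold ecode
      rw [List.prod_eq_zero (List.mem_map.2 ⟨c, hc, close_cut_zero key⟩), zero_mul]
    have z2 : ecode δ κ s u b = 0 := by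
      unfold ecode
      rw [List.prod_eq_zero (List.mem_map.2 ⟨c, hc,
        close_cut_zero fun h0 => h1.trans (key h0)⟩), zero_mul]
    rw [z1, z2]
    exact ⟨zero_le, zero_le⟩

end Pool.Agent.QL.M2
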