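import Pool.Agent.P.MP_7a6434d8_pr.QL.M2.Defs
import Pool.Agent.P.MP_7a6434d8_pr.JumpNum

/-! The potential is a supersolution. -/

namespace Pool.Agent.QL.M2

open Pool.Agent.P.MP_7a6434d8_pr Pool.Agent.P.MP_7a6434d8_pr.Mp Finset
open scoped ENNReal

theorem num_tail (m J : ℕ) : ∑ j ∈ Ico m J, w j ≤ (2 * (m : ℝ) + 4) / 3 * w m := by
  by_cases h : m ≤ J
  · rw [sum_Ico_eq_sub _ h, sum_w, sum_w]
    have := w_pos J
    have : 0 ≤ (2 * (J : ℝ) + 4) / 3 * w J := by positivity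
    linarith
  · rw [Ico_eq_empty (by omega), sum_empty]
    have := w_pos m
    positivity

theorem num_side {C : ℝ} (hC : 0 < C)
    (hw : ∀ L : ℕ, w L * (((L : ℝ) + 1) ^ 2 * √((L : ℝ) + 1)) ≤ C) (h n v J : ℕ) (a σ e f : ℝ)
    (hn : 1 ≤ n) (hnh : n ≤ h) (hv : 1 ≤ v) (he : 0 ≤ e) :
    sideN h n v J a σ e f ≤ (f + a ^ 2 + σ) / 8 * (4 / 3 - (2 * (n : ℝ) + 4) / 3 * w n)
      - a / (4 * h) * (8 / 3 - (2 * (n : ℝ) ^ 2 + 16 * n / 3 + 8 / 3) * w n)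
      + 1 / (8 * (h : ℝ) ^ 2) * (2 * C * √(n : ℝ)) + 1 / (16 * v) * (2 * C * √((h : ℝ) + 1))
      + e / 8 * ((2 * (n : ℝ) + 4) / 3 * w n) + ((h : ℝ) + 3) * w (h + 1) / 12 := by
  have h0 : (0 : ℝ) < h := by exact_mod_cast (by omega : 0 < h)
  have v0 : (0 : ℝ) < v := by exact_mod_cast (by omega : 0 < v)
  have e1 : ∑ j ∈ range n, w j / 8 *
      (f + (a - ((j : ℝ) + 1) / h) ^ 2 + σ + (j : ℝ) * (j + 1) / (2 * v)) =
      (f + a ^ 2 + σ) / 8 * ∑ j ∈ range n, w j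
        - a / (4 * h) * ∑ j ∈ range n, ((j : ℝ) + 1) * w j
        + 1 / (8 * (h : ℝ) ^ 2) * ∑ j ∈ range n, ((j : ℝ) + 1) ^ 2 * w j
        + ∑ j ∈ range n, w j / 8 * ((j : ℝ) * (j + 1) / (2 * v)) := by
    rw [mul_sum, mul_sum, mul_sum, ← sum_sub_distrib, ← sum_add_distrib, ← sum_add_distrib]
    refine sum_congr rfl fun j _ => ?_
    field_simp
    ring
  have e2 : ∑ j ∈ Ico n (h + 1), w j / 8 * (e + (j : ℝ) * (j + 1) / (2 * v)) =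
      e / 8 * ∑ j ∈ Ico n (h + 1), w j
        + ∑ j ∈ Ico n (h + 1), w j / 8 * ((j : ℝ) * (j + 1) / (2 * v)) := by
    rw [mul_sum, ← sum_add_distrib]
    refine sum_congr rfl fun j _ => ?_
    ring
  have e3 := sum_range_add_sum_Ico (fun j : ℕ => w j / 8 * ((j : ℝ) * (j + 1) / (2 * v)))
    (show n ≤ h + 1 by omega)
  have e4 : ∑ j ∈ range (h + 1), w j / 8 * ((j : ℝ) * (j + 1) / (2 * v)) ≤
      1 / (16 * v) * ∑ j ∈ range (h + 1), ((j : ℝ) + 1) ^ 2 * w j := by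
    rw [mul_sum]
    refine sum_le_sum fun j _ => ?_
    have := w_pos j
    have hj : (0 : ℝ) ≤ j := Nat.cast_nonneg j
    have : w j / 8 * ((j : ℝ) * (j + 1) / (2 * v)) = 1 / (16 * v) * ((j : ℝ) * (j + 1) * w j) := by
      field_simp
      ring
    rw [this]
    gcongr
    nlinarith
  have e5 := jumpnum_sq_sum hC hw (h + 1)
  have e6 := jumpnum_sq_sum hC hw n
  have e7 := num_tail n (h + 1)
  have e8 := num_tail (h + 1) J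
  push_cast at e5 e8
  have e9 : ∑ j ∈ Ico (h + 1) J, w j / 8 = (∑ j ∈ Ico (h + 1) J, w j) / 8 := by rw [sum_div]
  have f5 := mul_le_mul_of_nonneg_left e5 (show (0 : ℝ) ≤ 1 / (16 * v) by positivity)
  have f6 := mul_le_mul_of_nonneg_left e6 (show (0 : ℝ) ≤ 1 / (8 * (h : ℝ) ^ 2) by positivity)
  have f7 := mul_le_mul_of_nonneg_left e7 (show (0 : ℝ) ≤ e / 8 by positivity)
  unfold sideN
  rw [e1, e2, e9, sum_w, sum_jw]
  linarith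

theorem num_d1 {n h r W a : ℝ} (n1 : 1 ≤ n) (h0 : 0 < h) (r0 : 0 < r)
    (hr : r = (n + 2) * W / 6) (a1 : a ≤ 1) :
    a / (2 * h) * ((2 * n ^ 2 + 16 * n / 3 + 8 / 3) * W) ≤ 10 * (r * (n / h)) := by
  have e : (2 * n ^ 2 + 16 * n / 3 + 8 / 3) * W = 4 * (3 * n + 2) * r := by
    rw [hr]; ring
  rw [e]
  calc a / (2 * h) * (4 * (3 * n + 2) * r) ≤ 1 / (2 * h) * (4 * (5 * n) * r) := by
        refine le_trans (mul_le_mul_of_nonneg_right (div_le_div_of_nonneg_right a1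
          (by positivity)) (by positivity)) ?_
        gcongr
        linarith
    _ = 10 * (r * (n / h)) := by field_simp; ring

theorem num_d2 {n h r c C κ p s : ℝ} (n1 : 1 ≤ n) (nh : n ≤ h) (r0 : 0 < r) (hC : 0 < C)
    (κ0 : 0 < κ) (κc : κ * c = 1 + C) (p1 : 1 ≤ p) (p2 : p ^ 2 = n + 1) (np : s ≤ p)
    (k2 : c / 12 ≤ r * (n * p)) :
    2 / 3 * (1 / h) ^ 2 + 2 * (1 / (8 * h ^ 2) * (2 * C * s)) ≤ 24 * κ * (r * (n / h)) := by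
  have h0 : 0 < h := by linarith
  have t1 : (1 + C) * p ≤ 24 * κ * (r * n) * h := by
    have t2 : (1 + C) * p * p ≤ 24 * κ * (r * n) * h * p := by
      calc (1 + C) * p * p = (1 + C) * (n + 1) := by rw [← p2]; ring
        _ ≤ (1 + C) * (2 * h) := by gcongr; linarith
        _ = 24 * κ * h * (c / 12) := by rw [← κc]; ring
        _ ≤ 24 * κ * h * (r * (n * p)) := by gcongr
        _ = _ := by ring
    exact le_of_mul_le_mul_right t2 (by linarith)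
  have t3 : C * s ≤ C * p := by gcongr
  have t4 : 0 ≤ C * p := by positivity
  calc 2 / 3 * (1 / h) ^ 2 + 2 * (1 / (8 * h ^ 2) * (2 * C * s))
      = (2 / 3 + C * s / 2) / h ^ 2 := by field_simp; ring
    _ ≤ (24 * κ * (r * n) * h) / h ^ 2 := by gcongr; linarith
    _ = _ := by field_simp

theorem num_d3 {n h v r c C κ p q : ℝ} (nh : n ≤ h) (v1 : 1 ≤ v) (r0 : 0 < r) (hC : 0 < C)
    (κ0 : 0 < κ) (κc : κ * c = 1 + C) (p1 : 1 ≤ p) (pq : p ≤ q) (q2 : q ^ 2 = h + 1) (n1 : 1 ≤ n)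
    (k1 : c / 6 ≤ r * ((n + 1) * p)) :
    2 / 3 * (1 / v) + 2 * (1 / (16 * v) * (2 * C * q)) ≤ 6 * κ * (r * ((h + 1) ^ 2 / v)) := by
  have h0 : 0 < h := by linarith
  have v0 : 0 < v := by linarith
  have q0 : 0 ≤ q := by linarith
  have t0 : r * ((n + 1) * p) ≤ r * ((h + 1) * q) := by gcongr
  have t1 : (1 + C) * q ≤ 6 * κ * (r * (h + 1) ^ 2) := by
    calc (1 + C) * q = 6 * κ * q * (c / 6) := by rw [← κc]; ring
      _ ≤ 6 * κ * q * (r * ((h + 1) * q)) := by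
        gcongr
        linarith
      _ = 6 * κ * (r * ((h + 1) * q ^ 2)) := by ring
      _ = _ := by rw [q2]; ring
  have t4 : 0 ≤ C * q := mul_nonneg hC.le q0
  calc 2 / 3 * (1 / v) + 2 * (1 / (16 * v) * (2 * C * q))
      = (2 / 3 + C * q / 4) / v := by field_simp; ring
    _ ≤ (6 * κ * (r * (h + 1) ^ 2)) / v := by gcongr; linarith
    _ = _ := by field_simp

theorem num_d4 {n h r c C κ p s W : ℝ} (n1 : 1 ≤ n) (nh : n ≤ h) (hW : 0 < W)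
    (κ0 : 0 < κ) (κc : κ * c = 1 + C) (p1 : 1 ≤ p) (ps : p ≤ s)
    (up : W * ((h + 1 + 1) ^ 2 * s) ≤ C) (k2 : c / 12 ≤ r * (n * p)) :
    2 * ((h + 3) * W / 12) ≤ 12 * κ * (r * (n / h)) := by
  have h0 : 0 < h := by linarith
  have t0 : W * ((h + 3) * h * p) ≤ C := by
    refine le_trans ?_ up
    have : 0 ≤ p := by linarith
    gcongr
    nlinarith
  have t1 : (h + 3) * W * h * p ≤ 12 * κ * (r * n) * p := by
    calc (h + 3) * W * h * p = W * ((h + 3) * h * p) := by ring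
      _ ≤ 1 + C := by linarith
      _ = 12 * κ * (c / 12) := by rw [← κc]; ring
      _ ≤ 12 * κ * (r * (n * p)) := by gcongr
      _ = _ := by ring
  have t2 := le_of_mul_le_mul_right t1 (by linarith)
  have t3 : (h + 3) * W ≤ 12 * κ * (r * (n / h)) := by
    rw [← mul_div_assoc, ← mul_div_assoc, le_div_iff₀ h0]
    exact t2
  have : 0 ≤ (h + 3) * W := by positivity
  linarith

/-- With `r = (j₀ + 2) w j₀ / 6` (`sum_w`: the steps with `j < j₀` have total weight `1 - r`,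
`∑ j ≥ j₀, w j = 4 r`), `r ≥ j₀ ^ (-3/2) / 26`; drift by `sum_jw`, squares by `jumpnum_sq_sum`. -/
theorem ct_num : ∃ K : ℝ, 0 < K ∧ ∀ (h j₀ v J J' : ℕ) (a σ e f : ℝ), 1 ≤ j₀ → j₀ ≤ h → 1 ≤ v →
    |a| ≤ 1 → 0 ≤ σ → 0 ≤ e → K * ((j₀ : ℝ) / h + ((h : ℝ) + 1) ^ 2 / v) + e ≤ f →
    2 / 3 * (f + (a + 1 / h) ^ 2 + σ + 1 / v) + sideN h j₀ v J a σ e f + sideN h j₀ v J' a σ e f
      ≤ f + a ^ 2 + σ := by
  obtain ⟨c, C, hc, hC, hw⟩ := w_bounds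
  refine ⟨10 + 36 * (1 + C) / c, by positivity, ?_⟩
  intro h n v J J' a σ e f hn hnh hv ha hσ he hf
  have n1 : (1 : ℝ) ≤ n := by exact_mod_cast hn
  have nh : (n : ℝ) ≤ h := by exact_mod_cast hnh
  have v1 : (1 : ℝ) ≤ v := by exact_mod_cast hv
  have h0 : (0 : ℝ) < h := by linarith
  have v0 : (0 : ℝ) < v := by linarith
  have hW := w_pos n
  have hW' := w_pos (h + 1)
  have lo := (hw n).1
  have up := (hw (h + 1)).2
  push_cast at up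
  obtain ⟨W, eW⟩ : ∃ W, W = w n := ⟨_, rfl⟩
  obtain ⟨W', eW'⟩ : ∃ W', W' = w (h + 1) := ⟨_, rfl⟩
  rw [← eW] at hW lo
  rw [← eW'] at hW' up
  set p := √((n : ℝ) + 1) with hp
  set q := √((h : ℝ) + 1) with hq
  have p2 : p ^ 2 = n + 1 := Real.sq_sqrt (by linarith)
  have q2 : q ^ 2 = h + 1 := Real.sq_sqrt (by linarith)
  have p1 : 1 ≤ p := Real.one_le_sqrt.mpr (by linarith)
  have pq : p ≤ q := Real.sqrt_le_sqrt (by linarith)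
  have np : √(n : ℝ) ≤ p := Real.sqrt_le_sqrt (by linarith)
  have qq : q ≤ √((h : ℝ) + 1 + 1) := Real.sqrt_le_sqrt (by linarith)
  obtain ⟨r, hr⟩ : ∃ r : ℝ, r = ((n : ℝ) + 2) * W / 6 := ⟨_, rfl⟩
  have r0 : 0 < r := by rw [hr]; positivity
  have k1 : c / 6 ≤ r * ((n + 1) * p) := by
    have : W * ((n + 1) ^ 2 * p) ≤ W * (((n + 2) * (n + 1)) * p) := by
      gcongr
      nlinarith
    rw [hr]
    linarith
  have k2 : c / 12 ≤ r * (n * p) := by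
    have : r * ((n + 1) * p) ≤ r * ((2 * n) * p) := by
      gcongr
      linarith
    linarith
  obtain ⟨X, hX⟩ : ∃ X : ℝ, X = r * (n / h) := ⟨_, rfl⟩
  obtain ⟨Y, hY⟩ : ∃ Y : ℝ, Y = r * (((h : ℝ) + 1) ^ 2 / v) := ⟨_, rfl⟩
  have X0 : 0 ≤ X := by rw [hX]; positivity
  have Y0 : 0 ≤ Y := by rw [hY]; positivity
  obtain ⟨κ, hκ⟩ : ∃ κ : ℝ, κ = (1 + C) / c := ⟨_, rfl⟩
  have κ0 : 0 < κ := by rw [hκ]; positivity
  have κc : κ * c = 1 + C := by rw [hκ]; field_simp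
  have d1 := num_d1 (W := W) n1 h0 r0 hr (abs_le.mp ha).2
  have d2 := num_d2 n1 nh r0 hC κ0 κc p1 p2 np k2
  have d3 := num_d3 nh v1 r0 hC κ0 κc p1 pq q2 n1 k1
  have d4 := num_d4 n1 nh hW' κ0 κc p1 (pq.trans qq) up k2
  rw [← hX] at d1 d2 d4
  rw [← hY] at d3
  have s1 := num_side hC (fun L => (hw L).2) h n v J a σ e f hn hnh hv he
  have s2 := num_side hC (fun L => (hw L).2) h n v J' a σ e f hn hnh hv he
  have hK : 36 * (1 + C) / c = 36 * κ := by rw [hκ]; ring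
  rw [hK] at hf
  have f1 := mul_le_mul_of_nonneg_left hf r0.le
  have f2 : r * ((10 + 36 * κ) * ((n : ℝ) / h + ((h : ℝ) + 1) ^ 2 / v) + e) =
      10 * X + 36 * (κ * X) + 10 * Y + 36 * (κ * Y) + r * e := by rw [hX, hY]; ring
  have g1 : (2 * (n : ℝ) + 4) / 3 * W = 4 * r := by rw [hr]; ring
  rw [← eW, ← eW', ← hq, g1] at s1 s2
  have g2 : (a + 1 / (h : ℝ)) ^ 2 = a ^ 2 + 2 * (a / h) + (1 / (h : ℝ)) ^ 2 := by ring
  have g3 : a / (4 * h) * (8 / 3 - (2 * (n : ℝ) ^ 2 + 16 * n / 3 + 8 / 3) * W) =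
      2 / 3 * (a / h) - a / (2 * h) * ((2 * (n : ℝ) ^ 2 + 16 * n / 3 + 8 / 3) * W) / 2 := by
    field_simp
    ring
  rw [g3] at s1 s2
  have g4 : 0 ≤ r * a ^ 2 := by positivity
  have g5 : 0 ≤ r * σ := by positivity
  have g6 : 0 ≤ κ * Y := by positivity
  have g7 : (f + a ^ 2 + σ) / 8 * (4 / 3 - 4 * r) =
      (f + a ^ 2 + σ) / 6 - (r * f + r * a ^ 2 + r * σ) / 2 := by ring
  have g8 : e / 8 * (4 * r) = r * e / 2 := by ring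
  rw [g7, g8] at s1 s2
  rw [f2] at f1
  rw [mul_assoc] at d2 d3 d4
  rw [g2]
  linarith only [s1, s2, d1, d2, d3, d4, f1, g4, g5, g6, Y0]

/-- choice of the parameters -/
theorem ct_par (θ ε : ℝ) (hθ : 0 < θ) (hε : 0 < ε) : ∃ κ : ℝ, 0 < κ ∧ κ ≤ 1 ∧ ∃ L₀ : ℕ, ∀ L : ℕ, L₀ ≤ L →
    ∃ h j₀ v : ℕ, 1 ≤ j₀ ∧ j₀ ≤ h ∧ 4 ≤ h ∧ 8 * h ≤ L ∧ 1 ≤ v ∧ κ * L ≤ j₀ ∧
      (4 * h : ℝ) ≤ θ * L ∧ (2 * v : ℝ) ≤ θ * L ^ 2 ∧ v + 1 ≤ L ^ 2 ∧
      (j₀ : ℝ) / h + ((h : ℝ) + 1) ^ 2 / v ≤ ε := by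
  obtain ⟨t, t0, t1, tθ⟩ : ∃ t : ℝ, 0 < t ∧ t ≤ 1 ∧ t ≤ θ :=
    ⟨min 1 θ, lt_min one_pos hθ, min_le_left _ _, min_le_right _ _⟩
  obtain ⟨e, e0, e1, eε⟩ : ∃ e : ℝ, 0 < e ∧ e ≤ 1 ∧ e ≤ ε :=
    ⟨min 1 ε, lt_min one_pos hε, min_le_left _ _, min_le_right _ _⟩
  obtain ⟨η, hη⟩ : ∃ η : ℝ, η = t * e / 64 := ⟨_, rfl⟩
  have η0 : 0 < η := by rw [hη]; positivity
  have ηt : η ≤ t / 64 := by rw [hη]; nlinarith
  obtain ⟨κ, hκ⟩ : ∃ κ : ℝ, κ = e * η / 8 := ⟨_, rfl⟩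
  have κ0 : 0 < κ := by rw [hκ]; positivity
  have κη : κ ≤ η / 8 := by rw [hκ]; nlinarith
  refine ⟨κ, κ0, by linarith, ⌈1 / κ⌉₊, fun L hL => ?_⟩
  have L1 : 1 ≤ κ * L := by
    have : 1 / κ ≤ L := (Nat.le_ceil _).trans (by exact_mod_cast hL)
    rwa [div_le_iff₀' κ0] at this
  have L0 : (0 : ℝ) ≤ L := Nat.cast_nonneg L
  have a1 : κ * L ≤ η / 8 * L := by gcongr
  have a2 : η * L ≤ t / 64 * L := by gcongr
  have a3 : t * L ≤ 1 * L := by gcongr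
  have a4 : t * L ≤ θ * L := by gcongr
  have a5 : t * L * 1 ≤ t * L * L := by gcongr; linarith
  have a6 : t * L ^ 2 ≤ θ * L ^ 2 := by gcongr
  have a7 : t * L ^ 2 ≤ 1 * L ^ 2 := by gcongr
  have h1 : (⌊η * L⌋₊ : ℝ) ≤ η * L := Nat.floor_le (by positivity)
  have h2 : η * L < ⌊η * L⌋₊ + 1 := Nat.lt_floor_add_one _
  have j1 : κ * L ≤ ⌈κ * L⌉₊ := Nat.le_ceil _
  have j2 : (⌈κ * L⌉₊ : ℝ) < κ * L + 1 := Nat.ceil_lt_add_one (by positivity)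
  have v1 : (⌊t * L ^ 2 / 4⌋₊ : ℝ) ≤ t * L ^ 2 / 4 := Nat.floor_le (by positivity)
  have v2 : t * L ^ 2 / 4 < ⌊t * L ^ 2 / 4⌋₊ + 1 := Nat.lt_floor_add_one _
  refine ⟨⌊η * L⌋₊, ⌈κ * L⌉₊, ⌊t * L ^ 2 / 4⌋₊, ?_⟩
  generalize ⌊η * L⌋₊ = h at h1 h2 ⊢
  generalize ⌈κ * L⌉₊ = j at j1 j2 ⊢
  generalize ⌊t * L ^ 2 / 4⌋₊ = v at v1 v2 ⊢
  have b0 : 512 ≤ t * L ^ 2 := by nlinarith
  have h0 : (0 : ℝ) < h := by linarith
  have v0 : (0 : ℝ) < v := by linarith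
  refine ⟨?_, ?_, ?_, ?_, ?_, j1, by linarith, by linarith, ?_, ?_⟩
  · exact_mod_cast (by linarith : (1 : ℝ) ≤ j)
  · exact_mod_cast (by linarith : (j : ℝ) ≤ h)
  · exact_mod_cast (by linarith : (4 : ℝ) ≤ h)
  · exact_mod_cast (by linarith : (8 * h : ℝ) ≤ L)
  · exact_mod_cast (by linarith : (1 : ℝ) ≤ v)
  · exact_mod_cast (by linarith : (v + 1 : ℝ) ≤ (L : ℝ) ^ 2)
  · have c1 : (j : ℝ) / h ≤ e / 2 := by
      rw [div_le_iff₀ h0]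
      calc (j : ℝ) ≤ 2 * (κ * L) := by linarith
        _ = e / 2 * (η * L / 2) := by rw [hκ]; ring
        _ ≤ e / 2 * h := by gcongr; linarith
    have c2 : ((h : ℝ) + 1) ^ 2 / v ≤ e / 2 := by
      rw [div_le_iff₀ v0]
      calc ((h : ℝ) + 1) ^ 2 ≤ (2 * (η * L)) ^ 2 := by gcongr; linarith
        _ = (t * e / 64) * (e / 2 * (t * L ^ 2 / 8)) := by rw [hη]; ring
        _ ≤ 1 * (e / 2 * (t * L ^ 2 / 8)) := by gcongr; nlinarith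
        _ ≤ e / 2 * v := by rw [one_mul]; gcongr; linarith
    linarith

end Pool.Agent.QL.M2
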