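import Pool.Agent.P.MP_7a6434d8_pr.QL.M2.Defs
import Pool.Agent.P.MP_7a6434d8_pr.QL.M2.Emb
import Pool.Agent.P.MP_7a6434d8_pr.PeelB

/-! Removal of a disc attached by a bridge. -/

namespace Pool.Agent.QL.M2

open Pool.Agent.P.MP_7a6434d8_pr Pool.Agent.P.MP_7a6434d8_pr.Mp Finset
open scoped ENNReal

/-- the part of a removal that does not see the boundary positions -/
structure RemBr_Pre (t s : Mp) (θ : Dt s → Dt t) (ι : V s → V t) (v : V s) : Prop where
  θ_inj : Function.Injective θ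
  ι_inj : Function.Injective ι
  θ_al : ∀ d, θ (al s d) = al t (θ d)
  θ_ph : ∀ d, Inn s d → θ (ph s d) = ph t (θ d)
  θ_in : ∀ d, Inn s d → Inn t (θ d)
  org_eq : ∀ d, org t (θ d) = ι (org s d)
  out : ∀ e z, (∀ d, θ d ≠ e) → org t e = ι z → z = v

theorem RemBr_inn {k : ℕ} {t : Mp} (ht : ok t) (θ : Dt (rotN k t) ≃ Dt t)
    (h : ∀ p, p < 2 * per t → (bd (rotN k t) p).map θ = bd t ((p + k) % (2 * per t)))
    (d : Dt (rotN k t)) : Inn (rotN k t) d ↔ Inn t (θ d) := by
  constructor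
  · intro H q hq
    have h1 := darta_lt ht hq
    have h2 := Nat.mod_lt k (show 0 < 2 * per t by omega)
    have h3 := h ((q + (2 * per t - k % (2 * per t))) % (2 * per t)) (Nat.mod_lt _ (by omega))
    have h4 : q + (2 * per t - k % (2 * per t)) + k = q + 2 * per t * (k / (2 * per t) + 1) := by
      have := Nat.mod_add_div k (2 * per t)
      rw [mul_add, mul_one]
      omega
    rw [Nat.mod_add_mod, h4, Nat.add_mul_mod_self_left, Nat.mod_eq_of_lt h1, hq] at h3
    obtain ⟨e, h5, h6⟩ := Option.map_eq_some_iff.1 h3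
    exact H _ (θ.injective h6 ▸ h5)
  · intro H p hp
    have h1 := h p (rotN_per k t ht ▸ darta_lt (rotN_ok k t ht) hp)
    rw [hp] at h1
    exact H _ h1.symm

theorem RemBr_left {a : Mp} (b : Mp) (ha : ok a) :
    RemBr_Pre (bridge a b) a (fun d => Sum.inl (Sum.inl d)) Sum.inl (bv a 0) where
  θ_inj := Sum.inl_injective.comp Sum.inl_injective
  ι_inj := Sum.inl_injective
  θ_al _ := rfl
  θ_ph d hd := (darta_pb6 (dartb_inner_ph ha d hd 0)).symm
  θ_in d hd p hp := by
    rcases darta_bridge hp with ⟨-, h⟩ | ⟨-, -, e, -, h⟩ | ⟨-, h⟩ | ⟨-, e, h1, h⟩ <;> cases h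
    exact hd _ h1
  org_eq _ := rfl
  out e z h1 h2 := by
    rcases e with (d | d) | (_ | _)
    · exact absurd rfl (h1 d)
    · cases h2
    · cases h2
    · exact (Sum.inl_injective h2).symm

theorem RemBr_right {a : Mp} (b : Mp) (ha : ok a) :
    RemBr_Pre (bridge b a) a (fun d => Sum.inl (Sum.inr d)) Sum.inr (bv a 0) where
  θ_inj := Sum.inl_injective.comp Sum.inr_injective
  ι_inj := Sum.inr_injective
  θ_al _ := rfl
  θ_ph d hd := (darta_pb8 (dartb_inner_ph ha d hd 0)).symm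
  θ_in d hd p hp := by
    rcases darta_bridge hp with ⟨-, h⟩ | ⟨-, -, e, h1, h⟩ | ⟨-, h⟩ | ⟨-, e, -, h⟩ <;> cases h
    exact hd _ h1
  org_eq _ := rfl
  out e z h1 h2 := by
    rcases e with (d | d) | (_ | _)
    · cases h2
    · exact absurd rfl (h1 d)
    · exact (Sum.inr_injective h2).symm
    · cases h2

theorem RemBr_core {x k n : ℕ} (j : ℕ) {a u : Mp} (ha : ok a) (hu : ok u)
    (hp : per u = per a + n + 1) (hx : x ≤ k) (hk : k + x ≤ 2 * per a)
    {θ : Dt (rotN k a) → Dt u} {ι : V (rotN k a) → V u}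
    (H : RemBr_Pre u (rotN k a) θ ι (bv _ 0))
    (hA : ∀ p, p ≤ k → bv u ((p + j) % (2 * per u)) = ι (bv _ (p + 2 * per a - k)))
    (hB : ∀ p z, p ≤ 2 * n → ι z ≠ bv u ((k + 1 + p + j) % (2 * per u)))
    (hC : ∀ p, k ≤ p → p ≤ 2 * per a →
      bv u ((p + 2 * n + 2 + j) % (2 * per u)) = ι (bv _ (p - k))) : RemE x (rotN j u) a := by
  obtain ⟨θ1, e1, a1, a2, a3, a4, a5⟩ := rot_data k a ha
  obtain ⟨θ2, e2, b1, b2, b3, b4, b5⟩ := rot_data j u hu
  have hp' : per (rotN j u) = per a + n + 1 := (rotN_per j u hu).trans hp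
  have c1 : ∀ q r, q ≤ 2 * per a → r ≤ 2 * per a → (q + k = r ∨ q + k = r + 2 * per a) →
      e1.symm (bv a r) = bv (rotN k a) q := fun q r hq hr h => by
    rw [Equiv.symm_apply_eq, a5 q hq, peelb_bv_mod a ha _ r hr h]
  have hA' : ∀ p, p ≤ k → e2.symm (ι (e1.symm (bv a p))) = bv (rotN j u) p := fun p h => by
    rw [Equiv.symm_apply_eq, b5 p (by omega), hA p h,
      c1 (p + 2 * per a - k) p (by omega) (by omega) (Or.inr (by omega))]
  have hC' : ∀ p, k ≤ p → p ≤ 2 * per a →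
      e2.symm (ι (e1.symm (bv a p))) = bv (rotN j u) (p + 2 * n + 2) := fun p h h' => by
    rw [Equiv.symm_apply_eq, b5 _ (by omega), hC p h h',
      c1 (p - k) p (by omega) h' (Or.inl (by omega))]
  have hι : Function.Injective fun z => e2.symm (ι (e1.symm z)) :=
    e2.symm.injective.comp (H.ι_inj.comp e1.symm.injective)
  refine ⟨fun d => θ2.symm (θ (θ1.symm d)), fun z => e2.symm (ι (e1.symm z)), rotN_ok j u hu, ha,
    by omega, by omega, θ2.symm.injective.comp (H.θ_inj.comp θ1.symm.injective), hι,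
    fun d => ?_, fun d hd => ?_, fun d hd => ?_, fun d => ?_, fun p h => hA' p (by omega),
    fun p h => ?_, fun e z h1 h2 => ⟨k, hx, hk, ?_⟩, fun p z h1 h2 h3 => ?_⟩
  · obtain ⟨d, rfl⟩ := θ1.surjective d
    rw [← a1, θ1.symm_apply_apply, θ1.symm_apply_apply, Equiv.symm_apply_eq, b1,
      θ2.apply_symm_apply, H.θ_al]
  · obtain ⟨d, rfl⟩ := θ1.surjective d
    rw [← a2, θ1.symm_apply_apply, θ1.symm_apply_apply, Equiv.symm_apply_eq, b2,
      θ2.apply_symm_apply, H.θ_ph d ((RemBr_inn ha θ1 a4 d).2 hd)]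
  · obtain ⟨d, rfl⟩ := θ1.surjective d
    rw [RemBr_inn hu θ2 b4, θ1.symm_apply_apply, θ2.apply_symm_apply]
    exact H.θ_in d ((RemBr_inn ha θ1 a4 d).2 hd)
  · obtain ⟨d, rfl⟩ := θ1.surjective d
    rw [← a3, θ1.symm_apply_apply, e1.symm_apply_apply, Equiv.eq_symm_apply, b3,
      θ2.apply_symm_apply, H.org_eq]
  · rw [hC' _ (by omega) (by omega)]
    congr 1
    omega
  · rw [Equiv.eq_symm_apply, b3] at h2
    have h3 := H.out _ _ (fun d hd => h1 (θ1 d) (by
      rw [θ1.symm_apply_apply, hd, θ2.symm_apply_apply])) h2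
    rw [← c1 0 k (by omega) (by omega) (Or.inl (by omega))] at h3
    exact e1.symm.injective h3
  · rcases le_or_gt p k with h | h
    · exact ⟨p, h1, by omega, hι (h3.trans (hA' p h).symm)⟩
    · rcases le_or_gt p (k + 1 + 2 * n) with h' | h'
      · rw [Equiv.symm_apply_eq, b5 p (by omega), show p = k + 1 + (p - k - 1) by omega] at h3
        exact absurd h3 (hB _ _ (by omega))
      · refine ⟨p - 2 * n - 2, by omega, by omega, hι (h3.trans ?_)⟩
        rw [show p = p - 2 * n - 2 + 2 * n + 2 by omega, ← hC' _ (by omega) (by omega)]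
        congr 5
        omega

/-- `brR k a b = rotN _ (bridge (rotN k a) b)`: use `rot_data` twice and `darta_*`. -/
theorem remE_brR (x k : ℕ) (a b : Mp) (ha : ok a) (hb : ok b) (hx : x ≤ k)
    (hk : k + x ≤ 2 * per a) :
    RemE x (brR k a b) a ∧ per (brR k a b) = per a + per b + 1 ∧
      size (brR k a b) = size a + size b := by
  have h := isBr_brR k a b ha hb (by omega)
  have hu : ok (bridge (rotN k a) b) := ⟨rotN_ok k a ha, hb⟩
  have hp : per (bridge (rotN k a) b) = per a + per b + 1 := by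
    rw [per, rotN_per k a ha]
  refine ⟨RemBr_core _ ha hu hp hx hk (RemBr_left b hu.1) (fun p h => ?_) (fun p z h => ?_)
    fun p h h' => ?_, h.per_eq, h.size_eq⟩
  · rw [peelb_bv_mod _ hu _ (p + 2 * per a - k + 2 * per b + 2) (by omega) (Or.inl (by omega)),
      peelb_bv_out _ _ _ _ rfl]
  · rw [peelb_bv_mod _ hu _ (p + 1) (by omega) (Or.inr (by omega)), peelb_bv_mid _ _ _ p h rfl]
    exact Sum.inl_ne_inr
  · rw [peelb_bv_mod _ hu _ (p - k + 2 * per b + 2) (by omega) (Or.inr (by omega)),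
      peelb_bv_out _ _ _ _ rfl]

/-- `brL k a b = rotN _ (bridge b (rotN k a))`. -/
theorem remE_brL (x k : ℕ) (a b : Mp) (ha : ok a) (hb : ok b) (hx : x ≤ k)
    (hk : k + x ≤ 2 * per a) :
    RemE x (brL k a b) a ∧ per (brL k a b) = per a + per b + 1 ∧
      size (brL k a b) = size a + size b := by
  have h := isBr_brL k a b ha hb (by omega)
  have hu : ok (bridge b (rotN k a)) := ⟨hb, rotN_ok k a ha⟩
  have hr := rotN_per k a ha
  have hp : per (bridge b (rotN k a)) = per a + per b + 1 := by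
    rw [per, hr, add_comm (per b)]
  refine ⟨RemBr_core _ ha hu hp hx hk (RemBr_right b hu.2) (fun p h => ?_) (fun p z h => ?_)
    fun p h h' => ?_, h.per_eq, h.size_eq⟩
  · rw [peelb_bv_mod _ hu _ (p + 2 * per a - k + 1) (by omega) (Or.inl (by omega)),
      peelb_bv_mid _ _ _ _ (by omega) rfl]
  · rw [peelb_bv_mod _ hu _ (p + 2 * per (rotN k a) + 2) (by omega) (Or.inl (by omega)),
      peelb_bv_out _ _ _ p rfl]
    exact Sum.inr_ne_inl
  · rw [peelb_bv_mod _ hu _ (p - k + 1) (by omega) (Or.inr (by omega)),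
      peelb_bv_mid _ _ _ _ (by omega) rfl]

end Pool.Agent.QL.M2
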