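import Pool.Agent.P.MP_7a6434d8_pr.QL.M2.Side
import Pool.Agent.P.MP_7a6434d8_pr.QL.M2.RemBr
import Pool.Agent.P.MP_7a6434d8_pr.QL.M2.Num

/-! The simultaneous exploration. -/

namespace Pool.Agent.QL.M2

open Pool.Agent.P.MP_7a6434d8_pr Pool.Agent.P.MP_7a6434d8_pr.Mp Finset
open scoped ENNReal

theorem core_attR {x i j : ℕ} (h : x + 2 * j + 2 ≤ i) : Att x i j (brR i) := by
  intro a b ha hb h1 h2
  obtain ⟨c1, c2, c3⟩ := remE_brR x i a b ha hb (by omega) (by omega)
  exact ⟨c1, by omega, c3⟩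

theorem core_attL {x i j : ℕ} (h : x + 2 * j + 2 ≤ i) : Att x i j (brL (i - 2 * j - 1)) := by
  intro a b ha hb h1 h2
  obtain ⟨c1, c2, c3⟩ := remE_brL x (i - 2 * j - 1) a b ha hb (by omega) (by omega)
  exact ⟨c1, by omega, c3⟩

theorem core_dead (P : Par) {χ χ' ψ : Mp → ℝ} (H : P.Hyp χ χ' ψ) {f : ℝ} (hf : 0 ≤ f) {i n : ℕ}
    (hi : P.L ≤ 4 * i) (hn : n ≤ P.m) (hd : ¬ P.Alive i n) : P.Claim χ χ' f i n := by
  intro F F' hF hF'
  have hU := H.U_ge i n hi
  have hU0 : 0 ≤ P.U := (cLm_nonneg i n).trans hU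
  have hh : (0 : ℝ) < P.h := by
    have := H.A_le
    exact_mod_cast (by omega : 0 < P.h)
  have hv : (0 : ℝ) < P.v := by exact_mod_cast H.v_pos
  have hn' : (n : ℝ) ≤ P.m := by exact_mod_cast hn
  have h1 : 0 ≤ ((P.m : ℝ) - n) / P.v := div_nonneg (by linarith) hv.le
  have h2 : 1 ≤ P.pot f i n := by
    unfold Par.pot
    by_cases c1 : P.m ≤ n + P.v
    · have c2 : 1 ≤ (((i : ℝ) - P.L) / P.h) ^ 2 := by
        rw [one_le_sq_iff_one_le_abs, abs_div, abs_of_pos hh, le_div_iff₀ hh, one_mul]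
        by_cases c3 : P.L ≤ i + P.h
        · have c4 : P.L + P.h ≤ i := by
            by_contra c4
            exact hd ⟨c3, by omega, c1, hn⟩
          have c5 : (P.L : ℝ) + P.h ≤ i := by exact_mod_cast c4
          exact le_trans (by linarith) (le_abs_self _)
        · have c5 : (i : ℝ) + P.h ≤ P.L := by exact_mod_cast (by omega : i + P.h ≤ P.L)
          exact le_trans (by linarith) (neg_le_abs _)
      linarith
    · have c5 : (n : ℝ) + P.v ≤ P.m := by exact_mod_cast (by omega : n + P.v ≤ P.m)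
      have c6 : 1 ≤ ((P.m : ℝ) - n) / P.v := by
        rw [le_div_iff₀ hv]
        linarith
      have := sq_nonneg (((i : ℝ) - P.L) / P.h)
      linarith
  have h3 := nS_le (L := i) (m := n) hF.1
  have h4 := nS_nonneg (L := i + P.A) (m := n + P.D) hF'.1
  have h5 := mul_le_mul_of_nonneg_left h2 hU0
  linarith

theorem core_face (P : Par) {χ χ' : Mp → ℝ} {f : ℝ} {i n : ℕ} (hx : P.x + 1 ≤ i)
    (ih : P.Claim χ χ' f (i + 1) n) {F F' : Mp → ℝ} (hF : P.Up χ i (n + 1) F)
    (hF' : P.Lo χ' (i + P.A) (n + 1 + P.D) F') :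
    nS (i + 1) n (fun s => F (faceAt i s)) ≤
      nS (i + P.A + 1) (n + P.D) (fun s => F' (faceAt (i + P.A) s)) + P.U * P.pot f (i + 1) n := by
  have := ih (fun s => F (faceAt i s)) (fun s => F' (faceAt (i + P.A) s))
    ⟨fun _ => hF.1 _, fun t s h1 h2 h3 h4 => ?_⟩ ⟨fun _ => hF'.1 _, fun t s h1 h2 h3 h4 => ?_⟩
  · rwa [show i + 1 + P.A = i + P.A + 1 by ring] at this
  · obtain ⟨c1, c2, c3⟩ := remE_face P.x i t h3.choose_spec.choose_spec.ok_t (by omega) (by omega)
    exact hF.2 _ s (by omega) (by omega) (c1.trans h3) h4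
  · obtain ⟨c1, c2, c3⟩ := remE_face P.x (i + P.A) t h3.choose_spec.choose_spec.ok_t (by omega)
      (by omega)
    exact hF'.2 _ s (by omega) (by omega) (c1.trans h3) h4

/-- Strong induction on `2 n + i` for `P.L ≤ 4 i`, `n ≤ P.m`; dead states: the potential is at
least one; alive states: `nS_peel` at `k = i` and at `k = i + A`, `ct_side` twice, `ct_num`. -/
theorem ct_core : ∃ K : ℝ, 0 < K ∧ ∀ (P : Par) (χ χ' ψ : Mp → ℝ), P.Hyp χ χ' ψ →
    P.Claim χ χ' (K * ((P.j₀ : ℝ) / P.h + ((P.h : ℝ) + 1) ^ 2 / P.v) + (P.e₁ + P.e₂)) P.L P.m := by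
  obtain ⟨K, hK, hnum⟩ := ct_num
  refine ⟨K, hK, fun P χ χ' ψ H => ?_⟩
  set f := K * ((P.j₀ : ℝ) / P.h + ((P.h : ℝ) + 1) ^ 2 / P.v) + (P.e₁ + P.e₂) with hfdef
  have he : 0 ≤ P.e₁ + P.e₂ := add_nonneg H.e₁_nonneg H.e₂_nonneg
  have hf : 0 ≤ f := by positivity
  have a1 := H.h_le
  have a2 := H.A_le
  have hh : (0 : ℝ) < P.h := by exact_mod_cast (by omega : 0 < P.h)
  have hv : (0 : ℝ) < P.v := by exact_mod_cast H.v_pos
  have hU0 : 0 ≤ P.U := (cLm_nonneg P.L 0).trans (H.U_ge P.L 0 (by omega))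
  have hx : P.x + 4 * P.h = P.L := by unfold Par.x; omega
  suffices h : ∀ N i n, 2 * n + i < N → P.L ≤ 4 * i → n ≤ P.m → P.Claim χ χ' f i n from
    h _ _ _ (Nat.lt_succ_self _) (by omega) le_rfl
  intro N
  induction N with
  | zero => intro i n h; omega
  | succ N ih =>
    intro i n hN hi hn
    by_cases hA : P.Alive i n
    swap
    · exact core_dead P H hf hi hn hA
    intro F F' hF hF'
    obtain ⟨b1, b2, b3, b4⟩ := id hA
    have ih' : ∀ i' n', i' < i → n' ≤ n → P.L ≤ 4 * i' → P.Claim χ χ' f i' n' :=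
      fun i' n' c1 c2 c3 => ih i' n' (by omega) c3 (by omega)
    have sR := ct_side P H f hf i n ((2 * i - i) / 2) ((2 * (i + P.A) - (i + P.A)) / 2) hA
      (fun _ => brR i) (fun _ => brR (i + P.A)) (fun j hj => core_attR (by omega))
      (fun j hj => core_attR (by omega)) (by omega) (fun j hj => by omega) (by omega) ih' F F' hF hF'
    have sL := ct_side P H f hf i n ((i + 1) / 2) ((i + P.A + 1) / 2) hA
      (fun j => brL (i - 2 * j - 1)) (fun j => brL (i + P.A - 2 * j - 1))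
      (fun j hj => core_attL (by omega)) (fun j hj => core_attL (by omega)) (by omega)
      (fun j hj => by omega) (by omega) ih' F F' hF hF'
    have ha : |((i : ℝ) - P.L) / P.h| ≤ 1 := by
      rw [abs_div, abs_of_pos hh, div_le_one hh, abs_le]
      have c1 : (P.L : ℝ) ≤ i + P.h := by exact_mod_cast b1
      have c2 : (i : ℝ) ≤ P.L + P.h := by exact_mod_cast b2
      constructor <;> linarith
    have hn' : (n : ℝ) ≤ P.m := by exact_mod_cast hn
    have hσ : 0 ≤ ((P.m : ℝ) - n) / P.v := div_nonneg (by linarith) hv.le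
    have num := mul_le_mul_of_nonneg_left (hnum P.h P.j₀ P.v ((2 * i - i) / 2) ((i + 1) / 2) _ _ _ f
      H.j_pos H.j_le H.v_pos ha hσ he le_rfl) hU0
    have fc : (if n = 0 then 0 else 2 / 3 * nS (i + 1) (n - 1) fun s => F (faceAt i s)) ≤
        (if n + P.D = 0 then 0 else 2 / 3 * nS (i + P.A + 1) (n + P.D - 1)
          fun s => F' (faceAt (i + P.A) s)) + P.U * (2 / 3 * (f + (((i : ℝ) - P.L) / P.h + 1 / P.h) ^ 2
            + ((P.m : ℝ) - n) / P.v + 1 / P.v)) := by
      rcases n with _ | n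
      · rw [if_pos rfl]
        refine add_nonneg ?_ (by positivity)
        split_ifs
        · exact le_rfl
        · exact mul_nonneg (by norm_num) (nS_nonneg fun _ => hF'.1 _)
      · rw [if_neg (by omega), if_neg (by omega), Nat.add_sub_cancel,
          show n + 1 + P.D - 1 = n + P.D by omega]
        have c := core_face P (by omega) (ih (i + 1) n (by omega) (by omega) (by omega)) hF hF'
        have e : P.pot f (i + 1) n = f + (((i : ℝ) - P.L) / P.h + 1 / P.h) ^ 2
            + ((P.m : ℝ) - (n + 1 : ℕ)) / P.v + 1 / P.v := by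
          unfold Par.pot
          push_cast
          ring
        rw [e] at c
        linarith
    rw [nS_peel i n i (by omega) F, nS_peel (i + P.A) (n + P.D) (i + P.A) (by omega) F']
    unfold Par.pot
    linarith

end Pool.Agent.QL.M2
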