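import Pool.Agent.P.MP_7a6434d8_pr.QL.M2.Dist
import Pool.Agent.P.MP_7a6434d8_pr.QL.M1.CntC

/-! Removing a window of a disc: definitions and statements of the transfer and coupling
theorems. -/

namespace Pool.Agent.QL.M2

open Pool.Agent.P.MP_7a6434d8_pr Pool.Agent.P.MP_7a6434d8_pr.Mp Finset
open scoped ENNReal

/-- inner darts -/
def Inn (t : Mp) (d : Dt t) : Prop := ∀ p, bd t p ≠ some d

/-- `s` is what remains of `t` after removing a region attached to the boundary positions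
`[x, 2 per t - x]`; the frontier is `[x, 2 per s - x]`. -/
structure Rem (x : ℕ) (t s : Mp) (θ : Dt s → Dt t) (ι : V s → V t) : Prop where
  ok_t : ok t
  ok_s : ok s
  le_t : x ≤ per t
  le_s : x ≤ per s
  θ_inj : Function.Injective θ
  ι_inj : Function.Injective ι
  θ_al : ∀ d, θ (al s d) = al t (θ d)
  θ_ph : ∀ d, Inn s d → θ (ph s d) = ph t (θ d)
  θ_in : ∀ d, Inn s d → Inn t (θ d)
  org_eq : ∀ d, org t (θ d) = ι (org s d)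
  lo : ∀ p, p ≤ x → ι (bv s p) = bv t p
  hi : ∀ p, p ≤ x → ι (bv s (2 * per s - p)) = bv t (2 * per t - p)
  out : ∀ e z, (∀ d, θ d ≠ e) → org t e = ι z → ∃ p, x ≤ p ∧ p + x ≤ 2 * per s ∧ z = bv s p
  win : ∀ p z, x ≤ p → p + x ≤ 2 * per t → ι z = bv t p →
    ∃ p', x ≤ p' ∧ p' + x ≤ 2 * per s ∧ z = bv s p'

/-- existence of a removal -/
def RemE (x : ℕ) (t s : Mp) : Prop := ∃ θ ι, Rem x t s θ ι

/-- the frontier has diameter at most `Δ` -/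
def Front (x : ℕ) (s : Mp) (Δ : ℕ) : Prop :=
  ∀ p p', x ≤ p → p + x ≤ 2 * per s → x ≤ p' → p' + x ≤ 2 * per s →
    dW s (bv s p) (bv s p') ≤ Δ

/-- perimeter and size close to `(L, m)` -/
def Near (θ : ℝ) (L m i n : ℕ) : Prop :=
  (1 - θ) * L ≤ i ∧ (i : ℝ) ≤ (1 + θ) * L ∧ (m : ℝ) ≤ n + θ * L ^ 2 ∧ n ≤ m

/-- Coupling of discs of close perimeters and sizes, with transfer of the exceptional sets. -/
def CTStmt : Prop :=
  ∀ B : ℝ, 1 ≤ B → ∃ C₁ : ℝ, 0 ≤ C₁ ∧ ∀ θ η : ℝ, 0 < θ → 0 < η →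
    ∃ (C₂ ζ : ℝ) (L₀ : ℕ), 0 ≤ C₂ ∧ 0 < ζ ∧ ∀ L m A D : ℕ, L₀ ≤ L → (L : ℝ) ^ 2 ≤ B * m →
      (m : ℝ) ≤ B * L ^ 2 → (A : ℝ) ≤ ζ * L → (D : ℝ) ≤ ζ * L ^ 2 →
      ∃ x : ℕ, (1 - θ) * L ≤ x ∧ x ≤ L ∧
        ∀ (F F' χ χ' ψ₁ ψ₂ : Mp → ℝ≥0∞) (β₁ β₂ : ℝ), 0 ≤ β₁ → 0 ≤ β₂ → (∀ t, F t ≤ 1) →
          (∀ t, F' t ≤ 1) → (∀ s, χ' s ≤ 1) → (∀ s, χ s ≤ χ' s + ψ₁ s + ψ₂ s) →
          (∀ t s, per t = L → size t = m → RemE x t s → Near θ L m (per s) (size s) →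
            F t ≤ χ s) →
          (∀ t s, per t = L + A → size t = m + D → RemE x t s → Near θ L m (per s) (size s) →
            χ' s ≤ F' t) →
          (∀ i n, Near θ L m i n → AV i n ψ₁ ≤ ENNReal.ofReal β₁) →
          (∀ i, L ≤ 2 * i → i ≤ 2 * L → IE i ψ₂ ≤ ENNReal.ofReal (β₂ * Z i)) →
          AV L m F ≤ AV (L + A) (m + D) F' + ENNReal.ofReal (η + C₁ * β₁ + C₂ * β₂)

/-- Transfer to fixed size: `ψ₁` is small at all close fixed sizes (the constant does not depend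
on the window), `ψ₂` is small for the Boltzmann laws. -/
def TRStmt : Prop :=
  ∀ B : ℝ, 1 ≤ B → ∃ C₁ : ℝ, 0 ≤ C₁ ∧ ∀ θ η : ℝ, 0 < θ → 0 < η →
    ∃ (C₂ : ℝ) (L₀ : ℕ), 0 ≤ C₂ ∧ ∀ L m : ℕ, L₀ ≤ L → (L : ℝ) ^ 2 ≤ B * m →
      (m : ℝ) ≤ B * L ^ 2 →
      ∃ x : ℕ, (1 - θ) * L ≤ x ∧ x ≤ L ∧
        ∀ (F ψ₁ ψ₂ : Mp → ℝ≥0∞) (β₁ β₂ : ℝ), 0 ≤ β₁ → 0 ≤ β₂ → (∀ t, F t ≤ 1) →
          (∀ t s, per t = L → size t = m → RemE x t s → Near θ L m (per s) (size s) →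
            F t ≤ ψ₁ s + ψ₂ s) →
          (∀ i n, Near θ L m i n → AV i n ψ₁ ≤ ENNReal.ofReal β₁) →
          (∀ i, L ≤ 2 * i → i ≤ 2 * L → IE i ψ₂ ≤ ENNReal.ofReal (β₂ * Z i)) →
          AV L m F ≤ ENNReal.ofReal (η + C₁ * β₁ + C₂ * β₂)

theorem tr_of_ct (h : CTStmt) : TRStmt := by
  intro B hB
  obtain ⟨C₁, h1, h⟩ := h B hB
  refine ⟨C₁, h1, fun θ η hθ hη => ?_⟩
  obtain ⟨C₂, ζ, L₀, h2, hζ, h⟩ := h θ η hθ hη
  refine ⟨C₂, L₀, h2, fun L m a1 a2 a3 => ?_⟩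
  obtain ⟨x, b1, b2, h⟩ := h L m 0 0 a1 a2 a3 (by simp only [Nat.cast_zero]; positivity)
    (by simp only [Nat.cast_zero]; positivity)
  refine ⟨x, b1, b2, fun F ψ₁ ψ₂ β₁ β₂ c1 c2 c3 c4 c5 c6 => ?_⟩
  have := h F (fun _ => 0) (fun s => ψ₁ s + ψ₂ s) (fun _ => 0) ψ₁ ψ₂ β₁ β₂ c1 c2 c3
    (fun _ => zero_le_one) (fun _ => zero_le_one) (fun s => by simp) c4
    (fun _ _ _ _ _ _ => le_rfl) c5 c6
  simpa [AV] using this

/-! ### normalised sums -/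

/-- normalised sum over discs of given perimeter and size -/
noncomputable def nS (L m : ℕ) (F : Mp → ℝ) : ℝ := (∑ t ∈ countaT L m, F t) / (12 ^ m * 8 ^ L)

/-- contribution of swallowing a disc of half-perimeter `j` -/
noncomputable def sideT (L m j : ℕ) (g : Mp → Mp → Mp) (F : Mp → ℝ) : ℝ :=
  ∑ y ∈ range (m + 1), 1 / 8 * nS j y fun b => nS (L - 1 - j) (m - y) fun a => F (g a b)

theorem nS_mono {L m : ℕ} {F G : Mp → ℝ} (h : ∀ t, ok t → per t = L → size t = m → F t ≤ G t) :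
    nS L m F ≤ nS L m G := by
  refine div_le_div_of_nonneg_right (sum_le_sum fun t ht => ?_) (by positivity)
  obtain ⟨h1, h2, h3⟩ := (counta_mem L m t).1 ht
  exact h t h1 h2 h3

theorem nS_add (L m : ℕ) (F G : Mp → ℝ) : nS L m (fun t => F t + G t) = nS L m F + nS L m G := by
  unfold nS
  rw [sum_add_distrib, add_div]

theorem nS_const_mul (L m : ℕ) (c : ℝ) (F : Mp → ℝ) :
    nS L m (fun t => c * F t) = c * nS L m F := by
  unfold nS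
  rw [← mul_sum, mul_div_assoc]

theorem nS_const (L m : ℕ) (c : ℝ) : nS L m (fun _ => c) = cLm L m * c := by
  unfold nS cLm
  rw [sum_const, counta_cnt_true, nsmul_eq_mul]
  ring

theorem nS_nonneg {L m : ℕ} {F : Mp → ℝ} (h : ∀ t, 0 ≤ F t) : 0 ≤ nS L m F :=
  div_nonneg (sum_nonneg fun t _ => h t) (by positivity)

theorem nS_le {L m : ℕ} {F : Mp → ℝ} (h : ∀ t, F t ≤ 1) : nS L m F ≤ cLm L m :=
  (nS_mono fun t _ _ _ => h t).trans (by rw [nS_const, mul_one])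

/-- parameters of the exploration -/
structure Par where
  L : ℕ
  m : ℕ
  A : ℕ
  D : ℕ
  h : ℕ
  j₀ : ℕ
  v : ℕ
  U : ℝ
  e₁ : ℝ
  e₂ : ℝ

namespace Par

variable (P : Par)

/-- left end of the window -/
def x : ℕ := P.L - 4 * P.h

/-- perimeter and size at the end of the exploration -/
def Adm (i n : ℕ) : Prop := P.L ≤ i + 2 * P.h + 1 ∧ i ≤ P.L + P.h ∧ P.m ≤ n + 2 * P.v ∧ n ≤ P.m

/-- states in which the exploration goes on -/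
def Alive (i n : ℕ) : Prop := P.L ≤ i + P.h ∧ i ≤ P.L + P.h ∧ P.m ≤ n + P.v ∧ n ≤ P.m

/-- hypotheses on the parameters and on the final test functions -/
structure Hyp (χ χ' ψ : Mp → ℝ) : Prop where
  j_pos : 1 ≤ P.j₀
  j_le : P.j₀ ≤ P.h
  h_le : 8 * P.h ≤ P.L
  A_le : P.A + 2 ≤ P.h
  v_pos : 1 ≤ P.v
  U_ge : ∀ i y, P.L ≤ 4 * i → cLm i y ≤ P.U
  e₁_nonneg : 0 ≤ P.e₁
  e₂_nonneg : 0 ≤ P.e₂
  lip : ∀ j, P.j₀ ≤ j → j ≤ P.h →
    ∑ y ∈ range (P.v + 1), max (cLm j y - cLm (j + P.A) (y + P.D)) 0 ≤ P.e₁ * w j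
  bad : ∀ j i n, P.j₀ ≤ j → j ≤ P.h → P.L ≤ i + 2 * P.h + 1 → i ≤ P.L + P.h → P.m ≤ n + P.v →
    n ≤ P.m → ∑ y ∈ range (min P.v n + 1), cLm j y * nS i (n - y) ψ ≤ P.e₂ * w j * P.U
  χ_le : ∀ s, χ s ≤ χ' s + ψ s
  χ_nonneg : ∀ s, 0 ≤ χ' s
  χ_le_one : ∀ s, χ' s ≤ 1
  ψ_nonneg : ∀ s, 0 ≤ ψ s

/-- upper test function in the state `(i, n)` -/
def Up (χ : Mp → ℝ) (i n : ℕ) (F : Mp → ℝ) : Prop :=
  (∀ t, F t ≤ 1) ∧ ∀ t s, per t = i → size t = n → RemE P.x t s → P.Adm (per s) (size s) →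
    F t ≤ χ s

/-- lower test function in the state `(i, n)` -/
def Lo (χ' : Mp → ℝ) (i n : ℕ) (F' : Mp → ℝ) : Prop :=
  (∀ t, 0 ≤ F' t) ∧ ∀ t s, per t = i → size t = n → RemE P.x t s → P.Adm (per s) (size s) →
    χ' s ≤ F' t

/-- the potential -/
noncomputable def pot (f : ℝ) (i n : ℕ) : ℝ :=
  f + (((i : ℝ) - P.L) / P.h) ^ 2 + ((P.m : ℝ) - n) / P.v

/-- the claim proved by induction on the number of edges -/
def Claim (χ χ' : Mp → ℝ) (f : ℝ) (i n : ℕ) : Prop :=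
  ∀ F F' : Mp → ℝ, P.Up χ i n F → P.Lo χ' (i + P.A) (n + P.D) F' →
    nS i n F ≤ nS (i + P.A) (n + P.D) F' + P.U * P.pot f i n

end Par

/-- cost of the swallowing steps on one side -/
noncomputable def sideN (h j₀ v J : ℕ) (a σ e f : ℝ) : ℝ :=
  ∑ j ∈ range j₀, w j / 8 * (f + (a - ((j : ℝ) + 1) / h) ^ 2 + σ + (j : ℝ) * (j + 1) / (2 * v))
    + ∑ j ∈ Ico j₀ (h + 1), w j / 8 * (e + (j : ℝ) * (j + 1) / (2 * v))
    + ∑ j ∈ Ico (h + 1) J, w j / 8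

/-- `g a b` is a disc of half-perimeter `i` obtained by attaching `b` to the window of `a` -/
def Att (x i j : ℕ) (g : Mp → Mp → Mp) : Prop :=
  ∀ a b, ok a → ok b → per a = i - 1 - j → per b = j →
    RemE x (g a b) a ∧ per (g a b) = i ∧ size (g a b) = size a + size b

/-! ### closeness of codes -/

/-- two extended numbers differ by at most `ρ` -/
def Cl (ρ a b : ℝ≥0∞) : Prop := a ≤ b + ρ ∧ b ≤ a + ρ

/-- modulus of continuity of the boundary -/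
def ModB (τ δ ε : ℝ) (t : Mp) : Prop :=
  ∀ p p', p ≤ p' → p' ≤ 2 * per t → (p' : ℝ) - p ≤ τ * per t → δ * dW t (bv t p) (bv t p') ≤ ε

/-- the coordinate uses samples of index less than `N` only -/
def GLt (N : ℕ) : GIdx → Prop
  | .len => True
  | .area => True
  | .d i j => i < N ∧ j < N
  | .f i => i < N
  | .b i _ => i < N
  | .e _ _ => True

/-- a small window and a good boundary on both sides -/
structure Small (τ δ ε ϑ : ℝ) (x : ℕ) (t s : Mp) : Prop where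
  mod_t : ModB τ δ ε t
  mod_s : ModB τ δ ε s
  win : 4 * (((per t : ℝ) - x) + ((per s : ℝ) - x)) + 1 ≤ τ * x
  len : δ ^ 2 * (((per t : ℝ) - x) + ((per s : ℝ) - x)) ≤ ϑ
  size_le : size s ≤ size t
  area : δ ^ 4 * ((size t : ℝ) - size s) ≤ ϑ

/-- the test function of a disc -/
noncomputable def gT (G : C(OCode, ℝ≥0∞)) (δ κ : ℝ) (t : Mp) : ℝ≥0∞ :=
  ∫⁻ s, G (ocode δ κ t s) ∂smpl (V t)

end Pool.Agent.QL.M2
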