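import Pool.Agent.P.MP_7a6434d8_pr.QL.M2.HoleCount

/-! The system of holes: the hole is uniform given the outside. -/

open MeasureTheory ProbabilityTheory Set Function
open scoped ENNReal

namespace Pool.Agent.QL.Ho

open Pool.Agent.P.MP_7a6434d8_pr Pool.Agent.P.MP_7a6434d8_pr.Mp

variable {n n' : ℕ}

theorem dc (I : Tri n → ℝ≥0∞) (hI : ∀ x x', Rel x x' → I x = I x') (g : Mp → ℝ≥0∞) :
    ∑' x, I x * g x.t = ∑' x, I x * AV (per x.t) (size x.t) g := by
  classical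
  obtain ⟨N, hN⟩ : ∃ N : Tri n → ℝ≥0∞, ∀ x, N x =
      NN n (per x.t) (size x.t) * (countaT (per x.t) (size x.t)).card := ⟨_, fun _ => rfl⟩
  have a0 : ∀ x : Tri n, (NN n (per x.t) (size x.t) : ℝ≥0∞) ≠ 0 := fun x =>
    Nat.cast_ne_zero.2 (NN_pos x)
  have N0 : ∀ x, N x ≠ 0 := fun x => hN x ▸ mul_ne_zero (a0 x) (Nat.cast_ne_zero.2
    (Finset.card_ne_zero.2 ⟨x.t, (counta_mem _ _ _).2 ⟨x.2.2.1.ok, rfl, rfl⟩⟩))
  have N1 : ∀ x, N x ≠ ⊤ := fun x => hN x ▸ ENNReal.mul_ne_top (by simp) (by simp)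
  have e1 : ∀ x, I x * g x.t = ∑' x', if Rel x x' then I x / N x * g x.t else 0 := fun x => by
    have h1 := count x (n' := n) rfl fun _ => I x / N x * g x.t
    rw [h1, Finset.sum_const, nsmul_eq_mul, ← mul_assoc, ← hN, ← mul_assoc,
      ENNReal.mul_div_cancel (N0 x) (N1 x)]
  have e2 : ∀ x', I x' * AV (per x'.t) (size x'.t) g =
      ∑' x, if Rel x' x then I x' / N x' * g x.t else 0 := fun x => by
    have h1 := count x (n' := n) rfl fun t => I x / N x * g t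
    rw [h1, ← Finset.mul_sum, hN, AV, ← mul_assoc, ← mul_div_assoc, ← mul_div_assoc,
      ENNReal.mul_div_mul_left _ _ (a0 x) (by simp), ENNReal.mul_div_right_comm]
  simp only [e1, e2]
  rw [ENNReal.tsum_comm]
  refine tsum_congr fun x' => tsum_congr fun x => ?_
  by_cases h : Rel x x'
  · have h1 := h.size
    rw [if_pos h, if_pos h.symm, hI x x' h, hN, hN, h.per, show size x.t = size x'.t by omega]
  · rw [if_neg h, if_neg fun h1 => h h1.symm]

theorem meas_icode (x : Tri n) : Measurable ((sys n).icode x.1 x.A) :=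
  measurable_pi_iff.2 fun i => meas_fin (isupp i) fun _ _ h =>
    icode_eq x.2.2 x.2.2 (sim_refl x.2.2.1) rfl fun a ha =>
      mt_refl (h a ha ▸ Iff.rfl) fun _ => h a ha

variable (J : List (ℕ × ℕ)) (t₀ : ℕ)

theorem ee_iff {x : Tri n} {x' : Tri n'} {c : Fin (4 * n) → Fin (4 * n')}
    {c' : Fin (4 * n') → Fin (4 * n)} (S : Sim x.1.α x.1.φ x'.1.α x'.1.φ x.2.1.2 x'.2.1.2 c c')
    {s : ℕ → x.1.Vertex} {s' : ℕ → x'.1.Vertex}
    (h : ∀ a, Mt x.1 x'.1 x.2.1.2 x'.2.1.2 c (s a) (s' a)) : EE J t₀ x' s' ↔ EE J t₀ x s :=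
  have h' := fun a => S.mt_symm x.2.2.1 x'.2.2.1 (h a)
  ⟨(S.symm x.2.2.1).ev x'.2.2.1 x.2.2.1 (fun _ _ => h' _) (h' _),
    S.ev x.2.2.1 x'.2.2.1 (fun _ _ => h _) (h _)⟩

open Classical in
/-- the outer factor -/
noncomputable def outF (F : (IIdx → ℝ≥0∞) → ℝ≥0∞) (x : Tri n) (s : ℕ → x.1.Vertex) : ℝ≥0∞ :=
  if EE J t₀ x s then F ((sys n).icode x.1 x.A s) else 0

variable {F : (IIdx → ℝ≥0∞) → ℝ≥0∞}

theorem meas_outF (hF : Measurable F) (x : Tri n) : Measurable (outF J t₀ F x) :=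
  Measurable.ite (meas_ee J t₀ x) (hF.comp (meas_icode x)) measurable_const

open Classical in
theorem outF_eq {x x' : Tri n} {c c' : Fin (4 * n) → Fin (4 * n)}
    (S : Sim x.1.α x.1.φ x'.1.α x'.1.φ x.2.1.2 x'.2.1.2 c c') (hs : size x.t = size x'.t)
    {s : ℕ → x.1.Vertex} {s' : ℕ → x'.1.Vertex}
    (h : ∀ a, Mt x.1 x'.1 x.2.1.2 x'.2.1.2 c (s a) (s' a)) :
    outF J t₀ F x' s' = outF J t₀ F x s :=
  if_congr (ee_iff J t₀ S h)
    (congrArg F (funext fun _ => icode_eq x.2.2 x'.2.2 S hs fun a _ => h a)) rfl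

theorem Rel.outF (hF : Measurable F) {x x' : Tri n} (h : Rel x x') :
    ∫⁻ s, outF J t₀ F x s ∂smpl _ = ∫⁻ s, outF J t₀ F x' s ∂smpl _ := by
  have h1 := h.size
  have hs : Mp.size x.t = Mp.size x'.t := by omega
  obtain ⟨c, c', S, -⟩ := h
  obtain ⟨ρ, r1, r2⟩ := S.inj x.2.2.1 x'.2.2.1 hs.le
  have r3 : Bijective ρ := (Nat.bijective_iff_injective_and_card ρ).2
    ⟨r1, by rw [card_vertex, card_vertex]⟩
  rw [← smpl_equiv (Equiv.ofBijective ρ r3) (meas_outF J t₀ hF x')]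
  exact lintegral_congr fun s => (outF_eq J t₀ S hs fun a => r2 (s a)).symm

theorem meas_inner (H : HoleSys n) (q : Quad n) (A : Set q.Vertex) : Measurable (H.inner q A) :=
  measurable_pi_iff.2 fun i => Measurable.of_discrete.comp
    ((measurable_pi_apply i).comp (measurable_thinIn (A := A) .of_discrete))

open Classical in
theorem thin_tri (hF : Measurable F) {G : (t : Mp) → (ℕ → V t) → ℝ≥0∞}
    (hG : ∀ t, Measurable (G t)) (x : Tri n) :
    ∫⁻ s, (if EE J t₀ x s then F ((sys n).icode x.1 x.A s) *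
      G ((sys n).W x.1 x.A) ((sys n).inner x.1 x.A s) else 0) ∂smpl x.1.Vertex =
    (∫⁻ s, outF J t₀ F x s ∂smpl _) * ∫⁻ s, G x.t s ∂smpl (V x.t) := by
  have hv : Valid x.1 x.A := ⟨_, x.2.2, rfl⟩
  have h1 := smpl_thin (ι := (sys n).ι x.1 x.A) (hv.spec.1.1.iota_inj _) (meas_outF J t₀ hF x)
    (hG _) fun s s' h1 h2 => outF_eq J t₀ (sim_refl x.2.2.1) rfl fun a => by
      rw [hv.range] at h1 h2
      exact mt_refl (h1 a) (h2 a)
  rw [hv.range] at h1
  refine .trans (lintegral_congr fun s => ?_) (h1.trans ?_)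
  · unfold outF
    rw [ite_mul, zero_mul]
    rfl
  · exact congrArg (fun y : Y n => _ * ∫⁻ s, G y.1 s ∂smpl (V y.1)) x.2.2.hw_eq

theorem sys_spec (n : ℕ) : (sys n).Spec := by
  classical
  refine ⟨fun q S J t₀ h => ?_, dI_in, fun q S J t₀ h => (valid_of_ev h).dI_ge,
    fun q S J t₀ h x x' w => ?_, fun J t₀ F G hF hG => ?_⟩
  · have h1 := (valid_of_ev h).spec
    have h2 := h1.1.sub
    rwa [h1.2] at h2
  · obtain ⟨s, y, y1, y2, y3, y4, y5⟩ := glue h x x' w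
    refine ⟨s + 1, y, by omega, y2, y3, fun i h1 h2 => ?_, y5⟩
    obtain ⟨i, rfl⟩ : ∃ k, i = k + 1 := ⟨i - 1, by omega⟩
    exact y4 i (by omega)
  · rw [eqs_eq J t₀ (fun q A s => F ((sys n).icode q A s) * G ((sys n).W q A) ((sys n).inner q A s))
        fun x => (hF.comp (meas_icode x)).mul ((hG _).comp (meas_inner _ _ _)),
      eqs_eq J t₀ (fun q A s => F ((sys n).icode q A s) *
        AVS (per ((sys n).W q A)) (size ((sys n).W q A)) G)
        fun x => (hF.comp (meas_icode x)).mul measurable_const]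
    congr 1
    simp only [thin_tri J t₀ hF hG]
    rw [dc _ (fun x x' h => h.outF J t₀ hF) fun t => ∫⁻ s, G t s ∂smpl (V t)]
    refine tsum_congr fun x => ?_
    rw [← lintegral_mul_const _ (meas_outF J t₀ hF x)]
    refine lintegral_congr fun s => ?_
    unfold outF
    rw [ite_mul, zero_mul, show (sys n).W x.1 x.A = x.t from congrArg Sigma.fst x.2.2.hw_eq]
    rfl

theorem hole : HoleStmt := fun n => ⟨sys n, sys_spec n⟩

end Pool.Agent.QL.Ho
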