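import Pool.Agent.P.MP_7a6434d8_pr.QL.Disc
import Pool.Agent.P.MP_7a6434d8_pr.QL.C.Thin

/-! Uniform samples under injections. -/

open MeasureTheory ProbabilityTheory Set Function
open scoped ENNReal

namespace Pool.Agent.QL.Ho

variable {X X' : Type} [MeasurableSpace X] [DiscreteMeasurableSpace X] [Finite X] [Nonempty X]
  [MeasurableSpace X'] [DiscreteMeasurableSpace X'] [Finite X'] [Nonempty X']

omit [Finite X] [Nonempty X] [Nonempty X'] in
theorem unif_map {ρ : X → X'} (h : Injective ρ) :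
    (uniformOn univ : Measure X).map ρ = (uniformOn univ : Measure X')[|range ρ] := by
  ext s hs
  unfold uniformOn
  rw [cond_cond_eq_cond_inter .univ .of_discrete, Measure.map_apply .of_discrete hs,
    cond_apply .univ, cond_apply .of_discrete, univ_inter, univ_inter,
    ← Measure.count_injective_image h, ← Measure.count_injective_image h, image_univ,
    image_preimage_eq_range_inter]

omit [Nonempty X'] in
theorem smpl_map {ρ : X → X'} (h : Injective ρ) {f : (ℕ → X') → ℝ≥0∞} (hf : Measurable f) :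
    ∫⁻ s, f (fun i => ρ (s i)) ∂smpl X = ∫⁻ s, f s ∂iid ((uniformOn univ : Measure X')[|range ρ]) := by
  rw [← unif_map h, ← iid_map _ .of_discrete, lintegral_map hf (by fun_prop)]
  rfl

theorem smpl_equiv (ρ : X ≃ X') {f : (ℕ → X') → ℝ≥0∞} (hf : Measurable f) :
    ∫⁻ s, f (fun i => ρ (s i)) ∂smpl X = ∫⁻ s, f s ∂smpl X' := by
  rw [smpl_map ρ.injective hf, ρ.range_eq_univ, cond_univ]
  rfl

open Classical in
/-- extension of finitely many samples -/
noncomputable def extd (I : Finset ℕ) (u : I → X) (i : ℕ) : X :=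
  if h : i ∈ I then u ⟨i, h⟩ else Classical.arbitrary X

omit [MeasurableSpace X] [DiscreteMeasurableSpace X] [Finite X] in
theorem eq_extd {β : Type} (l : List ℕ) {f : (ℕ → X) → β}
    (hf : ∀ s s', (∀ a ∈ l, s a = s' a) → f s = f s') :
    f = fun s => f (extd l.toFinset (l.toFinset.restrict s)) :=
  funext fun s => hf _ _ fun a ha => by
    unfold extd
    rw [dif_pos (List.mem_toFinset.2 ha)]
    rfl

theorem meas_fin {β : Type} [MeasurableSpace β] (l : List ℕ) {f : (ℕ → X) → β}
    (hf : ∀ s s', (∀ a ∈ l, s a = s' a) → f s = f s') : Measurable f := by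
  rw [eq_extd l hf]
  exact (Measurable.of_discrete (f := fun u => f (extd l.toFinset u))).comp
    (Finset.measurable_restrict _)

theorem iid_le {μ ν : Measure X} [IsProbabilityMeasure μ] [IsProbabilityMeasure ν] {K : ℝ≥0∞}
    (hK : 1 ≤ K) (h : ∀ x, ν {x} ≤ K * μ {x}) (l : List ℕ) {f : (ℕ → X) → ℝ≥0∞}
    (hf : ∀ s s', (∀ a ∈ l, s a = s' a) → f s = f s') :
    ∫⁻ s, f s ∂iid ν ≤ K ^ l.length * ∫⁻ s, f s ∂iid μ := by
  have k : ∀ (μ : Measure X) [IsProbabilityMeasure μ], ∫⁻ s, f s ∂iid μ =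
      ∫⁻ u, f (extd l.toFinset u) ∂Measure.pi fun _ : l.toFinset => μ := fun μ _ =>
    (congrArg _ (eq_extd l hf)).trans (lintegral_restrict_infinitePi (fun _ : ℕ => μ)
      (f := fun u => f (extd l.toFinset u)) .of_discrete)
  rw [k, k, lintegral_countable', lintegral_countable', ← ENNReal.tsum_mul_left]
  refine ENNReal.tsum_le_tsum fun u => ?_
  rw [Measure.pi_singleton, Measure.pi_singleton, mul_left_comm]
  refine mul_le_mul_right ((Finset.prod_le_prod' fun i _ => h (u i)).trans ?_) _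
  rw [Finset.prod_mul_distrib, Finset.prod_const, Finset.card_univ, Fintype.card_coe]
  exact mul_le_mul_left (pow_le_pow_right₀ hK l.toFinset_card_le) _

theorem smpl_le {ρ : X → X'} (h : Injective ρ) {K : ℕ} (hK : Nat.card X' ≤ K * Nat.card X)
    (l : List ℕ) {f : (ℕ → X') → ℝ≥0∞} (hf : ∀ s s', (∀ a ∈ l, s a = s' a) → f s = f s') :
    ∫⁻ s, f (fun i => ρ (s i)) ∂smpl X ≤ K ^ l.length * ∫⁻ s, f s ∂smpl X' := by
  have := Fintype.ofFinite X
  have := Fintype.ofFinite X'
  rw [Nat.card_eq_fintype_card, Nat.card_eq_fintype_card] at hK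
  have h0 : (Fintype.card X : ℝ≥0∞) ≠ 0 := Nat.cast_ne_zero.2 Fintype.card_ne_zero
  have h1 : (Fintype.card X' : ℝ≥0∞) ≠ 0 := Nat.cast_ne_zero.2 Fintype.card_ne_zero
  have h2 : 1 ≤ K := Nat.pos_of_ne_zero fun h3 => by
    rw [h3, zero_mul] at hK
    exact Fintype.card_ne_zero (Nat.le_zero.1 hK)
  rw [smpl_map h (meas_fin l hf), ← unif_map h]
  have := Measure.isProbabilityMeasure_map (μ := (uniformOn univ : Measure X))
    (Measurable.of_discrete (f := ρ)).aemeasurable
  refine iid_le (by exact_mod_cast h2) (fun x => ?_) l hf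
  rw [Measure.map_apply .of_discrete .of_discrete, uniformOn_univ, uniformOn_univ,
    Measure.count_singleton, ← Measure.count_injective_image h]
  refine (ENNReal.div_le_div_right ((measure_mono (image_preimage_subset _ _)).trans
    (Measure.count_singleton x).le) _).trans ?_
  rw [mul_one_div, ENNReal.le_div_iff_mul_le (.inl h1) (.inl (by simp)), one_div,
    ← ENNReal.div_eq_inv_mul, ENNReal.div_le_iff h0 (by simp)]
  exact_mod_cast hK

/-- thinning for uniform samples -/
theorem smpl_thin {ι : X → X'} (h : Injective ι) {F : (ℕ → X') → ℝ≥0∞} {G : (ℕ → X) → ℝ≥0∞}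
    (hF : Measurable F) (hG : Measurable G) (hinv : ∀ S S', (∀ a, S' a ∈ range ι ↔ S a ∈ range ι) →
      (∀ a, S a ∉ range ι → S' a = S a) → F S' = F S) :
    ∫⁻ s, F s * G (fun i => invFun ι (thinIn (range ι) s i)) ∂smpl X' =
      (∫⁻ s, F s ∂smpl X') * ∫⁻ s, G s ∂smpl X := by
  have hm : Measurable fun s : ℕ → X' => G fun i => invFun ι (s i) := hG.comp (by fun_prop)
  refine (thin _ .of_discrete ?_ F _ hF hm hinv).trans ?_
  · rw [Ne, uniformOn_eq_zero_iff finite_univ, univ_inter]
    exact (range_nonempty ι).ne_empty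
  · rw [← smpl_map h hm]
    simp only [leftInverse_invFun h _]
    rfl

end Pool.Agent.QL.Ho
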