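import Pool.Agent.P.MP_7a6434d8_pr.QL.M2.HoleInv
import Pool.Agent.P.MP_7a6434d8_pr.QL.M2.HoleMeas
import Pool.Agent.P.MP_7a6434d8_pr.XCount

/-! Counting the maps that agree with a given one outside the hole. -/

open MeasureTheory ProbabilityTheory Set Function
open scoped ENNReal

namespace Pool.Agent.QL.Ho

open Pool.Agent.P.MP_7a6434d8_pr Pool.Agent.P.MP_7a6434d8_pr.Mp

/-- quadrangulations with a canonical hole -/
abbrev Tri (n : ℕ) : Type := Σ q : Quad n, {y : Y n // Canon q y}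

variable {n n' : ℕ}

/-- the disc -/
abbrev Tri.t (x : Tri n) : Mp := x.2.1.1

/-- the vertex set of the hole -/
abbrev Tri.A (x : Tri n) : Set x.1.Vertex := AY x.1 x.2.1

/-- same outside, labels in the same order -/
def Rel (x : Tri n) (x' : Tri n') : Prop :=
  ∃ c c', Sim x.1.α x.1.φ x'.1.α x'.1.φ x.2.1.2 x'.2.1.2 c c' ∧ StrictMonoOn c (range x.2.1.2)ᶜ

theorem card_compl {t : Mp} {θ : Dt t → Fin (4 * n)} (ht : ok t) (hθ : Injective θ) :
    Nat.card ((range θ)ᶜ : Set (Fin (4 * n))) + 2 * (2 * size t + per t) = 4 * n := by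
  rw [← edges_eq t ht, ← card_Dt, ← Nat.card_eq_fintype_card, ← Nat.card_range_of_injective hθ,
    Nat.card_coe_set_eq, Nat.card_coe_set_eq, add_comm, ncard_add_ncard_compl, Nat.card_fin]

theorem Rel.symm {x : Tri n} {x' : Tri n'} (h : Rel x x') : Rel x' x :=
  let ⟨c, c', S, hc⟩ := h
  ⟨c', c, S.symm x.2.2.1, S.pre.mono' hc⟩

theorem Rel.per {x : Tri n} {x' : Tri n'} (h : Rel x x') : per x.t = per x'.t :=
  let ⟨_, _, S, _⟩ := h
  S.pre.per

theorem Rel.size {x : Tri n} {x' : Tri n'} (h : Rel x x') : n' + size x.t = n + size x'.t := by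
  have h0 := h.per
  obtain ⟨c, c', S, hc⟩ := h
  have h1 := card_compl x.2.2.1.ok x.2.2.1.inj
  have h2 := card_compl x'.2.2.1.ok x'.2.2.1.inj
  rw [← S.pre.image, Nat.card_image_of_injOn hc.injOn] at h2
  simp only [Tri.t] at h0 ⊢
  omega

/-- number of roots and labellings -/
def NN (n L m : ℕ) : ℕ := 4 * n * (4 * n).descFactorial (2 * (2 * m + L))

open Classical in
theorem sum_adm (n L m : ℕ) (g : Mp → ℝ≥0∞) :
    ∑' z : Fin (4 * n) × Y n, (if z.2.1 ∈ countaT L m ∧ Injective z.2.2 then g z.2.1 else 0) =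
      NN n L m * ∑ t ∈ countaT L m, g t := by
  rw [ENNReal.tsum_prod']
  simp only []
  rw [tsum_fintype, Finset.sum_const, Finset.card_univ, Fintype.card_fin, nsmul_eq_mul, NN,
    Nat.cast_mul (4 * n), mul_assoc, ENNReal.tsum_sigma', Finset.mul_sum,
    tsum_eq_sum (s := countaT L m) fun t ht => by simp [ht]]
  congr 1
  refine Finset.sum_congr rfl fun t ht => ?_
  obtain ⟨h1, h2, h3⟩ := (counta_mem L m t).1 ht
  simp only [ht, true_and]
  rw [tsum_fintype, ← Finset.sum_filter, Finset.sum_const, nsmul_eq_mul, ← Fintype.card_subtype,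
    Fintype.card_congr (Equiv.subtypeInjectiveEquivEmbedding _ _), Fintype.card_embedding_eq,
    Fintype.card_fin, card_Dt, edges_eq t h1, h2, h3]

open Classical in
theorem count (x : Tri n) {m' : ℕ} (hn : n' + size x.t = n + m') (g : Mp → ℝ≥0∞) :
    ∑' x' : Tri n', (if Rel x x' then g x'.t else 0) =
      NN n' (per x.t) m' * ∑ t ∈ countaT (per x.t) m', g t := by
  have H := x.2.2.1
  rw [← sum_adm, ← (Subtype.val_injective (p := fun x' : Tri n' => Rel x x')).tsum_eq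
    (fun x' hx => ⟨⟨x', by_contra fun h => hx (if_neg h)⟩, rfl⟩),
    ← Injective.tsum_eq (g := fun x' : {x' : Tri n' // Rel x x'} => (x'.1.1.root, x'.1.2.1))]
  · refine tsum_congr fun x' => ?_
    have h1 := x'.2.size
    rw [if_pos x'.2, if_pos ⟨(counta_mem _ _ _).2 ⟨x'.1.2.2.1.ok, x'.2.per.symm, by
      simp only [Tri.t] at h1 hn ⊢; omega⟩, x'.1.2.2.1.inj⟩]
  · rintro ⟨⟨q₁, y₁, h₁⟩, c₁, c₁', S₁, m₁⟩ ⟨⟨q₂, y₂, h₂⟩, c₂, c₂', S₂, m₂⟩ h
    obtain ⟨h1, rfl⟩ := Prod.mk.inj h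
    have h2 := S₁.det S₂ H h₁.1 h₂.1 (mono_unique m₁ m₂ S₁.pre.image S₂.pre.image)
    obtain rfl : q₁ = q₂ := xcount_ext h2.1 h2.2 h1
    rfl
  · rintro ⟨r, t', θ'⟩ hz
    obtain ⟨h1, h2⟩ : t' ∈ countaT (per x.t) m' ∧ Injective θ' := by_contra fun h => hz (if_neg h)
    obtain ⟨h3, h4, rfl⟩ := (counta_mem _ _ _).1 h1
    have h5 := card_compl H.ok H.inj
    have h6 := card_compl h3 h2
    obtain ⟨c, c', P, hc⟩ := exists_pre H.ok h3 h4.symm H.pos H.inj h2 (by
      simp only [Tri.t] at h4 hn; omega)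
    obtain ⟨q', rfl, H', S⟩ := exists_glue x.1 H P h2 hn r
    exact ⟨⟨⟨q', ⟨t', θ'⟩, H', S.root H hc x.2.2.2⟩, c, c', S, hc⟩, rfl⟩

theorem NN_pos (x : Tri n) : NN n (per x.t) (size x.t) ≠ 0 := by
  have h1 := card_compl x.2.2.1.ok x.2.2.1.inj
  have h2 := x.2.2.1.pos
  simp only [Tri.t]
  exact mul_ne_zero (by omega) (Nat.descFactorial_pos.2 (by omega)).ne'

/-- vertices correspond by an injection when the second hole is larger -/
theorem Sim.inj {q : Quad n} {q' : Quad n'} {t t' : Mp} {θ : Dt t → Fin (4 * n)}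
    {θ' : Dt t' → Fin (4 * n')} {c : Fin (4 * n) → Fin (4 * n')} {c' : Fin (4 * n') → Fin (4 * n)}
    (S : Sim q.α q.φ q'.α q'.φ θ θ' c c') (H : Hole q.α q.φ t θ) (H' : Hole q'.α q'.φ t' θ')
    (h : size t ≤ size t') :
    ∃ ρ : q.Vertex → q'.Vertex, Injective ρ ∧ ∀ v, Mt q q' θ θ' c v (ρ v) := by
  classical
  obtain ⟨e⟩ : Nonempty (V t ↪ V t') := Embedding.nonempty_of_card_le (by
    rw [card_V t H.ok, card_V t' H'.ok, S.pre.per]; omega)
  have k : ∀ v, v ∈ AA q.α q.φ θ ↔ v ∈ range (iota q.α q.φ θ q.root) := fun v => by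
    rw [H.iota_range]
  have k' : ∀ v, iota q'.α q'.φ θ' q'.root v ∈ AA q'.α q'.φ θ' := fun v =>
    H'.iota_range q'.root ▸ ⟨v, rfl⟩
  refine ⟨fun v => if h : v ∈ AA q.α q.φ θ then iota _ _ θ' q'.root (e ((k v).1 h).choose)
    else vmap _ _ _ _ c v, fun v w hvw => ?_, fun v => ⟨?_, fun hv => dif_neg hv⟩⟩
  · by_cases hv : v ∈ AA q.α q.φ θ <;> by_cases hw : w ∈ AA q.α q.φ θ
    · have h1 := e.injective (H'.iota_inj _ ((dif_pos hv).symm.trans (hvw.trans (dif_pos hw))))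
      rw [← ((k v).1 hv).choose_spec, h1, ((k w).1 hw).choose_spec]
    · exact absurd (((dif_pos hv).symm.trans (hvw.trans (dif_neg hw))) ▸ k' _) (S.vmap_out H hw)
    · exact absurd (((dif_pos hw).symm.trans (hvw.symm.trans (dif_neg hv))) ▸ k' _)
        (S.vmap_out H hv)
    · rw [← S.vmap_left H H' hv, ← S.vmap_left H H' hw]
      exact congrArg _ ((dif_neg hv).symm.trans (hvw.trans (dif_neg hw)))
  · by_cases hv : v ∈ AA q.α q.φ θ
    · exact iff_of_true (mem_of_eq_of_mem (dif_pos hv) (k' _)) hv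
    · refine iff_of_false (fun h1 => S.vmap_out H hv ?_) hv
      simp only [dif_neg hv] at h1
      exact h1

theorem card_vertex (q : Quad n) : Nat.card q.Vertex = n + 2 := by
  have : Nat.card q.Vertex + n = 2 * n + 2 := q.euler
  omega

variable (J : List (ℕ × ℕ)) (t₀ : ℕ)

/-- the event with the given hole -/
def EE (x : Tri n) (s : ℕ → x.1.Vertex) : Prop := Ev x.1 s J t₀ ∧ VO x.1 s J t₀ = x.A

theorem ee_congr (x : Tri n) (s s' : ℕ → x.1.Vertex)
    (h : ∀ a ∈ t₀ :: J.map fun b => b.1, s a = s' a) : EE J t₀ x s = EE J t₀ x s' := by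
  have h1 : ∀ b ∈ J, s b.1 = s' b.1 := fun b hb =>
    h _ (List.mem_cons_of_mem _ (List.mem_map.2 ⟨b, hb, rfl⟩))
  have h2 := ev_congr h1 (h _ List.mem_cons_self)
  have h3 := ev_congr (fun b hb => (h1 b hb).symm) (h _ List.mem_cons_self).symm
  exact propext ⟨fun h => ⟨h2.2 h.1, h2.1 ▸ h.2⟩, fun h => ⟨h3.2 h.1, h3.1 ▸ h.2⟩⟩

theorem meas_ee (x : Tri n) : MeasurableSet {s | EE J t₀ x s} :=
  measurableSet_setOfPred.2 (meas_fin _ (ee_congr J t₀ x))

instance finCanon (q : Quad n) : Finite {y : Y n // Canon q y} :=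
  Finite.of_injective (fun y => AY q y.1) fun y y' h =>
    Subtype.ext (y.2.hw_eq.symm.trans ((congrArg _ h).trans y'.2.hw_eq))

open Classical in
theorem eqs_eq (h : (q : Quad n) → Set q.Vertex → (ℕ → q.Vertex) → ℝ≥0∞)
    (hm : ∀ x : Tri n, Measurable (h x.1 x.A)) :
    EQS n (fun q s => if Ev q s J t₀ then h q (VO q s J t₀) s else 0) =
      (∑' x : Tri n, ∫⁻ s, (if EE J t₀ x s then h x.1 x.A s else 0) ∂smpl x.1.Vertex) /
        Nat.card (Quad n) := by
  unfold EQS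
  congr 1
  rw [ENNReal.tsum_sigma']
  refine tsum_congr fun q => ?_
  refine .trans (lintegral_congr fun s => ?_) (lintegral_tsum (μ := smpl q.Vertex) fun y =>
    (Measurable.ite (meas_ee J t₀ ⟨q, y⟩) (hm ⟨q, y⟩) measurable_const).aemeasurable)
  beta_reduce
  split_ifs with hE
  · have h1 := (valid_of_ev hE).spec
    rw [tsum_eq_single ⟨_, h1.1⟩ fun y hy => if_neg fun h2 => hy (Subtype.ext ?_),
      if_pos ⟨hE, h1.2.symm⟩]
    · exact congrArg (fun A => h q A s) h1.2.symm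
    · exact y.2.hw_eq.symm.trans (congrArg _ h2.2.symm)
  · exact (ENNReal.tsum_eq_zero.2 fun y => if_neg fun h2 => hE h2.1).symm

end Pool.Agent.QL.Ho
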