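import Pool.Agent.P.MP_7a6434d8_pr.QL.M2.HoleRet
import Pool.Agent.P.MP_7a6434d8_pr.QL.QMap
import Pool.Agent.P.MP_7a6434d8_pr.Exist
import Pool.Agent.P.MP_7a6434d8_pr.Unique
import Pool.Agent.P.MP_7a6434d8_pr.Quad2

/-! Existence of the disc induced on a connected vertex set with connected complement. -/

open Set Function

namespace Pool.Agent.QL.Ho

open Pool.Agent.P.MP_7a6434d8_pr Pool.Agent.P.MP_7a6434d8_pr.Mp

section General

variable {D : Type} {α φ : Equiv.Perm D} {T : Set D}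

open Classical in
/-- the face successor of the submap on `T` -/
noncomputable def fA (α φ : Equiv.Perm D) (T : Set D) (d : D) : D :=
  if h : d ∈ T ∧ ∃ e, Ret (φ * α) T (α d) e then h.2.choose else d

theorem fA_eq {d e : D} (hd : d ∈ T) (h : Ret (φ * α) T (α d) e) : fA α φ T d = e := by
  have h1 : d ∈ T ∧ ∃ e, Ret (φ * α) T (α d) e := ⟨hd, e, h⟩
  unfold fA
  rw [dif_pos h1]
  exact h1.2.choose_spec.uniq h

theorem fA_out {d : D} (hd : d ∉ T) : fA α φ T d = d := dif_neg fun h => hd h.1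

theorem fA_ret [Finite D] (hT : ∀ d ∈ T, α d ∈ T) {d : D} (hd : d ∈ T) :
    Ret (φ * α) T (α d) (fA α φ T d) := by
  obtain ⟨k, hk⟩ := tl_eq (α := α) (φ := φ) (d := α d) rfl
  obtain ⟨e, he⟩ := Ret.of_iter (σ := (φ * α : Equiv.Perm D)) (T := T) k (hk.symm ▸ hT d hd)
  rwa [fA_eq hd he]

theorem fA_mem [Finite D] (hT : ∀ d ∈ T, α d ∈ T) {d : D} : fA α φ T d ∈ T ↔ d ∈ T :=
  ⟨fun h => by_contra fun hd => hd (fA_out (α := α) (φ := φ) hd ▸ h), fun h => (fA_ret hT h).mem⟩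

theorem fA_inj [Finite D] (hT : ∀ d ∈ T, α d ∈ T) : Injective (fA α φ T) := by
  intro d d' h
  by_cases hd : d ∈ T
  · have hd' : d' ∈ T := (fA_mem hT).1 (h ▸ (fA_mem hT).2 hd)
    exact α.injective (Ret.inj (φ * α).injective (hT d hd) (hT d' hd') (fA_ret hT hd)
      (h ▸ fA_ret hT hd'))
  · have hd' : d' ∉ T := fun h' => hd ((fA_mem hT).1 (h ▸ (fA_mem hT).2 h'))
    rwa [fA_out hd, fA_out hd'] at h

theorem Ret.face {β : Type} {ψ : D → β} (h1 : ∀ d, ψ (φ d) = ψ d) (h2 : ∀ d ∉ T, ψ (α d) = ψ d)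
    {e e' : D} (h : Ret (φ * α) T e e') : ψ e' = ψ (α e) := by
  induction h with
  | now _ => exact h1 _
  | step h _ ih => exact ih.trans ((h2 _ h).trans (h1 _))

open Classical in
theorem sum_fA [Fintype D] (hT : ∀ d ∈ T, α d ∈ T) (F : D → ℝ) :
    ∑ d, (if d ∈ T then F (fA α φ T d) else 0) = ∑ d, if d ∈ T then F d else 0 := by
  rw [← Equiv.sum_comp (Equiv.ofBijective _ (Finite.injective_iff_bijective.1
    (fA_inj (φ := φ) hT))) fun d => if d ∈ T then F d else 0]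
  simp only [Equiv.ofBijective_apply, fA_mem hT]

theorem Hole.emb {t : Mp} {θ : Dt t → D} (H : Hole α φ t θ) :
    Emb α (fA α φ (range θ)) t θ :=
  ⟨H.inj, H.al, fun x => (fA_eq (mem_range_self x) (H.ret x)).symm⟩

end General

variable {n : ℕ} {q : Quad n} {A : Set q.Vertex}

theorem head_al (q : Quad n) (d : Fin (4 * n)) : q.head (q.α d) = q.tail d := by
  rw [Quad.head, q.α_α]

theorem tail_ph (q : Quad n) (d : Fin (4 * n)) : q.tail (q.φ d) = q.head d := by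
  have := tl_sig q.α q.φ (q.α d)
  rwa [Equiv.Perm.mul_apply, q.α_α] at this

theorem adj_dart {u w : q.Vertex} (h : q.graph.Adj u w) : ∃ d, q.tail d = u ∧ q.head d = w := by
  rcases h.2 with ⟨d, h1, h2⟩ | ⟨d, h1, h2⟩
  · exact ⟨d, h1, h2⟩
  · exact ⟨q.α d, h2, (head_al q d).trans h1⟩

theorem dart_adj (q : Quad n) (d : Fin (4 * n)) :
    q.tail d = q.head d ∨ q.graph.Adj (q.tail d) (q.head d) := by
  by_cases h : q.tail d = q.head d
  · exact .inl h
  · exact .inr ⟨h, .inl ⟨d, rfl, rfl⟩⟩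

/-- connected vertex sets -/
def CIn (q : Quad n) (A : Set q.Vertex) : Prop :=
  ∀ x ∈ A, ∀ y ∈ A, Relation.ReflTransGen (fun u w => q.graph.Adj u w ∧ w ∈ A) x y

/-- darts with both ends in `A` -/
def TA (q : Quad n) (A : Set q.Vertex) : Set (Fin (4 * n)) := {d | q.tail d ∈ A ∧ q.head d ∈ A}

theorem TA_al (q : Quad n) (A : Set q.Vertex) : ∀ d ∈ TA q A, q.α d ∈ TA q A :=
  fun d hd => ⟨hd.2, (head_al q d).symm ▸ hd.1⟩

theorem CIn.const (h : CIn q A) {β : Type} (U : Set (Fin (4 * n))) (F : Fin (4 * n) → β)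
    (h1 : ∀ e ∈ U, ∀ e' ∈ U, q.tail e = q.tail e' → F e = F e')
    (h2 : ∀ e ∈ TA q A, e ∈ U ∧ F (q.α e) = F e) {e e' : Fin (4 * n)} (he : e ∈ U) (he' : e' ∈ U)
    (ha : q.tail e ∈ A) (ha' : q.tail e' ∈ A) : F e = F e' := by
  have key : ∀ y, Relation.ReflTransGen (fun u w => q.graph.Adj u w ∧ w ∈ A) (q.tail e) y →
      y ∈ A ∧ ∀ e' ∈ U, q.tail e' = y → F e = F e' := by
    intro y hy
    induction hy with
    | refl => exact ⟨ha, fun e' he' h => h1 e he e' he' h.symm⟩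
    | tail _ hb ih =>
      obtain ⟨d, d1, d2⟩ := adj_dart hb.1
      have hd : d ∈ TA q A := ⟨d1 ▸ ih.1, d2 ▸ hb.2⟩
      refine ⟨hb.2, fun e' he' h => ?_⟩
      exact (ih.2 d (h2 d hd).1 d1).trans ((h2 d hd).2.symm.trans
        (h1 _ (h2 _ (TA_al q A d hd)).1 e' he' (d2.trans h.symm)))
  exact (key _ (h _ ha _ ha')).2 e' he' rfl

theorem conn_TA (h : CIn q A) {β : Type} (F : Fin (4 * n) → β)
    (h1 : ∀ d ∈ TA q A, F (q.α d) = F d) (h2 : ∀ d ∈ TA q A, F (fA q.α q.φ (TA q A) d) = F d)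
    {d d' : Fin (4 * n)} (hd : d ∈ TA q A) (hd' : d' ∈ TA q A) : F d = F d' := by
  refine h.const (TA q A) F (fun e he e' he' hee => ?_) (fun e he => ⟨he, h1 e he⟩) hd hd' hd.1 hd'.1
  obtain ⟨k, hk⟩ := tl_eq (α := q.α) (φ := q.φ) hee
  rw [← hk]
  refine (Ret.factor (fun x y hx hxy => ?_) (k + 1) he (hk ▸ he')).symm
  have h3 : fA q.α q.φ (TA q A) (q.α x) = y := fA_eq (TA_al q A x hx) (by rwa [q.α_α])
  rw [← h3, h2 _ (TA_al q A x hx), h1 x hx]

theorem conn_out (h : CIn q Aᶜ) {β : Type} (ψ : Fin (4 * n) → β) (h1 : ∀ d, ψ (q.φ d) = ψ d)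
    (h2 : ∀ d ∉ TA q A, ψ (q.α d) = ψ d) {e e' : Fin (4 * n)} (he : q.tail e ∉ A)
    (he' : q.tail e' ∉ A) : ψ e = ψ e' := by
  refine h.const {e | q.tail e ∉ A} ψ (fun e he e' _ hee => ?_)
    (fun e he => ⟨he.1, h2 e fun h => he.1 h.1⟩) he he' he he'
  obtain ⟨k, hk⟩ := tl_eq (α := q.α) (φ := q.φ) hee
  rw [← hk]
  generalize k + 1 = m
  induction m with
  | zero => rfl
  | succ m ih =>
    rw [iterate_succ_apply', Equiv.Perm.mul_apply, h1, h2, ← ih]
    have h3 : q.tail ((q.φ * q.α)^[m] e) = q.tail e := tl_iter q.α q.φ m e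
    exact fun h => he (h3 ▸ h.1)

theorem quad_hodge (q : Quad n) (ω : Fin (4 * n) → ℝ) (h1 : ∀ d, ω (q.α d) = -ω d)
    (h2 : ∀ g : Fin (4 * n) → ℝ, (∀ d, g (q.φ (q.α d)) = g d) → ∑ d, ω d * g d = 0) :
    ∃ F : Fin (4 * n) → ℝ, (∀ d, F (q.φ d) = F d) ∧ ∀ d, ω d = F (q.α d) - F d :=
  (toFMap q).hodge' ω h1 h2

open Classical in
theorem planar_sub (q : Quad n) {T : Set (Fin (4 * n))} (hT : ∀ d ∈ T, q.α d ∈ T)
    (ψ : Fin (4 * n) → ℝ) (hψ : ∀ d ∈ T, ψ (fA q.α q.φ T (q.α d)) - ψ (q.α d) =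
      -(ψ (fA q.α q.φ T d) - ψ d)) :
    ∃ F : Fin (4 * n) → ℝ, (∀ d, F (q.φ (q.α d)) = F d) ∧
      ∀ d ∈ T, ψ (fA q.α q.φ T d) - ψ d = F (q.α d) - F d := by
  have hT' : ∀ d, q.α d ∈ T ↔ d ∈ T := fun d => ⟨fun h => q.α_α d ▸ hT _ h, hT d⟩
  let K : Submodule ℝ (EuclideanSpace ℝ (Fin (4 * n))) :=
    { carrier := {ω | ∃ F : Fin (4 * n) → ℝ, (∀ d, F (q.φ (q.α d)) = F d) ∧
        ∀ d, ω d = if d ∈ T then F (q.α d) - F d else 0}
      add_mem' := by
        rintro a b ⟨F, F1, F2⟩ ⟨G, G1, G2⟩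
        refine ⟨fun d => F d + G d, fun d => by simp only [F1, G1], fun d => ?_⟩
        rw [PiLp.add_apply, F2, G2]
        split_ifs <;> ring
      zero_mem' := ⟨fun _ => 0, fun _ => rfl, fun d => by simp⟩
      smul_mem' := by
        rintro c a ⟨F, F1, F2⟩
        refine ⟨fun d => c * F d, fun d => by simp only [F1], fun d => ?_⟩
        rw [PiLp.smul_apply, F2, smul_eq_mul]
        split_ifs <;> ring }
  obtain ⟨ω, hω⟩ : ∃ ω : Fin (4 * n) → ℝ,
      ∀ d, ω d = if d ∈ T then ψ (fA q.α q.φ T d) - ψ d else 0 := ⟨_, fun _ => rfl⟩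
  have ωa : ∀ d, ω (q.α d) = -ω d := fun d => by
    rw [hω, hω, hT']
    split_ifs with h
    · exact hψ d h
    · simp
  obtain ⟨y, ⟨F, F1, F2⟩, z, hz, hyz⟩ := K.exists_add_mem_mem_orthogonal (WithLp.toLp 2 ω)
  have hz1 : ∀ d, z d = ω d - y d := fun d => by
    have : ω d = y d + z d := congrArg (fun v : EuclideanSpace ℝ (Fin (4 * n)) => v d) hyz
    linarith
  have z0 : ∀ d ∉ T, z d = 0 := fun d hd => by rw [hz1, hω, F2, if_neg hd, if_neg hd, sub_zero]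
  have za : ∀ d, z (q.α d) = -z d := fun d => by
    rw [hz1, hz1, ωa, F2, F2, hT', q.α_α]
    split_ifs <;> ring
  have anti : ∀ u g : Fin (4 * n) → ℝ, (∀ d, u (q.α d) = -u d) →
      ∑ d, u d * (g (q.α d) - g d) = -2 * ∑ d, u d * g d := by
    intro u g hu
    have e1 : ∑ d, u (q.α d) * g (q.α d) = ∑ d, u d * g d :=
      Equiv.sum_comp q.α fun d => u d * g d
    simp only [mul_sub, Finset.sum_sub_distrib]
    rw [euler_sum_anti q.α u g hu, e1]
    ring
  have zo : ∀ g : Fin (4 * n) → ℝ, (∀ d, g (q.φ (q.α d)) = g d) →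
      ∑ d, z d * (g (q.α d) - g d) = 0 := by
    intro g hg
    have h1 := (Submodule.mem_orthogonal K z).1 hz
      (WithLp.toLp 2 fun d => if d ∈ T then g (q.α d) - g d else 0) ⟨g, hg, fun _ => rfl⟩
    rw [PiLp.inner_apply] at h1
    rw [← h1]
    refine Finset.sum_congr rfl fun d _ => ?_
    by_cases hd : d ∈ T
    · simp [hd]
    · simp [hd, z0 d hd]
  obtain ⟨χ, χ1, χ2⟩ := quad_hodge q (fun d => z d) za fun g hg => by
    have h1 := zo g hg
    rw [anti _ g za] at h1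
    exact (mul_eq_zero.1 h1).resolve_left (by norm_num)
  have χ3 : ∀ d ∈ T, χ (fA q.α q.φ T d) = χ d := fun d hd => by
    rw [(fA_ret hT hd).face χ1 (fun e he => by have := χ2 e; rw [z0 e he] at this; linarith),
      q.α_α]
  have h1 : ∑ d, ω d * z d = 0 := by
    simp only [χ2]
    rw [anti ω χ ωa]
    have h2 := sum_fA (φ := q.φ) hT fun d => ψ d * χ d
    have h3 : ∑ d, ω d * χ d = ∑ d, ((if d ∈ T then ψ (fA q.α q.φ T d) * χ (fA q.α q.φ T d) else 0)
        - if d ∈ T then ψ d * χ d else 0) := by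
      refine Finset.sum_congr rfl fun d _ => ?_
      rw [hω]
      split_ifs with hd
      · rw [χ3 d hd]; ring
      · simp
    rw [h3, Finset.sum_sub_distrib, h2, sub_self, mul_zero]
  have h2 : ∑ d, z d * z d = 0 := by
    have h3 : ∑ d, z d * z d = ∑ d, ω d * z d - ∑ d, z d * (F (q.α d) - F d) := by
      rw [← Finset.sum_sub_distrib]
      refine Finset.sum_congr rfl fun d _ => ?_
      by_cases hd : d ∈ T
      · have := hz1 d
        rw [F2, if_pos hd] at this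
        rw [this]; ring
      · rw [z0 d hd]; ring
    rw [h3, h1, zo F F1, sub_zero]
  refine ⟨F, F1, fun d hd => ?_⟩
  have h4 := mul_self_eq_zero.1
    ((Finset.sum_eq_zero_iff_of_nonneg fun d _ => mul_self_nonneg (z d)).1 h2 d (Finset.mem_univ d))
  rw [hz1, hω, F2, if_pos hd, if_pos hd] at h4
  linarith

open Classical in
theorem one_orbit (hA : CIn q A) (hB : CIn q Aᶜ) {e₀ r d : Fin (4 * n)} (h0 : q.head e₀ ∉ A)
    (hr : Ret (q.φ * q.α) (TA q A) e₀ r) (hd : d ∈ TA q A) (ho : q.φ d ∉ TA q A) :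
    ∃ k, (fA q.α q.φ (TA q A))^[k] r = d := by
  have hT := TA_al q A
  have hT' : ∀ d, q.α d ∈ TA q A ↔ d ∈ TA q A := fun d => ⟨fun h => q.α_α d ▸ hT _ h, hT d⟩
  let P : Equiv.Perm (Fin (4 * n)) :=
    Equiv.ofBijective _ (Finite.injective_iff_bijective.1 (fA_inj (φ := q.φ) hT))
  obtain ⟨g, hg⟩ : ∃ g : Fin (4 * n) → ℝ, ∀ d, g d = if P.SameCycle r d then 1 else 0 :=
    ⟨_, fun _ => rfl⟩
  have g1 : ∀ d, g (fA q.α q.φ (TA q A) d) = g d := fun d => by
    rw [hg, hg]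
    exact if_congr (Equiv.Perm.sameCycle_apply_right (f := P)) rfl rfl
  obtain ⟨χ, χ1, χ2⟩ := quad_hodge q (fun d => if d ∈ TA q A then g (q.α d) - g d else 0)
    (fun d => by
      simp only [hT', q.α_α]
      split_ifs <;> ring)
    (fun h hh => by
      replace hh : ∀ d, h ((q.φ * q.α) d) = h d := hh
      have e1 := sum_fA (φ := q.φ) hT fun d => g d * h d
      have e2 := Equiv.sum_comp q.α fun d => if d ∈ TA q A then
        g (fA q.α q.φ (TA q A) d) * h (fA q.α q.φ (TA q A) d) else 0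
      rw [← sub_eq_zero, ← e2, ← Finset.sum_sub_distrib] at e1
      refine Eq.trans (Finset.sum_congr rfl fun d _ => ?_) e1
      by_cases hd : d ∈ TA q A
      · rw [if_pos hd, if_pos hd, if_pos (hT d hd), g1, (fA_ret hT (hT d hd)).inv hh, q.α_α]
        ring
      · rw [if_neg hd, if_neg hd, if_neg fun h => hd ((hT' d).1 h)]
        ring)
  have χ0 : ∀ d ∉ TA q A, χ (q.α d) = χ d := fun e he => by
    have := χ2 e
    rw [if_neg he] at this
    linarith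
  have h1 : g r - χ r = g d - χ d := conn_TA hA (fun d => g d - χ d)
    (fun e he => by
      have := χ2 e
      rw [if_pos he] at this
      linarith)
    (fun e he => by rw [g1, (fA_ret hT he).face χ1 χ0, q.α_α]) hr.mem hd
  have h2 : χ r = χ d := by
    rw [hr.face χ1 χ0, ← χ1 d, ← χ0 _ ho]
    exact conn_out hB χ χ1 χ0 h0 fun h => ho ⟨(tail_ph q d).symm ▸ hd.2, h⟩
  have h3 : P.SameCycle r d := by
    by_contra hn
    rw [hg, hg, if_pos (Equiv.Perm.SameCycle.refl _ _), if_neg hn] at h1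
    linarith
  obtain ⟨i, -, hi⟩ := h3.exists_pow_eq'
  refine ⟨i, ?_⟩
  rw [Equiv.Perm.coe_pow] at hi
  exact hi

theorem exists_TA (hA : CIn q A) (hd : ∃ d, d ∈ TA q A) {x : q.Vertex} (hx : x ∈ A) :
    ∃ e ∈ TA q A, q.tail e = x := by
  obtain ⟨d, hd⟩ := hd
  rcases (hA _ hd.1 _ hx).cases_tail with h | ⟨c, h1, h2⟩
  · exact ⟨d, hd, h.symm⟩
  · have hc : c ∈ A := by
      rcases h1.cases_tail with h | ⟨_, _, h⟩
      · exact h ▸ hd.1
      · exact h.2
    obtain ⟨e, e1, e2⟩ := adj_dart h2.1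
    exact ⟨q.α e, TA_al q A e ⟨e1 ▸ hc, e2 ▸ hx⟩, e2⟩

open Classical in
theorem exists_hole (hA : CIn q A) (hB : CIn q Aᶜ) (hd : ∃ d, d ∈ TA q A) {e₀ : Fin (4 * n)}
    (ha : q.tail e₀ ∈ A) (h0 : q.head e₀ ∉ A) :
    ∃ (t : Mp) (θ : Dt t → Fin (4 * n)), Hole q.α q.φ t θ ∧ AA q.α q.φ θ = A ∧
      ∃ x₀, bd t 0 = some x₀ ∧ Ret (q.φ * q.α) (range θ) e₀ (θ x₀) := by
  have hT := TA_al q A
  obtain ⟨r, hr⟩ : ∃ r, Ret (q.φ * q.α) (TA q A) e₀ r := by
    obtain ⟨e, he, h1⟩ := exists_TA hA hd ha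
    obtain ⟨k, hk⟩ := tl_eq (α := q.α) (φ := q.φ) h1.symm
    exact Ret.of_iter k (hk ▸ he)
  have hS : ∀ d, d ∈ Finset.univ.filter (· ∈ TA q A) ↔ d ∈ TA q A := fun d => by simp
  have hcl : ∀ d ∈ TA q A, q.φ d ∈ TA q A → fA q.α q.φ (TA q A) d = q.φ d := fun d hd h => by
    have h1 : (q.φ * q.α) (q.α d) = q.φ d := by rw [Equiv.Perm.mul_apply, q.α_α]
    rw [(fA_ret hT hd).eq_of_mem (h1 ▸ h), h1]
  have G : Good q.α (fA q.α q.φ (TA q A)) (Finset.univ.filter (· ∈ TA q A)) (some r) := by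
    refine ⟨fun d hd => (hS _).2 (hT d ((hS d).1 hd)), fun d _ => q.α_α d, fun d _ => q.α_ne d,
      fun d hd => (hS _).2 ((fA_mem hT).2 ((hS d).1 hd)), fun d _ d' _ h => fA_inj hT h,
      fun h => (by cases h), fun x hx => ?_, fun d hd => ?_,
      fun F h1 h2 d hd d' hd' => conn_TA hA F (fun e he => h1 e ((hS e).2 he))
        (fun e he => h2 e ((hS e).2 he)) ((hS _).1 hd) ((hS _).1 hd'), fun ψ hψ => ?_⟩
    · cases hx
      exact (hS _).2 hr.mem
    · replace hd := (hS d).1 hd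
      by_cases h : ∀ i, q.φ^[i] d ∈ TA q A
      · have h1 : ∀ i, (fA q.α q.φ (TA q A))^[i] d = q.φ^[i] d := fun i => by
          induction i with
          | zero => rfl
          | succ i ih =>
            rw [iterate_succ_apply', iterate_succ_apply', ih]
            exact hcl _ (h i) (by have := h (i + 1); rwa [iterate_succ_apply'] at this)
        rw [h1, h1, ← Equiv.Perm.coe_pow, ← Equiv.Perm.coe_pow]
        exact .inr (q.φ_four d)
      · left
        push Not at h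
        have h1 : ∀ i d, d ∈ TA q A → q.φ^[i] d ∉ TA q A →
            ∃ k j, (fA q.α q.φ (TA q A))^[k] r = (fA q.α q.φ (TA q A))^[j] d := by
          intro i
          induction i with
          | zero => exact fun d h1 h2 => absurd h1 h2
          | succ i ih =>
            intro d h1 h2
            by_cases h3 : q.φ d ∈ TA q A
            · obtain ⟨k, j, h4⟩ := ih _ h3 h2
              exact ⟨k, j + 1, by rw [h4, iterate_succ_apply, hcl d h1 h3]⟩
            · obtain ⟨k, hk⟩ := one_orbit hA hB h0 hr h1 h3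
              exact ⟨k, 0, hk⟩
        obtain ⟨i, hi⟩ := h
        obtain ⟨k, j, hk⟩ := h1 i d hd hi
        obtain ⟨m, hm0, hm⟩ := (fA_inj (φ := q.φ) hT).mem_periodicPts d
        refine ⟨r, m * j - j + k, rfl, ?_⟩
        rw [iterate_add_apply, hk, ← iterate_add_apply,
          Nat.sub_add_cancel (Nat.le_mul_of_pos_left j hm0)]
        exact (hm.mul_const j).eq
    · obtain ⟨F, F1, F2⟩ := planar_sub q hT ψ fun d hd => hψ d ((hS d).2 hd)
      refine ⟨F, fun d hd => ?_, fun d hd => F2 d ((hS d).1 hd)⟩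
      rw [(fA_ret hT (hT d ((hS d).1 hd))).inv (F := F) F1, q.α_α]
  obtain ⟨t, ht, θ, E, hθ, h1⟩ := exists_real _ _ _ _ G
  have hR : range θ = TA q A := by
    ext d
    exact ((hS d).symm.trans (hθ d)).symm
  obtain ⟨x₀, hx₀, hr0⟩ := Option.map_eq_some_iff.1 h1
  have hp : 1 ≤ per t := by have := darta_lt ht hx₀; omega
  have hθm : ∀ x, θ x ∈ TA q A := fun x => hR ▸ ⟨x, rfl⟩
  have hAA : AA q.α q.φ θ = A := by
    ext v
    constructor
    · rintro ⟨x, rfl⟩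
      exact (hθm x).1
    · intro hv
      obtain ⟨e, he, rfl⟩ := exists_TA hA hd hv
      obtain ⟨x, rfl⟩ : e ∈ range θ := hR ▸ he
      exact ⟨x, rfl⟩
  refine ⟨t, θ, ⟨ht, hp, q.α_α, E.inj, E.map_al, fun x => ?_, fun x hx => ?_, fun e he h1 h2 => ?_⟩,
    hAA, x₀, hx₀, by rw [hR, hr0]; exact hr⟩
  · rw [hR, E.map_ph]
    exact fA_ret hT (hθm x)
  · rw [hR] at hx
    obtain ⟨k, hk⟩ := one_orbit hA hB h0 hr (hθm x) hx
    rw [← hr0, unique_iter E] at hk
    exact ⟨_, E.inj hk ▸ bd_iter t ht 0 k x₀ hx₀⟩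
  · rw [hAA] at h1 h2
    exact he (hR ▸ ⟨h1, h2⟩)

end Pool.Agent.QL.Ho
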