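import Pool.Agent.P.MP_7a6434d8_pr.QL.M2.HoleSim

/-! Plugging another disc into a hole. -/

open Set Function

namespace Pool.Agent.QL.Ho

open Pool.Agent.P.MP_7a6434d8_pr Pool.Agent.P.MP_7a6434d8_pr.Mp

variable {D D' : Type} {t t' : Mp} {θ : Dt t → D} {θ' : Dt t' → D'} {c : D → D'} {c' : D' → D}
  {α φ : Equiv.Perm D} {α' φ' : Equiv.Perm D'}

open Classical in
theorem exists_pre [Finite D] [Finite D'] [LinearOrder D] [LinearOrder D'] (ht : ok t)
    (ht' : ok t') (hp : per t = per t') (h1 : 1 ≤ per t) (hθ : Injective θ) (hθ' : Injective θ')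
    (hc : Nat.card ((range θ)ᶜ : Set D) = Nat.card ((range θ')ᶜ : Set D')) :
    ∃ c c', Pre θ θ' c c' ∧ StrictMonoOn c (range θ)ᶜ := by
  obtain ⟨x₀, -⟩ := darta_ex ht (k := 0) (by omega)
  obtain ⟨x₀', -⟩ := darta_ex ht' (k := 0) (by omega)
  have := Fintype.ofFinite ((range θ)ᶜ : Set D)
  have := Fintype.ofFinite ((range θ')ᶜ : Set D')
  rw [Nat.card_eq_fintype_card, Nat.card_eq_fintype_card] at hc
  let E := (monoEquivOfFin _ hc).symm.trans (monoEquivOfFin ((range θ')ᶜ : Set D') rfl)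
  let c : D → D' := fun e =>
    if h : e ∈ range θ then θ' ((bd t' (ix t h.choose)).getD x₀') else E ⟨e, h⟩
  let c' : D' → D := fun e =>
    if h : e ∈ range θ' then θ ((bd t (ix t' h.choose)).getD x₀) else E.symm ⟨e, h⟩
  have c1 : ∀ e (h : e ∉ range θ), c e = E ⟨e, h⟩ := fun e h => dif_neg h
  have c2 : ∀ e (h : e ∉ range θ'), c' e = E.symm ⟨e, h⟩ := fun e h => dif_neg h
  refine ⟨c, c', ⟨ht, ht', hp, fun e h => ?_, fun e h => ?_, fun e h => ?_, fun e h => ?_,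
    fun p x x' h h' => ?_, fun p x x' h h' => ?_⟩, fun a ha b hb hab => ?_⟩
  · rw [c1 e h]; exact (E ⟨e, h⟩).2
  · rw [c2 e h]; exact (E.symm ⟨e, h⟩).2
  · rw [c1 e h, c2 _ (E ⟨e, h⟩).2]
    exact congrArg Subtype.val (E.symm_apply_apply ⟨e, h⟩)
  · rw [c2 e h, c1 _ (E.symm ⟨e, h⟩).2]
    exact congrArg Subtype.val (E.apply_symm_apply ⟨e, h⟩)
  · have h2 : θ x ∈ range θ := ⟨x, rfl⟩
    refine (dif_pos h2).trans ?_
    rw [hθ h2.choose_spec, ix_eq ht h, h']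
    rfl
  · have h2 : θ' x' ∈ range θ' := ⟨x', rfl⟩
    refine (dif_pos h2).trans ?_
    rw [hθ' h2.choose_spec, ix_eq ht' h', h]
    rfl
  · rw [c1 a ha, c1 b hb]
    exact E.strictMono (a := ⟨a, ha⟩) (b := ⟨b, hb⟩) hab

open Classical in
theorem exists_perms (H : Hole α φ t θ) (P : Pre θ θ' c c') (hθ' : Injective θ')
    (h1 : ∀ d, α d ≠ d) (h4 : ∀ d, φ^[4] d = d ∧ φ^[2] d ≠ d) :
    ∃ α' φ' : Equiv.Perm D', Sim α φ α' φ' θ θ' c c' ∧ (∀ d, α' (α' d) = d) ∧ (∀ d, α' d ≠ d) ∧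
      (∀ d, φ'^[4] d = d ∧ φ'^[2] d ≠ d) ∧ (∀ x, θ' (al t' x) = α' (θ' x)) ∧
      ∀ x, ¬ IsB t' x → φ' (θ' x) = θ' (ph t' x) := by
  obtain ⟨x₀', -⟩ := darta_ex P.ok' (k := 0) (by have := H.pos; have := P.per; omega)
  have : Nonempty (Dt t') := ⟨x₀'⟩
  let a : D' → D' := fun e => if e ∈ range θ' then θ' (al t' (invFun θ' e)) else c (α (c' e))
  let f : D' → D' := fun e => if BB θ' e then c (φ (c' e)) else θ' (ph t' (invFun θ' e))
  have a1 : ∀ x, a (θ' x) = θ' (al t' x) := fun x =>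
    (if_pos ⟨x, rfl⟩).trans (by rw [leftInverse_invFun hθ' x])
  have a2 : ∀ e ∉ range θ, a (c e) = c (α e) := fun e he =>
    (if_neg (P.out e he)).trans (by rw [P.left e he])
  have f1 : ∀ x, ¬ IsB t' x → f (θ' x) = θ' (ph t' x) := fun x hx =>
    (if_neg (by
      rintro (h | ⟨y, hy, h⟩)
      · exact h ⟨x, rfl⟩
      · exact hx (hθ' h ▸ hy))).trans (by rw [leftInverse_invFun hθ' x])
  have f2 : ∀ e, BB θ e → f (c e) = c (φ e) := fun e he =>
    (if_pos (P.bb he).1).trans (by rw [(P.bb he).2])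
  have hal : ∀ e ∉ range θ, α e ∉ range θ := fun e he h => he (H.al_mem.1 h)
  have aa : ∀ d, a (a d) = d ∧ a d ≠ d := by
    intro d
    by_cases hd : d ∈ range θ'
    · obtain ⟨x, rfl⟩ := hd
      rw [a1, a1, al_al]
      exact ⟨rfl, fun h => al_ne t' x (hθ' h)⟩
    · have h2 := P.out' d hd
      rw [← P.right d hd, a2 _ h2, a2 _ (hal _ h2), H.αα]
      refine ⟨rfl, fun h => h1 (c' d) ?_⟩
      rw [← P.left _ (hal _ h2), h, P.left _ h2]
  have ff : ∀ d, f^[4] d = d ∧ f^[2] d ≠ d := by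
    intro d
    by_cases hd : BB θ' d
    · obtain ⟨h2, h3⟩ := P.symm.bb hd
      have key : ∀ k, BB θ (φ^[k] (c' d)) ∧ f^[k] d = c (φ^[k] (c' d)) := by
        intro k
        induction k with
        | zero => exact ⟨h2, h3.symm⟩
        | succ k ih =>
          rw [iterate_succ_apply', iterate_succ_apply', ih.2, f2 _ ih.1]
          exact ⟨H.ph_BB ih.1, rfl⟩
      rw [(key 4).2, (key 2).2, (h4 _).1]
      refine ⟨h3, fun h => (h4 (c' d)).2 ?_⟩
      rw [← (P.bb (key 2).1).2, h]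
    · obtain ⟨x, rfl⟩ : d ∈ range θ' := by_contra fun h => hd (.inl h)
      have hx : ¬ IsB t' x := fun h => hd (.inr ⟨x, h, rfl⟩)
      have key : ∀ k, ¬ IsB t' ((ph t')^[k] x) ∧ f^[k] (θ' x) = θ' ((ph t')^[k] x) := by
        intro k
        induction k with
        | zero => exact ⟨hx, rfl⟩
        | succ k ih =>
          rw [iterate_succ_apply', iterate_succ_apply', ih.2, f1 _ ih.1]
          exact ⟨not_isB_ph P.ok' ih.1, rfl⟩
      obtain ⟨h2, h3⟩ := (quad_inner t' P.ok' x).resolve_left hx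
      rw [(key 4).2, (key 2).2, h2]
      exact ⟨rfl, fun h => h3 (hθ' h)⟩
  refine ⟨Function.Involutive.toPerm a fun d => (aa d).1,
    ⟨f, f^[3], fun d => (ff d).1, fun d => ?_⟩, ⟨P, a2, f2⟩, fun d => (aa d).1, fun d => (aa d).2,
    ff, fun x => (a1 x).symm, f1⟩
  exact (iterate_succ_apply' f 3 d).symm.trans (ff d).1

theorem Sim.hole [Finite D] [Finite D'] (S : Sim α φ α' φ' θ θ' c c') (H : Hole α φ t θ)
    (hθ' : Injective θ') (h1 : ∀ d, α' (α' d) = d) (h2 : ∀ x, θ' (Mp.al t' x) = α' (θ' x))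
    (h3 : ∀ x, ¬ IsB t' x → φ' (θ' x) = θ' (Mp.ph t' x)) : Hole α' φ' t' θ' := by
  have sg : ∀ d, (φ' * α') (α' d) = φ' d := fun d => by rw [Equiv.Perm.mul_apply, h1]
  have now : ∀ x, φ' (θ' x) = θ' (Mp.ph t' x) →
      Ret (φ' * α') (range θ') (α' (θ' x)) (θ' (Mp.ph t' x)) := fun x h => by
    rw [← h, ← sg]
    exact .now (by rw [sg, h]; exact ⟨_, rfl⟩)
  refine ⟨S.pre.ok', S.pre.per ▸ H.pos, h1, hθ', h2, fun x' => ?_,
    fun x hx => by_contra fun h => hx ⟨_, (h3 x h).symm⟩, fun e he g1 g2 => ?_⟩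
  · by_cases hx : IsB t' x'
    · obtain ⟨p, hp'⟩ := hx
      obtain ⟨x, hp⟩ := S.pre.symm.ex hp'
      have e1 : φ' (θ' x') = c (φ (θ x)) := by
        rw [← S.pre.bd p x x' hp hp', S.ph _ (.inr ⟨x, ⟨p, hp⟩, rfl⟩)]
      have e2 : c (θ (Mp.ph t x)) = θ' (Mp.ph t' x') :=
        S.pre.bd _ _ _ (bd_ph t H.ok p x hp) (S.pre.per ▸ bd_ph t' S.pre.ok' p x' hp')
      by_cases h : φ (θ x) ∈ range θ
      · exact now x' (by rw [e1, H.cl h, e2])
      · refine .step ?_ ?_ <;> rw [sg, e1]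
        · exact S.pre.out _ h
        · exact e2 ▸ S.ret H h (H.ret_opn h)
    · exact now x' (h3 x' hx)
  · have g3 := S.pre.out' e he
    rw [← S.pre.right e he] at g1 g2
    rw [S.al _ g3] at g2
    exact H.ind _ g3 ((S.hit H g3).1 g1) ((S.hit H fun h => g3 (H.al_mem.1 h)).1 g2)

theorem Sim.const (S : Sim α φ α' φ' θ θ' c c') (H : Hole α φ t θ) (H' : Hole α' φ' t' θ')
    (hc : ∀ d d', Relation.ReflTransGen (fun x y => y = α x ∨ y = φ x) d d') {β : Type}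
    (F : D' → β) (h1 : ∀ d, F (α' d) = F d) (h2 : ∀ d, F (φ' d) = F d) (d d' : D') :
    F d = F d' := by
  classical
  obtain ⟨x₀, hx₀⟩ := darta_ex H.ok (k := 0) (by have := H.pos; omega)
  obtain ⟨x₀', -⟩ := S.pre.ex hx₀
  have k1 : ∀ x, F (θ' x) = F (θ' x₀') := fun x =>
    conn_darts t' H'.ok (fun x => F (θ' x)) (fun x => by rw [H'.al, h1])
      (fun x => by rw [(H'.ret x).inv (F := F) (fun y => (h2 _).trans (h1 _)), h1]) x x₀'
  obtain ⟨G, hG⟩ : ∃ G : D → β, ∀ e, G e = if e ∈ range θ then F (θ' x₀') else F (c e) :=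
    ⟨_, fun _ => rfl⟩
  have k2 : ∀ e, BB θ e → G e = F (c e) := fun e he => by
    rw [hG]
    split_ifs with h
    · obtain ⟨x, hx⟩ := (S.pre.mem he).2 h
      rw [← hx, k1 x]
    · rfl
  have k3 : ∀ e e', G e = G e' := by
    intro e e'
    induction hc e e' with
    | refl => rfl
    | @tail b _ _ h ih =>
      rw [ih]
      rcases h with rfl | rfl
      · by_cases hb : b ∈ range θ
        · rw [hG, hG, if_pos hb, if_pos (H.al_mem.2 hb)]
        · rw [k2 _ (.inl hb), k2 _ (.inl fun h => hb (H.al_mem.1 h)), ← S.al _ hb, h1]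
      · by_cases hb : BB θ b
        · rw [k2 _ hb, k2 _ (H.ph_BB hb), ← S.ph _ hb, h2]
        · obtain ⟨x, rfl⟩ : b ∈ range θ := by_contra fun h => hb (.inl h)
          rw [H.inner fun h => hb (.inr ⟨x, h, rfl⟩), hG, hG, if_pos ⟨_, rfl⟩, if_pos ⟨_, rfl⟩]
  have k4 : ∀ d, F d = F (θ' x₀') := fun d => by
    by_cases hd : d ∈ range θ'
    · obtain ⟨x, rfl⟩ := hd
      exact k1 x
    · rw [← S.pre.right d hd, ← k2 _ (.inl (S.pre.out' d hd)), k3 _ (θ x₀), hG, if_pos ⟨_, rfl⟩]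
  rw [k4, k4 d']

theorem exists_glue {n n' : ℕ} {θ : Dt t → Fin (4 * n)} {θ' : Dt t' → Fin (4 * n')}
    {c : Fin (4 * n) → Fin (4 * n')} {c' : Fin (4 * n') → Fin (4 * n)} (q : Quad n)
    (H : Hole q.α q.φ t θ) (P : Pre θ θ' c c') (hθ' : Injective θ')
    (hn : n' + size t = n + size t') (r : Fin (4 * n')) :
    ∃ q' : Quad n', q'.root = r ∧ Hole q'.α q'.φ t' θ' ∧ Sim q.α q.φ q'.α q'.φ θ θ' c c' := by
  obtain ⟨α', φ', S, h1, h2, h3, h4, h5⟩ := exists_perms H P hθ' q.α_ne fun d => by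
    rw [← Equiv.Perm.coe_pow, ← Equiv.Perm.coe_pow]
    exact q.φ_four d
  have H' := S.hole H hθ' h1 h4 h5
  refine ⟨⟨α', φ', r, h1, h2, fun d => ?_, fun d d' => ?_, ?_⟩, rfl, H', S⟩
  · rw [Equiv.Perm.coe_pow, Equiv.Perm.coe_pow]
    exact h3 d
  · have sa : ∀ x, Relation.ReflTransGen (fun x y => y = α' x ∨ y = φ' x) d x →
        Relation.ReflTransGen (fun x y => y = α' x ∨ y = φ' x) d (α' x) :=
      fun x h => h.tail (.inl rfl)
    have sp : ∀ x, Relation.ReflTransGen (fun x y => y = α' x ∨ y = φ' x) d x →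
        Relation.ReflTransGen (fun x y => y = α' x ∨ y = φ' x) d (φ' x) :=
      fun x h => h.tail (.inr rfl)
    have key := S.const H H' q.connected
      (fun x => Relation.ReflTransGen (fun x y => y = α' x ∨ y = φ' x) d x)
      (fun x => propext ⟨fun h => by simpa only [h1] using sa _ h, sa x⟩)
      (fun x => propext ⟨fun h => by
        have h6 := sp _ (sp _ (sp _ h))
        have h7 : φ' (φ' (φ' (φ' x))) = x := (h3 x).1
        rwa [h7] at h6, sp x⟩) d d'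
    exact key ▸ Relation.ReflTransGen.refl
  · have e1 := H.card_vx
    have e2 := H'.card_vx
    have e3 := S.card_out H H'
    have e4 : Nat.card (Vx q.α q.φ) + n = 2 * n + 2 := q.euler
    have e5 := P.per
    show Nat.card (Vx α' φ') + n' = 2 * n' + 2
    omega

end Pool.Agent.QL.Ho
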