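import Pool.Agent.P.MP_7a6434d8_pr.QL.M2.HoleGlue
import Pool.Agent.P.MP_7a6434d8_pr.QL.Disc

/-! Graph distances outside a hole; the events defined by balls. -/

open Set Function

namespace Pool.Agent.QL.Ho

open Pool.Agent.P.MP_7a6434d8_pr Pool.Agent.P.MP_7a6434d8_pr.Mp

section Graph

variable {X X' : Type} {G : SimpleGraph X} {G' : SimpleGraph X'} {A : Set X} {A' : Set X'}
  {ρ : X → X'} {ρ' : X' → X}

theorem dist_pred (h : G.Connected) {x y : X} {k : ℕ} (hk : G.dist x y = k + 1) :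
    ∃ z, G.dist x z ≤ k ∧ G.Adj z y := by
  obtain ⟨w, hw⟩ := h.exists_walk_length_eq_dist y x
  rw [SimpleGraph.dist_comm, hk] at hw
  cases w with
  | nil => cases hw
  | cons ha w =>
    refine ⟨_, ?_, ha.symm⟩
    rw [SimpleGraph.dist_comm]
    exact (SimpleGraph.dist_le w).trans (Nat.succ_injective hw).le

theorem dist_adj (h : G.Connected) {x y z : X} (ha : G.Adj y z) : G.dist x z ≤ G.dist x y + 1 :=
  h.dist_triangle.trans (by rw [SimpleGraph.dist_eq_one_iff_adj.2 ha])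

/-- two graphs that agree outside `A` and `A'` -/
structure GS (G : SimpleGraph X) (A : Set X) (G' : SimpleGraph X') (A' : Set X') (ρ : X → X')
    (ρ' : X' → X) : Prop where
  conn : G.Connected
  conn' : G'.Connected
  out : ∀ x ∉ A, ρ x ∉ A'
  out' : ∀ x ∉ A', ρ' x ∉ A
  left : ∀ x ∉ A, ρ' (ρ x) = x
  right : ∀ x ∉ A', ρ (ρ' x) = x
  adj : ∀ x ∉ A, ∀ y ∉ A, G.Adj x y → G'.Adj (ρ x) (ρ y)
  adj' : ∀ x ∉ A', ∀ y ∉ A', G'.Adj x y → G.Adj (ρ' x) (ρ' y)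
  bd : ∀ x ∉ A, ∀ y ∈ A, G.Adj x y → ∃ y' ∈ A', G'.Adj (ρ x) y'
  bd' : ∀ x ∉ A', ∀ y ∈ A', G'.Adj x y → ∃ y' ∈ A, G.Adj (ρ' x) y'

namespace GS

variable (S : GS G A G' A' ρ ρ')
include S

theorem symm : GS G' A' G A ρ' ρ :=
  ⟨S.conn', S.conn, S.out', S.out, S.right, S.left, S.adj', S.adj, S.bd', S.bd⟩

theorem push {x : X} {r : ℕ} (h : ∀ y ∈ A, r < G.dist x y) {k : ℕ} (hk : k ≤ r) {y : X}
    (hy : G.dist x y ≤ k) : G'.dist (ρ x) (ρ y) ≤ k := by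
  induction k generalizing y with
  | zero =>
    rw [S.conn.dist_eq_zero_iff.1 (Nat.le_zero.1 hy), SimpleGraph.dist_self]
  | succ k ih =>
    rcases hy.lt_or_eq with hy | hy
    · exact (ih (by omega) (by omega)).trans (Nat.le_succ k)
    · obtain ⟨z, z1, z2⟩ := dist_pred S.conn hy
      refine (dist_adj S.conn' (S.adj z (fun hz => ?_) y (fun hz => ?_) z2)).trans
        (Nat.succ_le_succ (ih (by omega) z1))
      · have := h z hz; omega
      · have := h y hz; omega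

theorem pull {x : X} (hx : x ∉ A) {r : ℕ} (h : ∀ y ∈ A, r < G.dist x y) {k : ℕ} (hk : k ≤ r)
    {y : X'} (hy : G'.dist (ρ x) y ≤ k) : y ∉ A' ∧ G.dist x (ρ' y) ≤ k := by
  induction k generalizing y with
  | zero =>
    rw [← S.conn'.dist_eq_zero_iff.1 (Nat.le_zero.1 hy), S.left x hx, SimpleGraph.dist_self]
    exact ⟨S.out x hx, le_rfl⟩
  | succ k ih =>
    rcases hy.lt_or_eq with hy | hy
    · exact (ih (by omega) (by omega)).imp id fun h => h.trans (Nat.le_succ k)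
    · obtain ⟨z, z1, z2⟩ := dist_pred S.conn' hy
      obtain ⟨z3, z4⟩ := ih (by omega) z1
      have hy' : y ∉ A' := fun hy' => by
        obtain ⟨u, u1, u2⟩ := S.bd' z z3 y hy' z2
        have h1 := h u u1
        have h2 := dist_adj S.conn (x := x) u2
        omega
      exact ⟨hy', (dist_adj S.conn (S.adj' z z3 y hy' z2)).trans (Nat.succ_le_succ z4)⟩

theorem far {x : X} (hx : x ∉ A) {r : ℕ} (h : ∀ y ∈ A, r < G.dist x y) :
    ∀ y ∈ A', r < G'.dist (ρ x) y :=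
  fun _ hy => not_le.1 fun h1 => (S.pull hx h le_rfl h1).1 hy

theorem far_iff {x : X} (hx : x ∉ A) {r : ℕ} :
    (∀ y ∈ A', r < G'.dist (ρ x) y) ↔ ∀ y ∈ A, r < G.dist x y :=
  ⟨fun h => by simpa only [S.left x hx] using S.symm.far (S.out x hx) h, S.far hx⟩

theorem ball {x : X} (hx : x ∉ A) {r : ℕ} (h : ∀ y ∈ A, r < G.dist x y) {k : ℕ} (hk : k ≤ r)
    {y : X'} : G'.dist (ρ x) y ≤ k ↔ y ∉ A' ∧ G.dist x (ρ' y) ≤ k :=
  ⟨S.pull hx h hk, fun h1 => S.right y h1.1 ▸ S.push h hk h1.2⟩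

end GS

theorem path_rev {x y : X} (hx : x ∈ A)
    (h : Relation.ReflTransGen (fun u w => G.Adj u w ∧ w ∈ A) x y) :
    y ∈ A ∧ Relation.ReflTransGen (fun u w => G.Adj u w ∧ w ∈ A) y x := by
  induction h with
  | refl => exact ⟨hx, .refl⟩
  | tail _ h ih => exact ⟨h.2, .head ⟨h.1.symm, ih.1⟩ ih.2⟩

theorem path_ball (h : G.Connected) {x : X} {k : ℕ} (hA : ∀ y, G.dist x y ≤ k → y ∈ A) {y : X}
    (hy : G.dist x y ≤ k) : Relation.ReflTransGen (fun u w => G.Adj u w ∧ w ∈ A) x y := by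
  induction k generalizing y with
  | zero => rw [h.dist_eq_zero_iff.1 (Nat.le_zero.1 hy)]
  | succ k ih =>
    have hA' : ∀ y, G.dist x y ≤ k → y ∈ A := fun y hy => hA y (by omega)
    rcases hy.lt_or_eq with hy | hy
    · exact ih hA' (by omega)
    · obtain ⟨z, z1, z2⟩ := dist_pred h hy
      exact (ih hA' z1).tail ⟨z2, hA y hy.le⟩

end Graph

variable {n n' : ℕ} {q : Quad n} {q' : Quad n'}

theorem quad_conn (q : Quad n) : q.graph.Connected := by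
  have key : ∀ d, q.graph.Reachable (q.tail d) (q.head d) := fun d =>
    (dart_adj q d).elim (fun h => h ▸ .refl _) fun h => h.reachable
  refine ⟨fun x y => ?_⟩
  obtain ⟨d, rfl⟩ := Quotient.exists_rep x
  obtain ⟨e, rfl⟩ := Quotient.exists_rep y
  show q.graph.Reachable (q.tail d) (q.tail e)
  induction q.connected d e with
  | refl => rfl
  | tail _ h ih =>
    rcases h with rfl | rfl
    · exact ih.trans (key _)
    · rw [tail_ph]
      exact ih.trans (key _)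

section Event

variable {S : ℕ → q.Vertex} {J : List (ℕ × ℕ)} {t₀ : ℕ}

theorem vo_not {x : q.Vertex} (h : x ∈ VO q S J t₀) : ¬ InBall q S J x := by
  rcases h.2.cases_tail with h1 | ⟨_, _, h1⟩
  · exact h1 ▸ h.1
  · exact h1.2

theorem vo_adj {x y : q.Vertex} (h : x ∈ VO q S J t₀) (ha : q.graph.Adj x y)
    (hy : y ∉ VO q S J t₀) : InBall q S J y :=
  by_contra fun h1 => hy ⟨h.1, h.2.tail ⟨ha, h1⟩⟩

theorem vo_self (h : Ev q S J t₀) : S t₀ ∈ VO q S J t₀ :=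
  let ⟨_, hd⟩ := h.2.2
  ⟨hd.1.1, .refl⟩

theorem vo_far {c : ℕ × ℕ} (hc : c ∈ J) :
    S c.1 ∉ VO q S J t₀ ∧ ∀ y ∈ VO q S J t₀, c.2 < q.graph.dist (S c.1) y :=
  ⟨fun h => vo_not h ⟨c, hc, by simp⟩, fun _ hy => not_le.1 fun h => vo_not hy ⟨c, hc, h⟩⟩

theorem cin_vo : CIn q (VO q S J t₀) := by
  have key : ∀ x ∈ VO q S J t₀,
      Relation.ReflTransGen (fun u w => q.graph.Adj u w ∧ w ∈ VO q S J t₀) (S t₀) x := by
    rintro x ⟨h1, h2⟩
    induction h2 with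
    | refl => exact .refl
    | tail h3 h ih => exact ih.tail ⟨h.1, h1, h3.tail h⟩
  exact fun x hx y hy => (path_rev (show S t₀ ∈ VO q S J t₀ from ⟨hx.1, .refl⟩) (key x hx)).2.trans
    (key y hy)

theorem cin_compl (h : Ev q S J t₀) : CIn q (VO q S J t₀)ᶜ := by
  obtain ⟨c₀, hc₀⟩ := List.exists_mem_of_ne_nil J h.1
  have k1 : ∀ c ∈ J, ∀ y, q.graph.dist (S c.1) y ≤ c.2 →
      Relation.ReflTransGen (fun u w => q.graph.Adj u w ∧ w ∈ (VO q S J t₀)ᶜ) (S c.1) y :=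
    fun c hc y hy => path_ball (quad_conn q) (fun z hz h => vo_not h ⟨c, hc, hz⟩) hy
  have k2 : ∀ c ∈ J,
      Relation.ReflTransGen (fun u w => q.graph.Adj u w ∧ w ∈ (VO q S J t₀)ᶜ) (S c₀.1) (S c.1) := by
    intro c hc
    have h1 := h.2.1 c₀ hc₀ c hc
    clear hc
    induction h1 with
    | refl => exact .refl
    | @tail a b h2 h3 ih =>
      have ha : a ∈ J := by
        rcases h2.cases_tail with h4 | ⟨_, _, h4⟩
        · exact h4 ▸ hc₀
        · exact h4.1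
      rcases h3.2 with h4 | h4
      · exact ih.trans (k1 a ha _ h4)
      · rw [SimpleGraph.dist_comm] at h4
        exact ih.trans (path_rev (vo_far h3.1).1 (k1 b h3.1 _ h4)).2
  have k3 : ∀ {x z : q.Vertex} (_ : q.graph.Walk x z), z = S c₀.1 → x ∉ VO q S J t₀ →
      Relation.ReflTransGen (fun u w => q.graph.Adj u w ∧ w ∈ (VO q S J t₀)ᶜ) (S c₀.1) x := by
    intro x z w hz hx
    induction w with
    | nil => rw [hz]
    | @cons u v _ ha w ih =>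
      by_cases hu : InBall q S J u
      · obtain ⟨c, hc, h1⟩ := hu
        exact (k2 c hc).trans (k1 c hc u h1)
      · exact (ih hz fun hv => hu (vo_adj hv ha.symm hx)).tail ⟨ha.symm, hx⟩
  intro x hx y hy
  obtain ⟨w⟩ := quad_conn q x (S c₀.1)
  obtain ⟨w'⟩ := quad_conn q y (S c₀.1)
  exact (path_rev (vo_far hc₀).1 (k3 w rfl hx)).2.trans (k3 w' rfl hy)

theorem exists_out (h : Ev q S J t₀) :
    ∃ e, q.tail e ∈ VO q S J t₀ ∧ q.head e ∉ VO q S J t₀ := by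
  obtain ⟨c₀, hc₀⟩ := List.exists_mem_of_ne_nil J h.1
  obtain ⟨w⟩ := quad_conn q (S t₀) (S c₀.1)
  obtain ⟨d, -, d1, d2⟩ := w.exists_boundary_dart _ (vo_self h) (vo_far hc₀).1
  obtain ⟨e, e1, e2⟩ := adj_dart d.adj
  exact ⟨e, e1 ▸ d1, e2 ▸ d2⟩

theorem event_push {A' : Set q'.Vertex} {ρ : q.Vertex → q'.Vertex} {ρ' : q'.Vertex → q.Vertex}
    (G : GS q.graph (VO q S J t₀) q'.graph A' ρ ρ') (hρ : ∀ x ∈ VO q S J t₀, ρ x ∈ A')
    (hA : CIn q' A') (hd : ∃ d, d ∈ TA q' A') (h : Ev q S J t₀) :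
    Ev q' (fun i => ρ (S i)) J t₀ ∧ VO q' (fun i => ρ (S i)) J t₀ = A' := by
  have k1 : ∀ y, InBall q' (fun i => ρ (S i)) J y ↔ y ∉ A' ∧ InBall q S J (ρ' y) := by
    intro y
    constructor
    · rintro ⟨c, hc, h1⟩
      obtain ⟨h2, h3⟩ := G.pull (vo_far hc).1 (vo_far hc).2 le_rfl h1
      exact ⟨h2, c, hc, h3⟩
    · rintro ⟨h2, c, hc, h3⟩
      exact ⟨c, hc, (G.ball (vo_far hc).1 (vo_far hc).2 le_rfl).2 ⟨h2, h3⟩⟩
  have k0 := hρ _ (vo_self h)
  have k2 : VO q' (fun i => ρ (S i)) J t₀ = A' := by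
    ext y
    constructor
    · rintro ⟨-, h1⟩
      induction h1 with
      | refl => exact k0
      | @tail u w _ h2 ih =>
        by_contra hw
        obtain ⟨z, z1, z2⟩ := G.bd' w hw u ih h2.1.symm
        exact h2.2 ((k1 w).2 ⟨hw, vo_adj z1 z2.symm (G.out' w hw)⟩)
    · intro hy
      exact ⟨fun h1 => ((k1 _).1 h1).1 k0,
        Relation.ReflTransGen.mono (fun u w h1 => ⟨h1.1, fun h2 => ((k1 w).1 h2).1 h1.2⟩) _ _
          (hA _ k0 y hy)⟩
  refine ⟨⟨h.1, fun c hc c' hc' => ?_, by rw [k2]; exact hd⟩, k2⟩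
  have h1 := h.2.1 c hc c' hc'
  clear hc'
  induction h1 with
  | refl => exact .refl
  | @tail a b h2 h3 ih =>
    have ha : a ∈ J := by
      rcases h2.cases_tail with h4 | ⟨_, _, h4⟩
      · exact h4 ▸ hc
      · exact h4.1
    refine ih.tail ⟨h3.1, h3.2.imp (G.push (vo_far ha).2 le_rfl) fun h4 => ?_⟩
    rw [SimpleGraph.dist_comm] at h4 ⊢
    exact G.push (vo_far h3.1).2 le_rfl h4

end Event

variable {t t' : Mp} {θ : Dt t → Fin (4 * n)} {θ' : Dt t' → Fin (4 * n')}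
  {c : Fin (4 * n) → Fin (4 * n')} {c' : Fin (4 * n') → Fin (4 * n)}

theorem Hole.cin (H : Hole q.α q.φ t θ) : CIn q (AA q.α q.φ θ) := by
  rintro _ ⟨x, rfl⟩ _ ⟨y, rfl⟩
  have k1 : ∀ y, Relation.ReflTransGen (fun u w => q.graph.Adj u w ∧ w ∈ AA q.α q.φ θ)
      (q.tail (θ x)) (q.tail (θ y)) →
      Relation.ReflTransGen (fun u w => q.graph.Adj u w ∧ w ∈ AA q.α q.φ θ)
      (q.tail (θ x)) (q.tail (θ (Mp.al t y))) := by
    intro y hy
    have h1 : q.tail (θ (Mp.al t y)) ∈ AA q.α q.φ θ := ⟨_, rfl⟩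
    rw [H.al] at h1 ⊢
    rcases dart_adj q (θ y) with h | h
    · exact (show q.tail (θ y) = q.tail (q.α (θ y)) from h) ▸ hy
    · exact hy.tail ⟨h, h1⟩
  have k2 : ∀ y, Relation.ReflTransGen (fun u w => q.graph.Adj u w ∧ w ∈ AA q.α q.φ θ)
      (q.tail (θ x)) (q.tail (θ (Mp.al t y))) =
      Relation.ReflTransGen (fun u w => q.graph.Adj u w ∧ w ∈ AA q.α q.φ θ)
      (q.tail (θ x)) (q.tail (θ y)) :=
    fun y => propext ⟨fun h => by simpa only [al_al] using k1 _ h, k1 y⟩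
  have key := conn_darts t H.ok (fun y => Relation.ReflTransGen
      (fun u w => q.graph.Adj u w ∧ w ∈ AA q.α q.φ θ) (q.tail (θ x)) (q.tail (θ y))) k2
    (fun y => by rw [show q.tail (θ (ph t y)) = q.tail (θ (Mp.al t y)) from H.tl_th_ph y, k2]) x y
  exact key ▸ Relation.ReflTransGen.refl

theorem Hole.range_eq (H : Hole q.α q.φ t θ) : range θ = TA q (AA q.α q.φ θ) :=
  Set.ext fun _ => H.mem_iff

theorem Hole.ne (H : Hole q.α q.φ t θ) : ∃ d, d ∈ TA q (AA q.α q.φ θ) := by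
  obtain ⟨x, -⟩ := darta_ex H.ok (k := 0) (by have := H.pos; omega)
  exact ⟨θ x, H.range_eq ▸ ⟨x, rfl⟩⟩

theorem Sim.adj (S : Sim q.α q.φ q'.α q'.φ θ θ' c c') (H : Hole q.α q.φ t θ)
    (H' : Hole q'.α q'.φ t' θ') {x y : q.Vertex} (hx : x ∉ AA q.α q.φ θ) (h : q.graph.Adj x y) :
    (y ∉ AA q.α q.φ θ → q'.graph.Adj (vmap _ _ _ _ c x) (vmap _ _ _ _ c y)) ∧
      (y ∈ AA q.α q.φ θ → ∃ y' ∈ AA q'.α q'.φ θ', q'.graph.Adj (vmap _ _ _ _ c x) y') := by
  have hne := h.ne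
  obtain ⟨d, rfl, rfl⟩ := adj_dart h
  have hd := not_mem_of_tl hx
  have e1 : vmap _ _ q'.α q'.φ c (q.tail d) = q'.tail (c d) := S.vmap_tl H hx
  have e2 : q'.head (c d) = tl q'.α q'.φ (c (q.α d)) := congrArg _ (S.al d hd)
  constructor
  · intro hy
    have e3 : vmap _ _ q'.α q'.φ c (q.head d) = q'.head (c d) := (S.vmap_tl H hy).trans e2.symm
    refine (dart_adj q' (c d)).elim (fun h1 => absurd ?_ hne) fun h1 => by rwa [e1, e3]
    rw [← S.vmap_left H H' hx, ← S.vmap_left H H' hy, e1, e3, h1]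
  · intro hy
    have e3 : q'.head (c d) ∈ AA q'.α q'.φ θ' :=
      e2 ▸ (S.hit H fun h => hd (H.al_mem.1 h)).2 hy
    refine ⟨_, e3, (dart_adj q' (c d)).elim (fun h1 => absurd ?_ (S.vmap_out H hx)) fun h1 => ?_⟩
    · rwa [e1, h1]
    · rwa [e1]

theorem Sim.gs (S : Sim q.α q.φ q'.α q'.φ θ θ' c c') (H : Hole q.α q.φ t θ)
    (H' : Hole q'.α q'.φ t' θ') {ρ : q.Vertex → q'.Vertex} {ρ' : q'.Vertex → q.Vertex}
    (h : ∀ x ∉ AA q.α q.φ θ, ρ x = vmap _ _ _ _ c x)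
    (h' : ∀ x ∉ AA q'.α q'.φ θ', ρ' x = vmap _ _ _ _ c' x) :
    GS q.graph (AA q.α q.φ θ) q'.graph (AA q'.α q'.φ θ') ρ ρ' := by
  have S' := S.symm H
  refine ⟨quad_conn q, quad_conn q', fun x hx => ?_, fun x hx => ?_, fun x hx => ?_,
    fun x hx => ?_, fun x hx y hy ha => ?_, fun x hx y hy ha => ?_, fun x hx y hy ha => ?_,
    fun x hx y hy ha => ?_⟩
  · rw [h x hx]; exact S.vmap_out H hx
  · rw [h' x hx]; exact S'.vmap_out H' hx
  · rw [h x hx, h' _ (S.vmap_out H hx), S.vmap_left H H' hx]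
  · rw [h' x hx, h _ (S'.vmap_out H' hx), S'.vmap_left H' H hx]
  · rw [h x hx, h y hy]; exact (S.adj H H' hx ha).1 hy
  · rw [h' x hx, h' y hy]; exact (S'.adj H' H hx ha).1 hy
  · rw [h x hx]; exact (S.adj H H' hx ha).2 hy
  · rw [h' x hx]; exact (S'.adj H' H hx ha).2 hy

end Pool.Agent.QL.Ho
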