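import Pool.Agent.P.MP_7a6434d8_pr.QL.M2.HoleSys
import Pool.Agent.P.MP_7a6434d8_pr.QL.M2.BEn

/-! The event and the outer code only depend on the outside of the hole. -/

open Set Function
open scoped ENNReal

namespace Pool.Agent.QL.Ho

open Pool.Agent.P.MP_7a6434d8_pr Pool.Agent.P.MP_7a6434d8_pr.Mp

theorem dEg_le_out {D D' ι : Type} [Fintype D] [Fintype D'] {α π : D → D} {α' π' : D' → D'}
    {c : D → D'} {O U K : Set D} {K' : Set D'} {l : List ι} {A : ι → Set D} {A' : ι → Set D'}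
    (lo hi : ι → ℝ) (hO : InjOn c O) (hα : ∀ d ∈ O, α d ∈ O ∧ α' (c d) = c (α d))
    (hU : ∀ d, π d ∈ U ↔ d ∈ U) (hπ : ∀ d ∈ U, π' (c d) = c (π d))
    (hK : ∀ d ∈ K, d ∈ U ∧ d ∈ O) (hK1 : ∀ d ∈ O, c d ∈ K' ↔ d ∈ K) (hK2 : K' ⊆ c '' O)
    (hA : ∀ i ∈ l, ∀ d ∈ A i, d ∈ U ∧ c d ∈ A' i) :
    dEg α π K (l.map fun i => (A i, lo i, hi i)) ≤
      dEg α' π' K' (l.map fun i => (A' i, lo i, hi i)) := by
  classical
  refine m2_dEg_le _ _ _ _ _ _ _ _ fun f' h1 h2 =>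
    ⟨fun d => if d ∈ U then f' (c d) else 0, fun d => ?_, fun x hx d hd => ?_, ?_⟩
  · by_cases hd : d ∈ U
    · simp only [if_pos hd, if_pos ((hU d).2 hd)]
      rw [← hπ d hd, h1]
    · simp only [if_neg hd, if_neg fun h => hd ((hU d).1 h)]
  · obtain ⟨i, hi, rfl⟩ := List.mem_map.1 hx
    simp only [if_pos (hA i hi d hd).1]
    exact h2 _ (List.mem_map.2 ⟨i, hi, rfl⟩) _ (hA i hi d hd).2
  · unfold m2En
    rw [← Finset.sum_filter, ← Finset.sum_filter]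
    refine Finset.sum_bij (fun d _ => c d) (fun d hd => ?_) (fun a ha b hb h => ?_)
      (fun e he => ?_) fun d hd => ?_
    · have h3 := (Finset.mem_filter.1 hd).2
      have h4 := (hK d h3.1).2
      refine Finset.mem_filter.2 ⟨Finset.mem_univ _, (hK1 d h4).2 h3.1, ?_⟩
      rw [(hα d h4).2]
      exact (hK1 _ (hα d h4).1).2 h3.2
    · exact hO (hK a (Finset.mem_filter.1 ha).2.1).2 (hK b (Finset.mem_filter.1 hb).2.1).2 h
    · have h3 := (Finset.mem_filter.1 he).2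
      obtain ⟨d, hd, rfl⟩ := hK2 h3.1
      rw [(hα d hd).2] at h3
      exact ⟨d, Finset.mem_filter.2 ⟨Finset.mem_univ _, (hK1 d hd).1 h3.1,
        (hK1 _ (hα d hd).1).1 h3.2⟩, rfl⟩
    · have h3 := (Finset.mem_filter.1 hd).2
      simp only [if_pos (hK d h3.1).1, if_pos (hK _ h3.2).1, (hα d (hK d h3.1).2).2]

variable {n n' : ℕ} {q : Quad n} {q' : Quad n'}

theorem dist_iter (q : Quad n) (x : q.Vertex) (d : Fin (4 * n)) (i : ℕ) :
    q.graph.dist x (q.tail (q.φ^[i] d)) ≤ q.graph.dist x (q.tail d) + i := by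
  induction i with
  | zero => exact le_rfl
  | succ i ih =>
    rw [iterate_succ_apply', tail_ph]
    rcases dart_adj q (q.φ^[i] d) with h | h
    · rw [← h]; omega
    · exact (dist_adj (quad_conn q) h).trans (by omega)

theorem ev_congr {s s' : ℕ → q.Vertex} {J : List (ℕ × ℕ)} {t₀ : ℕ}
    (h : ∀ b ∈ J, s b.1 = s' b.1) (h0 : s t₀ = s' t₀) :
    VO q s J t₀ = VO q s' J t₀ ∧ (Ev q s J t₀ → Ev q s' J t₀) := by
  have h1 : InBall q s J = InBall q s' J := by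
    funext x
    exact propext (exists_congr fun b => and_congr_right fun hb => by rw [h b hb])
  have h2 : VO q s J t₀ = VO q s' J t₀ := by
    unfold VO
    rw [h1, h0]
  refine ⟨h2, fun hE => ⟨hE.1, fun c hc c' hc' => ?_, h2 ▸ hE.2.2⟩⟩
  have h3 := hE.2.1 c hc c' hc'
  clear hc'
  induction h3 with
  | refl => exact .refl
  | @tail a b h4 h5 ih =>
    have ha : a ∈ J := by
      rcases h4.cases_tail with h6 | ⟨_, _, h6⟩
      · exact h6 ▸ hc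
      · exact h6.1
    rw [h a ha, h b h5.1] at h5
    exact ih.tail h5

variable {t t' : Mp} {θ : Dt t → Fin (4 * n)} {θ' : Dt t' → Fin (4 * n')}
  {c : Fin (4 * n) → Fin (4 * n')} {c' : Fin (4 * n') → Fin (4 * n)}

/-- corresponding vertices -/
def Mt (q : Quad n) (q' : Quad n') {t t' : Mp} (θ : Dt t → Fin (4 * n)) (θ' : Dt t' → Fin (4 * n'))
    (c : Fin (4 * n) → Fin (4 * n')) (x : q.Vertex) (x' : q'.Vertex) : Prop :=
  (x' ∈ AA q'.α q'.φ θ' ↔ x ∈ AA q.α q.φ θ) ∧ (x ∉ AA q.α q.φ θ → x' = vmap _ _ _ _ c x)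

theorem sim_refl (H : Hole q.α q.φ t θ) : Sim q.α q.φ q.α q.φ θ θ id id :=
  have h : ∀ p x x', bd t p = some x → bd t p = some x' → θ x = θ x' := fun _ _ _ h h' =>
    congrArg θ (Option.some.inj (h.symm.trans h'))
  ⟨⟨H.ok, H.ok, rfl, fun _ h => h, fun _ h => h, fun _ _ => rfl, fun _ _ => rfl, h,
    fun p x x' a b => h p x' x b a⟩, fun _ _ => rfl, fun _ _ => rfl⟩

theorem mt_refl {x x' : q.Vertex} (h1 : x' ∈ AA q.α q.φ θ ↔ x ∈ AA q.α q.φ θ)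
    (h2 : x ∉ AA q.α q.φ θ → x' = x) : Mt q q θ θ id x x' :=
  ⟨h1, fun h => (h2 h).trans (tl_out x).symm⟩

namespace Sim

variable (S : Sim q.α q.φ q'.α q'.φ θ θ' c c') (H : Hole q.α q.φ t θ) (H' : Hole q'.α q'.φ t' θ')
include S H H'

theorem mt_symm {x : q.Vertex} {x' : q'.Vertex} (h : Mt q q' θ θ' c x x') :
    Mt q' q θ' θ c' x' x :=
  ⟨h.1.symm, fun h1 => by
    have h2 := fun h3 => h1 (h.1.2 h3)
    rw [h.2 h2, S.vmap_left H H' h2]⟩

theorem gs₀ : GS q.graph (AA q.α q.φ θ) q'.graph (AA q'.α q'.φ θ') (vmap _ _ _ _ c)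
    (vmap _ _ _ _ c') := S.gs H H' (fun _ _ => rfl) fun _ _ => rfl

theorem ev {s : ℕ → q.Vertex} {s' : ℕ → q'.Vertex} {J : List (ℕ × ℕ)} {t₀ : ℕ}
    (h : ∀ b ∈ J, Mt q q' θ θ' c (s b.1) (s' b.1)) (h0 : Mt q q' θ θ' c (s t₀) (s' t₀))
    (hE : Ev q s J t₀ ∧ VO q s J t₀ = AA q.α q.φ θ) :
    Ev q' s' J t₀ ∧ VO q' s' J t₀ = AA q'.α q'.φ θ' := by
  classical
  have h1 : s t₀ ∈ AA q.α q.φ θ := hE.2 ▸ vo_self hE.1
  have G := S.gs H H' (ρ := fun x => if x ∈ AA q.α q.φ θ then s' t₀ else vmap _ _ _ _ c x)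
    (fun x hx => if_neg hx) fun _ _ => rfl
  rw [← hE.2] at G
  have h2 := event_push G (fun x hx => (if_pos hx).symm ▸ h0.1.2 h1) H'.cin H'.ne hE.1
  rw [hE.2] at h2
  have h3 := ev_congr (s' := s') (J := J) (t₀ := t₀) (s := fun i =>
    if s i ∈ AA q.α q.φ θ then s' t₀ else vmap _ _ _ _ c (s i)) (fun b hb => by
      have h4 : s b.1 ∉ AA q.α q.φ θ := hE.2 ▸ (vo_far hb).1
      rw [if_neg h4, (h b hb).2 h4]) (if_pos h1)
  exact ⟨h3.2 h2.1, h3.1 ▸ h2.2⟩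

theorem far {x : q.Vertex} {x' : q'.Vertex} (h : Mt q q' θ θ' c x x') {r : ℕ}
    (hx : ∀ y ∈ AA q.α q.φ θ, r < q.graph.dist x y) :
    x ∉ AA q.α q.φ θ ∧ ∀ y ∈ AA q'.α q'.φ θ', r < q'.graph.dist x' y := by
  have h1 : x ∉ AA q.α q.φ θ := fun h1 => by simpa using hx x h1
  rw [h.2 h1]
  exact ⟨h1, (S.gs₀ H H').far h1 hx⟩

theorem bset {s : ℕ → q.Vertex} {s' : ℕ → q'.Vertex} {l : List (ℕ × ℕ)}
    (h : ∀ b ∈ l, Mt q q' θ θ' c (s b.1) (s' b.1))
    (hg : ∀ b ∈ l, ∀ x ∈ AA q.α q.φ θ, b.2 + 3 < q.graph.dist (s b.1) x) {d : Fin (4 * n)}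
    (hd : d ∉ range θ) : c d ∈ (gmQ q').bset s' l ↔ d ∈ (gmQ q).bset s l := by
  refine exists_congr fun b => and_congr_right fun hb => ?_
  have h1 := (S.far H H' (h b hb) (hg b hb)).1
  show q'.graph.dist (s' b.1) (q'.tail (c d)) ≤ b.2 ↔ q.graph.dist (s b.1) (q.tail d) ≤ b.2
  rw [(h b hb).2 h1, (S.gs₀ H H').ball h1 (hg b hb) (Nat.le_add_right _ 3)]
  by_cases h2 : q.tail d ∈ AA q.α q.φ θ
  · have h3 := hg b hb _ h2
    exact ⟨fun h4 => absurd ((S.hit H hd).2 h2) h4.1, fun h4 => by omega⟩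
  · have h3 : q'.tail (c d) = vmap _ _ _ _ c (q.tail d) := (S.vmap_tl H h2).symm
    rw [h3, S.vmap_left H H' h2]
    exact and_iff_right (S.vmap_out H h2)

theorem ballE {s : ℕ → q.Vertex} {s' : ℕ → q'.Vertex} {j : BDat ℕ} (pr : Bool)
    (h : ∀ b ∈ j.balls, Mt q q' θ θ' c (s b.1) (s' b.1))
    (hg : ∀ b ∈ j.balls, ∀ x ∈ AA q.α q.φ θ, b.2 + 3 < q.graph.dist (s b.1) x) :
    (gmQ q).ballE s pr j ≤ (gmQ q').ballE s' pr j := by
  have m1 : ∀ b ∈ j.1, b ∈ j.balls := fun b hb => List.mem_append_left _ hb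
  have m2 : ∀ i ∈ j.2, ∀ b ∈ i.1, b ∈ j.balls := fun i hi b hb =>
    List.mem_append_right _ (List.mem_flatMap.2 ⟨i, hi, hb⟩)
  have k1 : ∀ l : List (ℕ × ℕ), (∀ b ∈ l, b ∈ j.balls) → ∀ d ∈ (gmQ q).bset s l, ∀ i < 4,
      q.tail (q.φ^[i] d) ∉ AA q.α q.φ θ := by
    rintro l hl d ⟨b, hb, h1⟩ i hi h2
    have h3 := hg b (hl b hb) _ h2
    have h4 := dist_iter q (s b.1) d i
    have h5 : q.graph.dist (s b.1) (q.tail d) ≤ b.2 := h1
    omega
  have key : ∀ (π : Fin (4 * n) → Fin (4 * n)) (π' : Fin (4 * n') → Fin (4 * n'))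
      (U : Set (Fin (4 * n))), (∀ d, π d ∈ U ↔ d ∈ U) → (∀ d ∈ U, π' (c d) = c (π d)) →
      (∀ d, (∀ i < 4, q.tail (q.φ^[i] d) ∉ AA q.α q.φ θ) → d ∈ U) →
      dEg q.α π ((gmQ q).bset s j.1)
        (j.2.map fun i => ((gmQ q).bset s i.1, (i.2.1 : ℝ), (i.2.2 : ℝ))) ≤
      dEg q'.α π' ((gmQ q').bset s' j.1)
        (j.2.map fun i => ((gmQ q').bset s' i.1, (i.2.1 : ℝ), (i.2.2 : ℝ))) := by
    intro π π' U u1 u2 u3
    refine dEg_le_out (O := (range θ)ᶜ) _ _ (LeftInvOn.injOn S.pre.left)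
      (fun d hd => ⟨fun h1 => hd (H.al_mem.1 h1), S.al d hd⟩) u1 u2
      (fun d hd => ⟨u3 d (k1 _ m1 d hd), not_mem_of_tl (k1 _ m1 d hd 0 (by norm_num))⟩)
      (fun d hd => S.bset H H' (fun b hb => h b (m1 b hb)) (fun b hb => hg b (m1 b hb)) hd)
      ?_ fun i hi d hd => ⟨u3 d (k1 _ (m2 i hi) d hd), ?_⟩
    · rintro e ⟨b, hb, h1⟩
      rw [S.pre.image]
      refine not_mem_of_tl (α := q'.α) (φ := q'.φ) fun h2 => ?_
      have h3 := (S.far H H' (h b (m1 b hb)) (hg b (m1 b hb))).2 _ h2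
      have h4 : q'.graph.dist (s' b.1) (tl q'.α q'.φ e) ≤ b.2 := h1
      omega
    · exact (S.bset H H' (fun b hb => h b (m2 i hi b hb)) (fun b hb => hg b (m2 i hi b hb))
        (not_mem_of_tl (k1 _ (m2 i hi) d hd 0 (by norm_num)))).2 hd
  cases pr with
  | true =>
    refine key _ _ {d | q.tail d ∉ AA q.α q.φ θ} (fun d => ?_)
      (fun d hd => S.sig H (not_mem_of_tl hd)) fun d hd => hd 0 (by norm_num)
    exact (congrArg (· ∉ AA q.α q.φ θ) (tl_sig q.α q.φ d)).to_iff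
  | false =>
    refine key _ _ {d | ∀ i < 4, q.tail (q.φ^[i] d) ∉ AA q.α q.φ θ} (fun d => ?_)
      (fun d hd => S.ph d (.inl (not_mem_of_tl (hd 0 (by norm_num))))) fun d hd => hd
    have h4 : q.φ^[3] (q.φ d) = d := by
      rw [← iterate_succ_apply, ← Equiv.Perm.coe_pow]
      exact (q.φ_four d).1
    refine ⟨fun h1 i hi => ?_, fun h1 i hi => ?_⟩
    · cases i with
      | zero => exact h4 ▸ h1 3 (by norm_num)
      | succ i => exact h1 i (by omega)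
    · rcases (Nat.lt_succ_iff.1 hi).lt_or_eq with h2 | rfl
      · exact h1 (i + 1) (by omega)
      · exact h4.symm ▸ h1 0 (by norm_num)

theorem node_eq {e : Fin (4 * n)} (he : e ∉ range θ) :
    node q' ⟨t', θ'⟩ (c e) = (node q ⟨t, θ⟩ e).map (vmap _ _ _ _ c) id := by
  unfold node
  by_cases h : q.tail e ∈ AA q.α q.φ θ
  · refine (if_pos ((S.hit H he).2 h)).trans (.trans ?_ (congrArg _ (if_pos h).symm))
    exact congrArg Sum.inr (S.cpos_eq H H' he h)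
  · refine (if_neg fun h1 => h ((S.hit H he).1 h1)).trans (.trans ?_ (congrArg _ (if_neg h).symm))
    exact congrArg Sum.inl (S.vmap_tl H h).symm

theorem wd_le (u v : q.Vertex ⊕ ℕ) :
    wd (oR q' ⟨t', θ'⟩) (u.map (vmap _ _ _ _ c) id) (v.map (vmap _ _ _ _ c) id) ≤
      wd (oR q ⟨t, θ⟩) u v := by
  refine wd_map _ ?_ u v
  rintro _ _ ⟨e, he, rfl, rfl⟩
  refine ⟨c e, S.pre.out e he, S.node_eq H H' he, ?_⟩
  rw [S.al e he]
  exact S.node_eq H H' fun h => he (H.al_mem.1 h)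

end Sim

/-- the samples that a coordinate of the outer code reads -/
def isupp : IIdx → List ℕ
  | .per => []
  | .size => []
  | .pat a => [a]
  | .dist y y' => [y.elim id fun _ => 0, y'.elim id fun _ => 0]
  | .en _ j => j.balls.map fun b => b.1

theorem icode_le {y : Y n} {y' : Y n'} (h : Canon q y) (h' : Canon q' y')
    (S : Sim q.α q.φ q'.α q'.φ y.2 y'.2 c c') (hs : size y.1 = size y'.1) {s : ℕ → q.Vertex}
    {s' : ℕ → q'.Vertex} {i : IIdx} (hm : ∀ a ∈ isupp i, Mt q q' y.2 y'.2 c (s a) (s' a)) :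
    (sys n').icode q' (AY q' y') s' i ≤ (sys n).icode q (AY q y) s i := by
  classical
  have e := h.hw_eq
  have e' := h'.hw_eq
  cases i with
  | per =>
    show ((per (hw _ _).1 : ℕ) : ℝ≥0∞) ≤ (per (hw _ _).1 : ℕ)
    rw [e, e', S.pre.per]
  | size =>
    show ((size (hw _ _).1 : ℕ) : ℝ≥0∞) ≤ (size (hw _ _).1 : ℕ)
    rw [e, e', hs]
  | pat a =>
    simp only [HoleSys.icode]
    exact le_of_eq (if_congr (hm a (List.mem_singleton_self a)).1 rfl rfl)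
  | dist u v =>
    have k : ∀ w : ℕ ⊕ ℕ, (w.elim id fun _ => 0) ∈ isupp (.dist u v) →
        (∀ a, w = .inl a → s a ∉ AY q y) → (∀ a, w = .inl a → s' a ∉ AY q' y') ∧
        w.map s' id = (w.map s id).map (vmap _ _ _ _ c) id := by
      rintro (a | p) h1 h2
      · refine ⟨fun b hb h3 => ?_, congrArg Sum.inl ((hm a h1).2 (h2 a rfl))⟩
        obtain rfl := Sum.inl.inj hb
        exact h2 a rfl ((hm a h1).1.1 h3)
      · exact ⟨fun b hb => (by cases hb), rfl⟩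
    have k2 : ∀ {X : Type} (s : ℕ → X) (A : Set X), ((∀ a, u = .inl a → s a ∉ A) ∧
        ∀ a, v = .inl a → s a ∉ A) → ¬ ∃ x ∈ A, u.map s id = .inl x ∨ v.map s id = .inl x := by
      rintro X s A h1 ⟨x, hx, h2 | h2⟩
      · cases u <;> cases h2
        exact h1.1 _ rfl hx
      · cases v <;> cases h2
        exact h1.2 _ rfl hx
    simp only [HoleSys.icode]
    by_cases h1 : (∀ a, u = .inl a → s a ∉ AY q y) ∧ ∀ a, v = .inl a → s a ∉ AY q y
    · have h2 := k u (by simp [isupp]) h1.1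
      have h3 := k v (by simp [isupp]) h1.2
      rw [if_pos h1, if_pos ⟨h2.1, h3.1⟩]
      simp only [sys]
      rw [if_neg (k2 s _ h1), if_neg (k2 s' _ ⟨h2.1, h3.1⟩), e, e', h2.2, h3.2]
      exact S.wd_le h.1 h'.1 _ _
    · rw [if_neg h1]
      exact le_top
  | en pr j =>
    have S' := S.symm h.1
    have k : ∀ b ∈ j.balls, Mt q' q y'.2 y.2 c' (s' b.1) (s b.1) := fun b hb =>
      S.mt_symm h.1 h'.1 (hm _ (List.mem_map.2 ⟨b, hb, rfl⟩))
    simp only [HoleSys.icode]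
    by_cases h1 : ∀ b ∈ j.balls, ∀ x ∈ AY q' y', b.2 + 3 < q'.graph.dist (s' b.1) x
    · rw [if_pos h1]
      exact (S'.ballE h'.1 h.1 pr k h1).trans
        (if_pos fun b hb => (S'.far h'.1 h.1 (k b hb) (h1 b hb)).2).ge
    · rw [if_neg h1]
      exact zero_le

theorem icode_eq {y : Y n} {y' : Y n'} (h : Canon q y) (h' : Canon q' y')
    (S : Sim q.α q.φ q'.α q'.φ y.2 y'.2 c c') (hs : size y.1 = size y'.1) {s : ℕ → q.Vertex}
    {s' : ℕ → q'.Vertex} {i : IIdx} (hm : ∀ a ∈ isupp i, Mt q q' y.2 y'.2 c (s a) (s' a)) :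
    (sys n').icode q' (AY q' y') s' i = (sys n).icode q (AY q y) s i :=
  le_antisymm (icode_le h h' S hs hm)
    (icode_le h' h (S.symm h.1) hs.symm fun a ha => S.mt_symm h.1 h'.1 (hm a ha))

end Pool.Agent.QL.Ho
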