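import Pool.Agent.P.MP_7a6434d8_pr.DartD
import Pool.Agent.P.MP_7a6434d8_pr.DartC

/-! First returns, and discs embedded in a map as induced submaps. -/

open Set Function

namespace Pool.Agent.QL.Ho

open Pool.Agent.P.MP_7a6434d8_pr Pool.Agent.P.MP_7a6434d8_pr.Mp

variable {D : Type}

/-- `e` is the first point of `T` on the forward orbit of `d`, `d` excluded -/
inductive Ret (σ : D → D) (T : Set D) : D → D → Prop
  | now {d : D} : σ d ∈ T → Ret σ T d (σ d)
  | step {d e : D} : σ d ∉ T → Ret σ T (σ d) e → Ret σ T d e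

namespace Ret

variable {σ : D → D} {T : Set D} {d e e' : D}

theorem mem (h : Ret σ T d e) : e ∈ T := by
  induction h with
  | now h => exact h
  | step _ _ ih => exact ih

theorem eq_of_mem (h : Ret σ T d e) (hd : σ d ∈ T) : e = σ d := by
  cases h with
  | now _ => rfl
  | step h _ => exact absurd hd h

theorem next (h : Ret σ T d e) (hd : σ d ∉ T) : Ret σ T (σ d) e := by
  cases h with
  | now h => exact absurd h hd
  | step _ h => exact h

theorem uniq (h : Ret σ T d e) (h' : Ret σ T d e') : e = e' := by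
  induction h with
  | now h => exact (h'.eq_of_mem h).symm
  | step h _ ih => exact ih (h'.next h)

theorem of_iter (k : ℕ) (h : σ^[k + 1] d ∈ T) : ∃ e, Ret σ T d e := by
  induction k generalizing d with
  | zero => exact ⟨_, now h⟩
  | succ k ih =>
    by_cases hd : σ d ∈ T
    · exact ⟨_, now hd⟩
    · obtain ⟨e, he⟩ := ih (d := σ d) h
      exact ⟨e, step hd he⟩

theorem inv {β : Type} {F : D → β} (hF : ∀ x, F (σ x) = F x) (h : Ret σ T d e) : F e = F d := by
  induction h with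
  | now _ => exact hF _
  | step _ _ ih => exact ih.trans (hF _)

theorem iter (h : Ret σ T d e) : ∃ k, σ^[k + 1] d = e ∧ ∀ i < k, σ^[i + 1] d ∉ T := by
  induction h with
  | now _ => exact ⟨0, rfl, fun i hi => absurd hi (Nat.not_lt_zero i)⟩
  | step h _ ih =>
    obtain ⟨k, h1, h2⟩ := ih
    refine ⟨k + 1, h1, fun i hi => ?_⟩
    cases i with
    | zero => exact h
    | succ i => exact h2 i (by omega)

theorem inj (hσ : Injective σ) {d' : D} (hd : d ∈ T) (hd' : d' ∈ T) (h : Ret σ T d e)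
    (h' : Ret σ T d' e) : d = d' := by
  obtain ⟨a, a1, a2⟩ := h.iter
  obtain ⟨b, b1, b2⟩ := h'.iter
  have key : ∀ {x y : D} {a b : ℕ}, x ∈ T → σ^[a + 1] x = σ^[b + 1] y → a ≤ b →
      (∀ i < b, σ^[i + 1] y ∉ T) → x = y := by
    intro x y a b hx h1 hab h2
    obtain ⟨c, rfl⟩ := Nat.exists_eq_add_of_le hab
    rw [show a + c + 1 = (a + 1) + c by omega, iterate_add_apply σ (a + 1) c] at h1
    have h3 := hσ.iterate (a + 1) h1
    cases c with
    | zero => exact h3
    | succ c => exact absurd (h3 ▸ hx) (h2 c (by omega))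
  rcases le_total a b with hab | hab
  · exact key hd (a1.trans b1.symm) hab b2
  · exact (key hd' (b1.trans a1.symm) hab a2).symm

theorem factor {β : Type} {F : D → β} (hF : ∀ d e, d ∈ T → Ret σ T d e → F e = F d) (k : ℕ)
    (hd : d ∈ T) (hk : σ^[k] d ∈ T) : F (σ^[k] d) = F d := by
  induction k using Nat.strong_induction_on generalizing d with
  | _ k ih =>
    cases k with
    | zero => rfl
    | succ k =>
      obtain ⟨e, he⟩ := of_iter k hk
      obtain ⟨a, a1, a2⟩ := he.iter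
      have hak : a ≤ k := not_lt.1 fun h => a2 k h hk
      obtain ⟨c, rfl⟩ := Nat.exists_eq_add_of_le hak
      have e1 : σ^[a + c + 1] d = σ^[c] e := by
        rw [← a1, ← iterate_add_apply, show c + (a + 1) = a + c + 1 by omega]
      rw [e1] at hk ⊢
      exact (ih c (by omega) he.mem hk).trans (hF d e hd he)

end Ret

/-- vertices -/
abbrev Vx (α φ : Equiv.Perm D) : Type := Quotient (Equiv.Perm.SameCycle.setoid (φ * α))

/-- origin of a dart -/
def tl (α φ : Equiv.Perm D) (d : D) : Vx α φ := Quotient.mk _ d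

theorem tl_sig (α φ : Equiv.Perm D) (d : D) : tl α φ ((φ * α) d) = tl α φ d :=
  Quotient.sound (Equiv.Perm.sameCycle_apply_left.2 (Equiv.Perm.SameCycle.refl _ _))

theorem tl_out {α φ : Equiv.Perm D} (v : Vx α φ) : tl α φ (Quotient.out v) = v :=
  Quotient.out_eq v

theorem tl_iter (α φ : Equiv.Perm D) (k : ℕ) (d : D) : tl α φ ((φ * α)^[k] d) = tl α φ d := by
  induction k with
  | zero => rfl
  | succ k ih => rw [iterate_succ_apply', tl_sig, ih]

theorem tl_eq [Finite D] {α φ : Equiv.Perm D} {d e : D} (h : tl α φ d = tl α φ e) :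
    ∃ k, (φ * α)^[k + 1] d = e := by
  obtain ⟨i, h1, -, h2⟩ := Equiv.Perm.SameCycle.exists_pow_eq'' (Quotient.exact h)
  refine ⟨i - 1, ?_⟩
  rw [show i - 1 + 1 = i by omega, ← Equiv.Perm.coe_pow]
  exact h2

/-- boundary darts -/
def IsB (t : Mp) (x : Dt t) : Prop := ∃ p, bd t p = some x

open Classical in
/-- position of a boundary dart -/
noncomputable def ix (t : Mp) (x : Dt t) : ℕ := if h : IsB t x then h.choose else 0

theorem IsB.bd_ix {t : Mp} {x : Dt t} (h : IsB t x) : bd t (ix t x) = some x := by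
  unfold ix
  rw [dif_pos h]
  exact h.choose_spec

theorem ix_eq {t : Mp} (ht : ok t) {x : Dt t} {p : ℕ} (h : bd t p = some x) : ix t x = p :=
  bd_inj t ht _ _ x (IsB.bd_ix ⟨p, h⟩) h

theorem IsB.ph {t : Mp} (ht : ok t) {x : Dt t} (h : IsB t x) : IsB t (ph t x) := by
  obtain ⟨p, hp⟩ := h
  exact ⟨_, bd_ph t ht p x hp⟩

theorem not_isB_ph {t : Mp} (ht : ok t) {x : Dt t} (h : ¬ IsB t x) : ¬ IsB t (ph t x) := by
  rintro ⟨p, hp⟩
  have hlt := darta_lt ht hp
  obtain ⟨y, hy⟩ := darta_ex ht (k := (p + (2 * per t - 1)) % (2 * per t))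
    (Nat.mod_lt _ (by omega))
  have h1 := bd_ph t ht _ y hy
  rw [Nat.mod_add_mod, show p + (2 * per t - 1) + 1 = p + 2 * per t by omega, Nat.add_mod_right,
    Nat.mod_eq_of_lt hlt, hp] at h1
  exact h ⟨_, ph_inj t ht (Option.some.inj h1) ▸ hy⟩

/-- the vertices of the embedded disc -/
def AA (α φ : Equiv.Perm D) {t : Mp} (θ : Dt t → D) : Set (Vx α φ) :=
  range fun x => tl α φ (θ x)

/-- darts outside the disc or on its boundary -/
def BB {t : Mp} (θ : Dt t → D) (e : D) : Prop := e ∉ range θ ∨ ∃ x, IsB t x ∧ θ x = e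

/-- the disc `t` is embedded by `θ` as an induced submap -/
structure Hole (α φ : Equiv.Perm D) (t : Mp) (θ : Dt t → D) : Prop where
  ok : ok t
  pos : 1 ≤ per t
  αα : ∀ d, α (α d) = d
  inj : Injective θ
  al : ∀ x, θ (al t x) = α (θ x)
  ret : ∀ x, Ret (φ * α) (range θ) (α (θ x)) (θ (ph t x))
  opn : ∀ x, φ (θ x) ∉ range θ → IsB t x
  ind : ∀ e, e ∉ range θ → tl α φ e ∈ AA α φ θ → tl α φ (α e) ∉ AA α φ θ

open Classical in
/-- boundary position of the corner of a dart leaving the disc -/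
noncomputable def cpos (α φ : Equiv.Perm D) {t : Mp} (θ : Dt t → D) (e : D) : ℕ :=
  if h : ∃ x, Ret (φ * α) (range θ) e (θ x) then ix t h.choose else 0

open Classical in
/-- the vertices of the disc in the map -/
noncomputable def iota (α φ : Equiv.Perm D) {t : Mp} (θ : Dt t → D) (r : D) (v : V t) : Vx α φ :=
  if h : ∃ x, org t x = v then tl α φ (θ h.choose) else tl α φ r

namespace Hole

variable {α φ : Equiv.Perm D} {t : Mp} {θ : Dt t → D} (H : Hole α φ t θ)
include H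

theorem sig_al (d : D) : (φ * α) (α d) = φ d := by
  rw [Equiv.Perm.mul_apply, H.αα]

theorem tl_ph (d : D) : tl α φ (φ d) = tl α φ (α d) := by
  rw [← H.sig_al, tl_sig]

theorem al_mem {e : D} : α e ∈ range θ ↔ e ∈ range θ := by
  constructor
  · rintro ⟨x, hx⟩
    exact ⟨Mp.al t x, by rw [H.al, hx, H.αα]⟩
  · rintro ⟨x, rfl⟩
    exact ⟨_, H.al x⟩

theorem cl {x : Dt t} (h : φ (θ x) ∈ range θ) : φ (θ x) = θ (ph t x) := by
  rw [(H.ret x).eq_of_mem (by rwa [H.sig_al]), H.sig_al]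

theorem inner {x : Dt t} (h : ¬ IsB t x) : φ (θ x) = θ (ph t x) :=
  H.cl (by_contra fun h' => h (H.opn x h'))

theorem ret_opn {x : Dt t} (h : φ (θ x) ∉ range θ) :
    Ret (φ * α) (range θ) (φ (θ x)) (θ (ph t x)) := by
  have := (H.ret x).next (by rwa [H.sig_al])
  rwa [H.sig_al] at this

theorem tl_th_ph (x : Dt t) : tl α φ (θ (ph t x)) = tl α φ (θ (Mp.al t x)) := by
  rw [(H.ret x).inv (tl_sig α φ), H.al]

theorem ret' (x : Dt t) : Ret (φ * α) (range θ) (θ x) (θ (ph t (Mp.al t x))) := by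
  have := H.ret (Mp.al t x)
  rwa [H.al, H.αα] at this

theorem tl_of_org {x y : Dt t} (h : org t x = org t y) : tl α φ (θ x) = tl α φ (θ y) :=
  factor_org t H.ok (fun x => tl α φ (θ x)) (fun d => by rw [H.tl_th_ph, al_al]) x y h

theorem org_of_tl [Finite D] {x y : Dt t} (h : tl α φ (θ x) = tl α φ (θ y)) :
    org t x = org t y := by
  have : Nonempty (Dt t) := ⟨x⟩
  obtain ⟨k, hk⟩ := tl_eq h
  have h1 := Ret.factor (σ := (φ * α : Equiv.Perm D)) (T := range θ)
    (F := fun d => org t (invFun θ d)) (d := θ x) ?_ (k + 1) ⟨x, rfl⟩ (hk ▸ ⟨y, rfl⟩)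
  · rw [hk] at h1
    simpa only [leftInverse_invFun H.inj x, leftInverse_invFun H.inj y] using h1.symm
  · rintro _ e ⟨z, rfl⟩ he
    rw [he.uniq (H.ret' z)]
    simp only [leftInverse_invFun H.inj _]
    rw [org_ph t H.ok, al_al]

theorem iota_org (r : D) (x : Dt t) : iota α φ θ r (org t x) = tl α φ (θ x) := by
  have h : ∃ y, org t y = org t x := ⟨x, rfl⟩
  unfold iota
  rw [dif_pos h]
  exact H.tl_of_org h.choose_spec

theorem iota_inj [Finite D] (r : D) : Injective (iota α φ θ r) := by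
  intro v w h
  obtain ⟨x, rfl⟩ := org_surj t H.ok H.pos v
  obtain ⟨y, rfl⟩ := org_surj t H.ok H.pos w
  rw [H.iota_org, H.iota_org] at h
  exact H.org_of_tl h

theorem iota_range (r : D) : range (iota α φ θ r) = AA α φ θ := by
  ext v
  constructor
  · rintro ⟨w, rfl⟩
    obtain ⟨x, rfl⟩ := org_surj t H.ok H.pos w
    exact ⟨x, (H.iota_org r x).symm⟩
  · rintro ⟨x, rfl⟩
    exact ⟨_, H.iota_org r x⟩

theorem mem_iff {e : D} :
    e ∈ range θ ↔ tl α φ e ∈ AA α φ θ ∧ tl α φ (α e) ∈ AA α φ θ := by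
  constructor
  · rintro ⟨x, rfl⟩
    exact ⟨⟨x, rfl⟩, ⟨Mp.al t x, by simp only [H.al]⟩⟩
  · rintro ⟨h1, h2⟩
    exact by_contra fun h => H.ind e h h1 h2

theorem pred_bd {e : D} {x : Dt t} (he : e ∉ range θ) (h : φ e = θ x) : IsB t x := by
  obtain ⟨y, rfl⟩ := (Finite.injective_iff_surjective.1 (ph_inj t H.ok)) x
  refine (H.opn y fun hy => he ⟨y, ?_⟩).ph H.ok
  exact φ.injective ((H.cl hy).trans h.symm)

theorem ret_bd {e e' : D} (he : e ∉ range θ) (h : Ret (φ * α) (range θ) e e') :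
    ∃ x, IsB t x ∧ θ x = e' := by
  induction h with
  | now h =>
    obtain ⟨x, hx⟩ := h
    exact ⟨x, H.pred_bd (fun h => he (H.al_mem.1 h)) hx.symm, hx⟩
  | step h _ ih => exact ih h

theorem ph_BB {e : D} (h : BB θ e) : BB θ (φ e) := by
  by_cases h1 : φ e ∈ range θ
  · rcases h with h | ⟨x, hx, rfl⟩
    · obtain ⟨y, hy⟩ := h1
      exact .inr ⟨y, H.pred_bd h hy.symm, hy⟩
    · exact .inr ⟨_, hx.ph H.ok, (H.cl h1).symm⟩
  · exact .inl h1

theorem sig_BB {e : D} (h : e ∉ range θ) : BB θ ((φ * α) e) :=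
  H.ph_BB (.inl fun h' => h (H.al_mem.1 h'))

theorem pos_eq {e : D} {x : Dt t} (h : Ret (φ * α) (range θ) e (θ x)) :
    cpos α φ θ e = ix t x := by
  have h1 : ∃ x, Ret (φ * α) (range θ) e (θ x) := ⟨x, h⟩
  unfold cpos
  rw [dif_pos h1, H.inj (h1.choose_spec.uniq h)]

theorem card_vx [Finite D] :
    Nat.card (Vx α φ) = Nat.card {v // v ∉ AA α φ θ} + (size t + per t + 1) := by
  classical
  obtain ⟨x, -⟩ := darta_ex H.ok (k := 0) (by have := H.pos; omega)
  have h1 : Nat.card (AA α φ θ) = size t + per t + 1 := by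
    rw [← H.iota_range (θ x), Nat.card_range_of_injective (H.iota_inj _), Nat.card_eq_fintype_card,
      card_V t H.ok]
  rw [← h1, add_comm, ← Nat.card_sum]
  exact (Nat.card_congr (Equiv.sumCompl (· ∈ AA α φ θ))).symm

end Hole

theorem mem_AA_iff [Finite D] {α φ : Equiv.Perm D} {t : Mp} {θ : Dt t → D} {e : D} :
    tl α φ e ∈ AA α φ θ ↔ ∃ k, (φ * α)^[k + 1] e ∈ range θ := by
  constructor
  · rintro ⟨x, hx⟩
    obtain ⟨k, hk⟩ := tl_eq hx.symm
    exact ⟨k, x, hk.symm⟩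
  · rintro ⟨k, x, hx⟩
    exact ⟨x, by simp only [hx, tl_iter]⟩

theorem exists_ret [Finite D] {α φ : Equiv.Perm D} {t : Mp} {θ : Dt t → D} {e : D}
    (h : tl α φ e ∈ AA α φ θ) : ∃ x, Ret (φ * α) (range θ) e (θ x) := by
  obtain ⟨k, hk⟩ := mem_AA_iff.1 h
  obtain ⟨e', he⟩ := Ret.of_iter k hk
  obtain ⟨x, rfl⟩ := he.mem
  exact ⟨x, he⟩

/-- the corner of a dart leaving the disc -/
theorem Hole.pos_spec [Finite D] {α φ : Equiv.Perm D} {t : Mp} {θ : Dt t → D} (H : Hole α φ t θ)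
    {e : D} (he : e ∉ range θ) (h : tl α φ e ∈ AA α φ θ) (r : D) :
    cpos α φ θ e < 2 * per t ∧ iota α φ θ r (bv t (cpos α φ θ e)) = tl α φ e := by
  obtain ⟨x, hx⟩ := exists_ret h
  obtain ⟨y, hy, hxy⟩ := H.ret_bd he hx
  obtain rfl := H.inj hxy
  rw [H.pos_eq hx]
  refine ⟨darta_lt H.ok hy.bd_ix, ?_⟩
  rw [← org_bd t H.ok _ _ hy.bd_ix, H.iota_org, hx.inv (tl_sig α φ)]

end Pool.Agent.QL.Ho
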