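import Pool.Agent.P.MP_7a6434d8_pr.QL.M2.HoleEx

/-! Two maps that agree outside their holes. -/

open Set Function

namespace Pool.Agent.QL.Ho

open Pool.Agent.P.MP_7a6434d8_pr Pool.Agent.P.MP_7a6434d8_pr.Mp

variable {D D' : Type} {t t' : Mp} {θ : Dt t → D} {θ' : Dt t' → D'} {c : D → D'} {c' : D' → D}
  {α φ : Equiv.Perm D} {α' φ' : Equiv.Perm D'}

/-- `c`, `c'` are inverse bijections between the outer darts and between the boundary darts -/
structure Pre {t t' : Mp} (θ : Dt t → D) (θ' : Dt t' → D') (c : D → D') (c' : D' → D) : Prop where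
  ok : ok t
  ok' : Mp.ok t'
  per : per t = per t'
  out : ∀ e ∉ range θ, c e ∉ range θ'
  out' : ∀ e ∉ range θ', c' e ∉ range θ
  left : ∀ e ∉ range θ, c' (c e) = e
  right : ∀ e ∉ range θ', c (c' e) = e
  bd : ∀ p x x', bd t p = some x → bd t' p = some x' → c (θ x) = θ' x'
  bd' : ∀ p x x', Mp.bd t p = some x → Mp.bd t' p = some x' → c' (θ' x') = θ x

namespace Pre

variable (P : Pre θ θ' c c')
include P

theorem symm : Pre θ' θ c' c :=
  ⟨P.ok', P.ok, P.per.symm, P.out', P.out, P.right, P.left, fun p x x' h h' => P.bd' p x' x h' h,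
    fun p x x' h h' => P.bd p x' x h' h⟩

theorem ex {p : ℕ} {x : Dt t} (h : Mp.bd t p = some x) : ∃ x', Mp.bd t' p = some x' :=
  darta_ex P.ok' (P.per ▸ darta_lt P.ok h)

theorem bb {e : D} (h : BB θ e) : BB θ' (c e) ∧ c' (c e) = e := by
  rcases h with h | ⟨x, ⟨p, hp⟩, rfl⟩
  · exact ⟨.inl (P.out e h), P.left e h⟩
  · obtain ⟨x', hx'⟩ := P.ex hp
    rw [P.bd p x x' hp hx']
    exact ⟨.inr ⟨x', ⟨p, hx'⟩, rfl⟩, P.bd' p x x' hp hx'⟩

theorem mem {e : D} (h : BB θ e) : c e ∈ range θ' ↔ e ∈ range θ := by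
  refine ⟨fun h1 => by_contra fun h2 => P.out e h2 h1, fun h1 => ?_⟩
  rcases h with h | ⟨x, ⟨p, hp⟩, rfl⟩
  · exact absurd h1 h
  · obtain ⟨x', hx'⟩ := P.ex hp
    exact ⟨x', (P.bd p x x' hp hx').symm⟩

end Pre

/-- the two maps agree outside their holes -/
structure Sim (α φ : Equiv.Perm D) (α' φ' : Equiv.Perm D') {t t' : Mp} (θ : Dt t → D)
    (θ' : Dt t' → D') (c : D → D') (c' : D' → D) : Prop where
  pre : Pre θ θ' c c'
  al : ∀ e ∉ range θ, α' (c e) = c (α e)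
  ph : ∀ e, BB θ e → φ' (c e) = c (φ e)

theorem not_mem_of_tl {e : D} (h : tl α φ e ∉ AA α φ θ) : e ∉ range θ := by
  rintro ⟨x, rfl⟩
  exact h ⟨x, rfl⟩

namespace Sim

variable (S : Sim α φ α' φ' θ θ' c c') (H : Hole α φ t θ)
include S H

theorem symm : Sim α' φ' α φ θ' θ c' c := by
  refine ⟨S.pre.symm, fun e he => ?_, fun e he => ?_⟩
  · have h1 := S.pre.out' e he
    have h2 := S.al _ h1
    rw [S.pre.right e he] at h2
    rw [h2, S.pre.left _ fun h => h1 (H.al_mem.1 h)]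
  · obtain ⟨h1, h2⟩ := S.pre.symm.bb he
    have h3 := S.ph _ h1
    rw [h2] at h3
    rw [h3, (S.pre.bb (H.ph_BB h1)).2]

theorem sig {e : D} (he : e ∉ range θ) : (φ' * α') (c e) = c ((φ * α) e) := by
  rw [Equiv.Perm.mul_apply, S.al e he, S.ph _ (.inl fun h => he (H.al_mem.1 h))]
  rfl

theorem ret {e e' : D} (he : e ∉ range θ) (h : Ret (φ * α) (range θ) e e') :
    Ret (φ' * α') (range θ') (c e) (c e') := by
  induction h with
  | now h =>
    rw [← S.sig H he]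
    exact .now (by rw [S.sig H he]; exact (S.pre.mem (H.sig_BB he)).2 h)
  | step h _ ih =>
    refine .step ?_ ?_ <;> rw [S.sig H he]
    · exact S.pre.out _ h
    · exact ih h

theorem hit [Finite D] [Finite D'] {e : D} (he : e ∉ range θ) :
    tl α' φ' (c e) ∈ AA α' φ' θ' ↔ tl α φ e ∈ AA α φ θ := by
  constructor
  · intro h
    obtain ⟨k, hk⟩ := mem_AA_iff.1 h
    clear h
    induction k generalizing e with
    | zero =>
      refine mem_AA_iff.2 ⟨0, (S.pre.mem (H.sig_BB he)).1 ?_⟩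
      rw [← S.sig H he]
      exact hk
    | succ k ih =>
      by_cases h1 : (φ * α) e ∈ range θ
      · exact mem_AA_iff.2 ⟨0, h1⟩
      · rw [← tl_sig]
        refine ih h1 ?_
        rw [← S.sig H he]
        exact hk
  · intro h
    obtain ⟨x, hx⟩ := exists_ret h
    have h1 := S.ret H he hx
    obtain ⟨y, hy⟩ := h1.mem
    exact ⟨y, by simp only [hy]; exact h1.inv (tl_sig α' φ')⟩

theorem tl_eq [Finite D] {e e' : D} (he : tl α φ e ∉ AA α φ θ) (h : tl α φ e = tl α φ e') :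
    tl α' φ' (c e) = tl α' φ' (c e') := by
  obtain ⟨k, rfl⟩ := Ho.tl_eq h
  generalize k + 1 = m
  induction m with
  | zero => rfl
  | succ m ih =>
    rw [iterate_succ_apply', ← S.sig H (not_mem_of_tl (by rwa [tl_iter])), tl_sig, ih]

theorem cpos_eq [Finite D] (H' : Hole α' φ' t' θ') {e : D} (he : e ∉ range θ)
    (h : tl α φ e ∈ AA α φ θ) : cpos α' φ' θ' (c e) = cpos α φ θ e := by
  obtain ⟨x, hx⟩ := exists_ret h
  obtain ⟨y, ⟨p, hp⟩, hy⟩ := H.ret_bd he hx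
  obtain rfl := H.inj hy
  obtain ⟨x', hx'⟩ := S.pre.ex hp
  have h1 := S.ret H he hx
  rw [S.pre.bd p _ _ hp hx'] at h1
  rw [H'.pos_eq h1, H.pos_eq hx, ix_eq H.ok hp, ix_eq H'.ok hx']

end Sim

/-- the induced map on vertices -/
noncomputable def vmap (α φ : Equiv.Perm D) (α' φ' : Equiv.Perm D') (c : D → D') (v : Vx α φ) :
    Vx α' φ' := tl α' φ' (c (Quotient.out v))

namespace Sim

variable [Finite D] [Finite D'] (S : Sim α φ α' φ' θ θ' c c') (H : Hole α φ t θ)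
include S H

omit [Finite D'] in
theorem vmap_tl {e : D} (he : tl α φ e ∉ AA α φ θ) :
    vmap α φ α' φ' c (tl α φ e) = tl α' φ' (c e) :=
  S.tl_eq H (by rwa [tl_out]) (tl_out _)

theorem vmap_out {v : Vx α φ} (hv : v ∉ AA α φ θ) : vmap α φ α' φ' c v ∉ AA α' φ' θ' := by
  rw [← tl_out v] at hv
  exact fun h => hv ((S.hit H (not_mem_of_tl hv)).1 h)

theorem vmap_left (H' : Hole α' φ' t' θ') {v : Vx α φ} (hv : v ∉ AA α φ θ) :
    vmap α' φ' α φ c' (vmap α φ α' φ' c v) = v := by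
  have h1 := S.vmap_out H hv
  rw [← tl_out v] at hv
  refine ((S.symm H).vmap_tl H' h1).trans ?_
  rw [S.pre.left _ (not_mem_of_tl hv), tl_out]

theorem card_out (H' : Hole α' φ' t' θ') :
    Nat.card {v // v ∉ AA α φ θ} = Nat.card {v // v ∉ AA α' φ' θ'} :=
  Nat.card_congr
    { toFun := fun v => ⟨_, S.vmap_out H v.2⟩
      invFun := fun v => ⟨_, (S.symm H).vmap_out H' v.2⟩
      left_inv := fun v => Subtype.ext (S.vmap_left H H' v.2)
      right_inv := fun v => Subtype.ext ((S.symm H).vmap_left H' H v.2) }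

end Sim

theorem Sim.det {α₂ φ₂ : Equiv.Perm D'} {c₂ : D → D'} {c₂' : D' → D}
    (S : Sim α φ α' φ' θ θ' c c') (S₂ : Sim α φ α₂ φ₂ θ θ' c₂ c₂') (H : Hole α φ t θ)
    (H' : Hole α' φ' t' θ') (H₂ : Hole α₂ φ₂ t' θ') (hc : ∀ e ∉ range θ, c e = c₂ e) :
    α' = α₂ ∧ φ' = φ₂ := by
  have hb : ∀ e, BB θ e → c e = c₂ e := by
    rintro e (h | ⟨x, ⟨p, hp⟩, rfl⟩)
    · exact hc e h
    · obtain ⟨x', hx'⟩ := S.pre.ex hp
      rw [S.pre.bd p x x' hp hx', S₂.pre.bd p x x' hp hx']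
  constructor
  · ext e
    by_cases he : e ∈ range θ'
    · obtain ⟨x, rfl⟩ := he
      rw [← H'.al, ← H₂.al]
    · have h1 := S.pre.out' e he
      rw [← S.pre.right e he, S.al _ h1, hc _ h1, S₂.al _ h1, hc _ fun h => h1 (H.al_mem.1 h)]
  · ext e
    by_cases he : BB θ' e
    · obtain ⟨h1, h2⟩ := S.pre.symm.bb he
      rw [← h2, S.ph _ h1, hb _ h1, S₂.ph _ h1, hb _ (H.ph_BB h1)]
    · obtain ⟨x, rfl⟩ : e ∈ range θ' := by_contra fun h => he (.inl h)
      have hx : ¬ IsB t' x := fun h => he (.inr ⟨x, h, rfl⟩)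
      rw [H'.inner hx, H₂.inner hx]

/-- position zero is the corner of the least dart that leaves the disc -/
def Root [LE D] (α φ : Equiv.Perm D) {t : Mp} (θ : Dt t → D) : Prop :=
  ∃ e₀, IsLeast {e | e ∉ range θ ∧ tl α φ e ∈ AA α φ θ} e₀ ∧
    ∃ x₀, bd t 0 = some x₀ ∧ Ret (φ * α) (range θ) e₀ (θ x₀)

theorem Sim.root [Finite D] [Finite D'] [LinearOrder D] [LinearOrder D']
    (S : Sim α φ α' φ' θ θ' c c') (H : Hole α φ t θ) (hc : StrictMonoOn c (range θ)ᶜ)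
    (h : Root α φ θ) : Root α' φ' θ' := by
  obtain ⟨e₀, ⟨⟨h1, h2⟩, h3⟩, x₀, h4, h5⟩ := h
  obtain ⟨x', hx'⟩ := S.pre.ex h4
  refine ⟨c e₀, ⟨⟨S.pre.out _ h1, (S.hit H h1).2 h2⟩, fun e he => ?_⟩, x', hx', ?_⟩
  · have h6 := S.pre.out' e he.1
    have h7 := S.pre.right e he.1
    have h8 := he.2
    rw [← h7] at h8 ⊢
    exact hc.monotoneOn h1 h6 (h3 ⟨h6, (S.hit H h6).1 h8⟩)
  · rw [← S.pre.bd 0 _ _ h4 hx']
    exact S.ret H h1 h5

theorem hole_unique [Finite D] [PartialOrder D] {θ₂ : Dt t' → D} (H : Hole α φ t θ)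
    (H₂ : Hole α φ t' θ₂) (hA : AA α φ θ = AA α φ θ₂) (R : Root α φ θ) (R₂ : Root α φ θ₂) :
    (⟨t, θ⟩ : Σ t : Mp, Dt t → D) = ⟨t', θ₂⟩ := by
  have hT : range θ = range θ₂ := by
    ext e
    rw [H.mem_iff, H₂.mem_iff, hA]
  obtain ⟨e, e1, x, x1, x2⟩ := R
  obtain ⟨e', e1', x', x1', x2'⟩ := R₂
  rw [← hT, ← hA] at e1'
  obtain rfl := e1.unique e1'
  rw [← hT] at x2'
  have h0 := x2.uniq x2'
  have E := H.emb
  have E₂ := H₂.emb
  rw [← hT] at E₂
  obtain rfl := unique_real _ _ t t' H.ok H₂.ok θ θ₂ E E₂ (by rw [x1, x1']; exact congrArg some h0)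
  obtain rfl : x = x' := Option.some.inj (x1.symm.trans x1')
  congr 1
  funext y
  have := conn_darts t H.ok (fun y => θ y = θ₂ y)
    (fun y => by rw [H.al, H₂.al, α.injective.eq_iff])
    (fun y => by rw [E.map_ph, E₂.map_ph, (fA_inj fun d hd => H.al_mem.2 hd).eq_iff]) x y
  exact this ▸ h0

theorem mono_unique [Finite D] [LinearOrder D] [LinearOrder D'] {U : Set D} {U' : Set D'}
    {c c₂ : D → D'} (h : StrictMonoOn c U) (h₂ : StrictMonoOn c₂ U) (i : c '' U = U')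
    (i₂ : c₂ '' U = U') : ∀ e ∈ U, c e = c₂ e := by
  have h3 : StrictMono fun e : U => c e := fun a b hab => h a.2 b.2 hab
  have h4 : StrictMono fun e : U => c₂ e := fun a b hab => h₂ a.2 b.2 hab
  have h5 := (h3.range_inj h4).1 (by
    rw [← image_eq_range, ← image_eq_range, i, i₂])
  exact fun e he => congrFun h5 ⟨e, he⟩

theorem Pre.image (P : Pre θ θ' c c') : c '' (range θ)ᶜ = (range θ')ᶜ := by
  ext e
  constructor
  · rintro ⟨x, hx, rfl⟩
    exact P.out x hx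
  · exact fun he => ⟨c' e, P.out' e he, P.right e he⟩

theorem Pre.mono' [LinearOrder D] [LinearOrder D'] (P : Pre θ θ' c c')
    (h : StrictMonoOn c (range θ)ᶜ) : StrictMonoOn c' (range θ')ᶜ := by
  intro a ha b hb hab
  rw [← P.right a ha, ← P.right b hb] at hab
  exact (h.lt_iff_lt (P.out' a ha) (P.out' b hb)).1 hab

end Pool.Agent.QL.Ho
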