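import Pool.Agent.P.MP_7a6434d8_pr.QL.M2.HoleGraph
import Pool.Agent.P.MP_7a6434d8_pr.XGraphB

/-! The canonical system of holes and its deterministic properties. -/

open Set Function
open scoped ENNReal

namespace Pool.Agent.QL.Ho

open Pool.Agent.P.MP_7a6434d8_pr Pool.Agent.P.MP_7a6434d8_pr.Mp

/-- chains of `k` steps -/
def Wn {X : Type} (R : X → X → Prop) : ℕ → X → X → Prop
  | 0, x, y => x = y
  | k + 1, x, y => ∃ z, R x z ∧ Wn R k z y

/-- length of a shortest chain -/
noncomputable def wd {X : Type} (R : X → X → Prop) (x y : X) : ℝ≥0∞ :=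
  ⨅ (k : ℕ) (_ : Wn R k x y), (k : ℝ≥0∞)

theorem wd_self {X : Type} (R : X → X → Prop) (x : X) : wd R x x = 0 :=
  le_antisymm ((iInf₂_le (f := fun (k : ℕ) (_ : Wn R k x x) => (k : ℝ≥0∞)) 0 rfl).trans (by simp))
    zero_le

theorem wd_step {X : Type} {R : X → X → Prop} {x z : X} (h : R x z) (y : X) :
    wd R x y ≤ 1 + wd R z y := by
  unfold wd
  rw [ENNReal.add_iInf]
  refine le_iInf fun k => ?_
  rw [ENNReal.add_iInf]
  refine le_iInf fun hk => iInf₂_le_of_le (k + 1) ⟨z, h, hk⟩ ?_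
  rw [Nat.cast_succ, add_comm]

theorem wd_map {X X' : Type} {R : X → X → Prop} {R' : X' → X' → Prop} (f : X → X')
    (h : ∀ x z, R x z → R' (f x) (f z)) (x y : X) : wd R' (f x) (f y) ≤ wd R x y := by
  refine iInf_mono fun k => iInf_const_mono fun hk => ?_
  induction k generalizing x with
  | zero => exact congrArg f hk
  | succ k ih =>
    obtain ⟨z, h1, h2⟩ := hk
    exact ⟨f z, h x z h1, ih z h2⟩

/-- discs with a map of their darts -/
abbrev Y (n : ℕ) : Type := Σ t : Mp, Dt t → Fin (4 * n)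

variable {n : ℕ}

/-- the disc is a hole with the canonical root -/
def Canon (q : Quad n) (y : Y n) : Prop := Hole q.α q.φ y.1 y.2 ∧ Root q.α q.φ y.2

/-- the vertex set of the disc -/
def AY (q : Quad n) (y : Y n) : Set q.Vertex := AA q.α q.φ y.2

/-- vertex sets of holes -/
def Valid (q : Quad n) (A : Set q.Vertex) : Prop := ∃ y, Canon q y ∧ AY q y = A

open Classical in
/-- the hole on a vertex set -/
noncomputable def hw (q : Quad n) (A : Set q.Vertex) : Y n :=
  if h : Valid q A then h.choose else ⟨pt, Empty.elim⟩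

open Classical in
/-- the node of an outer dart -/
noncomputable def node (q : Quad n) (y : Y n) (e : Fin (4 * n)) : q.Vertex ⊕ ℕ :=
  if q.tail e ∈ AY q y then .inr (cpos q.α q.φ y.2 e) else .inl (q.tail e)

/-- edges of the outer graph -/
def oR (q : Quad n) (y : Y n) (u u' : q.Vertex ⊕ ℕ) : Prop :=
  ∃ e ∉ range y.2, node q y e = u ∧ node q y (q.α e) = u'

open Classical in
/-- the canonical system -/
noncomputable def sys (n : ℕ) : HoleSys n where
  W q A := (hw q A).1
  θ q A := (hw q A).2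
  ι q A := iota q.α q.φ (hw q A).2 q.root
  dI q A u u' := if ∃ x ∈ A, u = .inl x ∨ u' = .inl x then ⊤ else wd (oR q (hw q A)) u u'

variable {q : Quad n} {A : Set q.Vertex} {y : Y n}

theorem Valid.spec (h : Valid q A) : Canon q (hw q A) ∧ AY q (hw q A) = A := by
  unfold hw
  rw [dif_pos h]
  exact h.choose_spec

theorem Canon.hw_eq (h : Canon q y) : hw q (AY q y) = y :=
  have h1 := Valid.spec ⟨y, h, rfl⟩
  hole_unique h1.1.1 h.1 h1.2 h1.1.2 h.2

theorem valid_of_ev {S : ℕ → q.Vertex} {J : List (ℕ × ℕ)} {t₀ : ℕ} (h : Ev q S J t₀) :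
    Valid q (VO q S J t₀) := by
  obtain ⟨e₀, ⟨h1, h2⟩, h3⟩ := wellFounded_lt.has_min
    {e | q.tail e ∈ VO q S J t₀ ∧ q.head e ∉ VO q S J t₀} (exists_out h)
  obtain ⟨t, θ, H, hA, h4⟩ := exists_hole cin_vo (cin_compl h) h.2.2 h1 h2
  refine ⟨⟨t, θ⟩, ⟨H, e₀, ⟨⟨fun h5 => h2 ?_, hA ▸ h1⟩, fun e he => not_lt.1 (h3 e ?_)⟩, h4⟩, hA⟩
  · exact hA ▸ (H.mem_iff.1 h5).2
  · exact hA ▸ ⟨he.2, H.ind e he.1 he.2⟩

theorem Canon.sub (h : Canon q y) :
    SubQ q (AY q y) y.1 y.2 (iota q.α q.φ y.2 q.root) := by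
  obtain ⟨t, θ⟩ := y
  obtain ⟨H, e₀, ⟨⟨r1, r2⟩, -⟩, x₀, r3, r4⟩ := h
  replace H : Hole q.α q.φ t θ := H
  have hL : 0 < 2 * per t := by have := H.pos; omega
  refine ⟨H.ok, H.pos, H.inj, fun d => H.mem_iff, H.al,
    fun d hd => (H.inner fun ⟨p, hp⟩ => hd p hp).symm, fun d => (H.iota_org _ d).symm,
    H.iota_inj _, H.iota_range _, fun e h1 h2 => ?_, fun p _ => ?_⟩
  · have h3 := H.pos_spec (fun h => h2 (H.mem_iff.1 h).2) h1 q.root
    exact ⟨_, h3.1, h3.2.symm⟩
  · show ∃ i, i ≤ 4 ∧ ∃ e, q.tail e = iota q.α q.φ θ q.root (bv t ((p + i) % (2 * per t))) ∧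
      q.head e ∉ AA q.α q.φ θ
    obtain ⟨x, hx⟩ := darta_ex H.ok (Nat.mod_lt p hL)
    have hb := fun i => bd_iter t H.ok _ i x hx
    simp only [Nat.mod_add_mod] at hb
    by_cases h1 : ∃ i < 4, q.φ (θ ((ph t)^[i] x)) ∉ range θ
    · obtain ⟨i, hi, h1⟩ := h1
      have h2 : q.tail (q.φ (θ ((ph t)^[i] x))) = tl q.α q.φ (θ ((ph t)^[i + 1] x)) := by
        rw [iterate_succ_apply', H.tl_th_ph, H.al]
        exact H.tl_ph _
      refine ⟨i + 1, by omega, _, ?_, H.ind _ h1 ⟨_, h2.symm⟩⟩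
      rw [h2, ← org_bd t H.ok _ _ (hb (i + 1)), H.iota_org]
    · push Not at h1
      have h2 : ∀ i ≤ 4, q.φ^[i] (θ x) = θ ((ph t)^[i] x) := by
        intro i hi
        induction i with
        | zero => rfl
        | succ i ih =>
          rw [iterate_succ_apply', iterate_succ_apply', ih (by omega), H.cl (h1 i (by omega))]
      have h3 := h2 4 le_rfl
      rw [← Equiv.Perm.coe_pow, (q.φ_four _).1] at h3
      have h4 := hb 4
      rw [← H.inj h3] at h4
      have h5 : 2 * per t ≤ 4 := by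
        have h6 : p + 4 ≡ p + 0 [MOD 2 * per t] := bd_inj t H.ok _ _ x h4 hx
        exact Nat.le_of_dvd (by norm_num)
          (Nat.modEq_zero_iff_dvd.1 (Nat.ModEq.add_left_cancel' p h6))
      refine ⟨2 * per t - p % (2 * per t), by omega, e₀, ?_, H.ind _ r1 r2⟩
      rw [← Nat.mod_add_mod, Nat.add_sub_cancel' (Nat.mod_lt p hL).le, Nat.mod_self,
        ← org_bd t H.ok _ _ r3, H.iota_org]
      exact (r4.inv (tl_sig q.α q.φ)).symm

theorem node_ne (e : Fin (4 * n)) {x : q.Vertex} (hx : x ∈ AY q y) : node q y e ≠ .inl x := by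
  unfold node
  split_ifs with h
  · simp
  · exact fun h1 => h (Sum.inl.inj h1 ▸ hx)

theorem Valid.vx_node (h : Valid q A) {e : Fin (4 * n)} (he : e ∉ range (hw q A).2) :
    (sys n).vx q A (node q (hw q A) e) = q.tail e := by
  unfold node
  split_ifs with h1
  · exact (h.spec.1.1.pos_spec he h1 q.root).2
  · rfl

theorem dI_in (q : Quad n) (A : Set q.Vertex) (x : q.Vertex) (u : q.Vertex ⊕ ℕ) (hx : x ∈ A) :
    (sys n).dI q A (.inl x) u = ⊤ ∧ (sys n).dI q A u (.inl x) = ⊤ :=
  ⟨if_pos ⟨x, hx, .inl rfl⟩, if_pos ⟨x, hx, .inr rfl⟩⟩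

theorem Valid.dI_ge (h : Valid q A) (u u' : q.Vertex ⊕ ℕ) :
    (q.graph.dist ((sys n).vx q A u) ((sys n).vx q A u') : ℝ≥0∞) ≤ (sys n).dI q A u u' := by
  classical
  show _ ≤ if _ then _ else _
  split_ifs
  · exact le_top
  refine le_iInf₂ fun k hk => Nat.cast_le.2 ?_
  rename_i h0
  clear h0
  induction k generalizing u with
  | zero => rw [show u = u' from hk, SimpleGraph.dist_self]
  | succ k ih =>
    obtain ⟨z, ⟨e, he, rfl, rfl⟩, h2⟩ := hk
    have h3 := ih _ h2
    rw [h.vx_node fun h4 => he (h.spec.1.1.al_mem.1 h4)] at h3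
    rw [h.vx_node he]
    rcases dart_adj q e with h4 | h4
    · rw [h4]
      exact h3.trans (Nat.le_succ k)
    · rw [SimpleGraph.dist_comm] at h3 ⊢
      exact (dist_adj (quad_conn q) h4.symm).trans (Nat.succ_le_succ h3)

theorem Valid.dI_step (h : Valid q A) {e : Fin (4 * n)} (he : e ∉ range (hw q A).2)
    (u : q.Vertex ⊕ ℕ) : (sys n).dI q A (node q (hw q A) e) u ≤
      1 + (sys n).dI q A (node q (hw q A) (q.α e)) u := by
  classical
  simp only [sys]
  split_ifs with h1 h2 h2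
  · simp
  · obtain ⟨x, hx, h3 | h3⟩ := h1
    · exact absurd h3 (node_ne e (h.spec.2.symm ▸ hx))
    · exact absurd ⟨x, hx, .inr h3⟩ h2
  · simp
  · exact wd_step ⟨e, he, rfl, rfl⟩ u

theorem dI_self {u : q.Vertex ⊕ ℕ} (hu : ∀ x ∈ A, u ≠ .inl x) : (sys n).dI q A u u = 0 := by
  classical
  refine (if_neg ?_).trans (wd_self _ _)
  rintro ⟨x, hx, h | h⟩ <;> exact hu x hx h

/-- distance inside the hole -/
noncomputable def inn (q : Quad n) (A : Set q.Vertex) (a b : q.Vertex) : ℝ≥0∞ :=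
  ⨅ (x : V ((sys n).W q A)) (x' : V ((sys n).W q A)) (_ : (sys n).ι q A x = a)
    (_ : (sys n).ι q A x' = b), (dW ((sys n).W q A) x x' : ℝ≥0∞)

theorem step_eq (u u' : q.Vertex ⊕ ℕ) : (sys n).step q A u u' =
    min ((sys n).dI q A u u') (inn q A ((sys n).vx q A u) ((sys n).vx q A u')) := rfl

theorem Valid.range (h : Valid q A) : range ((sys n).ι q A) = A :=
  (h.spec.1.1.iota_range _).trans h.spec.2

theorem Valid.inn_self (h : Valid q A) {a : q.Vertex} (ha : a ∈ A) : inn q A a a = 0 := by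
  obtain ⟨x, rfl⟩ : a ∈ Set.range ((sys n).ι q A) := h.range.symm ▸ ha
  refine le_antisymm (iInf_le_of_le x (iInf_le_of_le x (iInf₂_le_of_le rfl rfl ?_))) zero_le
  rw [show dW _ x x = 0 from Nat.le_zero.1 (Nat.sInf_le (Within.refl _ 0 x))]
  simp

theorem Valid.inn_out (h : Valid q A) {a : q.Vertex} (ha : a ∉ A) (b : q.Vertex) :
    inn q A a b = ⊤ :=
  top_le_iff.1 (le_iInf₂ fun x _ => le_iInf fun hx => absurd (h.range ▸ ⟨x, hx⟩) ha)

theorem Valid.inn_adj (h : Valid q A) {a b : q.Vertex} (ha : a ∈ A) (hb : b ∈ A)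
    (hab : q.graph.Adj a b) (z : q.Vertex) : inn q A a z ≤ 1 + inn q A b z := by
  have H := h.spec.1.1
  obtain ⟨e, rfl, rfl⟩ := adj_dart hab
  rw [← h.spec.2] at ha hb
  obtain ⟨d, rfl⟩ := H.mem_iff.2 ⟨ha, hb⟩
  unfold inn
  simp only [ENNReal.add_iInf]
  refine le_iInf₂ fun x x' => le_iInf₂ fun hx hx' => iInf_le_of_le (org _ d) (iInf_le_of_le x'
    (iInf₂_le_of_le (H.iota_org _ d) hx' ?_))
  have h1 : org _ (Mp.al _ d) = x := H.iota_inj q.root ((H.iota_org _ _).trans (by
    rw [H.al]; exact hx.symm))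
  have h2 : Within (hw q A).1 (1 + dW _ x x') (org _ d) x' :=
    (xgraphb_one ((adj_iff_dart _ _ _).2 ⟨d, rfl, h1⟩)).trans
      (Nat.sInf_mem (within_exists _ H.ok x x'))
  exact_mod_cast Nat.sInf_le h2

open Classical in
theorem glue {S : ℕ → q.Vertex} {J : List (ℕ × ℕ)} {t₀ : ℕ} (hE : Ev q S J t₀)
    (x x' : q.Vertex) (w : q.graph.Walk x x') :
    ∃ (s : ℕ) (y : ℕ → q.Vertex ⊕ ℕ),
      s ≤ (w.darts.filter fun e => decide (InBall q S J e.fst ↔ ¬ InBall q S J e.snd)).length ∧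
      y 0 = .inl x ∧ y (s + 1) = .inl x' ∧
      (∀ i, i < s → ∃ p, p < 2 * per ((sys n).W q (VO q S J t₀)) ∧ y (i + 1) = .inr p) ∧
      ∑ i ∈ Finset.range (s + 1), (sys n).step q (VO q S J t₀) (y i) (y (i + 1)) ≤ w.length := by
  have h := valid_of_ev hE
  have H := h.spec.1.1
  have hA := h.spec.2
  have hout := fun {x y : q.Vertex} => vo_adj (S := S) (J := J) (t₀ := t₀) (x := x) (y := y)
  have hin := fun {x : q.Vertex} => vo_not (S := S) (J := J) (t₀ := t₀) (x := x)
  generalize VO q S J t₀ = A at *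
  induction w with
  | @nil u =>
    refine ⟨0, fun _ => .inl u, le_rfl, rfl, rfl, fun i hi => absurd hi (Nat.not_lt_zero i), ?_⟩
    rw [Finset.sum_range_one, step_eq]
    by_cases hu : u ∈ A
    · exact (min_le_right _ _).trans ((h.inn_self hu).le.trans zero_le)
    · refine (min_le_left _ _).trans ((dI_self fun x hx h1 => hu ?_).le.trans zero_le)
      exact Sum.inl.inj h1 ▸ hx
  | @cons u v z ha w ih =>
    obtain ⟨s, y, y1, y2, y3, y4, y5⟩ := ih
    rw [Finset.sum_range_succ', y2] at y5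
    obtain ⟨e, rfl, rfl⟩ := adj_dart ha
    have len : ((SimpleGraph.Walk.cons ha w).length : ℝ≥0∞) = w.length + 1 := by
      rw [SimpleGraph.Walk.length_cons, Nat.cast_succ]
    have same : (sys n).step q A (.inl (q.tail e)) (y 1) ≤
        1 + (sys n).step q A (.inl (q.head e)) (y 1) → ∃ (s : ℕ) (y : ℕ → q.Vertex ⊕ ℕ),
        s ≤ ((SimpleGraph.Walk.cons ha w).darts.filter fun e =>
          decide (InBall q S J e.fst ↔ ¬ InBall q S J e.snd)).length ∧
        y 0 = .inl (q.tail e) ∧ y (s + 1) = .inl z ∧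
        (∀ i, i < s → ∃ p, p < 2 * per ((sys n).W q A) ∧ y (i + 1) = .inr p) ∧
        ∑ i ∈ Finset.range (s + 1), (sys n).step q A (y i) (y (i + 1)) ≤
          (SimpleGraph.Walk.cons ha w).length := by
      intro h1
      refine ⟨s, fun | 0 => .inl (q.tail e) | i + 1 => y (i + 1), y1.trans ?_, rfl, y3, y4, ?_⟩
      · exact ((List.sublist_cons_self _ _).filter _).length_le
      · rw [Finset.sum_range_succ', len]
        refine (add_le_add le_rfl h1).trans ?_
        rw [add_comm 1, ← add_assoc]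
        exact add_le_add y5 le_rfl
    have cross : ∀ p, p < 2 * per ((sys n).W q A) →
        (InBall q S J (q.tail e) ↔ ¬ InBall q S J (q.head e)) →
        (sys n).step q A (.inr p) (y 1) + (sys n).step q A (.inl (q.tail e)) (.inr p) ≤
        (sys n).step q A (.inl (q.head e)) (y 1) + 1 → ∃ (s : ℕ) (y : ℕ → q.Vertex ⊕ ℕ),
        s ≤ ((SimpleGraph.Walk.cons ha w).darts.filter fun e =>
          decide (InBall q S J e.fst ↔ ¬ InBall q S J e.snd)).length ∧
        y 0 = .inl (q.tail e) ∧ y (s + 1) = .inl z ∧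
        (∀ i, i < s → ∃ p, p < 2 * per ((sys n).W q A) ∧ y (i + 1) = .inr p) ∧
        ∑ i ∈ Finset.range (s + 1), (sys n).step q A (y i) (y (i + 1)) ≤
          (SimpleGraph.Walk.cons ha w).length := by
      intro p hp h0 h1
      refine ⟨s + 1, fun | 0 => .inl (q.tail e) | 1 => .inr p | i + 2 => y (i + 1), ?_, rfl, y3,
        fun i hi => ?_, ?_⟩
      · rw [SimpleGraph.Walk.darts_cons, List.filter_cons_of_pos (by exact decide_eq_true h0),
          List.length_cons]
        omega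
      · cases i with
        | zero => exact ⟨p, hp, rfl⟩
        | succ i => exact y4 i (by omega)
      · rw [Finset.sum_range_succ', Finset.sum_range_succ', len, add_assoc]
        refine (add_le_add le_rfl h1).trans ?_
        rw [← add_assoc]
        exact add_le_add y5 le_rfl
    by_cases h1 : q.tail e ∈ A <;> by_cases h2 : q.head e ∈ A
    · refine same ?_
      rw [step_eq, step_eq, (dI_in q A _ _ h2).1, min_eq_right le_top]
      exact (min_le_right _ _).trans (h.inn_adj h1 h2 ha _)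
    · have he : e ∉ range (hw q A).2 := fun h3 => h2 (hA ▸ (H.mem_iff.1 h3).2)
      have h3 := H.pos_spec he (hA.symm ▸ h1 : q.tail e ∈ AY q (hw q A)) q.root
      refine cross _ h3.1 ⟨fun h4 => absurd h4 (hin h1), fun h4 => absurd (hout h1 ha h2) h4⟩ ?_
      have h4 := h.dI_step he (y 1)
      rw [node, node, if_pos (hA.symm ▸ h1), if_neg (hA.symm ▸ h2)] at h4
      have h5 : (sys n).step q A (.inl (q.tail e)) (.inr (cpos q.α q.φ (hw q A).2 e)) = 0 := by
        refine le_antisymm ((min_le_right _ _).trans ?_) zero_le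
        have h6 := h.inn_self h1
        nth_rewrite 2 [← show _ = q.tail e from h3.2] at h6
        exact h6.le
      rw [h5, add_zero, step_eq (.inl _), show (sys n).vx q A (.inl (q.head e)) = q.head e from rfl,
        h.inn_out h2, min_eq_left le_top, add_comm]
      exact (min_le_left _ _).trans h4
    · have he : e ∉ range (hw q A).2 := fun h3 => h1 (hA ▸ (H.mem_iff.1 h3).1)
      have h3 := H.pos_spec (fun h => he (H.al_mem.1 h))
        (hA.symm ▸ h2 : q.tail (q.α e) ∈ AY q (hw q A)) q.root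
      refine cross _ h3.1 ⟨fun _ => hin h2, fun _ => hout h2 ha.symm h1⟩ (add_le_add ?_ ?_)
      · rw [step_eq (.inl _), (dI_in q A _ _ h2).1, min_eq_right le_top]
        refine (min_le_right _ _).trans (le_of_eq ?_)
        exact congrArg (fun a => inn q A a _) h3.2
      · have h4 := h.dI_step he (.inr (cpos q.α q.φ (hw q A).2 (q.α e)))
        rw [node, node, if_neg (hA.symm ▸ h1), if_pos (hA.symm ▸ h2),
          dI_self (fun _ _ => by simp), add_zero] at h4
        exact (min_le_left _ _).trans h4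
    · refine same ?_
      have he : e ∉ range (hw q A).2 := fun h3 => h1 (hA ▸ (H.mem_iff.1 h3).1)
      have h4 := h.dI_step he (y 1)
      rw [node, node, if_neg (hA.symm ▸ h1), if_neg (hA.symm ▸ h2)] at h4
      rw [step_eq (.inl (q.head e)), show (sys n).vx q A (.inl (q.head e)) = q.head e from rfl,
        h.inn_out h2, min_eq_left le_top]
      exact (min_le_left _ _).trans h4

end Pool.Agent.QL.Ho
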