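import Pool.Agent.P.MP_7a6434d8_pr.QL.M2.Defs
import Pool.Agent.P.MP_7a6434d8_pr.ZCtxA
import Pool.Agent.P.MP_7a6434d8_pr.RotC
import Pool.Agent.P.MP_7a6434d8_pr.XMom

/-! Peeling at fixed size and moments of the normalised numbers of discs. -/

namespace Pool.Agent.QL.M2

open Pool.Agent.P.MP_7a6434d8_pr Pool.Agent.P.MP_7a6434d8_pr.Mp Finset
open scoped ENNReal

theorem sum_rot {M : Type} [AddCommMonoid M] (L m k : ℕ) (F : Mp → M) :
    ∑ t ∈ countaT L m, F (rotN k t) = ∑ t ∈ countaT L m, F t := by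
  refine sum_nbij (fun t => rotN k t) (fun t ht => ?_) (fun a ha b hb hab => ?_)
    (fun t ht => ?_) (fun _ _ => rfl)
  · obtain ⟨h1, h2, h3⟩ := (counta_mem L m t).1 ht
    exact (counta_mem L m _).2 ⟨rotN_ok k t h1, (rotN_per k t h1).trans h2,
      (rotN_size k t h1).trans h3⟩
  · exact rotN_inj k a b ((counta_mem L m a).1 ha).1 ((counta_mem L m b).1 hb).1 hab
  · obtain ⟨h1, h2, h3⟩ := (counta_mem L m t).1 ht
    obtain ⟨s, hs, rfl⟩ := rotN_surj k t h1
    refine ⟨s, (counta_mem L m s).2 ⟨hs, ?_, ?_⟩, rfl⟩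
    · rw [← h2, rotN_per k s hs]
    · rw [← h3, rotN_size k s hs]

theorem AV_rot (L m k : ℕ) (F : Mp → ℝ≥0∞) : AV L m (fun t => F (rotN k t)) = AV L m F := by
  unfold AV
  rw [sum_rot]

/-- unnormalised contribution of swallowing a disc of half-perimeter `j` -/
noncomputable def peelT (L m j : ℕ) (g : Mp → Mp → Mp) (F : Mp → ℝ) : ℝ :=
  ∑ y ∈ range (m + 1), ∑ b ∈ countaT j y, ∑ a ∈ countaT (L - 1 - j) (m - y), F (g a b)

theorem peel_sideT (L m j : ℕ) (hj : j < L) (g : Mp → Mp → Mp) (F : Mp → ℝ) :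
    sideT L m j g F = peelT L m j g F / (12 ^ m * 8 ^ L) := by
  unfold sideT peelT nS
  rw [sum_div]
  refine sum_congr rfl fun y hy => ?_
  rw [mem_range] at hy
  obtain ⟨u, rfl⟩ : ∃ u, m = y + u := ⟨m - y, by omega⟩
  obtain ⟨v, rfl⟩ : ∃ v, L = j + v + 1 := ⟨L - 1 - j, by omega⟩
  have e1 : y + u - y = u := by omega
  have e2 : j + v + 1 - 1 - j = v := by omega
  rw [e1, e2, ← sum_div, pow_add, pow_succ, pow_add]
  field_simp

theorem peel_face (L m k : ℕ) (F : Mp → ℝ) :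
    ∑ t ∈ countaT (L + 1) m, F (rotN (2 * L - k) (face t))
      = ∑ t ∈ countaT (L + 1) m, F (faceAt k t) := by
  rw [← sum_rot (L + 1) m k (fun t => F (rotN (2 * L - k) (face t)))]
  refine sum_congr rfl fun t ht => ?_
  unfold faceAt
  rw [((counta_mem _ _ t).1 ht).2.1, Nat.add_sub_cancel]

theorem peel_right (L m k j : ℕ) (hj : j < L) (F : Mp → ℝ) :
    ∑ p ∈ antidiagonal m, ∑ a ∈ countaT (L - 1 - j) p.1, ∑ b ∈ countaT j p.2,
      F (rotN (2 * L - k) (bridge a b)) = peelT L m j (brR k) F := by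
  rw [← Finset.Nat.sum_antidiagonal_swap, Finset.Nat.sum_antidiagonal_eq_sum_range_succ_mk]
  unfold peelT
  refine sum_congr rfl fun y _ => ?_
  simp only [Prod.swap_prod_mk]
  rw [sum_comm]
  refine sum_congr rfl fun b hb => ?_
  rw [← sum_rot (L - 1 - j) (m - y) k (fun a => F (rotN (2 * L - k) (bridge a b)))]
  refine sum_congr rfl fun a ha => ?_
  have h1 := ((counta_mem _ _ a).1 ha).2.1
  have h2 := ((counta_mem _ _ b).1 hb).2.1
  unfold brR
  have : per a + per b + 1 = L := by omega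
  rw [this]

theorem peel_left (L m k j : ℕ) (hj : j < L) (hk : 2 * j + 1 ≤ k) (F : Mp → ℝ) :
    ∑ p ∈ antidiagonal m, ∑ a ∈ countaT j p.1, ∑ b ∈ countaT (L - 1 - j) p.2,
      F (rotN (2 * L - k) (bridge a b)) = peelT L m j (brL (k - 2 * j - 1)) F := by
  rw [Finset.Nat.sum_antidiagonal_eq_sum_range_succ_mk]
  unfold peelT
  refine sum_congr rfl fun y _ => ?_
  refine sum_congr rfl fun b hb => ?_
  rw [← sum_rot (L - 1 - j) (m - y) (k - 2 * j - 1)
    (fun a => F (rotN (2 * L - k) (bridge b a)))]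
  refine sum_congr rfl fun a ha => ?_
  have h1 := ((counta_mem _ _ a).1 ha).2.1
  have h2 := ((counta_mem _ _ b).1 hb).2.1
  unfold brL
  have h3 : per a + per b + 1 = L := by omega
  have h4 : k - 2 * j - 1 + 2 * per b + 1 = k := by omega
  rw [h3, h4]

theorem peel_raw (L m k : ℕ) (hk : k < 2 * L) (F : Mp → ℝ) :
    ∑ t ∈ countaT L m, F t
      = (if m = 0 then 0 else ∑ s ∈ countaT (L + 1) (m - 1), F (faceAt k s))
        + ∑ j ∈ range ((2 * L - k) / 2), peelT L m j (brR k) F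
        + ∑ j ∈ range ((k + 1) / 2), peelT L m j (brL (k - 2 * j - 1)) F := by
  obtain ⟨N, rfl⟩ : ∃ N, L = N + 1 := ⟨L - 1, by omega⟩
  rw [← sum_rot (N + 1) m (2 * (N + 1) - k) F,
    zctxa_succ N m (fun t => F (rotN (2 * (N + 1) - k) t)), peel_face (N + 1)]
  refine Eq.trans ?_ (add_assoc _ _ _).symm
  congr 1
  have hsplit : N + 1 = (2 * (N + 1) - k) / 2 + (k + 1) / 2 := by omega
  have key : ∀ G : ℕ → ℝ, ∑ j ∈ range (N + 1), G j
      = ∑ j ∈ range ((2 * (N + 1) - k) / 2), G j + ∑ j ∈ range ((k + 1) / 2), G (N - j) := by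
    intro G
    conv_lhs => rw [hsplit, sum_range_add]
    congr 1
    rw [← sum_range_reflect]
    refine sum_congr rfl fun j hj => ?_
    rw [mem_range] at hj
    congr 1
    omega
  rw [key]
  congr 1
  · refine sum_congr rfl fun j hj => ?_
    rw [mem_range] at hj
    exact peel_right (N + 1) m k j (by omega) F
  · refine sum_congr rfl fun j hj => ?_
    rw [mem_range] at hj
    have h1 : N - (N - j) = j := by omega
    rw [h1]
    exact peel_left (N + 1) m k j (by omega) (by omega) F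

/-- from `zctxa_succ` and `sum_rot`, exactly as `peel_eqE` follows from `massE_root` -/
theorem nS_peel (L m k : ℕ) (hk : k < 2 * L) (F : Mp → ℝ) :
    nS L m F = (if m = 0 then 0 else 2 / 3 * nS (L + 1) (m - 1) fun s => F (faceAt k s))
      + ∑ j ∈ range ((2 * L - k) / 2), sideT L m j (brR k) F
      + ∑ j ∈ range ((k + 1) / 2), sideT L m j (brL (k - 2 * j - 1)) F := by
  rw [sum_congr rfl (fun j hj => peel_sideT L m j (by have := mem_range.1 hj; omega) (brR k) F),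
    sum_congr rfl (fun j hj => peel_sideT L m j (by have := mem_range.1 hj; omega)
      (brL (k - 2 * j - 1)) F), ← sum_div, ← sum_div]
  unfold nS
  rw [peel_raw L m k hk F, add_div, add_div]
  congr 2
  split_ifs with h
  · exact zero_div _
  · obtain ⟨u, rfl⟩ : ∃ u, m = u + 1 := ⟨m - 1, by omega⟩
    rw [Nat.add_sub_cancel, pow_succ, pow_succ]
    field_simp
    ring

theorem peel_mom (j M : ℕ) (g : ℕ → ℝ) (hg : ∀ n, 0 ≤ g n) (C : ℝ) (hC : 0 ≤ C)
    (h : IE j (fun t => ENNReal.ofReal (g (size t))) ≤ ENNReal.ofReal (C * Z j)) :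
    ∑ y ∈ range M, cLm j y * g y ≤ C * w j := by
  rw [IE_size_fun j g hg] at h
  have hZ := (Z_pos j).le
  have h0 : ∀ n, 0 ≤ (8 : ℝ) ^ j * (cLm j n * g n) := fun n =>
    mul_nonneg (by positivity) (mul_nonneg (cLm_nonneg j n) (hg n))
  have h1 := (ENNReal.sum_le_tsum (range M)).trans h
  rw [← ENNReal.ofReal_sum_of_nonneg (fun n _ => h0 n),
    ENNReal.ofReal_le_ofReal_iff (mul_nonneg hC hZ), ← mul_sum] at h1
  unfold w
  rw [← mul_div_assoc, le_div_iff₀ (by positivity), mul_comm]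
  exact h1

/-- `IE_size_fun`, `IE_const` -/
theorem cLm_sum_le (j M : ℕ) : ∑ y ∈ range M, cLm j y ≤ w j := by
  have := peel_mom j M (fun _ => 1) (fun _ => zero_le_one) 1 zero_le_one (by
    rw [IE_const, ENNReal.ofReal_one, one_mul, one_mul])
  simpa using this

/-- `IE_size_fun`, `IE_size` -/
theorem cLm_mom_le (j M : ℕ) : ∑ y ∈ range M, (y : ℝ) * cLm j y ≤ (j : ℝ) * (j + 1) / 2 * w j := by
  have := peel_mom j M (fun n => (n : ℝ)) (fun n => Nat.cast_nonneg n) ((j : ℝ) * (j + 1) / 2)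
    (by positivity) (by
      simp only [ENNReal.ofReal_natCast]
      exact IE_size j)
  refine le_trans (le_of_eq (sum_congr rfl fun y _ => mul_comm _ _)) this

theorem peel_sum_min (s : Finset Mp) (ψ : Mp → ℝ≥0∞) :
    ENNReal.ofReal (∑ t ∈ s, (min (ψ t) 1).toReal) ≤ ∑ t ∈ s, ψ t := by
  rw [ENNReal.ofReal_sum_of_nonneg (fun _ _ => ENNReal.toReal_nonneg)]
  exact sum_le_sum fun t _ => ENNReal.ofReal_toReal_le.trans (min_le_left _ _)

/-- `IE_by_size` -/
theorem nS_sum_le (i n M : ℕ) (hM : M ≤ n + 1) (ψ : Mp → ℝ≥0∞) (β : ℝ) (hβ : 0 ≤ β)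
    (h : IE i ψ ≤ ENNReal.ofReal (β * Z i)) :
    ∑ y ∈ range M, nS i (n - y) (fun s => (min (ψ s) 1).toReal) ≤ β * w i := by
  have hZ := (Z_pos i).le
  have h0 : ∀ k, 0 ≤ nS i k (fun s => (min (ψ s) 1).toReal) := fun k =>
    nS_nonneg fun _ => ENNReal.toReal_nonneg
  have h1 : ∑ y ∈ range M, nS i (n - y) (fun s => (min (ψ s) 1).toReal)
      ≤ ∑ k ∈ range (n + 1), nS i k (fun s => (min (ψ s) 1).toReal) := by
    rw [← sum_range_reflect _ (n + 1)]
    simp only [Nat.add_sub_cancel]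
    exact sum_le_sum_of_subset_of_nonneg (range_mono hM) fun k _ _ => h0 _
  refine h1.trans ?_
  rw [IE_by_size] at h
  have h2 : ∀ k, ENNReal.ofReal (8 ^ i * nS i k (fun s => (min (ψ s) 1).toReal))
      ≤ (12 : ℝ≥0∞)⁻¹ ^ k * ∑ t ∈ countaT i k, ψ t := by
    intro k
    have e : 8 ^ i * nS i k (fun s => (min (ψ s) 1).toReal)
        = 1 / 12 ^ k * ∑ t ∈ countaT i k, (min (ψ t) 1).toReal := by
      unfold nS
      field_simp
    rw [e, ENNReal.ofReal_mul (by positivity), m1_wt_eq]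
    exact mul_le_mul' le_rfl (peel_sum_min _ ψ)
  have h3 := ((sum_le_sum fun k _ => h2 k).trans (ENNReal.sum_le_tsum (range (n + 1)))).trans h
  rw [← ENNReal.ofReal_sum_of_nonneg (fun k _ => mul_nonneg (by positivity) (h0 k)),
    ENNReal.ofReal_le_ofReal_iff (mul_nonneg hβ hZ), ← mul_sum] at h3
  unfold w
  rw [← mul_div_assoc, le_div_iff₀ (by positivity), mul_comm]
  exact h3

theorem cLm_pos (L m : ℕ) (hL : 1 ≤ L) : 0 < cLm L m := by
  refine lt_of_le_of_ne (cLm_nonneg L m) fun h => ?_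
  have h1 := cLm_lower L m hL
  rw [← h] at h1
  have hL1 : (1 : ℝ) ≤ L := by exact_mod_cast hL
  have h2 : 0 < (L : ℝ) / 100 * Real.exp (-(((L : ℝ) + 1) ^ 2 / (2 * (m + 1)))) := by positivity
  simp only [ne_eq, OfNat.ofNat_ne_zero, not_false_eq_true, zero_pow, zero_mul] at h1
  exact absurd h1 (not_le.2 h2)

theorem peel_cLm (L m : ℕ) : cLm L m = ((countaT L m).card : ℝ) / (12 ^ m * 8 ^ L) := by
  unfold cLm
  rw [counta_cnt_true]

theorem peel_card (L m : ℕ) (hL : 1 ≤ L) : (countaT L m).card ≠ 0 := by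
  intro h
  have := cLm_pos L m hL
  rw [peel_cLm, h] at this
  simp at this

theorem AV_eq (L m : ℕ) (hL : 1 ≤ L) (F : Mp → ℝ≥0∞) (hF : ∀ t, F t ≤ 1) :
    AV L m F = ENNReal.ofReal (nS L m (fun t => (F t).toReal) / cLm L m) := by
  have hc : (0 : ℝ) < (countaT L m).card := by
    exact_mod_cast Nat.pos_of_ne_zero (peel_card L m hL)
  have e : nS L m (fun t => (F t).toReal) / cLm L m
      = (∑ t ∈ countaT L m, (F t).toReal) / (countaT L m).card := by
    rw [peel_cLm]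
    unfold nS
    field_simp
  rw [e, ENNReal.ofReal_div_of_pos hc, ENNReal.ofReal_natCast,
    ENNReal.ofReal_sum_of_nonneg (fun _ _ => ENNReal.toReal_nonneg)]
  unfold AV
  congr 1
  exact sum_congr rfl fun t _ =>
    (ENNReal.ofReal_toReal (ne_top_of_le_ne_top ENNReal.one_ne_top (hF t))).symm

theorem nS_le_of_AV (L m : ℕ) (ψ : Mp → ℝ≥0∞) (β : ℝ) (hβ : 0 ≤ β)
    (h : AV L m ψ ≤ ENNReal.ofReal β) :
    nS L m (fun s => (min (ψ s) 1).toReal) ≤ β * cLm L m := by
  rw [peel_cLm, ← mul_div_assoc]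
  unfold nS
  refine div_le_div_of_nonneg_right ?_ (by positivity)
  by_cases hc : (countaT L m).card = 0
  · rw [hc, card_eq_zero.1 hc]
    simp
  · unfold AV at h
    rw [ENNReal.div_le_iff (by exact_mod_cast hc) (ENNReal.natCast_ne_top _),
      ← ENNReal.ofReal_natCast, ← ENNReal.ofReal_mul hβ] at h
    exact (ENNReal.ofReal_le_ofReal_iff (by positivity)).1 ((peel_sum_min _ ψ).trans h)

theorem AV_mono {L m : ℕ} {F G : Mp → ℝ≥0∞}
    (h : ∀ t, ok t → per t = L → size t = m → F t ≤ G t) : AV L m F ≤ AV L m G := by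
  unfold AV
  refine ENNReal.div_le_div_right (sum_le_sum fun t ht => ?_) _
  obtain ⟨h1, h2, h3⟩ := (counta_mem L m t).1 ht
  exact h t h1 h2 h3

theorem AV_add (L m : ℕ) (F G : Mp → ℝ≥0∞) :
    AV L m (fun t => F t + G t) = AV L m F + AV L m G := by
  unfold AV
  rw [sum_add_distrib, ENNReal.add_div]

theorem AV_const_mul (L m : ℕ) (c : ℝ≥0∞) (F : Mp → ℝ≥0∞) :
    AV L m (fun t => c * F t) = c * AV L m F := by
  unfold AV
  rw [← mul_sum, mul_div_assoc]

theorem AV_const (L m : ℕ) (hL : 1 ≤ L) (c : ℝ≥0∞) : AV L m (fun _ => c) = c := by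
  unfold AV
  rw [sum_const, nsmul_eq_mul, mul_comm, mul_div_assoc,
    ENNReal.div_self (by exact_mod_cast peel_card L m hL) (ENNReal.natCast_ne_top _), mul_one]

theorem AV_const_le (L m : ℕ) (c : ℝ≥0∞) : AV L m (fun _ => c) ≤ c := by
  unfold AV
  refine ENNReal.div_le_of_le_mul ?_
  rw [sum_const, nsmul_eq_mul, mul_comm]

end Pool.Agent.QL.M2
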