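import Pool.Agent.P.MP_7a6434d8_pr.QL.M2.Defs
import Pool.Agent.P.MP_7a6434d8_pr.QL.M2.Emb
import Pool.Agent.P.MP_7a6434d8_pr.PeelA

/-! Composition of removals and removal of one face. -/

namespace Pool.Agent.QL.M2

open Pool.Agent.P.MP_7a6434d8_pr Pool.Agent.P.MP_7a6434d8_pr.Mp Finset
open scoped ENNReal

theorem RemE.trans {x : ℕ} {t s r : Mp} (h : RemE x t s) (h' : RemE x s r) : RemE x t r := by
  obtain ⟨θ, ι, H⟩ := h
  obtain ⟨θ', ι', H'⟩ := h'
  refine ⟨fun d => θ (θ' d), fun z => ι (ι' z), H.ok_t, H'.ok_s, H.le_t, H'.le_s,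
    H.θ_inj.comp H'.θ_inj, H.ι_inj.comp H'.ι_inj, fun d => ?_, fun d hd => ?_,
    fun d hd => H.θ_in _ (H'.θ_in d hd), fun d => ?_, fun p hp => ?_, fun p hp => ?_,
    fun e z he hz => ?_, fun p z h1 h2 hz => ?_⟩
  · rw [H'.θ_al, H.θ_al]
  · rw [H'.θ_ph d hd, H.θ_ph _ (H'.θ_in d hd)]
  · rw [H.org_eq, H'.org_eq]
  · rw [H'.lo p hp, H.lo p hp]
  · rw [H'.hi p hp, H.hi p hp]
  · by_cases h0 : ∃ e', θ e' = e
    · obtain ⟨e', rfl⟩ := h0
      rw [H.org_eq] at hz
      exact H'.out e' z (fun d hd => he d (congrArg θ hd)) (H.ι_inj hz)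
    · obtain ⟨p, h1, h2, h3⟩ := H.out e (ι' z) (fun d hd => h0 ⟨d, hd⟩) hz
      exact H'.win p z h1 h2 h3
  · obtain ⟨p', a1, a2, a3⟩ := H.win p (ι' z) h1 h2 hz
    exact H'.win p' z a1 a2 a3

/-- inner darts correspond under a re-rooting -/
theorem remf_inn_rot {k : ℕ} {t : Mp} (ht : ok t) (θ : Dt (rotN k t) ≃ Dt t)
    (h : ∀ p, p < 2 * per t → (bd (rotN k t) p).map θ = bd t ((p + k) % (2 * per t)))
    (d : Dt (rotN k t)) : Inn (rotN k t) d ↔ Inn t (θ d) := by
  constructor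
  · intro hd q hq
    have hlt := darta_lt ht hq
    have hk : k % (2 * per t) < 2 * per t := Nat.mod_lt _ (by omega)
    have h1 := h ((q + (2 * per t - k % (2 * per t))) % (2 * per t)) (Nat.mod_lt _ (by omega))
    have e0 : ((q + (2 * per t - k % (2 * per t))) % (2 * per t) + k) % (2 * per t) = q := by
      rw [Nat.mod_add_mod, ← Nat.add_mod_mod _ k, add_assoc, Nat.sub_add_cancel hk.le,
        Nat.add_mod_right, Nat.mod_eq_of_lt hlt]
    rw [e0, hq] at h1
    obtain ⟨e, h2, h3⟩ := Option.map_eq_some_iff.1 h1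
    exact hd _ (θ.injective h3 ▸ h2)
  · intro hd p hp
    have hlt := darta_lt (rotN_ok k t ht) hp
    rw [rotN_per k t ht] at hlt
    have h1 := h p hlt
    rw [hp] at h1
    exact hd _ h1.symm

theorem remf_inn_inl {r : Mp} {d : Dt r} (h : Inn r d) : Inn (face r) (Sum.inl d) := by
  intro p hp
  rcases darta_face hp with ⟨-, h1⟩ | ⟨-, e, h1, h2⟩
  · exact Sum.inl_ne_inr h1
  · exact h _ (Sum.inl.inj h2 ▸ h1)

/-- `faceAt k s = rotN _ (face (rotN k s))`: use `rot_data` twice and `darta_*`. -/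
theorem remE_face (x k : ℕ) (s : Mp) (hs : ok s) (hx : x ≤ k) (hk : k + 3 + x ≤ 2 * per s) :
    RemE x (faceAt k s) s ∧ per (faceAt k s) + 1 = per s ∧ size (faceAt k s) = size s + 1 := by
  have hF := isFace_faceAt k s hs (by omega)
  refine ⟨?_, hF.per_eq.symm, hF.size_eq⟩
  obtain ⟨L, hL⟩ : ∃ L, per s = L + 1 := ⟨per s - 1, by omega⟩
  have hpt : per (faceAt k s) = L := by have := hF.per_eq; omega
  have hr : ok (rotN k s) := rotN_ok k s hs
  have hpr : per (rotN k s) = L + 1 := by rw [rotN_per k s hs, hL]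
  have hu : ok (face (rotN k s)) := ⟨hr, by omega⟩
  have hpu : per (face (rotN k s)) = L := by simp only [per, hpr]; omega
  obtain ⟨θ1, e1, al1, ph1, or1, bd1, bv1⟩ := rot_data k s hs
  obtain ⟨θ2, e2, al2, ph2, or2, bd2, bv2⟩ := rot_data (2 * (per s - 1) - k) (face (rotN k s)) hu
  have in1 := remf_inn_rot hs θ1 bd1
  have in2 := remf_inn_rot hu θ2 bd2
  rw [hpu] at bv2
  have hL' : per s - 1 = L := by omega
  have hb1 : ∀ p q, p ≤ 2 * L + 2 → q ≤ 2 * L + 2 → (p + k = q ∨ p + k = q + (2 * L + 2)) →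
      e1 (bv (rotN k s) p) = bv s q := by
    intro p q hp hq h
    rw [bv1 p (by omega), ← peela_bv_mod s hs q (by omega), hL]
    congr 1
    rcases h with h | h
    · rw [h]
    · rw [h, show 2 * L + 2 = 2 * (L + 1) by ring, Nat.add_mod_right]
  have hb2 : ∀ p i, p ≤ 2 * L → i ≤ 2 * L → (p + (2 * L - k) = i ∨ p + (2 * L - k) = i + 2 * L) →
      e2 (bv (faceAt k s) p) = bv (face (rotN k s)) i := by
    intro p i hp hi h
    refine (bv2 p hp).trans ?_
    rw [← peela_bv_mod _ hu i (by omega), hpu, hL']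
    congr 1
    rcases h with h | h
    · rw [h]
    · rw [h, Nat.add_mod_right]
  let E : V (faceAt k s) ≃ V s := e2.trans e1
  have hlo : ∀ p, p ≤ k → E (bv (faceAt k s) p) = bv s p := by
    intro p hp
    change e1 (e2 (bv (faceAt k s) p)) = _
    rw [hb2 p (p + (2 * L - k)) (by omega) (by omega) (Or.inl rfl), peela_bv_face _ _ (by omega)]
    exact hb1 _ _ (by omega) (by omega) (by omega)
  have hhi : ∀ p, k < p → p ≤ 2 * L → E (bv (faceAt k s) p) = bv s (p + 2) := by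
    intro p hp hp'
    change e1 (e2 (bv (faceAt k s) p)) = _
    rw [hb2 p (p - k) hp' (by omega) (by omega), peela_bv_face _ _ (by omega)]
    exact hb1 _ _ (by omega) (by omega) (by omega)
  let θ : Dt s → Dt (faceAt k s) := fun d => θ2.symm (Sum.inl (θ1.symm d))
  have hθ : ∀ d, θ2 (θ d) = Sum.inl (θ1.symm d) := fun d => θ2.apply_symm_apply _
  have horg : ∀ e : Dt (faceAt k s), E (org _ e) = e1 (org (face (rotN k s)) (θ2 e)) :=
    fun e => congrArg e1 (or2 e)
  refine ⟨θ, E.symm, hF.ok_t, hs, by omega, by omega, fun a b hab => ?_, E.symm.injective,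
    fun d => ?_, fun d hd => ?_, fun d hd => ?_, fun d => ?_, fun p hp => ?_, fun p hp => ?_,
    fun e z he hz => ?_, fun p z h1 h2 hz => ?_⟩
  · have h1 := (hθ a).symm.trans ((congrArg θ2 hab).trans (hθ b))
    exact θ1.symm.injective (Sum.inl.inj h1)
  · apply θ2.injective
    refine (hθ _).trans (Eq.trans ?_ (al2 (θ d)).symm)
    rw [hθ]
    refine congrArg Sum.inl (θ1.injective ?_)
    rw [al1, Equiv.apply_symm_apply, Equiv.apply_symm_apply]
  · have h1 : Inn (rotN k s) (θ1.symm d) := (in1 _).2 (by rwa [Equiv.apply_symm_apply])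
    apply θ2.injective
    refine (hθ _).trans (Eq.trans ?_ (ph2 (θ d)).symm)
    rw [hθ, darta_pf5 (dartb_inner_ph hr _ h1 3) (dartb_inner_ph hr _ h1 0)]
    refine congrArg Sum.inl (θ1.injective ?_)
    rw [ph1, Equiv.apply_symm_apply, Equiv.apply_symm_apply]
  · have h1 : Inn (rotN k s) (θ1.symm d) := (in1 _).2 (by rwa [Equiv.apply_symm_apply])
    refine (in2 (θ d)).2 ?_
    rw [hθ]
    exact remf_inn_inl h1
  · rw [Equiv.eq_symm_apply, horg, hθ]
    refine (or1 (θ1.symm d)).trans ?_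
    rw [Equiv.apply_symm_apply]
  · rw [Equiv.symm_apply_eq, hlo p (hp.trans hx)]
  · rw [Equiv.symm_apply_eq, hhi _ (by omega) (by omega)]
    congr 1
    omega
  · rw [Equiv.eq_symm_apply, horg] at hz
    have h0 : ∀ d : Dt (rotN k s), θ2 e ≠ Sum.inl d := fun d hd => he (θ1 d) (θ2.injective
      ((hθ _).trans (by rw [Equiv.symm_apply_apply]; exact hd.symm)))
    rcases h1 : (θ2 e : Dt (rotN k s) ⊕ Bool) with d | _ | _
    · exact absurd h1 (h0 d)
    · rw [h1] at hz
      exact ⟨k + 3, by omega, by omega, hz.symm.trans (hb1 3 _ (by omega) (by omega) (by omega))⟩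
    · rw [h1] at hz
      exact ⟨k, hx, by omega, hz.symm.trans (hb1 0 _ (by omega) (by omega) (by omega))⟩
  · rw [Equiv.symm_apply_eq] at hz
    rcases le_or_gt p k with h3 | h3
    · exact ⟨p, h1, by omega, hz.trans (hlo p h3)⟩
    · exact ⟨p + 2, by omega, by omega, hz.trans (hhi p h3 (by omega))⟩

end Pool.Agent.QL.M2
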