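import Pool.Agent.P.MP_7a6434d8_pr.QL.M2.Defs
import Pool.Agent.P.MP_7a6434d8_pr.QL.C.Thin

/-! Uniform continuity on the space of codes and coupling of samples. -/

namespace Pool.Agent.QL.M2

open Pool.Agent.P.MP_7a6434d8_pr Pool.Agent.P.MP_7a6434d8_pr.Mp Finset MeasureTheory
open scoped ENNReal

theorem smp_closed {Z : Type} [TopologicalSpace Z] {f g : Z → ℝ≥0∞} (hf : Continuous f)
    (hg : Continuous g) (ρ : ℝ≥0∞) : IsClosed {z | Cl ρ (f z) (g z)} :=
  (isClosed_le hf (hg.add continuous_const)).inter (isClosed_le hg (hf.add continuous_const))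

theorem smp_closed' {Z κ : Type} [TopologicalSpace Z] {f g : κ → Z → ℝ≥0∞}
    (hf : ∀ a, Continuous (f a)) (hg : ∀ a, Continuous (g a)) (ρ : ℝ≥0∞) (s : Finset κ) :
    IsClosed {z | ∀ a ∈ s, Cl ρ (f a z) (g a z)} := by
  simp only [Set.ofPred_forall]
  exact isClosed_iInter fun a => isClosed_iInter fun _ => smp_closed (hf a) (hg a) _

theorem smp_mono {ρ ρ' a b : ℝ≥0∞} (h : Cl ρ a b) (h' : ρ ≤ ρ') : Cl ρ' a b :=
  ⟨h.1.trans (add_le_add_right h' _), h.2.trans (add_le_add_right h' _)⟩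

theorem smp_eq {a b : ℝ≥0∞} (h : ∀ ρ : ℝ, 0 < ρ → Cl (ENNReal.ofReal ρ) a b) : a = b :=
  le_antisymm
    (ENNReal.le_of_forall_pos_le_add fun ρ hρ _ => ENNReal.ofReal_coe_nnreal ▸ (h ρ hρ).1)
    (ENNReal.le_of_forall_pos_le_add fun ρ hρ _ => ENNReal.ofReal_coe_nnreal ▸ (h ρ hρ).2)

/-- compactness: the closed sets `{(c, c') | close on (I, J, ρ), G c' + η ≤ G c}` are directed and
have empty intersection -/
theorem unif_code {α β : Type} (G : C((α → ℝ≥0∞) × (β → ℝ≥0∞), ℝ≥0∞)) (hG : ∀ c, G c ≤ 1)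
    (η : ℝ≥0∞) (hη : 0 < η) : ∃ (I : Finset α) (J : Finset β) (ρ : ℝ), 0 < ρ ∧
      ∀ c c', (∀ a ∈ I, Cl (ENNReal.ofReal ρ) (c.1 a) (c'.1 a)) →
        (∀ b ∈ J, Cl (ENNReal.ofReal ρ) (c.2 b) (c'.2 b)) → Cl η (G c) (G c') := by
  classical
  have : Nonempty {ρ : ℝ // 0 < ρ} := ⟨⟨1, one_pos⟩⟩
  obtain ⟨d, hd⟩ := isCompact_univ.elim_directed_family_closed
    (fun d : Finset α × Finset β × {ρ : ℝ // 0 < ρ} =>
      {p : ((α → ℝ≥0∞) × (β → ℝ≥0∞)) × (α → ℝ≥0∞) × (β → ℝ≥0∞) |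
        ((∀ a ∈ d.1, Cl (ENNReal.ofReal d.2.2.1) (p.1.1 a) (p.2.1 a)) ∧
        ∀ b ∈ d.2.1, Cl (ENNReal.ofReal d.2.2.1) (p.1.2 b) (p.2.2 b)) ∧ G p.2 + η ≤ G p.1})
    (fun d => by
      refine IsClosed.inter (IsClosed.inter ?_ ?_) (isClosed_le
        ((G.continuous.comp continuous_snd).add continuous_const) (G.continuous.comp continuous_fst))
      · exact smp_closed' (fun a => by fun_prop) (fun a => by fun_prop) _ _
      · exact smp_closed' (fun a => by fun_prop) (fun a => by fun_prop) _ _)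
    (Set.eq_empty_of_forall_notMem fun p hp => by
      have h1 := Set.mem_iInter.1 hp.2
      have e : p.1 = p.2 := Prod.ext
        (funext fun a => smp_eq fun ρ hρ => (h1 ({a}, ∅, ⟨ρ, hρ⟩)).1.1 a (mem_singleton_self a))
        (funext fun b => smp_eq fun ρ hρ => (h1 (∅, {b}, ⟨ρ, hρ⟩)).1.2 b (mem_singleton_self b))
      have h2 := (h1 (∅, ∅, ⟨1, one_pos⟩)).2
      rw [e] at h2
      exact (ENNReal.lt_add_right ((hG p.2).trans_lt ENNReal.one_lt_top).ne hη.ne').not_ge h2)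
    fun d d' => ⟨(d.1 ∪ d'.1, d.2.1 ∪ d'.2.1, ⟨min d.2.2.1 d'.2.2.1, lt_min d.2.2.2 d'.2.2.2⟩),
      fun p hp => ⟨⟨fun a ha => smp_mono (hp.1.1 a (mem_union_left _ ha))
        (ENNReal.ofReal_le_ofReal (min_le_left _ _)), fun a ha =>
          smp_mono (hp.1.2 a (mem_union_left _ ha)) (ENNReal.ofReal_le_ofReal (min_le_left _ _))⟩,
        hp.2⟩,
      fun p hp => ⟨⟨fun a ha => smp_mono (hp.1.1 a (mem_union_right _ ha))
        (ENNReal.ofReal_le_ofReal (min_le_right _ _)), fun a ha =>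
          smp_mono (hp.1.2 a (mem_union_right _ ha))
            (ENNReal.ofReal_le_ofReal (min_le_right _ _))⟩, hp.2⟩⟩
  have h1 := fun p hp => Set.eq_empty_iff_forall_notMem.1 hd p ⟨Set.mem_univ p, hp⟩
  refine ⟨d.1, d.2.1, d.2.2.1, d.2.2.2, fun c c' a b => ⟨?_, ?_⟩⟩
  · exact le_of_not_ge fun h => h1 (c, c') ⟨⟨a, b⟩, h⟩
  · exact le_of_not_ge fun h =>
      h1 (c', c) ⟨⟨fun i hi => (a i hi).symm, fun i hi => (b i hi).symm⟩, h⟩

/-- comparison of two integrals through a coupling -/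
theorem smp_half {Ω X Y : Type} [MeasurableSpace Ω] [Fintype X] [Fintype Y] [MeasurableSpace X]
    [MeasurableSpace Y] [DiscreteMeasurableSpace X] [DiscreteMeasurableSpace Y]
    {P : Measure Ω} [IsProbabilityMeasure P] {μ : Measure (ℕ → X)} {ν : Measure (ℕ → Y)}
    {f : Ω → ℕ → X} {g : Ω → ℕ → Y} (hf : MeasurePreserving f P μ) (hg : MeasurePreserving g P ν)
    {D : Set Ω} (hD : MeasurableSet D) (N : ℕ) {Φ : (ℕ → X) → ℝ≥0∞} {Ψ : (ℕ → Y) → ℝ≥0∞}
    (hΦ : ∀ S, Φ S ≤ 1) {ε : ℝ≥0∞} (h : ∀ ω, ω ∉ D → ∀ S u, (∀ i, i < N → S i = f ω i) →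
      (∀ i, i < N → u i = g ω i) → Φ S ≤ Ψ u + ε) :
    ∫⁻ S, Φ S ∂μ ≤ ∫⁻ u, Ψ u ∂ν + (ε + P D) := by
  have m1 : Measurable fun S : ℕ → X => ⨆ (S' : ℕ → X) (_ : ∀ i : Fin N, S' i = S i), Φ S' :=
    (measurable_of_countable fun w : Fin N → X =>
      ⨆ (S' : ℕ → X) (_ : ∀ i : Fin N, S' i = w i), Φ S').comp
      (measurable_pi_lambda (fun (S : ℕ → X) (i : Fin N) => S i) fun i => measurable_pi_apply _)
  have m2 : Measurable fun u : ℕ → Y => ⨅ (u' : ℕ → Y) (_ : ∀ i : Fin N, u' i = u i), Ψ u' :=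
    (measurable_of_countable fun w : Fin N → Y =>
      ⨅ (u' : ℕ → Y) (_ : ∀ i : Fin N, u' i = w i), Ψ u').comp
      (measurable_pi_lambda (fun (u : ℕ → Y) (i : Fin N) => u i) fun i => measurable_pi_apply _)
  calc ∫⁻ S, Φ S ∂μ ≤ ∫⁻ S, ⨆ (S' : ℕ → X) (_ : ∀ i : Fin N, S' i = S i), Φ S' ∂μ :=
        lintegral_mono fun S => le_iSup₂_of_le (f := fun (S' : ℕ → X)
          (_ : ∀ i : Fin N, S' i = S i) => Φ S') S (fun _ => rfl) le_rfl
    _ = ∫⁻ ω, ⨆ (S' : ℕ → X) (_ : ∀ i : Fin N, S' i = f ω i), Φ S' ∂P :=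
        (hf.lintegral_comp m1).symm
    _ ≤ ∫⁻ ω, (⨅ (u' : ℕ → Y) (_ : ∀ i : Fin N, u' i = g ω i), Ψ u') +
          (ε + D.indicator 1 ω) ∂P := by
        refine lintegral_mono fun ω => iSup₂_le fun S hS => ?_
        by_cases hω : ω ∈ D
        · rw [Set.indicator_of_mem hω]
          exact (hΦ S).trans (le_add_left le_add_self)
        · rw [Set.indicator_of_notMem hω, add_zero, ← tsub_le_iff_right]
          exact le_iInf₂ fun u hu => tsub_le_iff_right.2
            (h ω hω S u (fun i hi => hS ⟨i, hi⟩) fun i hi => hu ⟨i, hi⟩)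
    _ = ∫⁻ u, ⨅ (u' : ℕ → Y) (_ : ∀ i : Fin N, u' i = u i), Ψ u' ∂ν + (ε + P D) := by
        rw [lintegral_add_left (m2.fun_comp hg.measurable), lintegral_add_left measurable_const,
          lintegral_const, measure_univ, mul_one, lintegral_indicator_one hD,
          ← hg.lintegral_comp m2]
    _ ≤ _ := add_le_add_left (lintegral_mono fun u => iInf₂_le_of_le (f := fun (u' : ℕ → Y)
          (_ : ∀ i : Fin N, u' i = u i) => Ψ u') u (fun _ => rfl) le_rfl) _

theorem smp_unif {X : Type} [Fintype X] [MeasurableSpace X] [DiscreteMeasurableSpace X]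
    (s : Finset X) :
    (ProbabilityTheory.uniformOn Set.univ : Measure X) s = s.card * (Fintype.card X : ℝ≥0∞)⁻¹ := by
  rw [ProbabilityTheory.uniformOn_univ, Measure.count_apply_finset, div_eq_mul_inv]

open Classical in
/-- the coupling of one sample -/
theorem smp_one {X Y : Type} [Fintype X] [Fintype Y] [Nonempty X] [Nonempty Y] [MeasurableSpace X]
    [MeasurableSpace Y] [DiscreteMeasurableSpace X] [DiscreteMeasurableSpace Y] {ι : Y → X}
    (hι : Function.Injective ι) :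
    ((ProbabilityTheory.uniformOn Set.univ : Measure X).prod
      (ProbabilityTheory.uniformOn Set.univ : Measure Y)).map
      (fun p => if p.1 ∈ univ.image ι then Function.invFun ι p.1 else p.2) =
      ProbabilityTheory.uniformOn Set.univ := by
  refine Measure.ext_of_singleton fun y => ?_
  have e : (fun p : X × Y => if p.1 ∈ univ.image ι then Function.invFun ι p.1 else p.2) ⁻¹' {y} =
      (({ι y} : Finset X) : Set X) ×ˢ Set.univ ∪
        ((univ.image ι : Finset X) : Set X)ᶜ ×ˢ (({y} : Finset Y) : Set Y) := by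
    ext ⟨a, b⟩
    simp only [Set.mem_preimage, Set.mem_singleton_iff, Set.mem_union, Set.mem_prod,
      coe_singleton, Set.mem_univ, and_true, Set.mem_compl_iff, mem_coe]
    split_ifs with h
    · obtain ⟨z, -, rfl⟩ := mem_image.1 h
      rw [Function.leftInverse_invFun hι z, hι.eq_iff]
      simp only [h, not_true, false_and, or_false]
    · refine ⟨fun h1 => .inr ⟨h, h1⟩, fun h1 => h1.elim (fun h2 => ?_) fun h2 => h2.2⟩
      exact absurd (h2 ▸ mem_image_of_mem ι (mem_univ y)) h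
  have h0 : (Fintype.card Y : ℝ≥0∞) * (Fintype.card Y : ℝ≥0∞)⁻¹ = 1 :=
    ENNReal.mul_inv_cancel (Nat.cast_ne_zero.2 Fintype.card_ne_zero) (ENNReal.natCast_ne_top _)
  have h1 := prob_add_prob_compl (μ := (ProbabilityTheory.uniformOn Set.univ : Measure X))
    (univ.image ι).measurableSet
  rw [smp_unif, card_image_of_injective _ hι, card_univ] at h1
  rw [Measure.map_apply (measurable_of_countable _) (measurableSet_singleton y), e,
    measure_union _ (Set.toFinite _).measurableSet, Measure.prod_prod, Measure.prod_prod,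
    measure_univ, mul_one, ← coe_singleton, smp_unif, smp_unif, card_singleton, card_singleton,
    Nat.cast_one, one_mul, one_mul]
  · conv_rhs => rw [← one_mul (Fintype.card Y : ℝ≥0∞)⁻¹, ← h1, add_mul, mul_right_comm, h0, one_mul]
  · rw [Set.disjoint_left]
    rintro ⟨a, b⟩ h2 h3
    exact h3.1 (mem_coe.2 (mem_singleton.1 (mem_coe.1 h2.1) ▸ mem_image_of_mem ι (mem_univ y)))

/-- No measurability is assumed: replace the integrands by their suprema and infima over cylinders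
of the first `N` coordinates. Coupling: `(x, y) ↦ ι⁻¹ x` if `x` is in the range, `y` otherwise,
maps uniform times uniform to uniform (`iid_zip`, `iid_map`). -/
theorem smpl_close {X Y : Type} [Fintype X] [Fintype Y] [Nonempty Y] [MeasurableSpace X]
    [MeasurableSpace Y] [DiscreteMeasurableSpace X] [DiscreteMeasurableSpace Y] (ι : Y → X)
    (hι : Function.Injective ι) (N : ℕ) (Φ : (ℕ → X) → ℝ≥0∞) (Ψ : (ℕ → Y) → ℝ≥0∞)
    (hΦ : ∀ S, Φ S ≤ 1) (hΨ : ∀ u, Ψ u ≤ 1) (ε : ℝ≥0∞)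
    (h : ∀ S u, (∀ i, i < N → S i = ι (u i)) → Cl ε (Φ S) (Ψ u)) :
    Cl (ε + ENNReal.ofReal (N * (((Fintype.card X : ℝ) - Fintype.card Y) / Fintype.card X)))
      (∫⁻ S, Φ S ∂smpl X) (∫⁻ u, Ψ u ∂smpl Y) := by
  classical
  have : Nonempty X := Nonempty.map ι inferInstance
  have hf : MeasurePreserving Prod.fst ((iid (ProbabilityTheory.uniformOn Set.univ : Measure X)).prod
      (iid (ProbabilityTheory.uniformOn Set.univ : Measure Y))) (smpl X) := measurePreserving_fst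
  have m1 : Measurable fun (p : (ℕ → X) × (ℕ → Y)) (i : ℕ) => (p.1 i, p.2 i) := by fun_prop
  have m2 : Measurable fun p : X × Y =>
      if p.1 ∈ univ.image ι then Function.invFun ι p.1 else p.2 := measurable_of_countable _
  have hg : MeasurePreserving (fun (p : (ℕ → X) × (ℕ → Y)) (i : ℕ) =>
      if p.1 i ∈ univ.image ι then Function.invFun ι (p.1 i) else p.2 i)
      ((iid (ProbabilityTheory.uniformOn Set.univ : Measure X)).prod
        (iid (ProbabilityTheory.uniformOn Set.univ : Measure Y))) (smpl Y) :=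
    MeasurePreserving.comp (g := fun (S : ℕ → X × Y) (i : ℕ) =>
      if (S i).1 ∈ univ.image ι then Function.invFun ι (S i).1 else (S i).2)
      ⟨measurable_pi_lambda _ fun i => m2.comp (measurable_pi_apply i),
        (iid_map _ m2).trans (congrArg iid (smp_one hι))⟩ ⟨m1, iid_zip _ _⟩
  have m3 : ∀ i, MeasurableSet {p : (ℕ → X) × (ℕ → Y) | p.1 i ∈ ((univ.image ι)ᶜ : Finset X)} :=
    fun i => ((measurable_pi_apply i).comp measurable_fst) (Finset.measurableSet _)
  have hD := Finset.measurableSet_biUnion (range N) fun i _ => m3 i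
  have h1 : ((iid (ProbabilityTheory.uniformOn Set.univ : Measure X)).prod
      (iid (ProbabilityTheory.uniformOn Set.univ : Measure Y)))
      (⋃ i ∈ range N, {p : (ℕ → X) × (ℕ → Y) | p.1 i ∈ ((univ.image ι)ᶜ : Finset X)}) ≤
      ENNReal.ofReal (N * (((Fintype.card X : ℝ) - Fintype.card Y) / Fintype.card X)) := by
    refine (measure_biUnion_finset_le _ _).trans (le_of_eq ((sum_congr rfl fun i _ =>
      ((measurePreserving_eval_infinitePi _ i).comp hf).measure_preimage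
        (Finset.measurableSet ((univ.image ι)ᶜ : Finset X)).nullMeasurableSet).trans ?_))
    rw [sum_const, card_range,
      nsmul_eq_mul, smp_unif, card_compl, card_image_of_injective _ hι, card_univ,
      ENNReal.ofReal_mul (Nat.cast_nonneg N), ENNReal.ofReal_natCast,
      ← Nat.cast_sub (Fintype.card_le_of_injective ι hι),
      ENNReal.ofReal_div_of_pos (Nat.cast_pos.2 Fintype.card_pos), ENNReal.ofReal_natCast,
      ENNReal.ofReal_natCast, div_eq_mul_inv]
  have h2 : ∀ p : (ℕ → X) × (ℕ → Y),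
      p ∉ ⋃ i ∈ range N, {p : (ℕ → X) × (ℕ → Y) | p.1 i ∈ ((univ.image ι)ᶜ : Finset X)} →
      ∀ (S : ℕ → X) (u : ℕ → Y), (∀ i, i < N → S i = p.1 i) → (∀ i, i < N →
        u i = if p.1 i ∈ univ.image ι then Function.invFun ι (p.1 i) else p.2 i) →
      Cl ε (Φ S) (Ψ u) := fun p hp S u hS hu => h S u fun i hi => by
    have h3 : p.1 i ∈ univ.image ι := by
      by_contra h3
      exact hp (Set.mem_biUnion (mem_coe.2 (mem_range.2 hi)) (mem_compl.2 h3))
    rw [hS i hi, hu i hi, if_pos h3]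
    obtain ⟨z, -, e⟩ := mem_image.1 h3
    exact (Function.invFun_eq ⟨z, e⟩).symm
  exact ⟨(smp_half hf hg hD N hΦ fun p hp S u a b => (h2 p hp S u a b).1).trans
      (add_le_add_right (add_le_add_right h1 _) _),
    (smp_half hg hf hD N hΨ fun p hp u S b a => (h2 p hp S u a b).2).trans
      (add_le_add_right (add_le_add_right h1 _) _)⟩

end Pool.Agent.QL.M2
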