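import Pool.Agent.P.MP_7a6434d8_pr.QL.M2.Close
import Pool.Agent.P.MP_7a6434d8_pr.QL.M2.Smp

/-! The test function changes little under a small removal. -/

namespace Pool.Agent.QL.M2

open Pool.Agent.P.MP_7a6434d8_pr Pool.Agent.P.MP_7a6434d8_pr.Mp Finset MeasureTheory
open scoped ENNReal

theorem gT_le_one (G : C(OCode, ℝ≥0∞)) (hG : ∀ c, G c ≤ 1) (δ κ : ℝ) (t : Mp) :
    gT G δ κ t ≤ 1 := by
  have : IsProbabilityMeasure (smpl (V t)) := by
    unfold smpl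
    infer_instance
  calc gT G δ κ t ≤ ∫⁻ _, 1 ∂smpl (V t) := lintegral_mono fun s => hG _
    _ = 1 := by simp

private theorem sha_mono {ρ ρ' a b : ℝ≥0∞} (h : Cl ρ a b) (h' : ρ ≤ ρ') : Cl ρ' a b :=
  ⟨h.1.trans (by gcongr), h.2.trans (by gcongr)⟩

private theorem sha_N (I : Finset GIdx) (J : Finset (Bool × BDat ℚ)) :
    ∃ N : ℕ, (∀ a ∈ I, GLt N a) ∧ (∀ b ∈ J, ∀ c ∈ b.2.balls, c.1 < N) ∧
      ∀ b ∈ J, b.2.balls.length ≤ N := by
  have h1 : ∀ᶠ N : ℕ in Filter.atTop, ∀ a ∈ I, GLt N a := by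
    refine (Filter.eventually_all_finset I).2 fun a _ => ?_
    cases a with
    | len => exact Filter.Eventually.of_forall fun _ => trivial
    | area => exact Filter.Eventually.of_forall fun _ => trivial
    | d i j => exact (Filter.eventually_gt_atTop i).and (Filter.eventually_gt_atTop j)
    | f i => exact Filter.eventually_gt_atTop i
    | b i _ => exact Filter.eventually_gt_atTop i
    | e _ _ => exact Filter.Eventually.of_forall fun _ => trivial
  have h2 : ∀ᶠ N : ℕ in Filter.atTop, ∀ b ∈ J, ∀ c ∈ b.2.balls, c.1 < N := by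
    refine (Filter.eventually_all_finset J).2 fun b _ => ?_
    exact (Filter.eventually_all_finite (List.finite_toSet b.2.balls)).2 fun c _ =>
      Filter.eventually_gt_atTop c.1
  have h3 : ∀ᶠ N : ℕ in Filter.atTop, ∀ b ∈ J, b.2.balls.length ≤ N :=
    (Filter.eventually_all_finset J).2 fun b _ => Filter.eventually_ge_atTop _
  exact (h1.and (h2.and h3)).exists

private theorem sha_r (J : Finset (Bool × BDat ℚ)) :
    ∃ r : ℝ, 0 < r ∧ ∀ b ∈ J, ∀ c ∈ b.2.balls, 0 < c.2 → r ≤ (c.2 : ℝ) := by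
  have h2 : ∀ᶠ r : ℝ in nhdsWithin 0 (Set.Ioi 0),
      ∀ b ∈ J, ∀ c ∈ b.2.balls, 0 < c.2 → r ≤ (c.2 : ℝ) := by
    refine (Filter.eventually_all_finset J).2 fun b _ => ?_
    refine (Filter.eventually_all_finite (List.finite_toSet b.2.balls)).2 fun c _ => ?_
    by_cases hc : 0 < c.2
    · have hc' : (0 : ℝ) < c.2 := by exact_mod_cast hc
      exact ((eventually_le_nhds hc').filter_mono nhdsWithin_le_nhds).mono fun _ h _ => h
    · exact Filter.Eventually.of_forall fun _ h => absurd h hc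
  obtain ⟨r, h1, h3⟩ := (h2.and self_mem_nhdsWithin).exists
  exact ⟨r, h3, h1⟩

private theorem sha_frac {B τ δ ε ϑ : ℝ} (hB : 0 < B) (hδ : 0 < δ) (hδ1 : δ ≤ 1) (hϑ : 0 < ϑ)
    {x : ℕ} {t s : Mp} {θ : Dt s → Dt t} {ι : V s → V t} (H : Rem x t s θ ι)
    (M : Small τ δ ε ϑ x t s) (hs : 1 / B ≤ δ ^ 4 * size t) :
    ((Fintype.card (V t) : ℝ) - Fintype.card (V s)) / Fintype.card (V t) ≤ 2 * B * ϑ := by
  rw [card_V t H.ok_t, card_V s H.ok_s]
  push_cast
  have h1 := M.len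
  have h2 := M.area
  have h3 : (x : ℝ) ≤ per s := by exact_mod_cast H.le_s
  have h4 : (0 : ℝ) ≤ per t := by positivity
  have h5 : 0 < δ ^ 2 := by positivity
  have h6 : δ ^ 2 ≤ 1 := pow_le_one₀ hδ.le hδ1
  have h7 : δ ^ 2 * ((per t : ℝ) - per s) ≤ ϑ := by nlinarith
  have h8 : δ ^ 4 * ((per t : ℝ) - per s) ≤ ϑ := by
    have : δ ^ 4 * ((per t : ℝ) - per s) = δ ^ 2 * (δ ^ 2 * ((per t : ℝ) - per s)) := by ring
    rw [this]
    nlinarith
  have h9 : 0 < δ ^ 4 := by positivity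
  have h10 : 1 ≤ B * (δ ^ 4 * size t) := by
    rwa [div_le_iff₀ hB, mul_comm] at hs
  rw [div_le_iff₀ (by positivity)]
  refine le_of_mul_le_mul_left ?_ h9
  have h11 : 0 ≤ B * ϑ * (δ ^ 4 * ((per t : ℝ) + 1)) := by positivity
  nlinarith

/-- `unif_code`, `gcode_close`, `ecode_close`, `smpl_close`, `card_V` -/
theorem gT_close (B : ℝ) (hB : 0 < B) (G : C(OCode, ℝ≥0∞)) (hG : ∀ c, G c ≤ 1) (η : ℝ≥0∞)
    (hη : 0 < η) : ∃ ε ϑ δ₀ : ℝ, 0 < ε ∧ 0 < ϑ ∧ 0 < δ₀ ∧ ∀ τ δ κ : ℝ, 0 < δ → δ ≤ δ₀ →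
      ∀ x t s, RemE x t s → Small τ δ ε ϑ x t s → 1 / B ≤ δ ^ 4 * size t →
        Cl η (gT G δ κ t) (gT G δ κ s) := by
  have hη2 : 0 < η / 2 := ENNReal.half_pos hη.ne'
  obtain ⟨e, -, he0, he⟩ := ENNReal.lt_iff_exists_real_btwn.1 hη2
  have he1 : 0 < e := ENNReal.ofReal_pos.1 he0
  obtain ⟨I, J, ρ, hρ, hIJ⟩ := unif_code G hG (η / 2) hη2
  obtain ⟨N, hN1, hN2, hN3⟩ := sha_N I J
  obtain ⟨r, hr, hrJ⟩ := sha_r J
  refine ⟨min (ρ / 10) (min (r / 2) (ρ * r / (N + 1))), min (ρ / 2) (e / (2 * B * (N + 1))),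
    min (r / 6) 1, by positivity, by positivity, by positivity, ?_⟩
  set ε := min (ρ / 10) (min (r / 2) (ρ * r / (N + 1))) with hε
  set ϑ := min (ρ / 2) (e / (2 * B * (N + 1))) with hϑ
  have hε0 : 0 < ε := by positivity
  have hϑ0 : 0 < ϑ := by positivity
  have e1 : ε ≤ ρ / 10 := min_le_left _ _
  have e2 : ε ≤ r / 2 := (min_le_right _ _).trans (min_le_left _ _)
  have e3 : ε ≤ ρ * r / (N + 1) := (min_le_right _ _).trans (min_le_right _ _)
  have t1 : ϑ ≤ ρ / 2 := min_le_left _ _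
  have t2 : ϑ ≤ e / (2 * B * (N + 1)) := min_le_right _ _
  rintro τ δ κ hδ hδ0 x t s ⟨θ, ι, H⟩ M hs
  have d1 : δ ≤ r / 6 := hδ0.trans (min_le_left _ _)
  have d2 : δ ≤ 1 := hδ0.trans (min_le_right _ _)
  have key := smpl_close ι H.ι_inj N (fun S => G (ocode δ κ t S)) (fun u => G (ocode δ κ s u))
    (fun _ => hG _) (fun _ => hG _) (η / 2) fun S u hS => by
      refine hIJ _ _ (fun a ha => ?_) fun b hb => ?_
      · exact sha_mono (gcode_close H hδ M N S u hS a (hN1 a ha))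
          (ENNReal.ofReal_le_ofReal (by linarith))
      · refine sha_mono (ecode_close H hδ M κ r hr (by linarith) S u b fun c hc =>
          ⟨hS _ (hN2 b hb c hc), hrJ b hb c hc⟩) (ENNReal.ofReal_le_ofReal ?_)
        have h1 : (b.2.balls.length : ℝ) ≤ N + 1 := by
          have : (b.2.balls.length : ℝ) ≤ N := by exact_mod_cast hN3 b hb
          linarith
        rw [le_div_iff₀ (by positivity)] at e3
        calc (b.2.balls.length : ℝ) * (ε / r) ≤ (N + 1) * (ε / r) := by gcongr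
          _ = ε * (N + 1) / r := by ring
          _ ≤ ρ := by rwa [div_le_iff₀ hr]
  refine sha_mono key ?_
  conv_rhs => rw [← ENNReal.add_halves η]
  gcongr
  refine (ENNReal.ofReal_le_ofReal ?_).trans he.le
  have h1 := sha_frac hB hδ d2 hϑ0 H M hs
  rw [le_div_iff₀ (by positivity)] at t2
  have h2 : (0 : ℝ) ≤ N := by positivity
  have h3 : 0 < 2 * B * ϑ := by positivity
  calc (N : ℝ) * _ ≤ N * (2 * B * ϑ) := mul_le_mul_of_nonneg_left h1 h2
    _ ≤ e := by nlinarith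

end Pool.Agent.QL.M2
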