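import Pool.Agent.P.MP_7a6434d8_pr.QL.M2.Peel
import Pool.Agent.P.MP_7a6434d8_pr.QL.M2.RemF

/-! The swallowing steps on one side. -/

namespace Pool.Agent.QL.M2

open Pool.Agent.P.MP_7a6434d8_pr Pool.Agent.P.MP_7a6434d8_pr.Mp Finset
open scoped ENNReal

/-- one term of `sideT` -/
noncomputable def sideTm (L m j y : ℕ) (g : Mp → Mp → Mp) (F : Mp → ℝ) : ℝ :=
  1 / 8 * nS j y fun b => nS (L - 1 - j) (m - y) fun a => F (g a b)

theorem side_eq (L m j : ℕ) (g : Mp → Mp → Mp) (F : Mp → ℝ) :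
    sideT L m j g F = ∑ y ∈ range (m + 1), sideTm L m j y g F := rfl

theorem side_nonneg (L m j y : ℕ) (g : Mp → Mp → Mp) {F : Mp → ℝ} (h : ∀ t, 0 ≤ F t) :
    0 ≤ sideTm L m j y g F :=
  mul_nonneg (by norm_num) (nS_nonneg fun _ => nS_nonneg fun _ => h _)

theorem side_ok {x : ℕ} {t s : Mp} (h : RemE x t s) : ok t :=
  let ⟨_, _, h⟩ := h
  h.ok_t

section

variable {P : Par} {χ χ' ψ F F' : Mp → ℝ} {i n j y : ℕ} {g g' : Mp → Mp → Mp}

theorem side_U (H : P.Hyp χ χ' ψ) : 0 ≤ P.U := (cLm_nonneg P.L 0).trans (H.U_ge _ _ (by omega))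

theorem side_triv (H : P.Hyp χ χ' ψ) (hL : P.L ≤ 4 * (i - 1 - j)) (hF : ∀ t, F t ≤ 1) :
    sideTm i n j y g F ≤ P.U / 8 * cLm j y := by
  have h := nS_mono (L := j) (m := y) (G := fun _ => P.U)
    (F := fun b => nS (i - 1 - j) (n - y) fun a => F (g a b))
    fun _ _ _ _ => (nS_le fun _ => hF _).trans (H.U_ge _ _ hL)
  rw [nS_const] at h
  unfold sideTm
  linarith

theorem side_large (H : P.Hyp χ χ' ψ) (hL : P.L ≤ 4 * (i - 1 - j)) (hF : ∀ t, F t ≤ 1) :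
    sideT i n j g F ≤ P.U * (w j / 8) := by
  rw [side_eq]
  refine (sum_le_sum fun y _ => side_triv H hL hF).trans ?_
  rw [← mul_sum]
  linarith [mul_le_mul_of_nonneg_left (cLm_sum_le j (n + 1)) (side_U H)]

theorem side_mom (H : P.Hyp χ χ' ψ) {s : Finset ℕ} {M : ℕ} (hs : s ⊆ range M) :
    ∑ y ∈ s, P.U / 8 * ((y : ℝ) / P.v * cLm j y) ≤
      P.U * (w j / 8 * ((j : ℝ) * (j + 1) / (2 * P.v))) := by
  have hv : (0 : ℝ) < P.v := Nat.cast_pos.2 H.v_pos
  have h1 : ∑ y ∈ s, (y : ℝ) * cLm j y ≤ (j : ℝ) * (j + 1) / 2 * w j :=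
    (sum_le_sum_of_subset_of_nonneg hs fun y _ _ =>
      mul_nonneg (Nat.cast_nonneg y) (cLm_nonneg j y)).trans (cLm_mom_le j M)
  calc ∑ y ∈ s, P.U / 8 * ((y : ℝ) / P.v * cLm j y)
      = P.U / 8 / P.v * ∑ y ∈ s, (y : ℝ) * cLm j y := by
        rw [mul_sum]
        exact sum_congr rfl fun y _ => by ring
    _ ≤ P.U / 8 / P.v * ((j : ℝ) * (j + 1) / 2 * w j) :=
        mul_le_mul_of_nonneg_left h1 (by have := side_U H; positivity)
    _ = _ := by ring

theorem side_small_tm {f : ℝ} (hij : j + 1 ≤ i) (hy : y ≤ n) (hg : Att P.x i j g)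
    (hg' : Att P.x (i + P.A) j g') (ih : P.Claim χ χ' f (i - 1 - j) (n - y))
    (hF : P.Up χ i n F) (hF' : P.Lo χ' (i + P.A) (n + P.D) F') :
    sideTm i n j y g F ≤ sideTm (i + P.A) (n + P.D) j y g' F' + P.U / 8 *
      ((f + (((i : ℝ) - P.L) / P.h - ((j : ℝ) + 1) / P.h) ^ 2 + ((P.m : ℝ) - n) / P.v) * cLm j y +
        (y : ℝ) / P.v * cLm j y) := by
  have e1 : i - 1 - j + P.A = i + P.A - 1 - j := by omega
  have e2 : n - y + P.D = n + P.D - y := by omega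
  have h := nS_mono (L := j) (m := y) (F := fun b => nS (i - 1 - j) (n - y) fun a => F (g a b))
    (G := fun b => (nS (i + P.A - 1 - j) (n + P.D - y) fun a => F' (g' a b)) +
      P.U * P.pot f (i - 1 - j) (n - y)) fun b hb pb sb => by
    rw [← e1, ← e2]
    refine ih _ _ ⟨fun t => hF.1 _, fun t s pt st hr ha => ?_⟩
      ⟨fun t => hF'.1 _, fun t s pt st hr ha => ?_⟩
    · obtain ⟨r1, r2, r3⟩ := hg t b (side_ok hr) hb pt pb
      exact hF.2 _ s r2 (by omega) (r1.trans hr) ha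
    · obtain ⟨r1, r2, r3⟩ := hg' t b (side_ok hr) hb (pt.trans e1) pb
      exact hF'.2 _ s r2 (by omega) (r1.trans hr) ha
  have e3 : P.pot f (i - 1 - j) (n - y) = f + (((i : ℝ) - P.L) / P.h - ((j : ℝ) + 1) / P.h) ^ 2 +
      ((P.m : ℝ) - n) / P.v + (y : ℝ) / P.v := by
    rw [Par.pot, Nat.cast_sub hy, Nat.sub_sub, Nat.cast_sub (by omega : 1 + j ≤ i)]
    push_cast
    ring
  rw [nS_add, nS_const, e3] at h
  unfold sideTm
  linarith

theorem side_small (H : P.Hyp χ χ' ψ) {f : ℝ} (hf : 0 ≤ f) (hA : P.Alive i n) (hij : j + 1 ≤ i)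
    (hg : Att P.x i j g) (hg' : Att P.x (i + P.A) j g')
    (ih : ∀ n', n' ≤ n → P.Claim χ χ' f (i - 1 - j) n') (hF : P.Up χ i n F)
    (hF' : P.Lo χ' (i + P.A) (n + P.D) F') :
    sideT i n j g F ≤ sideT (i + P.A) (n + P.D) j g' F' + P.U * (w j / 8 *
      (f + (((i : ℝ) - P.L) / P.h - ((j : ℝ) + 1) / P.h) ^ 2 + ((P.m : ℝ) - n) / P.v +
        (j : ℝ) * (j + 1) / (2 * P.v))) := by
  have h0 : 0 ≤ ((P.m : ℝ) - n) / P.v :=
    div_nonneg (sub_nonneg.2 (Nat.cast_le.2 hA.2.2.2)) (Nat.cast_nonneg _)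
  have h1 := sum_le_sum (s := range (n + 1)) fun y hy => side_small_tm hij
    (Nat.lt_succ_iff.1 (mem_range.1 hy)) hg hg' (ih _ (Nat.sub_le _ _)) hF hF'
  set c := f + (((i : ℝ) - P.L) / P.h - ((j : ℝ) + 1) / P.h) ^ 2 + ((P.m : ℝ) - n) / P.v
  have hc : 0 ≤ c := by positivity
  have h2 : ∑ y ∈ range (n + 1), sideTm (i + P.A) (n + P.D) j y g' F' ≤
      sideT (i + P.A) (n + P.D) j g' F' :=
    sum_le_sum_of_subset_of_nonneg (range_subset_range.2 (by omega))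
      fun y _ _ => side_nonneg _ _ _ _ _ hF'.1
  have h3 := side_mom (j := j) H (Subset.refl (range (n + 1)))
  have h4 := mul_le_mul_of_nonneg_left (cLm_sum_le j (n + 1)) (mul_nonneg (side_U H) hc)
  simp only [mul_add, sum_add_distrib] at h1
  rw [← mul_sum, ← mul_sum] at h1
  rw [side_eq]
  linarith

theorem side_mid_tm (H : P.Hyp χ χ' ψ) (hA : P.Alive i n) (hj : j ≤ P.h) (hy : y ≤ n)
    (hv : y ≤ P.v) (hL : P.L ≤ 4 * (i - 1 - j)) (hg : Att P.x i j g)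
    (hg' : Att P.x (i + P.A) (j + P.A) g') (hF : P.Up χ i n F)
    (hF' : P.Lo χ' (i + P.A) (n + P.D) F') :
    sideTm i n j y g F ≤ sideTm (i + P.A) (n + P.D) (j + P.A) (y + P.D) g' F' +
      P.U / 8 * max (cLm j y - cLm (j + P.A) (y + P.D)) 0 +
        1 / 8 * (cLm j y * nS (i - 1 - j) (n - y) ψ) := by
  obtain ⟨a1, a2, a3, a4⟩ := hA
  have a5 := H.h_le
  have e1 : i + P.A - 1 - (j + P.A) = i - 1 - j := by omega
  have e2 : n + P.D - (y + P.D) = n - y := by omega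
  have ad : P.Adm (i - 1 - j) (n - y) := ⟨by omega, by omega, by omega, by omega⟩
  have h1 := nS_mono (L := j) (m := y) (F := fun b => nS (i - 1 - j) (n - y) fun a => F (g a b))
    (G := fun _ => nS (i - 1 - j) (n - y) fun a => χ' a + ψ a) fun b hb pb sb =>
    nS_mono fun a ha pa sa => by
      obtain ⟨r1, r2, r3⟩ := hg a b ha hb pa pb
      exact (hF.2 _ a r2 (by omega) r1 (by rwa [pa, sa])).trans (H.χ_le a)
  have h2 := nS_mono (L := j + P.A) (m := y + P.D) (F := fun _ => nS (i - 1 - j) (n - y) χ')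
    (G := fun b => nS (i - 1 - j) (n - y) fun a => F' (g' a b)) fun b hb pb sb =>
    nS_mono fun a ha pa sa => by
      obtain ⟨r1, r2, r3⟩ := hg' a b ha hb (pa.trans e1.symm) pb
      exact hF'.2 _ a r2 (by omega) r1 (by rwa [pa, sa])
  have h3 : 0 ≤ nS (i - 1 - j) (n - y) χ' := nS_nonneg H.χ_nonneg
  have h4 : nS (i - 1 - j) (n - y) χ' ≤ P.U := (nS_le H.χ_le_one).trans (H.U_ge _ _ hL)
  have h5 := mul_le_mul (le_max_left (cLm j y - cLm (j + P.A) (y + P.D)) 0) h4 h3 (le_max_right _ _)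
  rw [nS_const, nS_add] at h1
  rw [nS_const] at h2
  rw [sideTm, sideTm, e1, e2]
  linarith

theorem side_mid (H : P.Hyp χ χ' ψ) (hA : P.Alive i n) (hj₀ : P.j₀ ≤ j) (hj : j ≤ P.h)
    (hL : P.L ≤ 4 * (i - 1 - j)) (hg : Att P.x i j g) (hg' : Att P.x (i + P.A) (j + P.A) g')
    (hF : P.Up χ i n F) (hF' : P.Lo χ' (i + P.A) (n + P.D) F') :
    sideT i n j g F ≤ sideT (i + P.A) (n + P.D) (j + P.A) g' F' +
      P.U * (w j / 8 * (P.e₁ + P.e₂ + (j : ℝ) * (j + 1) / (2 * P.v))) := by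
  have hU := side_U H
  have hv : (0 : ℝ) < P.v := Nat.cast_pos.2 H.v_pos
  have h1 := sum_le_sum (s := range (min P.v n + 1)) fun y hy => side_mid_tm (y := y) H hA hj
    (by have := mem_range.1 hy; omega) (by have := mem_range.1 hy; omega) hL hg hg' hF hF'
  have h2 : ∑ y ∈ range (min P.v n + 1), sideTm (i + P.A) (n + P.D) (j + P.A) (y + P.D) g' F' ≤
      sideT (i + P.A) (n + P.D) (j + P.A) g' F' := by
    rw [range_eq_Ico, sum_Ico_add' fun y => sideTm (i + P.A) (n + P.D) (j + P.A) y g' F', side_eq,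
      range_eq_Ico]
    exact sum_le_sum_of_subset_of_nonneg (Ico_subset_Ico (by omega) (by omega))
      fun y _ _ => side_nonneg _ _ _ _ _ hF'.1
  have h3 := mul_le_mul_of_nonneg_left ((sum_le_sum_of_subset_of_nonneg
    (range_subset_range.2 (by omega : min P.v n + 1 ≤ P.v + 1))
    fun _ _ _ => le_max_right _ _).trans (H.lip j hj₀ hj)) hU
  have h4 := H.bad j (i - 1 - j) n hj₀ hj (by have := hA.1; omega) (by have := hA.2.1; omega)
    hA.2.2.1 hA.2.2.2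
  have h5 : ∑ y ∈ Ico (min P.v n + 1) (n + 1), sideTm i n j y g F ≤
      ∑ y ∈ Ico (min P.v n + 1) (n + 1), P.U / 8 * ((y : ℝ) / P.v * cLm j y) := by
    refine sum_le_sum fun y hy => (side_triv H hL hF.1).trans (mul_le_mul_of_nonneg_left
      (le_mul_of_one_le_left (cLm_nonneg j y) ((one_le_div hv).2 (Nat.cast_le.2 ?_)))
      (by positivity))
    have := mem_Ico.1 hy
    omega
  have h6 := side_mom (j := j) H (s := Ico (min P.v n + 1) (n + 1)) (M := n + 1)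
    fun y hy => mem_range.2 (mem_Ico.1 hy).2
  simp only [sum_add_distrib] at h1
  rw [← mul_sum, ← mul_sum] at h1
  rw [side_eq, ← sum_range_add_sum_Ico _ (by omega : min P.v n + 1 ≤ n + 1)]
  linarith

end

/-- Split `j < j₀` (induction hypothesis, same `(j, y, b)` on both sides), `j₀ ≤ j ≤ h` (couple
`(j, y)` with `(j + A, y + D)` for `y ≤ min v n`, trivial bound for `y > v`), `j > h` (trivial
bound). -/
theorem ct_side (P : Par) {χ χ' ψ : Mp → ℝ} (H : P.Hyp χ χ' ψ) (f : ℝ) (hf : 0 ≤ f) (i n J J' : ℕ)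
    (hA : P.Alive i n) (g g' : ℕ → Mp → Mp → Mp) (hg : ∀ j, j ≤ P.h → Att P.x i j (g j))
    (hg' : ∀ j, j ≤ P.h + P.A → Att P.x (i + P.A) j (g' j)) (hJ : P.h < J)
    (hJ2 : ∀ j, j < J → P.L ≤ 4 * (i - 1 - j)) (hJ' : P.h + P.A < J')
    (ih : ∀ i' n', i' < i → n' ≤ n → P.L ≤ 4 * i' → P.Claim χ χ' f i' n')
    (F F' : Mp → ℝ) (hF : P.Up χ i n F) (hF' : P.Lo χ' (i + P.A) (n + P.D) F') :
    ∑ j ∈ range J, sideT i n j (g j) F ≤ ∑ j ∈ range J', sideT (i + P.A) (n + P.D) j (g' j) F'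
      + P.U * sideN P.h P.j₀ P.v J (((i : ℝ) - P.L) / P.h) (((P.m : ℝ) - n) / P.v)
        (P.e₁ + P.e₂) f := by
  have a1 := hA.1
  have a2 := H.h_le
  have a3 := H.j_le
  have a4 := H.j_pos
  have h1 := sum_le_sum (s := range P.j₀) fun j hj => by
    have := mem_range.1 hj
    exact side_small H hf hA (by omega) (hg j (by omega)) (hg' j (by omega))
      (fun n' hn => ih _ n' (by omega) hn (hJ2 j (by omega))) hF hF'
  have h2 := sum_le_sum (s := Ico P.j₀ (P.h + 1)) fun j hj => by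
    have := mem_Ico.1 hj
    exact side_mid H hA this.1 (by omega) (hJ2 j (by omega)) (hg j (by omega))
      (hg' (j + P.A) (by omega)) hF hF'
  have h3 := sum_le_sum (s := Ico (P.h + 1) J) fun j hj =>
    side_large (n := n) (g := g j) H (hJ2 j (mem_Ico.1 hj).2) hF.1
  have h4 : ∑ j ∈ Ico P.j₀ (P.h + 1), sideT (i + P.A) (n + P.D) (j + P.A) (g' (j + P.A)) F' ≤
      ∑ j ∈ Ico P.j₀ J', sideT (i + P.A) (n + P.D) j (g' j) F' := by
    rw [sum_Ico_add' fun j => sideT (i + P.A) (n + P.D) j (g' j) F']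
    exact sum_le_sum_of_subset_of_nonneg (Ico_subset_Ico (by omega) (by omega))
      fun _ _ _ => sum_nonneg fun _ _ => side_nonneg _ _ _ _ _ hF'.1
  rw [sum_add_distrib, ← mul_sum] at h1 h2
  rw [← mul_sum] at h3
  rw [← sum_range_add_sum_Ico _ (by omega : P.j₀ ≤ J), ← sum_range_add_sum_Ico _ (by omega : P.j₀ ≤ J'),
    ← sum_Ico_consecutive _ (by omega : P.j₀ ≤ P.h + 1) (by omega : P.h + 1 ≤ J), sideN]
  linarith

end Pool.Agent.QL.M2
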